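import Pool.Agent.Lib.MP_796ce4_ag.Curve

/-! Surjectivity of multiplication by m and of the Frobenius norm over an algebraically closed
field. -/

namespace Pool.Agent.Lib.MP_796ce4_ag

open WeierstrassCurve Polynomial Module
open scoped Classical IntermediateField

set_option linter.unusedSectionVars false

theorem lang_mem_range {k R : Type} [Field k] [IsAlgClosed k] [Field R] [Algebra k R] {x : R}
    (hx : IsAlgebraic k x) : ∃ c : k, algebraMap k R c = x :=
  minpoly.mem_range_of_degree_eq_one k x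
    (IsAlgClosed.degree_eq_one_of_irreducible k (minpoly.irreducible hx.isIntegral))

/-- a place of a field of transcendence degree one with a prescribed zero -/
theorem lang_place {k Ω : Type} [Field k] [IsAlgClosed k] [Field Ω] [Algebra k Ω]
    (H : ∀ z : Ω, Transcendental k z → ∀ w : Ω, IsAlgebraic (Algebra.adjoin k {z}) w)
    {u : Ω} (hu : Transcendental k u) :
    ∃ (O : Subring Ω) (ev : O →+* k), (∀ x : Ω, x ∈ O ∨ x⁻¹ ∈ O) ∧
      (∀ z : O, ev z ≠ 0 → (z : Ω)⁻¹ ∈ O) ∧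
      (∀ a : k, ∃ h : algebraMap k Ω a ∈ O, ev ⟨_, h⟩ = a) ∧ ∃ h : u ∈ O, ev ⟨u, h⟩ = 0 := by
  have hu0 : u ≠ 0 := fun h => hu (h ▸ isAlgebraic_zero)
  have huA : u ∈ (Algebra.adjoin k {u}).toSubring := Algebra.self_mem_adjoin_singleton k u
  have hI : Ideal.span {(⟨u, huA⟩ : (Algebra.adjoin k {u}).toSubring)} ≠ ⊤ := by
    rw [Ne, Ideal.span_singleton_eq_top, isUnit_iff_exists_inv]
    rintro ⟨⟨w, hw⟩, e⟩
    have e' : u * w = 1 := congrArg Subtype.val e
    have hw' : w ∈ Algebra.adjoin k {u} := hw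
    rw [Algebra.adjoin_singleton_eq_range_aeval] at hw'
    obtain ⟨g, rfl⟩ := hw'
    refine hu ⟨X * g - 1, fun h => ?_, ?_⟩
    · have := congrArg (Polynomial.eval 0) h
      simp at this
    · rw [map_sub, map_mul, aeval_X, map_one]
      exact sub_eq_zero.2 e'
  obtain ⟨B, hB, hBI⟩ := Ideal.image_subset_nonunits_valuationSubring _ hI
  have hkB : ∀ a : k, algebraMap k Ω a ∈ B := fun a =>
    hB ((Algebra.adjoin k {u}).algebraMap_mem a)
  have huB : u ∈ B := hB huA
  have hun : u ∈ B.nonunits := hBI ⟨⟨u, huA⟩, Ideal.mem_span_singleton_self _, rfl⟩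
  have hures : IsLocalRing.residue B ⟨u, huB⟩ = 0 := by
    rw [IsLocalRing.residue_eq_zero_iff]
    exact ValuationSubring.coe_mem_nonunits_iff.1 hun
  let ι : k →+* B := (algebraMap k Ω).codRestrict B.toSubring hkB
  let φ : k →+* IsLocalRing.ResidueField B := (IsLocalRing.residue B).comp ι
  have hev : ∀ (z : B) (g : k[X]), ((g.eval₂ ι z : B) : Ω) = aeval (z : Ω) g := by
    intro z g
    have := Polynomial.hom_eval₂ g ι B.subtype z
    rw [aeval_def]
    exact this
  have hsurj : Function.Surjective φ := by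
    intro y
    obtain ⟨z, rfl⟩ := IsLocalRing.residue_surjective y
    let _ : Algebra k (IsLocalRing.ResidueField B) := φ.toAlgebra
    apply lang_mem_range (k := k)
    by_contra hz
    have hres : ∀ g : k[X], IsLocalRing.residue B (g.eval₂ ι z) =
        aeval (IsLocalRing.residue B z) g := by
      intro g
      rw [Polynomial.hom_eval₂, aeval_def]
      rfl
    have hzt : Transcendental k (z : Ω) := by
      rintro ⟨g, hg, e⟩
      refine hz ⟨g, hg, ?_⟩
      rw [← hres]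
      have : g.eval₂ ι z = 0 := Subtype.ext ((hev z g).trans e)
      rw [this, map_zero]
    obtain ⟨t, ht, r, hr, e⟩ := (H z hzt u).exists_nonzero_eq_adjoin_mul
      (mem_nonZeroDivisors_of_ne_zero hu0)
    have hzB : ∀ w ∈ Algebra.adjoin k {(z : Ω)}, ∃ g : k[X], aeval (z : Ω) g = w := by
      intro w hw
      rw [Algebra.adjoin_singleton_eq_range_aeval] at hw
      exact hw
    have htB : t ∈ B := by
      refine Algebra.adjoin_induction (p := fun t _ => t ∈ B) ?_ ?_ ?_ ?_ ht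
      · rintro x rfl
        exact huB
      · intro w
        obtain ⟨g, hg⟩ := hzB w w.2
        change (w : Ω) ∈ B
        rw [← hg, ← hev]
        exact Subtype.property _
      · intro x y _ _ hx hy
        exact B.add_mem _ _ hx hy
      · intro x y _ _ hx hy
        exact B.mul_mem _ _ hx hy
    obtain ⟨g, hg⟩ := hzB r r.2
    have hg0 : g ≠ 0 := by
      rintro rfl
      exact hr (Subtype.ext (by simpa using hg.symm))
    refine hz ⟨g, hg0, ?_⟩
    rw [← hres]
    have : g.eval₂ ι z = ⟨u, huB⟩ * ⟨t, htB⟩ := Subtype.ext (by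
      rw [hev, hg]
      exact e.symm)
    rw [this, map_mul, hures, zero_mul]
  let e : k ≃+* IsLocalRing.ResidueField B := RingEquiv.ofBijective φ ⟨φ.injective, hsurj⟩
  refine ⟨B.toSubring, e.symm.toRingHom.comp (IsLocalRing.residue B), B.mem_or_inv_mem, ?_, ?_,
    huB, ?_⟩
  · intro z hz
    have h1 : IsLocalRing.residue B z ≠ 0 := fun h => hz (by
      change e.symm (IsLocalRing.residue B z) = 0
      rw [h, map_zero])
    have h2 : IsUnit (show B from z) := (IsLocalRing.residue_ne_zero_iff_isUnit _).1 h1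
    obtain ⟨w, hw⟩ := isUnit_iff_exists_inv.1 h2
    have h3 : (z : Ω) * (w : Ω) = 1 := congrArg Subtype.val hw
    rw [← eq_inv_of_mul_eq_one_right h3]
    exact w.2
  · intro a
    exact ⟨hkB a, e.symm_apply_apply a⟩
  · change e.symm (IsLocalRing.residue B ⟨u, huB⟩) = 0
    rw [hures, map_zero]

theorem lang_inj (k : Type) [Field k] :
    Function.Injective (algebraMap k[X] (AlgebraicClosure (FractionRing k[X]))) := by
  rw [IsScalarTower.algebraMap_eq k[X] (FractionRing k[X])]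
  exact (algebraMap (FractionRing k[X]) _).injective.comp (IsFractionRing.injective _ _)

theorem lang_omega (k : Type) [Field k] (z : AlgebraicClosure (FractionRing k[X]))
    (hz : Transcendental k z) (w : AlgebraicClosure (FractionRing k[X])) :
    IsAlgebraic (Algebra.adjoin k {z}) w := by
  have h1 : Algebra.IsAlgebraic k[X] (AlgebraicClosure (FractionRing k[X])) :=
    (IsFractionRing.comap_isAlgebraic_iff (K := FractionRing k[X])).2 inferInstance
  have h0 := (faithfulSMul_iff_algebraMap_injective _ _).2 (lang_inj k)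
  have h2 := trdeg_add_eq k k[X] (A := AlgebraicClosure (FractionRing k[X]))
  rw [Polynomial.trdeg_of_isDomain, trdeg_eq_zero, add_zero] at h2
  have h3 : AlgebraicIndependent k (fun _ : Unit => z) :=
    algebraicIndependent_unique_type_iff.2 hz
  have h4 := (h3.isTranscendenceBasis_of_trdeg_le_of_finite (by rw [← h2]; simp)).isAlgebraic
  rw [Set.range_const] at h4
  exact h4.isAlgebraic w

theorem lang_trans (k : Type) [Field k] :
    ∃ t : AlgebraicClosure (FractionRing k[X]), Transcendental k t := by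
  refine ⟨algebraMap k[X] _ X, ?_⟩
  rw [transcendental_algebraMap_iff (lang_inj k)]
  exact transcendental_X k

variable {S k : Type} [Field S] [Field k] [IsAlgClosed k] [Algebra S k] {E : WeierstrassCurve S}

theorem lang_Δ (hΔ : E.Δ ≠ 0) : (Affine.baseChange E k).Δ ≠ 0 := by
  change (E.map (algebraMap S k)).Δ ≠ 0
  rw [map_Δ]
  exact (_root_.map_ne_zero _).2 hΔ

theorem lang_exists_pt (h₁ : E.a₁ = 0) (h₃ : E.a₃ = 0) (hΔ : E.Δ ≠ 0) (x : k) :
    ∃ P : Pt E k, P ≠ 0 ∧ xc P = x := by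
  obtain ⟨y, hy⟩ := IsAlgClosed.exists_pow_nat_eq ((cub (E.baseChange k)).eval x) two_pos
  obtain ⟨P, hP, hx, -⟩ := exists_pt (E := Affine.baseChange E k) (by simp [h₁]) (by simp [h₃])
    (lang_Δ hΔ) hy
  exact ⟨P, hP, hx⟩

section gen

variable {Ω : Type} [Field Ω] [IsAlgClosed Ω] [Algebra k Ω] [Algebra S Ω] [IsScalarTower S k Ω]

theorem lang_red (h₁ : E.a₁ = 0) (h₃ : E.a₃ = 0) (hΔ : E.Δ ≠ 0)
    (H : ∀ z : Ω, Transcendental k z → ∀ w : Ω, IsAlgebraic (Algebra.adjoin k {z}) w)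
    {u : Ω} (hu : Transcendental k u) (c : k) :
    ∃ (O : Subring Ω) (ev : O →+* k), SpecData O ev (Affine.baseChange E Ω)
      (Affine.baseChange E k) ∧ (∀ a : k, ∃ h : algebraMap k Ω a ∈ O, ev ⟨_, h⟩ = a) ∧
      ∃ h : u ∈ O, ev ⟨u, h⟩ = c := by
  have hu' : Transcendental k (u - algebraMap k Ω c) := fun h => hu (by
    simpa using h.add (isAlgebraic_algebraMap c))
  obtain ⟨O, ev, hval, hloc, hk, h0, h0'⟩ := lang_place H hu'
  have hS : ∀ s : S, ∃ h : algebraMap S Ω s ∈ O, ev ⟨_, h⟩ = algebraMap S k s := by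
    intro s
    simp only [IsScalarTower.algebraMap_apply S k Ω]
    exact hk _
  refine ⟨O, ev, ⟨hval, hloc, by simp [h₁], by simp [h₃], by simp [h₁], by simp [h₃], hS _, hS _,
    hS _, lang_Δ hΔ⟩, hk, ?_⟩
  obtain ⟨hc, hc'⟩ := hk c
  have hmem : u ∈ O := by simpa using O.add_mem h0 hc
  refine ⟨hmem, ?_⟩
  have : (⟨u, hmem⟩ : O) = ⟨_, h0⟩ + ⟨_, hc⟩ := Subtype.ext (by simp)
  rw [this, map_add, h0', hc', zero_add]

theorem lang_const {O : Subring Ω} {ev : O →+* k}
    (D : SpecData O ev (Affine.baseChange E Ω) (Affine.baseChange E k))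
    (hk : ∀ a : k, ∃ h : algebraMap k Ω a ∈ O, ev ⟨_, h⟩ = a) (c : Pt E k) :
    D.hom (Affine.Point.map (W' := E) (IsScalarTower.toAlgHom S k Ω) c) = c := by
  by_cases hc : c = 0
  · rw [hc, map_zero, map_zero]
  have hc' : Affine.Point.map (W' := E) (IsScalarTower.toAlgHom S k Ω) c ≠ 0 :=
    fun h => hc ((map_eq_zero' _ _).1 h)
  have hx := xc_map (IsScalarTower.toAlgHom S k Ω) c
  have hy := yc_map (IsScalarTower.toAlgHom S k Ω) c
  obtain ⟨a1, a2⟩ := hk (xc c)
  obtain ⟨b1, b2⟩ := hk (yc c)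
  have hxO : xc (Affine.Point.map (W' := E) (IsScalarTower.toAlgHom S k Ω) c) ∈ O := hx ▸ a1
  obtain ⟨s1, s2, s3⟩ := D.spec_of_mem hc' hxO
  refine pt_ext s1 hc ?_ ?_
  · rw [D.hom_apply, s2, ← a2]
    exact congrArg ev (Subtype.ext hx)
  · rw [D.hom_apply, s3, ← b2]
    exact congrArg ev (Subtype.ext hy)

theorem lang_surj (h₁ : E.a₁ = 0) (h₃ : E.a₃ = 0) (hΔ : E.Δ ≠ 0)
    (H : ∀ z : Ω, Transcendental k z → ∀ w : Ω, IsAlgebraic (Algebra.adjoin k {z}) w)
    {t : Ω} (ht : Transcendental k t) (Ψ : Pt E k →+ Pt E k) (Φ : Pt E Ω → Pt E Ω)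
    (hc : ∀ (O : Subring Ω) (ev : O →+* k)
      (D : SpecData O ev (Affine.baseChange E Ω) (Affine.baseChange E k)) (ξ : Pt E Ω),
      D.hom (Φ ξ) = Ψ (D.hom ξ))
    (hne : ∃ P, Ψ P ≠ 0) (P : Pt E k) : ∃ Q, Ψ Q = P := by
  obtain ⟨ξ, hξ, hξt⟩ := lang_exists_pt (k := Ω) h₁ h₃ hΔ t
  by_cases htr : Transcendental k (xc (Φ ξ))
  · by_cases hP : P = 0
    · exact ⟨0, by rw [hP, map_zero]⟩
    obtain ⟨O, ev, D, -, hu, hu'⟩ := lang_red h₁ h₃ hΔ H htr (xc P)
    have hη : Φ ξ ≠ 0 := fun h => htr (by rw [h, xc_zero]; exact isAlgebraic_zero)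
    obtain ⟨s1, s2, -⟩ := D.spec_of_mem hη hu
    rw [← D.hom_apply, hc] at s1 s2
    rcases eq_or_eq_neg_of_xc s1 hP (s2.trans hu') with h | h
    · exact ⟨_, h⟩
    · exact ⟨-D.hom ξ, by rw [map_neg, h, neg_neg]⟩
  exfalso
  have hconst : ∃ c : Pt E k,
      Affine.Point.map (W' := E) (IsScalarTower.toAlgHom S k Ω) c = Φ ξ := by
    by_cases hη : Φ ξ = 0
    · exact ⟨0, by rw [hη, map_zero]⟩
    obtain ⟨a, ha⟩ := lang_mem_range (not_not.1 htr)
    obtain ⟨c, hc0, hca⟩ := lang_exists_pt h₁ h₃ hΔ a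
    have hc' : Affine.Point.map (W' := E) (IsScalarTower.toAlgHom S k Ω) c ≠ 0 :=
      fun h => hc0 ((map_eq_zero' _ _).1 h)
    rcases eq_or_eq_neg_of_xc hc' hη (by rw [xc_map, hca]; exact ha) with h | h
    · exact ⟨c, h⟩
    · exact ⟨-c, by rw [map_neg, h, neg_neg]⟩
  obtain ⟨c, hcη⟩ := hconst
  have hall : ∀ R : Pt E k, R ≠ 0 → Ψ R = c ∨ Ψ R = -c := by
    intro R hR
    obtain ⟨O, ev, D, hk, hu, hu'⟩ := lang_red h₁ h₃ hΔ H ht (xc R)
    subst hξt
    obtain ⟨s1, s2, -⟩ := D.spec_of_mem hξ hu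
    have h := hc O ev D ξ
    rw [← hcη, lang_const D hk] at h
    rw [← D.hom_apply] at s1 s2
    rcases eq_or_eq_neg_of_xc s1 hR (s2.trans hu') with h' | h'
    · left
      rw [h, h']
    · right
      rw [h, h', map_neg, neg_neg]
  obtain ⟨A, hA, hA'⟩ := lang_exists_pt h₁ h₃ hΔ (0 : k)
  obtain ⟨B, hB, hB'⟩ := lang_exists_pt h₁ h₃ hΔ (1 : k)
  have hAB : A - B ≠ 0 := fun h => by
    rw [sub_eq_zero.1 h, hB'] at hA'
    exact one_ne_zero hA'
  have hAB' : A + B ≠ 0 := fun h => by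
    rw [eq_neg_of_add_eq_zero_left h, xc_neg, hB'] at hA'
    exact one_ne_zero hA'
  have hz : ∀ R : Pt E k, R ≠ 0 → Ψ R = 0 → c = 0 := by
    intro R hR h
    rcases hall R hR with h' | h'
    · rw [← h', h]
    · rw [h] at h'
      exact neg_eq_zero.1 h'.symm
  have hc0 : c = 0 := by
    rcases hall A hA with a | a <;> rcases hall B hB with b | b
    · exact hz _ hAB (by rw [map_sub, a, b, sub_self])
    · exact hz _ hAB' (by rw [map_add, a, b, add_neg_cancel])
    · exact hz _ hAB' (by rw [map_add, a, b, neg_add_cancel])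
    · exact hz _ hAB (by rw [map_sub, a, b, sub_self])
  obtain ⟨R, hR⟩ := hne
  have hR0 : R ≠ 0 := fun h => hR (by rw [h, map_zero])
  rcases hall R hR0 with h | h
  · exact hR (h.trans hc0)
  · exact hR (by rw [h, hc0, neg_zero])

theorem lang_frob {O : Subring Ω} {ev : O →+* k}
    (D : SpecData O ev (Affine.baseChange E Ω) (Affine.baseChange E k)) {q : ℕ} (hq : 0 < q)
    (fr : k →ₐ[S] k) (hfr : ∀ x, fr x = x ^ q) (Fr : Ω →ₐ[S] Ω) (hFr : ∀ x, Fr x = x ^ q)
    (ξ : Pt E Ω) : D.hom (Affine.Point.map (W' := E) Fr ξ) =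
      Affine.Point.map (W' := E) fr (D.hom ξ) := by
  by_cases h0 : ξ = 0
  · rw [h0, map_zero, map_zero, map_zero]
  have h0' : Affine.Point.map (W' := E) Fr ξ ≠ 0 := fun h => h0 ((map_eq_zero' _ _).1 h)
  have hx := (xc_map Fr ξ).trans (hFr _)
  have hy := (yc_map Fr ξ).trans (hFr _)
  by_cases hO : xc ξ ∈ O
  · have hO' : xc (Affine.Point.map (W' := E) Fr ξ) ∈ O := hx ▸ O.pow_mem hO q
    obtain ⟨s1, s2, s3⟩ := D.spec_of_mem h0 hO
    obtain ⟨t1, t2, t3⟩ := D.spec_of_mem h0' hO'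
    refine pt_ext t1 (fun h => s1 ((map_eq_zero' _ _).1 h)) ?_ ?_
    · rw [xc_map, hfr, D.hom_apply, D.hom_apply, t2, s2, ← map_pow]
      exact congrArg ev (Subtype.ext hx)
    · rw [yc_map, hfr, D.hom_apply, D.hom_apply, t3, s3, ← map_pow]
      exact congrArg ev (Subtype.ext hy)
  · have hO' : xc (Affine.Point.map (W' := E) Fr ξ) ∉ O := by
      rw [hx]
      intro h
      have hi : (xc ξ)⁻¹ ∈ O := (D.val _).resolve_left hO
      have hne : xc ξ ≠ 0 := fun h' => hO (h' ▸ O.zero_mem)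
      obtain ⟨j, rfl⟩ := Nat.exists_eq_succ_of_ne_zero hq.ne'
      have := O.mul_mem h (O.pow_mem hi j)
      rw [pow_succ', mul_assoc, ← mul_pow, mul_inv_cancel₀ hne, one_pow, mul_one] at this
      exact hO this
    rw [D.hom_apply, D.hom_apply, D.spec_of_not_mem hO, D.spec_of_not_mem hO', map_zero]

end gen

theorem lang_prime_ne (h₁ : E.a₁ = 0) (h₃ : E.a₃ = 0) (hΔ : E.Δ ≠ 0) {m : ℕ} (hm : m.Prime) :
    ∃ P : Pt E k, m • P ≠ 0 := by
  have e₁ : (Affine.baseChange E k).a₁ = 0 := by simp [h₁]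
  have e₃ : (Affine.baseChange E k).a₃ = 0 := by simp [h₃]
  have eΔ : (Affine.baseChange E k).Δ ≠ 0 := lang_Δ hΔ
  have hc0 : cub (Affine.baseChange E k) ≠ 0 := monic_cub.ne_zero
  rcases hm.eq_two_or_odd' with rfl | ⟨j, rfl⟩
  · have h2 : (2 : k) ≠ 0 := by
      intro h2
      apply eΔ
      have h4 : (4 : k) = 0 := by linear_combination 2 * h2
      simp only [WeierstrassCurve.Δ, WeierstrassCurve.b₂, WeierstrassCurve.b₄,
        WeierstrassCurve.b₆, WeierstrassCurve.b₈, e₁, e₃]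
      set a2 := (Affine.baseChange E k).a₂
      set a4 := (Affine.baseChange E k).a₄
      set a6 := (Affine.baseChange E k).a₆
      linear_combination (-4 * a2 ^ 2 * (4 * a2 * a6 - a4 ^ 2) - 16 * a4 ^ 3 - 108 * a6 ^ 2 +
        72 * a2 * a4 * a6) * h4
    obtain ⟨x, hx⟩ : ∃ x : k, (cub (Affine.baseChange E k)).eval x ≠ 0 := by
      by_contra h
      push Not at h
      exact hc0 (Polynomial.funext (by simpa using h))
    obtain ⟨P, hP, hPx⟩ := lang_exists_pt h₁ h₃ hΔ x
    refine ⟨P, fun h => hx ?_⟩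
    rw [two_nsmul] at h
    have hy := congrArg yc (eq_neg_of_add_eq_zero_left h)
    rw [yc_neg e₁ e₃] at hy
    have hy0 : yc P = 0 := by
      have : 2 * yc P = 0 := by linear_combination hy
      exact (mul_eq_zero.1 this).resolve_left h2
    rw [← hPx, ← yc_sq e₁ e₃ hP, hy0]
    simp
  · obtain ⟨x, hx⟩ := IsAlgClosed.exists_root (cub (Affine.baseChange E k)) (by
      rw [Polynomial.degree_eq_natDegree hc0, natDegree_cub]
      simp)
    obtain ⟨P, hP, hPx, hPy⟩ := exists_pt (y := 0) e₁ e₃ eΔ (by rw [hx.eq_zero]; simp)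
    have h2 : -P = P := pt_ext (neg_ne_zero.2 hP) hP (xc_neg _)
      (by rw [yc_neg e₁ e₃, hPy, neg_zero])
    have h3 : 2 • P = 0 := by
      rw [two_nsmul]
      nth_rewrite 1 [← h2]
      exact neg_add_cancel P
    refine ⟨P, ?_⟩
    rw [add_nsmul, mul_nsmul, h3, nsmul_zero, one_nsmul, zero_add]
    exact hP

theorem nsmul_surj (h₁ : E.a₁ = 0) (h₃ : E.a₃ = 0) (hΔ : E.Δ ≠ 0) {m : ℕ} (hm : m ≠ 0)
    (P : Pt E k) : ∃ Q : Pt E k, m • Q = P := by
  induction m using induction_on_primes generalizing P with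
  | zero => exact (hm rfl).elim
  | one => exact ⟨P, one_nsmul P⟩
  | prime_mul p a hp ih =>
    obtain ⟨t, ht⟩ := lang_trans k
    obtain ⟨Q, hQ⟩ := lang_surj h₁ h₃ hΔ (lang_omega k) ht (nsmulAddMonoidHom p)
      (fun ξ => p • ξ) (fun O ev D ξ => map_nsmul _ _ _) (lang_prime_ne h₁ h₃ hΔ hp) P
    obtain ⟨R, hR⟩ := ih (right_ne_zero_of_mul hm) Q
    exact ⟨R, by rw [mul_comm, mul_nsmul, hR]; exact hQ⟩

theorem frob_norm_surj (h₁ : E.a₁ = 0) (h₃ : E.a₃ = 0) (hΔ : E.Δ ≠ 0) {p r : ℕ} (hp : p.Prime)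
    [CharP S p] (hr : 0 < r) (hS : ∀ s : S, s ^ p ^ r = s) (fr : k →ₐ[S] k)
    (hfr : ∀ x, fr x = x ^ p ^ r) {n : ℕ} (hn : 0 < n) (P : Pt E k) :
    ∃ Q : Pt E k, ∑ i : Fin n, (Affine.Point.map (W' := E) fr)^[i] Q = P := by
  obtain ⟨t, ht⟩ := lang_trans k
  have : Fact p.Prime := ⟨hp⟩
  have : CharP (AlgebraicClosure (FractionRing k[X])) p :=
    charP_of_injective_algebraMap (algebraMap S _).injective p
  let Fr : AlgebraicClosure (FractionRing k[X]) →ₐ[S] AlgebraicClosure (FractionRing k[X]) :=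
    { iterateFrobenius _ p r with
      commutes' := fun s => by
        change (algebraMap S _ s) ^ p ^ r = _
        rw [← map_pow, hS] }
  have hFr : ∀ x, Fr x = x ^ p ^ r := fun _ => rfl
  have hq : 1 < p ^ r := Nat.one_lt_pow hr.ne' hp.one_lt
  let Ψ : Pt E k →+ Pt E k := AddMonoidHom.mk'
    (fun Q => ∑ i : Fin n, (Affine.Point.map (W' := E) fr)^[i] Q) (fun a b => by
      simp only [iterate_map_add, Finset.sum_add_distrib])
  refine lang_surj h₁ h₃ hΔ (lang_omega k) ht Ψ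
    (fun ξ => ∑ i : Fin n, (Affine.Point.map (W' := E) Fr)^[i] ξ) ?_ ?_ P
  · intro O ev D ξ
    rw [map_sum]
    refine Finset.sum_congr rfl fun i _ => ?_
    exact (Function.Semiconj.iterate_right
      (fun ξ => lang_frob D (by omega) fr hfr Fr hFr ξ) i) ξ
  · by_contra h
    push Not at h
    have hfix : ∀ Q : Pt E k, (Affine.Point.map (W' := E) fr)^[n] Q = Q := by
      intro Q
      have h1 : ∑ i ∈ Finset.range n, (Affine.Point.map (W' := E) fr)^[i] Q = 0 := by
        rw [Finset.sum_range]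
        exact h Q
      have h2 : ∑ i ∈ Finset.range n, (Affine.Point.map (W' := E) fr)^[i + 1] Q = 0 := by
        have := congrArg (Affine.Point.map (W' := E) fr) h1
        rw [map_sum, map_zero] at this
        simpa only [Function.iterate_succ_apply'] using this
      have h3 := Finset.sum_range_succ' (fun i => (Affine.Point.map (W' := E) fr)^[i] Q) n
      rw [Finset.sum_range_succ, h1, h2, zero_add, zero_add] at h3
      exact h3
    have hit : ∀ (j : ℕ) (Q : Pt E k),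
        xc ((Affine.Point.map (W' := E) fr)^[j] Q) = xc Q ^ (p ^ r) ^ j := by
      intro j Q
      induction j with
      | zero => simp
      | succ j ih => rw [Function.iterate_succ_apply', xc_map, ih, hfr, ← pow_mul, ← pow_succ]
    have hN : 1 < (p ^ r) ^ n := Nat.one_lt_pow hn.ne' hq
    apply FiniteField.X_pow_card_sub_X_ne_zero k hN
    refine Polynomial.funext fun x => ?_
    obtain ⟨Q, -, rfl⟩ := lang_exists_pt h₁ h₃ hΔ x
    have := hit n Q
    rw [hfix] at this
    simp [← this]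

end Pool.Agent.Lib.MP_796ce4_ag
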