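import Pool.Agent.Lib.MP_796ce4_ag.Defs

/-!
Internal definitions: the local setting, points over finite extensions, the formal parameter,
unramified towers, the class map and symbols.
-/

namespace Pool.Agent.Lib.MP_796ce4_ag

open WeierstrassCurve Polynomial Module
open scoped Classical IntermediateField

/-- What is used of a `p`-adic field `K` (`p` odd) and its normed algebraic closure `Λ`. -/
class Loc (p : outParam ℕ) (K Λ : Type) [Field K] [NormedField Λ] [Algebra K Λ] : Prop where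
  prime : p.Prime
  odd : p ≠ 2
  norm_p : ‖(p : Λ)‖ < 1
  norm_gal : ∀ (σ : Λ ≃ₐ[K] Λ) (x : Λ), ‖σ x‖ = ‖x‖
  complete : ∀ L : IntermediateField K Λ, FiniteDimensional K L → IsComplete (L : Set Λ)
  unif : ∀ L : IntermediateField K Λ, FiniteDimensional K L →
    ∃ ϖ ∈ L, ϖ ≠ 0 ∧ ‖ϖ‖ < 1 ∧ ∀ x ∈ L, ‖x‖ < 1 → ‖x‖ ≤ ‖ϖ‖
  resfin : ∀ L : IntermediateField K Λ, FiniteDimensional K L →
    ∃ s : Finset Λ, (∀ t ∈ s, t ∈ L ∧ ‖t‖ ≤ 1) ∧ ∀ x ∈ L, ‖x‖ ≤ 1 → ∃ t ∈ s, ‖x - t‖ < 1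

/-- the cubic `x ^ 3 + a₂ x ^ 2 + a₄ x + a₆` -/
noncomputable def cub {R : Type} [CommRing R] (E : WeierstrassCurve R) : R[X] :=
  X ^ 3 + C E.a₂ * X ^ 2 + C E.a₄ * X + C E.a₆

/-- `x`-coordinate (`0` at infinity) -/
def xc {F : Type} [Field F] {E : Affine F} : E.Point → F
  | .zero => 0
  | .some x _ _ => x

/-- `y`-coordinate (`0` at infinity) -/
def yc {F : Type} [Field F] {E : Affine F} : E.Point → F
  | .zero => 0
  | .some _ y _ => y

section field

variable {K Λ : Type} [Field K] [Field Λ] [Algebra K Λ]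

/-- `σ` fixes `L` pointwise -/
def Fix (L : IntermediateField K Λ) (σ : Λ ≃ₐ[K] Λ) : Prop := ∀ x ∈ L, σ x = x

/-- the polynomial has coefficients in `L` -/
def Over (L : IntermediateField K Λ) (g : Λ[X]) : Prop := ∀ n, g.coeff n ∈ L

/-- `Λ`-points of one curve -/
abbrev Pt (E : WeierstrassCurve K) (F : Type) [Field F] [Algebra K F] : Type :=
  (Affine.baseChange E F).Point

/-- Galois action on the points of one curve -/
noncomputable def galP (E : WeierstrassCurve K) (σ : Λ ≃ₐ[K] Λ) : Pt E Λ →+ Pt E Λ :=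
  Affine.Point.map (σ : Λ →ₐ[K] Λ)

/-- the points rational over `L` -/
noncomputable def pts (E : WeierstrassCurve K) (L : IntermediateField K Λ) :
    AddSubgroup (Pt E Λ) where
  carrier := {P | ∀ σ, Fix L σ → galP E σ P = P}
  zero_mem' := fun σ _ => map_zero _
  add_mem' := fun {a b} ha hb σ h => by rw [map_add, ha σ h, hb σ h]
  neg_mem' := fun {a} ha σ h => by rw [map_neg, ha σ h]

/-- A finite family of automorphisms over `L` that realises the `L`-embeddings of `L'`. -/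
structure Fam (L L' : IntermediateField K Λ) {T : Type} [Fintype T] (s : T → Λ ≃ₐ[K] Λ) :
    Prop where
  le : L ≤ L'
  fix : ∀ t, Fix L (s t)
  card : Fintype.card T * finrank K L = finrank K L'
  perm : ∀ σ, Fix L σ → ∃ ρ : Equiv.Perm T, ∀ t, ∀ x ∈ L', σ (s t x) = s (ρ t) x

variable {ι : Type} (W : ι → WeierstrassCurve K)

/-- Galois action on the points of the product -/
noncomputable def gal (σ : Λ ≃ₐ[K] Λ) : Pts W Λ →+ Pts W Λ where
  toFun y i := galP (W i) σ (y i)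
  map_zero' := by ext i; simp
  map_add' a b := by ext i; simp

variable (Λ) in
/-- rational group ring of the points of the product -/
abbrev GR : Type := AddMonoidAlgebra ℚ (Pts W Λ)

/-- Galois action on the group ring -/
noncomputable def galR (σ : Λ ≃ₐ[K] Λ) : GR Λ W →ₐ[ℚ] GR Λ W :=
  AddMonoidAlgebra.mapDomainAlgHom ℚ ℚ (gal W σ)

/-- Galois orbit -/
def orb (y : Pts W Λ) : Set (Pts W Λ) := Set.range fun σ : Λ ≃ₐ[K] Λ => gal W σ y

/-- average over Galois orbits -/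
noncomputable def avg : GR Λ W →ₗ[ℚ] (Pts W Λ →₀ ℚ) :=
  (Finsupp.linearCombination ℚ fun y : Pts W Λ =>
    ((orb W y).ncard : ℚ)⁻¹ • ∑ᶠ y' ∈ orb W y, Finsupp.single y' (1 : ℚ)).comp
      (AddMonoidAlgebra.coeffLinearEquiv ℚ).toLinearMap

variable (Λ) in
/-- integral cycles as rational cycles -/
noncomputable def incl : (Pts W Λ →₀ ℤ) →+ (Pts W Λ →₀ ℚ) :=
  Finsupp.mapRange.addMonoidHom (Int.castAddHom ℚ)

variable (Λ) in
/-- rational cycles modulo integral rational equivalence -/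
abbrev VV : Type := (Pts W Λ →₀ ℚ) ⧸ (RatEq W Λ).map (incl Λ W)

/-- the class map -/
noncomputable def cls : GR Λ W →+ VV Λ W :=
  (QuotientAddGroup.mk' _).comp (avg W).toAddMonoidHom

/-- the class of the norm from `L` to `K` -/
noncomputable def clL (L : IntermediateField K Λ) : GR Λ W →+ VV Λ W :=
  (cls W).comp (DistribSMul.toAddMonoidHom _ (finrank K L : ℚ))

/-- `[a] - [0]` for a point `a` of the `i`-th factor -/
noncomputable def dl (i : ι) (a : Pt (W i) Λ) : GR Λ W :=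
  AddMonoidAlgebra.single (Pi.single i a) 1 - 1

/-- integral combinations of `L`-rational points -/
noncomputable def ZL (L : IntermediateField K Λ) : Subring (GR Λ W) :=
  Subring.closure {z | ∃ c : Pts W Λ, (∀ i, c i ∈ pts (W i) L) ∧ z = AddMonoidAlgebra.single c 1}

/-- the symbol `{a_i : i ∈ I}_{L/K}` -/
noncomputable def Sy (L : IntermediateField K Λ) (I : Finset ι) (a : Pts W Λ) : VV Λ W :=
  clL W L (∏ i ∈ I, dl W i (a i))

/-- the subgroup generated by the symbols over the fields `L` with `Pr L` whose entries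
satisfy `Q` -/
noncomputable def TT (I : Finset ι) (Pr : IntermediateField K Λ → Prop)
    (Q : ∀ i, Pt (W i) Λ → Prop) : AddSubgroup (VV Λ W) :=
  AddSubgroup.closure {v | ∃ (L : IntermediateField K Λ) (a : Pts W Λ), FiniteDimensional K L ∧
    Pr L ∧ (∀ i, a i ∈ pts (W i) L) ∧ (∀ i ∈ I, Q i (a i)) ∧ v = Sy W L I a}

variable (Λ) in
/-- the subgroup generated by all symbols supported on `I` -/
noncomputable abbrev Tall (I : Finset ι) : AddSubgroup (VV Λ W) :=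
  TT W I (fun _ => True) fun _ _ => True

end field

/-- multiples `m • x`, `x ∈ H` -/
def mulS {A : Type} [AddCommGroup A] (m : ℕ) (H : AddSubgroup A) : AddSubgroup A :=
  H.map (nsmulAddMonoidHom m)

section normed

variable {K Λ : Type} [Field K] [NormedField Λ] [Algebra K Λ]

/-- integral coefficients -/
def Intg (g : Λ[X]) : Prop := ∀ n, ‖g.coeff n‖ ≤ 1

/-- `L / K` is unramified -/
def Unr (L : IntermediateField K Λ) : Prop := ∀ x ∈ L, ∃ y : K, ‖x‖ = ‖algebraMap K Λ y‖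

variable (Λ) in
/-- an equation `y ^ 2 = x ^ 3 + a₂ x ^ 2 + a₄ x + a₆` with good reduction -/
structure Good (E : WeierstrassCurve K) : Prop where
  a₁ : E.a₁ = 0
  a₃ : E.a₃ = 0
  a₂ : ‖algebraMap K Λ E.a₂‖ ≤ 1
  a₄ : ‖algebraMap K Λ E.a₄‖ ≤ 1
  a₆ : ‖algebraMap K Λ E.a₆‖ ≤ 1
  Δ : ‖algebraMap K Λ E.Δ‖ = 1

/-- points in the kernel of reduction -/
def Form {E : Affine Λ} (P : E.Point) : Prop := P = 0 ∨ 1 < ‖xc P‖

/-- the formal parameter `- x / y` -/
noncomputable def zp {E : Affine Λ} (P : E.Point) : Λ := -xc P / yc P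

/-- affine points with integral `x` and unit `y` -/
def Gd {E : Affine Λ} (P : E.Point) : Prop := P ≠ 0 ∧ ‖xc P‖ ≤ 1 ∧ ‖yc P‖ = 1

/-- The tower of unramified extensions `U n` of `L`, with a Frobenius `φ`. -/
structure Tower (p : ℕ) (L : IntermediateField K Λ) where
  r : ℕ
  φ : Λ ≃ₐ[K] Λ
  U : ℕ → IntermediateField K Λ
  r_pos : 0 < r
  φ_fix : Fix L φ
  φ_pow : ∀ x : Λ, ‖x‖ ≤ 1 → ‖φ x - x ^ p ^ r‖ < 1
  le : ∀ n, L ≤ U n
  fin : ∀ n, 0 < n → FiniteDimensional K (U n)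
  rank : ∀ n, 0 < n → finrank K (U n) = n * finrank K L
  fix_U : ∀ n, 0 < n → Fix (U n) (φ ^ n)
  mem_U : ∀ n N, 0 < n → 0 < N → ∀ x ∈ U N, (φ ^ n) x = x → x ∈ U n
  perm : ∀ n, 0 < n → ∀ σ, Fix L σ → ∃ j : ℕ, ∀ x ∈ U n, σ x = (φ ^ j) x
  stab : ∀ n, 0 < n → ∀ x ∈ U n, φ x ∈ U n
  lift : ∀ n, 0 < n → ∀ x : Λ, ‖x‖ ≤ 1 → ‖x ^ p ^ (r * n) - x‖ < 1 → ∃ t ∈ U n, ‖x - t‖ < 1
  alg : ∀ x : Λ, ‖x‖ ≤ 1 → ∃ n, 0 < n ∧ ‖x ^ p ^ (r * n) - x‖ < 1
  unr : ∀ n, 0 < n → ∀ x ∈ U n, ∃ y ∈ L, ‖x‖ = ‖y‖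

end normed

end Pool.Agent.Lib.MP_796ce4_ag
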