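import Pool.Agent.Lib.MP_796ce4_ag.Compl1

/-! Completeness of the formal group and successive approximation. -/

namespace Pool.Agent.Lib.MP_796ce4_ag

open WeierstrassCurve Polynomial Module
open scoped Classical IntermediateField

set_option linter.unusedSectionVars false

variable {p : ℕ} {K Λ : Type} [Field K] [CharZero K] [NormedField Λ] [IsUltrametricDist Λ]
  [IsAlgClosed Λ] [Algebra K Λ] [IsGalois K Λ] [Loc p K Λ]

include p

variable {E : WeierstrassCurve K} (hE : Good Λ E) {L : IntermediateField K Λ}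
  [FiniteDimensional K L]
include hE

/-- series in the formal group converge -/
theorem Good.exists_series {b : ℕ → Pt E Λ} (hb : ∀ j, b j ∈ pts E L ∧ Form (b j))
    (h0 : Filter.Tendsto (fun j => ‖zp (b j)‖) Filter.atTop (nhds 0)) :
    ∃ S ∈ pts E L, Form S ∧
      Filter.Tendsto (fun n => ‖zp (S - ∑ j ∈ Finset.range n, b j)‖) Filter.atTop (nhds 0) := by
  have hS : ∀ n, (∑ j ∈ Finset.range n, b j) ∈ pts E L ∧ Form (∑ j ∈ Finset.range n, b j) :=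
    fun n => ⟨sum_mem fun j _ => (hb j).1, hE.compl_form_sum fun j _ => (hb j).2⟩
  have hc : CauchySeq fun n => zp (∑ j ∈ Finset.range n, b j) := by
    apply compl_cauchy
    refine h0.congr fun n => ?_
    rw [← hE.compl_iso (hS _).2 (hS _).2, Finset.sum_range_succ, add_sub_cancel_left]
  obtain ⟨z, hzL, hz⟩ := cauchySeq_tendsto_of_isComplete (Loc.complete (p := p) L inferInstance)
    (fun n => hE.zp_mem (hS n).1) hc
  have hz' : Filter.Tendsto (fun n => ‖z - zp (∑ j ∈ Finset.range n, b j)‖) Filter.atTop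
      (nhds 0) := by
    have := (tendsto_const_nhds (x := z)).sub hz
    rw [sub_self] at this
    exact tendsto_zero_iff_norm_tendsto_zero.1 this
  have hz1 : ‖z‖ < 1 := by
    obtain ⟨N, hN⟩ := (hz'.eventually (gt_mem_nhds one_pos)).exists
    have e : z = (z - zp (∑ j ∈ Finset.range N, b j)) + zp (∑ j ∈ Finset.range N, b j) := by ring
    rw [e]
    exact lt_of_le_of_lt (IsUltrametricDist.norm_add_le_max _ _) (max_lt hN (hE.zp_lt (hS N).2))
  obtain ⟨S, hSL, hSf, hSz⟩ := hE.compl_exists_zp hzL hz1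
  refine ⟨S, hSL, hSf, hz'.congr fun n => ?_⟩
  rw [hE.compl_iso hSf (hS n).2, hSz]

/-- successive approximation -/
theorem Good.compl_approx {L' : IntermediateField K Λ} [FiniteDimensional K L']
    (T : Pt E Λ →+ Pt E Λ) (hTL : ∀ b ∈ pts E L', T b ∈ pts E L)
    (hTf : ∀ b, Form b → Form (T b) ∧ ‖zp (T b)‖ ≤ ‖zp b‖) {θ C : ℝ} (hθ0 : 0 ≤ θ) (hθ : θ < 1)
    (hC : 0 ≤ C) {a : Pt E Λ} (ha : a ∈ pts E L) (hf : Form a)
    (hstep : ∀ c ∈ pts E L, Form c → ‖zp c‖ ≤ ‖zp a‖ → ∃ b ∈ pts E L', Form b ∧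
      ‖zp b‖ ≤ C * ‖zp c‖ ∧ ‖zp (c - T b)‖ ≤ θ * ‖zp c‖) :
    ∃ b ∈ pts E L', Form b ∧ ‖zp b‖ ≤ C * ‖zp a‖ ∧ T b = a := by
  choose! β hβ using hstep
  let u : ℕ → Pt E Λ := fun n => Nat.rec a (fun _ c => c - T (β c)) n
  have u0 : u 0 = a := rfl
  have us : ∀ n, u (n + 1) = u n - T (β (u n)) := fun n => rfl
  have hpow : ∀ n, θ ^ n * ‖zp a‖ ≤ ‖zp a‖ := fun n =>
    mul_le_of_le_one_left (norm_nonneg _) (pow_le_one₀ hθ0 hθ.le)
  have hu : ∀ n, u n ∈ pts E L ∧ Form (u n) ∧ ‖zp (u n)‖ ≤ θ ^ n * ‖zp a‖ := by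
    intro n
    induction n with
    | zero => exact ⟨ha, hf, by rw [u0, pow_zero, one_mul]⟩
    | succ k ih =>
      obtain ⟨h1, h2, h3, h4⟩ := hβ (u k) ih.1 ih.2.1 (ih.2.2.trans (hpow k))
      rw [us]
      refine ⟨sub_mem ih.1 (hTL _ h1), hE.compl_form_sub ih.2.1 (hTf _ h2).1, h4.trans ?_⟩
      rw [pow_succ', mul_assoc]
      exact mul_le_mul_of_nonneg_left ih.2.2 hθ0
  have hb : ∀ n, β (u n) ∈ pts E L' ∧ Form (β (u n)) ∧ ‖zp (β (u n))‖ ≤ C * (θ ^ n * ‖zp a‖) := by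
    intro n
    obtain ⟨h1, h2, h3, h4⟩ := hβ (u n) (hu n).1 (hu n).2.1 ((hu n).2.2.trans (hpow n))
    exact ⟨h1, h2, h3.trans (mul_le_mul_of_nonneg_left (hu n).2.2 hC)⟩
  have ht : Filter.Tendsto (fun n => θ ^ n * ‖zp a‖) Filter.atTop (nhds 0) := by
    have := (tendsto_pow_atTop_nhds_zero_of_lt_one hθ0 hθ).mul_const ‖zp a‖
    rwa [zero_mul] at this
  have ht' : Filter.Tendsto (fun n => C * (θ ^ n * ‖zp a‖)) Filter.atTop (nhds 0) := by
    have := ht.const_mul C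
    rwa [mul_zero] at this
  obtain ⟨S, hSL, hSf, hS⟩ := hE.exists_series (L := L') (b := fun n => β (u n))
    (fun n => ⟨(hb n).1, (hb n).2.1⟩) (squeeze_zero (fun n => norm_nonneg _) (fun n => (hb n).2.2) ht')
  have hF : ∀ n, Form (∑ j ∈ Finset.range n, β (u j)) :=
    fun n => hE.compl_form_sum fun j _ => (hb j).2.1
  have hsum : ∀ n, u n = a - T (∑ j ∈ Finset.range n, β (u j)) := by
    intro n
    induction n with
    | zero => simp [u0]
    | succ k ih => rw [us, Finset.sum_range_succ, map_add, ← sub_sub, ← ih]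
  refine ⟨S, hSL, hSf, ?_, ?_⟩
  · have h1 : ∀ n, ‖zp S‖ ≤ ‖zp (S - ∑ j ∈ Finset.range n, β (u j))‖ + C * ‖zp a‖ := by
      intro n
      have h2 := hE.zp_add_le (hE.compl_form_sub hSf (hF n)) (hF n)
      rw [sub_add_cancel] at h2
      have h3 := (hE.zp_sum (Finset.range n) (P := fun j => β (u j)) (ρ := C * ‖zp a‖)
        (mul_nonneg hC (norm_nonneg _)) fun j _ =>
          ⟨(hb j).2.1, (hb j).2.2.trans (mul_le_mul_of_nonneg_left (hpow j) hC)⟩).1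
      refine h2.trans (max_le ?_ ?_)
      · exact le_add_of_nonneg_right (mul_nonneg hC (norm_nonneg _))
      · exact h3.trans (le_add_of_nonneg_left (norm_nonneg _))
    have h4 := hS.add_const (C * ‖zp a‖)
    rw [zero_add] at h4
    exact ge_of_tendsto' h4 h1
  · have hD : Form (a - T S) := hE.compl_form_sub hf (hTf _ hSf).1
    have h5 : ‖zp (a - T S)‖ = 0 := by
      refine compl_eq_zero_of_le (norm_nonneg _) ht hS fun n => ?_
      have e : a - T S = u n - T (S - ∑ j ∈ Finset.range n, β (u j)) := by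
        rw [hsum n, map_sub]
        abel
      have h6 := hTf _ (hE.compl_form_sub hSf (hF n))
      rw [e]
      exact (hE.compl_sub_le (hu n).2.1 h6.1).trans (max_le_max (hu n).2.2 h6.2)
    exact (sub_eq_zero.1 (hE.zp_eq_zero hD (norm_eq_zero.1 h5))).symm

/-- division by `m` on a small disc -/
theorem Good.compl_div {m : ℕ} (hm : (m : Λ) ≠ 0) {a : Pt E Λ} (ha : a ∈ pts E L) (hf : Form a)
    (h : ‖zp a‖ < ‖(m : Λ)‖ ^ 2) : ∃ b ∈ pts E L, Form b ∧ m • b = a := by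
  have hm0 : 0 < ‖(m : Λ)‖ := norm_pos_iff.2 hm
  have hm1 : ‖(m : Λ)‖ ≤ 1 := IsUltrametricDist.norm_natCast_le_one Λ m
  have hm2 : 0 < ‖(m : Λ)‖ ^ 2 := pow_pos hm0 2
  obtain ⟨b, hb, hbf, -, hbe⟩ := hE.compl_approx (L := L) (L' := L) (nsmulAddMonoidHom m)
    (fun b hb => nsmul_mem hb m)
    (fun b hb => ⟨hE.compl_form_nsmul hb m, (hE.zp_nsmul hb m).1⟩)
    (θ := ‖zp a‖ / ‖(m : Λ)‖ ^ 2) (C := ‖(m : Λ)‖⁻¹) (by positivity)
    ((div_lt_one hm2).2 h) (by positivity) ha hf (by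
      intro c hc hcf hca
      have h1 : ‖zp c / (m : Λ)‖ < 1 := by
        rw [norm_div, div_lt_one hm0]
        nlinarith
      obtain ⟨b, hb, hbf, hbz⟩ := hE.compl_exists_zp
        (div_mem (hE.zp_mem hc) (natCast_mem L m)) h1
      refine ⟨b, hb, hbf, ?_, ?_⟩
      · rw [hbz, norm_div, div_eq_inv_mul]
      · have h2 := (hE.zp_nsmul hbf m).2
        rw [hbz, mul_div_cancel₀ _ hm, norm_div, div_pow] at h2
        change ‖zp (c - m • b)‖ ≤ _
        rw [hE.compl_iso hcf (hE.compl_form_nsmul hbf m), norm_sub_rev]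
        refine h2.trans ?_
        rw [div_mul_eq_mul_div, pow_two ‖zp c‖]
        exact div_le_div_of_nonneg_right (mul_le_mul_of_nonneg_right hca (norm_nonneg _)) hm2.le)
  exact ⟨b, hb, hbf, hbe⟩

theorem Good.div_prime_to {m : ℕ} (hm : ¬p ∣ m) {a : Pt E Λ} (ha : a ∈ pts E L) (hf : Form a) :
    ∃ b ∈ pts E L, Form b ∧ m • b = a := by
  have h1 : ‖(m : Λ)‖ = 1 := norm_nat_of_not_dvd K hm
  refine hE.compl_div ?_ ha hf ?_
  · intro h0
    rw [h0, norm_zero] at h1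
    exact zero_ne_one h1
  · rw [h1, one_pow]
    exact hE.zp_lt hf

theorem Good.div_p {a : Pt E Λ} (ha : a ∈ pts E L) (hf : Form a) (h : ‖zp a‖ < ‖(p : Λ)‖ ^ 2) :
    ∃ b ∈ pts E L, Form b ∧ p • b = a :=
  hE.compl_div (norm_pos_iff.1 (norm_p_pos K)) ha hf h

theorem Good.form_tr (T : Tower p L) {n : ℕ} (hn : 0 < n) {a : Pt E Λ} (ha : a ∈ pts E L)
    (hf : Form a) : ∃ b ∈ pts E (T.U n), Form b ∧ ‖zp b‖ ≤ ‖zp a‖ ∧
      ∑ i : Fin n, galP E (T.φ ^ (i : ℕ)) b = a := by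
  have := T.fin n hn
  obtain ⟨t, htU, ht1, htr⟩ := T.exists_trace_one hn
  have hap : ∀ b : Pt E Λ, (∑ i : Fin n, galP E (T.φ ^ (i : ℕ))) b =
      ∑ i : Fin n, galP E (T.φ ^ (i : ℕ)) b := fun b => AddMonoidHom.finsetSum_apply _ _ _
  have hg : ∀ b : Pt E Λ, Form b → ∀ i ∈ (Finset.univ : Finset (Fin n)),
      Form (galP E (T.φ ^ (i : ℕ)) b) ∧ ‖zp (galP E (T.φ ^ (i : ℕ)) b)‖ ≤ ‖zp b‖ :=
    fun b hb i _ => ⟨hE.form_gal hb _, by rw [hE.zp_gal, Loc.norm_gal (p := p)]⟩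
  obtain ⟨b, hb, hbf, hbn, hbe⟩ := hE.compl_approx (L := L) (L' := T.U n)
    (∑ i : Fin n, galP E (T.φ ^ (i : ℕ)))
    (fun b hb => by rw [hap]; exact (T.fam hn).tr_mem hb)
    (fun b hb => by
      rw [hap]
      exact ⟨hE.compl_form_sum fun i hi => (hg b hb i hi).1,
        (hE.zp_sum Finset.univ (norm_nonneg _) (hg b hb)).1⟩)
    (θ := max ‖zp a‖ ‖∑ i : Fin n, (T.φ ^ (i : ℕ)) t - 1‖) (C := 1)
    (le_max_of_le_left (norm_nonneg _)) (max_lt (hE.zp_lt hf) htr) zero_le_one ha hf (by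
      intro c hc hcf hca
      have hz := hE.zp_mem hc
      have h0 : ‖t * zp c‖ ≤ ‖zp c‖ := by
        rw [norm_mul]
        exact mul_le_of_le_one_left (norm_nonneg _) ht1
      obtain ⟨b, hb, hbf, hbz⟩ := hE.compl_exists_zp (mul_mem htU (T.le n hz))
        (lt_of_le_of_lt h0 (hE.zp_lt hcf))
      refine ⟨b, hb, hbf, by rw [hbz, one_mul]; exact h0, ?_⟩
      have h2 := (hE.zp_sum Finset.univ (norm_nonneg _) (hg b hbf)).2
      have h3 : ∑ i : Fin n, zp (galP E (T.φ ^ (i : ℕ)) b) =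
          (∑ i : Fin n, (T.φ ^ (i : ℕ)) t) * zp c := by
        rw [Finset.sum_mul]
        refine Finset.sum_congr rfl fun i _ => ?_
        rw [hE.zp_gal, hbz, map_mul, T.φ_fix.pow _ _ hz]
      rw [h3, hbz] at h2
      rw [hap, hE.compl_iso hcf (hE.compl_form_sum fun i hi => (hg b hbf i hi).1), norm_sub_rev]
      have e : zp (∑ i : Fin n, galP E (T.φ ^ (i : ℕ)) b) - zp c =
          (zp (∑ i : Fin n, galP E (T.φ ^ (i : ℕ)) b) - (∑ i : Fin n, (T.φ ^ (i : ℕ)) t) * zp c) +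
            (∑ i : Fin n, (T.φ ^ (i : ℕ)) t - 1) * zp c := by ring
      rw [e]
      refine (IsUltrametricDist.norm_add_le_max _ _).trans (max_le (h2.trans ?_) ?_)
      · refine (pow_le_pow_left₀ (norm_nonneg _) h0 2).trans ?_
        rw [pow_two]
        exact mul_le_mul_of_nonneg_right (hca.trans (le_max_left _ _)) (norm_nonneg _)
      · rw [norm_mul]
        exact mul_le_mul_of_nonneg_right (le_max_right _ _) (norm_nonneg _))
  exact ⟨b, hb, hbf, by rwa [one_mul] at hbn, by rwa [hap] at hbe⟩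

theorem Good.tr_surj (T : Tower p L) {n : ℕ} (hn : 0 < n) {a : Pt E Λ} (ha : a ∈ pts E L) :
    ∃ b ∈ pts E (T.U n), ∑ i : Fin n, galP E (T.φ ^ (i : ℕ)) b = a := by
  obtain ⟨b₀, hb₀, hf⟩ := hE.red_tr T hn ha
  obtain ⟨b₁, hb₁, -, -, he⟩ := hE.form_tr T hn (sub_mem ha ((T.fam hn).tr_mem hb₀)) hf
  refine ⟨b₀ + b₁, add_mem hb₀ hb₁, ?_⟩
  simp only [map_add, Finset.sum_add_distrib]
  rw [he, add_sub_cancel]

/-- `p`-adic series converge -/
theorem Good.pser {x : ℕ → Pt E Λ} (hx : ∀ j, x j ∈ pts E L ∧ Form (x j)) :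
    ∃ y : ℕ → Pt E Λ, ∀ n, y n ∈ pts E L ∧ Form (y n) ∧ y n = x n + p • y (n + 1) := by
  obtain ⟨ϖ, -, -, hϖ1, hϖ⟩ := Loc.unif (p := p) L inferInstance
  have hc1 : max ‖(p : Λ)‖ ‖ϖ‖ < 1 := max_lt (Loc.norm_p (K := K)) hϖ1
  have hc0 : 0 ≤ max ‖(p : Λ)‖ ‖ϖ‖ := le_max_of_le_left (norm_nonneg _)
  have hstep : ∀ a ∈ pts E L, Form a → ‖zp (p • a)‖ ≤ max ‖(p : Λ)‖ ‖ϖ‖ * ‖zp a‖ := by
    intro a ha hf
    have e : zp (p • a) = (zp (p • a) - p * zp a) + p * zp a := by ring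
    rw [e]
    refine (IsUltrametricDist.norm_add_le_max _ _).trans (max_le ((hE.zp_nsmul hf p).2.trans ?_) ?_)
    · rw [pow_two]
      exact mul_le_mul_of_nonneg_right
        ((hϖ _ (hE.zp_mem ha) (hE.zp_lt hf)).trans (le_max_right _ _)) (norm_nonneg _)
    · rw [norm_mul]
      exact mul_le_mul_of_nonneg_right (le_max_left _ _) (norm_nonneg _)
  have hpw : ∀ a ∈ pts E L, Form a → ∀ j : ℕ, ‖zp (p ^ j • a)‖ ≤ max ‖(p : Λ)‖ ‖ϖ‖ ^ j := by
    intro a ha hf j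
    induction j with
    | zero => rw [pow_zero, one_smul, pow_zero]; exact (hE.zp_lt hf).le
    | succ k ih =>
      rw [pow_succ', mul_smul, pow_succ']
      exact (hstep _ (nsmul_mem ha _) (hE.compl_form_nsmul hf _)).trans
        (mul_le_mul_of_nonneg_left ih hc0)
  have hb : ∀ n j : ℕ, p ^ j • x (n + j) ∈ pts E L ∧ Form (p ^ j • x (n + j)) :=
    fun n j => ⟨nsmul_mem (hx _).1 _, hE.compl_form_nsmul (hx _).2 _⟩
  have hex := fun n : ℕ => hE.exists_series (L := L) (b := fun j => p ^ j • x (n + j)) (hb n)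
    (squeeze_zero (fun j => norm_nonneg _) (fun j => hpw _ (hx _).1 (hx _).2 j)
      (tendsto_pow_atTop_nhds_zero_of_lt_one hc0 hc1))
  choose y hyL hyf hy using hex
  refine ⟨y, fun n => ⟨hyL n, hyf n, ?_⟩⟩
  have hF : ∀ n k : ℕ, Form (y n - ∑ j ∈ Finset.range k, p ^ j • x (n + j)) :=
    fun n k => hE.compl_form_sub (hyf n) (hE.compl_form_sum fun j _ => (hb n j).2)
  have hD : Form (y n - (x n + p • y (n + 1))) :=
    hE.compl_form_sub (hyf n) (hE.form_add (hx n).2 (hE.compl_form_nsmul (hyf _) p))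
  have h5 : ‖zp (y n - (x n + p • y (n + 1)))‖ = 0 := by
    refine compl_eq_zero_of_le (norm_nonneg _) ((Filter.tendsto_add_atTop_iff_nat 1).2 (hy n))
      (hy (n + 1)) fun k => ?_
    have e1 : ∑ j ∈ Finset.range (k + 1), p ^ j • x (n + j) =
        x n + p • ∑ j ∈ Finset.range k, p ^ j • x (n + 1 + j) := by
      rw [Finset.sum_range_succ', Finset.smul_sum, pow_zero, one_smul, add_zero, add_comm]
      congr 1
      refine Finset.sum_congr rfl fun j _ => ?_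
      rw [pow_succ', mul_smul, add_assoc, add_comm 1 j]
    have e : y n - (x n + p • y (n + 1)) =
        (y n - ∑ j ∈ Finset.range (k + 1), p ^ j • x (n + j)) -
          p • (y (n + 1) - ∑ j ∈ Finset.range k, p ^ j • x (n + 1 + j)) := by
      rw [e1, smul_sub]
      abel
    rw [e]
    exact (hE.compl_sub_le (hF _ _) (hE.compl_form_nsmul (hF _ _) p)).trans
      (max_le_max le_rfl (hE.zp_nsmul (hF _ _) p).1)
  exact sub_eq_zero.1 (hE.zp_eq_zero hD (norm_eq_zero.1 h5))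

omit hE in
/-- the integers of `L` are totally bounded -/
theorem compl_net {ε : ℝ} (hε : 0 < ε) : ∃ s : Finset Λ, (∀ t ∈ s, t ∈ L) ∧
    ∀ x ∈ L, ‖x‖ ≤ 1 → ∃ t ∈ s, ‖x - t‖ < ε := by
  obtain ⟨ϖ, hϖL, hϖ0, hϖ1, hϖ⟩ := Loc.unif (p := p) L inferInstance
  obtain ⟨r, hr, hr'⟩ := Loc.resfin (p := p) L inferInstance
  have key : ∀ j : ℕ, ∃ s : Finset Λ, (∀ t ∈ s, t ∈ L) ∧
      ∀ x ∈ L, ‖x‖ ≤ 1 → ∃ t ∈ s, ‖x - t‖ ≤ ‖ϖ‖ ^ j := by
    intro j
    induction j with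
    | zero => exact ⟨{0}, by simp, fun x _ hx => ⟨0, by simp, by simpa using hx⟩⟩
    | succ k ih =>
      obtain ⟨s, hs, hs'⟩ := ih
      refine ⟨(s ×ˢ r).image fun q => q.1 + ϖ ^ k * q.2, ?_, fun x hxL hx => ?_⟩
      · intro t ht
        obtain ⟨q, hq, rfl⟩ := Finset.mem_image.1 ht
        rw [Finset.mem_product] at hq
        exact add_mem (hs _ hq.1) (mul_mem (pow_mem hϖL _) (hr _ hq.2).1)
      · obtain ⟨t, ht, hxt⟩ := hs' x hxL hx
        have hk0 : ϖ ^ k ≠ 0 := pow_ne_zero _ hϖ0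
        have hk : 0 < ‖ϖ‖ ^ k := pow_pos (norm_pos_iff.2 hϖ0) _
        have huL : (x - t) / ϖ ^ k ∈ L := div_mem (sub_mem hxL (hs _ ht)) (pow_mem hϖL _)
        obtain ⟨c, hc, huc⟩ := hr' _ huL (by rw [norm_div, norm_pow, div_le_one hk]; exact hxt)
        refine ⟨t + ϖ ^ k * c, Finset.mem_image.2 ⟨(t, c), Finset.mem_product.2 ⟨ht, hc⟩, rfl⟩, ?_⟩
        have e : x - (t + ϖ ^ k * c) = ϖ ^ k * ((x - t) / ϖ ^ k - c) := by
          field_simp
          ring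
        rw [e, norm_mul, norm_pow, pow_succ]
        exact mul_le_mul_of_nonneg_left (hϖ _ (sub_mem huL (hr _ hc).1) huc) hk.le
  obtain ⟨j, hj⟩ := exists_pow_lt_of_lt_one hε hϖ1
  obtain ⟨s, hs, hs'⟩ := key j
  refine ⟨s, hs, fun x hxL hx => ?_⟩
  obtain ⟨t, ht, hxt⟩ := hs' x hxL hx
  exact ⟨t, ht, lt_of_le_of_lt hxt hj⟩

/-- the formal group is finite modulo `p` -/
theorem Good.form_fin : ∃ s : Finset (Pt E Λ), (∀ t ∈ s, t ∈ pts E L ∧ Form t) ∧
    ∀ a ∈ pts E L, Form a → ∃ t ∈ s, ∃ b ∈ pts E L, Form b ∧ a = t + p • b := by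
  have hp0 : 0 < ‖(p : Λ)‖ := norm_p_pos K
  have hp1 : ‖(p : Λ)‖ ^ 2 < 1 := pow_lt_one₀ hp0.le (Loc.norm_p (K := K)) (by norm_num)
  obtain ⟨s, hs, hs'⟩ := compl_net (L := L) (pow_pos hp0 2)
  have hex : ∀ z : Λ, z ∈ L → ‖z‖ < 1 → ∃ P ∈ pts E L, Form P ∧ zp P = z :=
    fun z hz h => hE.compl_exists_zp hz h
  choose! P hP using hex
  refine ⟨(s.filter fun t => ‖t‖ < 1).image P, ?_, fun a ha hf => ?_⟩
  · intro Q hQ
    obtain ⟨t, ht, rfl⟩ := Finset.mem_image.1 hQ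
    rw [Finset.mem_filter] at ht
    exact ⟨(hP t (hs t ht.1) ht.2).1, (hP t (hs t ht.1) ht.2).2.1⟩
  · obtain ⟨t, ht, hat⟩ := hs' _ (hE.zp_mem ha) (hE.zp_lt hf).le
    have ht1 : ‖t‖ < 1 := by
      have e : t = zp a - (zp a - t) := by ring
      rw [e]
      exact lt_of_le_of_lt (MP_796ce4_ag.compl_sub_le _ _) (max_lt (hE.zp_lt hf) (hat.trans hp1))
    obtain ⟨h1, h2, h3⟩ := hP t (hs t ht) ht1
    obtain ⟨b, hb, hbf, hbe⟩ := hE.div_p (sub_mem ha h1) (hE.compl_form_sub hf h2)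
      (by rw [hE.compl_iso hf h2, h3]; exact hat)
    refine ⟨P t, Finset.mem_image.2 ⟨t, Finset.mem_filter.2 ⟨ht, ht1⟩, rfl⟩, b, hb, hbf, ?_⟩
    rw [hbe, add_sub_cancel]

end Pool.Agent.Lib.MP_796ce4_ag
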