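import Pool.Agent.Lib.MP_796ce4_ag.Formal

/-! The formal parameter is an isometry onto the open unit ball. -/

namespace Pool.Agent.Lib.MP_796ce4_ag

open WeierstrassCurve Polynomial Module
open scoped Classical IntermediateField

set_option linter.unusedSectionVars false

theorem compl_sub_le {Λ : Type} [NormedField Λ] [IsUltrametricDist Λ] (x y : Λ) :
    ‖x - y‖ ≤ max ‖x‖ ‖y‖ := by
  have h := IsUltrametricDist.norm_add_le_max x (-y)
  rwa [norm_neg, ← sub_eq_add_neg] at h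

theorem compl_cauchy {Λ : Type} [NormedField Λ] [IsUltrametricDist Λ] {u : ℕ → Λ}
    (h : Filter.Tendsto (fun n => ‖u (n + 1) - u n‖) Filter.atTop (nhds 0)) : CauchySeq u := by
  rw [Metric.cauchySeq_iff']
  intro ε hε
  obtain ⟨N, hN⟩ := Filter.eventually_atTop.1 (h.eventually (gt_mem_nhds hε))
  refine ⟨N, fun n hn => ?_⟩
  rw [dist_eq_norm]
  induction n, hn using Nat.le_induction with
  | base => simpa using hε
  | succ k hk ih =>
    have e : u (k + 1) - u N = (u (k + 1) - u k) + (u k - u N) := by ring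
    rw [e]
    exact lt_of_le_of_lt (IsUltrametricDist.norm_add_le_max _ _) (max_lt (hN k hk) ih)

theorem compl_eq_zero_of_le {r : ℝ} (hr : 0 ≤ r) {f g : ℕ → ℝ}
    (hf : Filter.Tendsto f Filter.atTop (nhds 0)) (hg : Filter.Tendsto g Filter.atTop (nhds 0))
    (h : ∀ n, r ≤ max (f n) (g n)) : r = 0 := by
  have h1 : Filter.Tendsto (fun n => max (f n) (g n)) Filter.atTop (nhds (max 0 0)) := hf.max hg
  rw [max_self] at h1
  exact le_antisymm (ge_of_tendsto' h1 h) hr

variable {p : ℕ} {K Λ : Type} [Field K] [CharZero K] [NormedField Λ] [IsUltrametricDist Λ]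
  [IsAlgClosed Λ] [Algebra K Λ] [IsGalois K Λ] [Loc p K Λ]

include p

variable {E : WeierstrassCurve K} (hE : Good Λ E) {L : IntermediateField K Λ}
  [FiniteDimensional K L]
include hE

theorem Good.compl_form_sub {P Q : Pt E Λ} (hP : Form P) (hQ : Form Q) : Form (P - Q) :=
  hE.form.sub_mem hP hQ

theorem Good.compl_form_nsmul {P : Pt E Λ} (hP : Form P) (m : ℕ) : Form (m • P) :=
  hE.form.nsmul_mem hP m

theorem Good.compl_form_sum {T : Type} {s : Finset T} {P : T → Pt E Λ} (hP : ∀ t ∈ s, Form (P t)) :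
    Form (∑ t ∈ s, P t) :=
  hE.form.sum_mem hP

/-- the formal parameter is an isometry -/
theorem Good.compl_iso {P Q : Pt E Λ} (hP : Form P) (hQ : Form Q) :
    ‖zp (P - Q)‖ = ‖zp P - zp Q‖ := by
  have hD := hE.compl_form_sub hP hQ
  have h := hE.zp_add hD hQ
  rw [sub_add_cancel] at h
  by_cases h0 : zp (P - Q) = 0
  · have h1 : P = Q := sub_eq_zero.1 (hE.zp_eq_zero hD h0)
    rw [h0, h1, sub_self]
  · have hpos : 0 < ‖zp (P - Q)‖ := norm_pos_iff.2 h0
    have hlt : ‖zp (P - Q)‖ * ‖zp Q‖ < ‖zp (P - Q)‖ := by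
      have := hE.zp_lt hQ
      nlinarith
    symm
    apply norm_eq_of_sub_lt
    have e : zp (P - Q) - (zp P - zp Q) = -(zp P - zp (P - Q) - zp Q) := by ring
    rw [e, norm_neg]
    exact lt_of_le_of_lt h hlt

theorem Good.compl_sub_le {P Q : Pt E Λ} (hP : Form P) (hQ : Form Q) :
    ‖zp (P - Q)‖ ≤ max ‖zp P‖ ‖zp Q‖ := by
  rw [hE.compl_iso hP hQ]
  exact MP_796ce4_ag.compl_sub_le _ _

/-- every small element of `L` is the parameter of a point -/
theorem Good.compl_exists_zp {z : Λ} (hz : z ∈ L) (h : ‖z‖ < 1) :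
    ∃ P ∈ pts E L, Form P ∧ zp P = z := by
  by_cases hz0 : z = 0
  · exact ⟨0, zero_mem _, Or.inl rfl, by rw [hE.zp_zero, hz0]⟩
  set a2 := algebraMap K Λ E.a₂ with ha2
  set a4 := algebraMap K Λ E.a₄ with ha4
  set a6 := algebraMap K Λ E.a₆ with ha6
  have n2 : ‖a2 * z ^ 2‖ < 1 := by
    rw [norm_mul, norm_pow]
    exact mul_lt_one_of_nonneg_of_lt_one_right hE.a₂ (by positivity)
      (pow_lt_one₀ (norm_nonneg _) h (by norm_num))
  have n4 : ‖a4 * z ^ 4‖ < 1 := by
    rw [norm_mul, norm_pow]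
    exact mul_lt_one_of_nonneg_of_lt_one_right hE.a₄ (by positivity)
      (pow_lt_one₀ (norm_nonneg _) h (by norm_num))
  have n6 : ‖a6 * z ^ 6‖ < 1 := by
    rw [norm_mul, norm_pow]
    exact mul_lt_one_of_nonneg_of_lt_one_right hE.a₆ (by positivity)
      (pow_lt_one₀ (norm_nonneg _) h (by norm_num))
  have m2 : a2 * z ^ 2 ∈ L := mul_mem (L.algebraMap_mem _) (pow_mem hz _)
  have m4 : a4 * z ^ 4 ∈ L := mul_mem (L.algebraMap_mem _) (pow_mem hz _)
  have m6 : a6 * z ^ 6 ∈ L := mul_mem (L.algebraMap_mem _) (pow_mem hz _)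
  set g : Λ[X] := X ^ 3 + C (a2 * z ^ 2 - 1) * X ^ 2 + C (a4 * z ^ 4) * X + C (a6 * z ^ 6) with hg
  have gm : g.Monic := by
    rw [hg]
    monicity!
  have n2' : ‖a2 * z ^ 2 - 1‖ ≤ 1 := by
    refine (MP_796ce4_ag.compl_sub_le _ _).trans (max_le n2.le (by simp))
  have gi : Intg g :=
    (((intg_X.pow 3).add ((intg_C n2').mul (intg_X.pow 2))).add
      ((intg_C n4.le).mul intg_X)).add (intg_C n6.le)
  have go : Over L g :=
    (((over_X.pow 3).add ((over_C (sub_mem m2 (one_mem _))).mul (over_X.pow 2))).add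
      ((over_C m4).mul over_X)).add (over_C m6)
  have g1 : ‖g.eval 1‖ < 1 := by
    have e : g.eval 1 = a2 * z ^ 2 + a4 * z ^ 4 + a6 * z ^ 6 := by
      rw [hg]
      simp only [eval_add, eval_mul, eval_pow, eval_X, eval_C]
      ring
    rw [e]
    refine lt_of_le_of_lt (IsUltrametricDist.norm_add_le_max _ _) (max_lt ?_ n6)
    exact lt_of_le_of_lt (IsUltrametricDist.norm_add_le_max _ _) (max_lt n2 n4)
  obtain ⟨t, ht0, ht1⟩ := gi.exists_root_near gm g1
  have nt : ‖t‖ = 1 := by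
    have : ‖(1 : Λ) - t‖ < ‖(1 : Λ)‖ := by rwa [norm_sub_rev, norm_one]
    rw [norm_eq_of_sub_lt this, norm_one]
  have d1 : ‖g.derivative.eval t‖ = 1 := by
    have e : g.derivative.eval 1 = 1 + (2 * (a2 * z ^ 2) + a4 * z ^ 4) := by
      rw [hg]
      simp only [derivative_add, derivative_mul, derivative_C, derivative_X_pow, derivative_X,
        eval_add, eval_mul, eval_pow, eval_X, eval_C, eval_zero, eval_one]
      push_cast
      ring
    have h3 : ‖g.derivative.eval t - g.derivative.eval 1‖ < 1 :=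
      lt_of_le_of_lt (gi.derivative.eval_sub_le nt.le (by simp)) ht1
    have h4 : ‖2 * (a2 * z ^ 2) + a4 * z ^ 4‖ < 1 := by
      refine lt_of_le_of_lt (IsUltrametricDist.norm_add_le_max _ _) (max_lt ?_ n4)
      rw [norm_mul, norm_two K, one_mul]
      exact n2
    have h5 : ‖(1 : Λ) - g.derivative.eval t‖ < ‖(1 : Λ)‖ := by
      have e2 : (1 : Λ) - g.derivative.eval t =
          -((g.derivative.eval t - g.derivative.eval 1) + (2 * (a2 * z ^ 2) + a4 * z ^ 4)) := by
        rw [e]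
        ring
      rw [e2, norm_neg, norm_one]
      exact lt_of_le_of_lt (IsUltrametricDist.norm_add_le_max _ _) (max_lt h3 h4)
    rw [norm_eq_of_sub_lt h5, norm_one]
  have tL : t ∈ L := hensel_mem go gi nt.le ht0 d1 (one_mem L) ht1
  have t0 : t ≠ 0 := by
    intro h0
    rw [h0, norm_zero] at nt
    exact zero_ne_one nt
  have ge : t ^ 3 + (a2 * z ^ 2 - 1) * t ^ 2 + a4 * z ^ 4 * t + a6 * z ^ 6 = 0 := by
    rw [hg] at ht0
    simpa only [eval_add, eval_mul, eval_pow, eval_X, eval_C] using ht0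
  have hΔ : (Affine.baseChange E Λ).Δ ≠ 0 := by
    have : (Affine.baseChange E Λ).Δ = algebraMap K Λ E.Δ := map_Δ _ _
    rw [this]
    intro h0
    have := hE.Δ
    rw [h0, norm_zero] at this
    exact zero_ne_one this
  have b1 : (Affine.baseChange E Λ).a₁ = 0 := by
    have : (Affine.baseChange E Λ).a₁ = algebraMap K Λ E.a₁ := rfl
    rw [this, hE.a₁, map_zero]
  have b3 : (Affine.baseChange E Λ).a₃ = 0 := by
    have : (Affine.baseChange E Λ).a₃ = algebraMap K Λ E.a₃ := rfl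
    rw [this, hE.a₃, map_zero]
  have heq : (-t / z ^ 3) ^ 2 = (cub (Affine.baseChange E Λ)).eval (t / z ^ 2) := by
    rw [eval_cub]
    change _ = (t / z ^ 2) ^ 3 + a2 * (t / z ^ 2) ^ 2 + a4 * (t / z ^ 2) + a6
    field_simp
    linear_combination -ge
  obtain ⟨P, hP0, hx, hy⟩ := exists_pt b1 b3 hΔ heq
  refine ⟨P, mem_pts_iff.2 ⟨?_, ?_⟩, Or.inr ?_, ?_⟩
  · rw [hx]
    exact div_mem tL (pow_mem hz _)
  · rw [hy]
    exact div_mem (neg_mem tL) (pow_mem hz _)
  · rw [hx, norm_div, nt, norm_pow]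
    have hp : 0 < ‖z‖ ^ 2 := pow_pos (norm_pos_iff.2 hz0) _
    rw [lt_div_iff₀ hp, one_mul]
    exact pow_lt_one₀ (norm_nonneg _) h (by norm_num)
  · rw [zp, hx, hy]
    field_simp

end Pool.Agent.Lib.MP_796ce4_ag
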