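import Pool.Agent.Lib.MP_796ce4_ag.Cube1

/-! The linearity relation. -/

namespace Pool.Agent.Lib.MP_796ce4_ag

open WeierstrassCurve Polynomial Module
open scoped Classical IntermediateField

set_option linter.unusedSectionVars false

section aux
variable {Λ : Type} [NormedField Λ] [IsUltrametricDist Λ]

theorem cube_tri {x y z : Λ} {r : ℝ} (h : ‖x - y‖ ≤ r) (h' : ‖y - z‖ ≤ r) : ‖x - z‖ ≤ r := by
  have e : x - z = (x - y) + (y - z) := by ring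
  rw [e]
  exact (IsUltrametricDist.norm_add_le_max _ _).trans (max_le h h')

theorem cube_le {x y : Λ} {r : ℝ} (h : ‖x - y‖ ≤ r) (h' : ‖y‖ ≤ r) : ‖x‖ ≤ r := by
  have := cube_tri (z := 0) h (by simpa using h')
  simpa using this

theorem cube_pow {ρ : ℝ} (h0 : 0 < ρ) (h1 : ρ < 1) {a b : ℕ} (h : a ≤ b) : ρ ^ b ≤ ρ ^ a :=
  pow_le_pow_of_le_one h0.le h1.le h

theorem cube_sq {ρ x : ℝ} (h0 : 0 < ρ) (h1 : ρ < 1) {m : ℕ} (hm : 1 ≤ m) (hx0 : 0 ≤ x)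
    (hx : x ≤ ρ ^ m) : x ^ 2 ≤ ρ ^ (m + 1) := by
  calc x ^ 2 ≤ (ρ ^ m) ^ 2 := pow_le_pow_left₀ hx0 hx 2
    _ = ρ ^ (m * 2) := by rw [pow_mul]
    _ ≤ ρ ^ (m + 1) := cube_pow h0 h1 (by omega)

theorem cube_sum {T : Type} (s : Finset T) {f : T → Λ} {r : ℝ} (hr : 0 ≤ r)
    (h : ∀ t ∈ s, ‖f t‖ ≤ r) : ‖∑ t ∈ s, f t‖ ≤ r :=
  IsUltrametricDist.norm_sum_le_of_forall_le_of_nonneg hr h

end aux

variable {p : ℕ} {K Λ : Type} [Field K] [CharZero K] [NormedField Λ] [IsUltrametricDist Λ]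
  [IsAlgClosed Λ] [Algebra K Λ] [IsGalois K Λ] [Loc p K Λ]

include p

/-- a point of the formal group with a prescribed leading term -/
theorem cube_pt {E : WeierstrassCurve K} (hE : Good Λ E) {ρ : ℝ} (hρ : Unif K Λ ρ)
    {L : IntermediateField K Λ} {z : Λ} (hz : z ∈ L) {m : ℕ} (hm : 1 ≤ m) (h : ‖z‖ ≤ ρ ^ m) :
    ∃ P ∈ pts E L, Form P ∧ ‖zp P - z‖ ≤ ρ ^ (m + 1) := by
  have h1 : ‖z‖ < 1 := h.trans_lt (pow_lt_one₀ hρ.pos.le hρ.lt (by omega))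
  obtain ⟨P, hP, hf, -, hd⟩ := hE.exists_zp (p := p) hz h1
  exact ⟨P, hP, hf, hd.trans (cube_sq hρ.pos hρ.lt hm (norm_nonneg _) h)⟩

/-- the leading term of a trace -/
theorem cube_tr {E : WeierstrassCurve K} (hE : Good Λ E) {ρ : ℝ} (hρ : Unif K Λ ρ)
    {L : IntermediateField K Λ} (hL : Unr L) (T : Tower p L) {M : ℕ} (hM : 0 < M) {t : Λ}
    (ht : t ∈ T.U M) (ht1 : ‖t‖ ≤ 1) (htr : ‖∑ k : Fin M, (T.φ ^ (k : ℕ)) t - 1‖ < 1)
    {e : Λ} (he : e ∈ L) {m : ℕ} (hm : 1 ≤ m) (he1 : ‖e‖ ≤ ρ ^ m) {P : Pt E Λ} (hf : Form P)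
    (hz : ‖zp P - e * t‖ ≤ ρ ^ (m + 1)) :
    Form (∑ k : Fin M, galP E (T.φ ^ (k : ℕ)) P) ∧
      ‖zp (∑ k : Fin M, galP E (T.φ ^ (k : ℕ)) P) - e‖ ≤ ρ ^ (m + 1) := by
  have hpos : ∀ a : ℕ, (0 : ℝ) ≤ ρ ^ a := fun a => pow_nonneg hρ.pos.le a
  have het : ‖e * t‖ ≤ ρ ^ m := by
    rw [norm_mul]
    exact (mul_le_of_le_one_right (norm_nonneg _) ht1).trans he1
  have hP : ‖zp P‖ ≤ ρ ^ m := cube_le (hz.trans (cube_pow hρ.pos hρ.lt (Nat.le_succ m))) het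
  refine ⟨(hE.mem_form (p := p)).1 (AddSubgroup.sum_mem _ fun k _ =>
    (hE.mem_form (p := p)).2 (hE.form_gal (p := p) hf _)), ?_⟩
  have h1 := (hE.zp_sum (p := p) Finset.univ (P := fun k : Fin M => galP E (T.φ ^ (k : ℕ)) P)
    (hpos m) fun k _ => ⟨hE.form_gal (p := p) hf _, by
      rw [hE.zp_gal (p := p), Loc.norm_gal (p := p)]; exact hP⟩).2
  have h1' := h1.trans (cube_sq hρ.pos hρ.lt hm (hpos m) le_rfl)
  have h2 : ‖∑ k : Fin M, zp (galP E (T.φ ^ (k : ℕ)) P) -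
      e * ∑ k : Fin M, (T.φ ^ (k : ℕ)) t‖ ≤ ρ ^ (m + 1) := by
    rw [Finset.mul_sum, ← Finset.sum_sub_distrib]
    refine cube_sum _ (hpos _) fun k _ => ?_
    have e1 : e * (T.φ ^ (k : ℕ)) t = (T.φ ^ (k : ℕ)) (e * t) := by
      rw [map_mul, T.φ_fix.pow k e he]
    rw [hE.zp_gal (p := p), e1, ← map_sub, Loc.norm_gal (p := p)]
    exact hz
  have h3 : ‖e * ∑ k : Fin M, (T.φ ^ (k : ℕ)) t - e‖ ≤ ρ ^ (m + 1) := by
    have hmem : ∑ k : Fin M, (T.φ ^ (k : ℕ)) t - 1 ∈ L :=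
      sub_mem ((T.fam hM).sum_mem ht) (one_mem _)
    have h4 := hρ.le_succ (p := p) hL hmem (n := 0) (by simpa using htr)
    have e2 : e * ∑ k : Fin M, (T.φ ^ (k : ℕ)) t - e =
        e * (∑ k : Fin M, (T.φ ^ (k : ℕ)) t - 1) := by ring
    rw [e2, norm_mul, pow_succ]
    refine mul_le_mul he1 (by simpa using h4) (norm_nonneg _) (hpos m)
  exact cube_tri (cube_tri h1' h2) h3

variable {ι : Type} [Fintype ι] {W : ι → WeierstrassCurve K} (hW : ∀ i, Good Λ (W i))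
  {I : Finset ι} {ρ : ℝ} (hρ : Unif K Λ ρ) {L : IntermediateField K Λ} [FiniteDimensional K L]
  (hL : Unr L) {n : ι → ℕ} (hn : ∀ i ∈ I, 1 ≤ n i) {a : Pts W Λ} (ha : ∀ k, a k ∈ pts (W k) L)
include hW hρ hL hn ha

/-- two entries are changed by terms of higher level -/
theorem cube_sub {i j : ι} (hij : i ≠ j)
    (h : ∀ k ∈ I, k ≠ i → k ≠ j → Form (a k) ∧ ‖zp (a k)‖ ≤ ρ ^ n k)
    {u u' : Pt (W i) Λ} {v v' : Pt (W j) Λ} (hu : u ∈ pts (W i) L)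
    (hu' : u' ∈ pts (W i) L) (hv : v ∈ pts (W j) L) (hv' : v' ∈ pts (W j) L) (fu : Form u)
    (fu' : Form u') (fv : Form v) (fv' : Form v') (nu : ‖zp u‖ ≤ ρ ^ n i) (nv : ‖zp v‖ ≤ ρ ^ n j)
    (du : ‖zp u - zp u'‖ ≤ ρ ^ (n i + 1)) (dv : ‖zp v - zp v'‖ ≤ ρ ^ (n j + 1)) :
    Sy W L I (Function.update (Function.update a i u) j v) -
      Sy W L I (Function.update (Function.update a i u') j v') ∈
        Wt W p I ρ (∑ i ∈ I, n i + 1) := by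
  refine Sy_sub_mem hW hρ hL hn (update_mem (update_mem ha hu) hv)
    (update_mem (update_mem ha hu') hv') fun k hk => ?_
  by_cases hkj : k = j
  · subst hkj
    simp only [Function.update_self]
    exact ⟨fv, fv', nv, dv⟩
  rw [Function.update_of_ne hkj, Function.update_of_ne hkj]
  by_cases hki : k = i
  · subst hki
    simp only [Function.update_self]
    exact ⟨fu, fu', nu, du⟩
  rw [Function.update_of_ne hki, Function.update_of_ne hki]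
  obtain ⟨h1, h2⟩ := h k hk hki hkj
  exact ⟨h1, h1, h2, by simpa using pow_nonneg hρ.pos.le _⟩

/-- passing to the level `M` of the tower -/
theorem cube_up {i j : ι} (hj : j ∈ I) (hij : i ≠ j)
    (h : ∀ k ∈ I, k ≠ i → k ≠ j → Form (a k) ∧ ‖zp (a k)‖ ≤ ρ ^ n k) (T : Tower p L) {M : ℕ}
    (hM : 0 < M) {t : Λ} (ht : t ∈ T.U M) (ht1 : ‖t‖ ≤ 1)
    (htr : ‖∑ k : Fin M, (T.φ ^ (k : ℕ)) t - 1‖ < 1) {e : Λ} (he : e ∈ L) (he1 : ‖e‖ ≤ ρ ^ n j)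
    {u : Pt (W i) Λ} {v w : Pt (W j) Λ} (hu : u ∈ pts (W i) L) (hv : v ∈ pts (W j) L)
    (hw : w ∈ pts (W j) (T.U M)) (fu : Form u) (fv : Form v) (fw : Form w)
    (nu : ‖zp u‖ ≤ ρ ^ n i) (zv : ‖zp v - e‖ ≤ ρ ^ (n j + 1))
    (zw : ‖zp w - e * t‖ ≤ ρ ^ (n j + 1)) :
    Sy W L I (Function.update (Function.update a i u) j v) -
      Sy W (T.U M) I (Function.update (Function.update a i u) j w) ∈
        Wt W p I ρ (∑ i ∈ I, n i + 1) := by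
  obtain ⟨f1, z1⟩ := cube_tr (hW j) hρ hL T hM ht ht1 htr he (hn j hj) he1 fw zw
  rw [Sy_tr (short_of_good (p := p) hW) (T.fam hM) hj (update_mem ha hu) hw]
  refine cube_sub hW hρ hL hn ha hij h hu hu hv ((T.fam hM).tr_mem hw) fu fu fv f1 nu
    (cube_le (zv.trans (cube_pow hρ.pos hρ.lt (Nat.le_succ _))) he1)
    (by simpa using pow_nonneg hρ.pos.le _) (cube_tri zv ?_)
  rw [norm_sub_rev]
  exact z1

/-- scalars of the residue field move between two entries -/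
theorem Sy_scalar {i j : ι} (hi : i ∈ I) (hj : j ∈ I) (hij : i ≠ j)
    (h : ∀ k ∈ I, k ≠ i → k ≠ j → Form (a k) ∧ ‖zp (a k)‖ ≤ ρ ^ n k)
    {γ c e : Λ} (hγ : γ ∈ L) (hγ1 : ‖γ‖ ≤ 1) (hc : c ∈ L) (he : e ∈ L) (hc1 : ‖c‖ ≤ ρ ^ n i)
    (he1 : ‖e‖ ≤ ρ ^ n j) {u u' : Pt (W i) Λ} {v v' : Pt (W j) Λ} (hu : u ∈ pts (W i) L)
    (hu' : u' ∈ pts (W i) L) (hv : v ∈ pts (W j) L) (hv' : v' ∈ pts (W j) L) (fu : Form u)
    (fu' : Form u') (fv : Form v) (fv' : Form v') (zu : ‖zp u - γ * c‖ ≤ ρ ^ (n i + 1))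
    (zv : ‖zp v - e‖ ≤ ρ ^ (n j + 1)) (zu' : ‖zp u' - c‖ ≤ ρ ^ (n i + 1))
    (zv' : ‖zp v' - γ * e‖ ≤ ρ ^ (n j + 1)) :
    Sy W L I (Function.update (Function.update a i u) j v) -
      Sy W L I (Function.update (Function.update a i u') j v') ∈
        Wt W p I ρ (∑ i ∈ I, n i + 1) := by
  have hpos : ∀ a : ℕ, (0 : ℝ) ≤ ρ ^ a := fun a => pow_nonneg hρ.pos.le a
  have hstep : ∀ m : ℕ, ρ ^ (m + 1) ≤ ρ ^ m := fun m => cube_pow hρ.pos hρ.lt (Nat.le_succ m)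
  have hmul : ∀ {x : Λ} {r : ℝ}, ‖x‖ ≤ r → ‖γ * x‖ ≤ r := fun {x r} hx => by
    rw [norm_mul]
    exact (mul_le_of_le_one_left (norm_nonneg _) hγ1).trans hx
  have nu : ‖zp u‖ ≤ ρ ^ n i := cube_le (zu.trans (hstep _)) (hmul hc1)
  have nv : ‖zp v‖ ≤ ρ ^ n j := cube_le (zv.trans (hstep _)) he1
  have nu' : ‖zp u'‖ ≤ ρ ^ n i := cube_le (zu'.trans (hstep _)) hc1
  have nv' : ‖zp v'‖ ≤ ρ ^ n j := cube_le (zv'.trans (hstep _)) (hmul he1)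
  rcases hγ1.lt_or_eq with hlt | heq
  · have hγρ : ‖γ‖ ≤ ρ := by simpa using hρ.le_succ (p := p) hL hγ (n := 0) (by simpa using hlt)
    have hsm : ∀ {x : Λ} {m : ℕ}, ‖x‖ ≤ ρ ^ m → ‖γ * x‖ ≤ ρ ^ (m + 1) := fun {x m} hx => by
      rw [norm_mul, pow_succ']
      exact mul_le_mul hγρ hx (norm_nonneg _) hρ.pos.le
    have f0 : ∀ k, Form (0 : Pt (W k) Λ) := fun k => Or.inl rfl
    have h1 := cube_sub hW hρ hL hn ha hij h hu (zero_mem _) hv hv fu (f0 i) fv fv nu nv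
      (by rw [(hW i).zp_zero (p := p), sub_zero]; exact cube_le zu (hsm hc1))
      (by simpa using hpos _)
    have h2 := cube_sub hW hρ hL hn ha hij h hu' hu' hv' (zero_mem _) fu' fu' fv' (f0 j) nu' nv'
      (by simpa using hpos _)
      (by rw [(hW j).zp_zero (p := p), sub_zero]; exact cube_le zv' (hsm he1))
    rw [Sy_eq_zero (a := Function.update (Function.update a i 0) j v) hi
      (by rw [Function.update_of_ne hij, Function.update_self]), sub_zero] at h1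
    rw [Sy_eq_zero (a := Function.update (Function.update a i u') j 0) hj
      (by rw [Function.update_self]), sub_zero] at h2
    exact sub_mem h1 h2
  obtain ⟨T⟩ := exists_tower (p := p) L
  obtain ⟨N₁, hN₁, H₁⟩ := cube_rel hW hρ hL hn ha hi hj hij T h hγ heq
  obtain ⟨N₂, hN₂, H₂⟩ := cube_rel hW hρ hL hn ha hi hj hij T h (one_mem L) norm_one
  have hM : 0 < N₁ * N₂ := Nat.mul_pos hN₁ hN₂
  obtain ⟨t, ht, ht1, htr⟩ := T.exists_trace_one hM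
  have hle := T.le (N₁ * N₂)
  have het : ‖e * t‖ ≤ ρ ^ n j := by
    rw [norm_mul]
    exact (mul_le_of_le_one_right (norm_nonneg _) ht1).trans he1
  have hetm : e * t ∈ T.U (N₁ * N₂) := mul_mem (hle he) ht
  have hγc : γ * c ∈ T.U (N₁ * N₂) := hle (mul_mem hγ hc)
  obtain ⟨w, hw, fw, zw⟩ := cube_pt (p := p) (hW j) hρ hetm (hn j hj) het
  obtain ⟨w', hw', fw', zw'⟩ :=
    cube_pt (p := p) (hW j) hρ (mul_mem (hle hγ) hetm) (hn j hj) (hmul het)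
  obtain ⟨s, hs, fs, zs⟩ := cube_pt (p := p) (hW i) hρ hetm (hn j hj) het
  obtain ⟨s', hs', fs', zs'⟩ := cube_pt (p := p) (hW j) hρ hγc (hn i hi) (hmul hc1)
  have A₁ := cube_up hW hρ hL hn ha hj hij h T hM ht ht1 htr he he1 hu hv hw fu fv fw nu zv zw
  have A₂ := cube_up hW hρ hL hn ha hj hij h T hM ht ht1 htr (mul_mem hγ he) (hmul he1) hu' hv'
    hw' fu' fv' fw' nu' zv' (by rw [mul_assoc]; exact zw')
  have B₁ := H₁ _ hM (dvd_mul_right _ _) c (e * t) u' s w' s' (hle hc) hetm hc1 het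
    (pts_mono hle hu') hs hw' hs' fu' fs fw' fs' zu' zw' zs zs'
  have B₂ := H₂ _ hM (dvd_mul_left _ _) (γ * c) (e * t) u s w s' hγc hetm (hmul hc1) het
    (pts_mono hle hu) hs hw hs' fu fs fw fs' zu (by rw [one_mul]; exact zw) zs
    (by rw [one_mul]; exact zs')
  have key := sub_mem (add_mem A₁ B₂) (add_mem A₂ B₁)
  convert key using 1
  abel

end Pool.Agent.Lib.MP_796ce4_ag
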