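import Pool.Agent.Lib.MP_796ce4_ag.G1

/-! The weight filtration and the linearity relation. -/

namespace Pool.Agent.Lib.MP_796ce4_ag

open WeierstrassCurve Polynomial Module
open scoped Classical IntermediateField

set_option linter.unusedSectionVars false

section defs
variable {K Λ ι : Type} [Field K] [NormedField Λ] [Algebra K Λ] (W : ι → WeierstrassCurve K)

variable (K Λ) in
/-- `ρ` is the norm of a uniformiser of `K` -/
structure Unif (ρ : ℝ) : Prop where
  pos : 0 < ρ
  lt : ρ < 1
  ex : ∃ π : K, ‖algebraMap K Λ π‖ = ρ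
  max : ∀ x : K, ‖algebraMap K Λ x‖ < 1 → ‖algebraMap K Λ x‖ ≤ ρ

/-- unramified symbols with entries of levels `n i` -/
noncomputable def TW (I : Finset ι) (ρ : ℝ) (n : ι → ℕ) : AddSubgroup (VV Λ W) :=
  TT W I Unr fun i a => Form a ∧ ‖zp a‖ ≤ ρ ^ n i

/-- symbols of weight at least `s`, and multiples of `p` -/
noncomputable def Wt (p : ℕ) (I : Finset ι) (ρ : ℝ) (s : ℕ) : AddSubgroup (VV Λ W) :=
  mulS p (Tall Λ W I) ⊔ ⨆ (n : ι → ℕ) (_ : ∀ i ∈ I, 1 ≤ n i) (_ : s ≤ ∑ i ∈ I, n i), TW W I ρ n

end defs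

variable {p : ℕ} {K Λ : Type} [Field K] [CharZero K] [NormedField Λ] [IsUltrametricDist Λ]
  [IsAlgClosed Λ] [Algebra K Λ] [IsGalois K Λ] [Loc p K Λ]

include p

theorem exists_unif : ∃ ρ, Unif K Λ ρ := by
  obtain ⟨ϖ, h1, h2, h3, h4⟩ := Loc.unif (p := p) (⊥ : IntermediateField K Λ) inferInstance
  obtain ⟨π, rfl⟩ := IntermediateField.mem_bot.1 h1
  exact ⟨_, norm_pos_iff.2 h2, h3, ⟨π, rfl⟩,
    fun x hx => h4 _ (IntermediateField.algebraMap_mem _ x) hx⟩

theorem Unif.le_succ {ρ : ℝ} (h : Unif K Λ ρ) {L : IntermediateField K Λ} (hL : Unr L) {x : Λ}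
    (hx : x ∈ L) {n : ℕ} (hn : ‖x‖ < ρ ^ n) : ‖x‖ ≤ ρ ^ (n + 1) := by
  obtain ⟨y, hy⟩ := hL x hx
  obtain ⟨π, hπ⟩ := h.ex
  have h0 : 0 < ρ ^ n := pow_pos h.pos n
  have e : ‖algebraMap K Λ (y / π ^ n)‖ = ‖x‖ / ρ ^ n := by
    rw [map_div₀, map_pow, norm_div, norm_pow, hπ, hy]
  have := h.max (y / π ^ n) (by rw [e, div_lt_one h0]; exact hn)
  rw [e, div_le_iff₀ h0] at this
  rw [pow_succ']
  exact this

omit p in
theorem cube0_mem_Wt {ι : Type} {W : ι → WeierstrassCurve K} {p : ℕ} {I : Finset ι} {ρ : ℝ}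
    {s : ℕ} {n : ι → ℕ} (h1 : ∀ i ∈ I, 1 ≤ n i) (h2 : s ≤ ∑ i ∈ I, n i) {v : VV Λ W}
    (hv : v ∈ TW W I ρ n) : v ∈ Wt W p I ρ s :=
  AddSubgroup.mem_sup_right (AddSubgroup.mem_iSup_of_mem n
    (AddSubgroup.mem_iSup_of_mem h1 (AddSubgroup.mem_iSup_of_mem h2 hv)))

variable {ι : Type} [Fintype ι] {W : ι → WeierstrassCurve K} (hW : ∀ i, Good Λ (W i))
  {I : Finset ι} {ρ : ℝ} (hρ : Unif K Λ ρ) {L : IntermediateField K Λ} [FiniteDimensional K L]
  (hL : Unr L) {n : ι → ℕ} (hn : ∀ i ∈ I, 1 ≤ n i) {a : Pts W Λ} (ha : ∀ k, a k ∈ pts (W k) L)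
include hW hρ hL hn ha

/-- only the leading terms of the entries matter -/
theorem Sy_sub_mem {b : Pts W Λ} (hb : ∀ k, b k ∈ pts (W k) L)
    (h : ∀ i ∈ I, Form (a i) ∧ Form (b i) ∧ ‖zp (a i)‖ ≤ ρ ^ n i ∧
      ‖zp (a i) - zp (b i)‖ ≤ ρ ^ (n i + 1)) :
    Sy W L I a - Sy W L I b ∈ Wt W p I ρ (∑ i ∈ I, n i + 1) := by
  have hS := short_of_good hW
  have le1 : ∀ k : ℕ, ρ ^ (k + 1) ≤ ρ ^ k := fun k =>
    pow_le_pow_of_le_one hρ.pos.le hρ.lt.le (Nat.le_succ k)
  have hb' : ∀ i ∈ I, ‖zp (b i)‖ ≤ ρ ^ n i := by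
    intro i hi
    obtain ⟨-, -, h3, h4⟩ := h i hi
    have e : zp (b i) = zp (a i) + -(zp (a i) - zp (b i)) := by ring
    rw [e]
    refine (IsUltrametricDist.norm_add_le_max _ _).trans (max_le h3 ?_)
    rw [norm_neg]
    exact h4.trans (le1 _)
  have key : ∀ J : Finset ι, J ⊆ I →
      Sy W L I a - Sy W L I (fun k => if k ∈ J then b k else a k) ∈
        Wt W p I ρ (∑ i ∈ I, n i + 1) := by
    intro J
    induction J using Finset.induction_on with
    | empty => intro _; simp
    | insert i J hiJ ih =>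
      intro hJ
      have hi : i ∈ I := hJ (Finset.mem_insert_self _ _)
      have ih' := ih ((Finset.subset_insert _ _).trans hJ)
      set c : Pts W Λ := fun k => if k ∈ J then b k else a k with hc
      have hcm : ∀ k, c k ∈ pts (W k) L := fun k => by
        simp only [hc]; split_ifs
        · exact hb k
        · exact ha k
      have e1 : (fun k => if k ∈ insert i J then b k else a k) = Function.update c i (b i) := by
        funext k
        by_cases hk : k = i
        · subst hk; simp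
        · simp [hc, hk]
      have e2 : c = Function.update c i (b i + (a i - b i)) := by
        rw [add_sub_cancel]
        have : c i = a i := by simp [hc, hiJ]
        rw [← this, Function.update_eq_self]
      have e3 := Sy_add hS hi hcm (hb i) (sub_mem (ha i) (hb i))
      rw [← e2] at e3
      have e4 : Sy W L I a - Sy W L I (Function.update c i (b i)) =
          Sy W L I a - Sy W L I c + Sy W L I (Function.update c i (a i - b i)) := by
        rw [e3]; abel
      rw [e1, e4]
      refine add_mem ih' (cube0_mem_Wt (n := Function.update n i (n i + 1)) ?_ ?_ ?_)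
      · intro k hk
        by_cases hki : k = i
        · subst hki; simp
        · rw [Function.update_of_ne hki]; exact hn k hk
      · rw [Finset.sum_update_of_mem hi, ← Finset.add_sum_erase I n hi, Finset.sdiff_singleton_eq_erase]
        omega
      · refine Sy_mem_TT hL (update_mem hcm (sub_mem (ha i) (hb i))) fun k hk => ?_
        by_cases hki : k = i
        · subst hki
          obtain ⟨h1, h2, h3, h4⟩ := h k hk
          simp only [Function.update_self]
          refine ⟨(hW k).form.sub_mem h1 h2, ?_⟩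
          have e : zp (a k - b k) =
              (zp (a k - b k) - (zp (a k) - zp (b k))) + (zp (a k) - zp (b k)) := by ring
          rw [e]
          refine (IsUltrametricDist.norm_add_le_max _ _).trans (max_le ?_ h4)
          refine ((hW k).zp_sub h1 h2).trans ?_
          refine (mul_le_mul h3 (hb' k hk) (norm_nonneg _) (pow_pos hρ.pos _).le).trans ?_
          rw [← pow_add]
          exact pow_le_pow_of_le_one hρ.pos.le hρ.lt.le (by have := hn k hk; omega)
        · simp only [Function.update_of_ne hki, hc]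
          split_ifs
          · exact ⟨(h k hk).2.1, hb' k hk⟩
          · exact ⟨(h k hk).1, (h k hk).2.2.1⟩
  have := key I le_rfl
  rwa [Sy_congr (a := fun k => if k ∈ I then b k else a k) (b := b)
    (fun i hi => if_pos hi)] at this

/-- if the entry `i` has the level `n i + n j`, the entry `j` may be arbitrary -/
theorem Sy_one_step {i j : ι} (hi : i ∈ I) (hj : j ∈ I) (hij : i ≠ j)
    (h : ∀ k ∈ I, k ≠ i → k ≠ j → Form (a k) ∧ ‖zp (a k)‖ ≤ ρ ^ n k)
    (h' : Form (a i) ∧ ‖zp (a i)‖ ≤ ρ ^ (n i + n j)) :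
    Sy W L I a ∈ Wt W p I ρ (∑ i ∈ I, n i + 1) := by
  have hS := short_of_good hW
  obtain ⟨T⟩ := exists_tower (p := p) L
  obtain ⟨N, hN, b, hb, hf⟩ := (hW j).red_div T (Loc.prime (p := p) (K := K) (Λ := Λ)).ne_zero
    (ha j)
  obtain ⟨a', ha', hf', hz, htr⟩ := (hW i).form_tr T hN (ha i) h'.1
  have := T.fin N hN
  have hU := T.unr_of hL hN
  have e1 := Sy_tr hS (T.fam hN) hi ha ha'
  rw [htr, Function.update_eq_self] at e1
  have haU : ∀ k, a k ∈ pts (W k) (T.U N) := fun k σ hσ => ha k σ (hσ.mono (T.le N))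
  set c : Pts W Λ := Function.update a i a' with hc
  have hcm : ∀ k, c k ∈ pts (W k) (T.U N) := update_mem haU ha'
  have hu : a j - p • b ∈ pts (W j) (T.U N) := sub_mem (haU j) (nsmul_mem hb p)
  have e2 : c = Function.update c j (p • b + (a j - p • b)) := by
    rw [add_sub_cancel]
    have : c j = a j := by simp [hc, hij.symm]
    rw [← this, Function.update_eq_self]
  have e3 := Sy_add hS hj hcm (nsmul_mem hb p) hu
  rw [← e2, Sy_nsmul hS hj hcm hb] at e3
  rw [← e1, e3]
  refine add_mem (AddSubgroup.mem_sup_left (mem_mulS.2 ⟨_, Sy_mem_TT trivial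
    (update_mem hcm hb) (fun _ _ => trivial), rfl⟩))
    (cube0_mem_Wt (n := Function.update (Function.update n i (n i + n j)) j 1) ?_ ?_ ?_)
  · intro k hk
    by_cases hkj : k = j
    · subst hkj; simp
    · rw [Function.update_of_ne hkj]
      by_cases hki : k = i
      · subst hki; have := hn k hk; simp only [Function.update_self]; omega
      · rw [Function.update_of_ne hki]; exact hn k hk
  · have hi' : i ∈ I.erase j := Finset.mem_erase.2 ⟨hij, hi⟩
    rw [Finset.sum_update_of_mem hj, Finset.sdiff_singleton_eq_erase,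
      Finset.sum_update_of_mem hi', Finset.sdiff_singleton_eq_erase,
      ← Finset.add_sum_erase I n hj, ← Finset.add_sum_erase _ n hi']
    omega
  · refine Sy_mem_TT hU (update_mem hcm hu) fun k hk => ?_
    by_cases hkj : k = j
    · subst hkj
      simp only [Function.update_self]
      exact ⟨hf, hρ.le_succ hU ((hW k).zp_mem hu) (n := 0) (by simpa using (hW k).zp_lt hf)⟩
    · simp only [Function.update_of_ne hkj, hc]
      by_cases hki : k = i
      · subst hki
        simp only [Function.update_self]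
        exact ⟨hf', hz.trans h'.2⟩
      · simp only [Function.update_of_ne hki]
        exact h k hk hki hkj

end Pool.Agent.Lib.MP_796ce4_ag
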