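import Pool.Agent.Lib.MP_796ce4_ag.Cube1b

/-! The antisymmetry relation. -/

namespace Pool.Agent.Lib.MP_796ce4_ag

open WeierstrassCurve Polynomial Module
open scoped Classical IntermediateField

set_option linter.unusedSectionVars false

variable {p : ℕ} {K Λ : Type} [Field K] [CharZero K] [NormedField Λ] [IsUltrametricDist Λ]
  [IsAlgClosed Λ] [Algebra K Λ] [IsGalois K Λ] [Loc p K Λ]

include p

theorem cube1_add_norm {E : WeierstrassCurve K} {P Q : Pt E Λ} (hQ : Gd Q)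
    (hy : ‖yc P - yc Q‖ < 1) : ‖yc P + yc Q‖ = 1 := by
  have h2 : ‖2 * yc Q‖ = 1 := by rw [norm_mul, norm_two K, hQ.2.2, one_mul]
  rw [← h2]
  refine norm_eq_of_sub_lt ?_
  rwa [h2, ← norm_neg, show -(2 * yc Q - (yc P + yc Q)) = yc P - yc Q by ring]

theorem cube1_disc_le {E : WeierstrassCurve K} (hE : Good Λ E) {P Q : Pt E Λ} (hP : Gd P)
    (hQ : Gd Q) (hx : ‖xc P - xc Q‖ < 1) (hy : ‖yc P - yc Q‖ < 1) :
    Form (P - Q) ∧ ‖zp (P - Q)‖ ≤ ‖xc P - xc Q‖ := by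
  obtain ⟨h1, h2⟩ := hE.disc_sub hP hQ hx hy
  refine ⟨h1, ?_⟩
  rw [← sub_add_cancel (zp (P - Q)) ((xc P - xc Q) / (yc P + yc Q))]
  refine (IsUltrametricDist.norm_add_le_max _ _).trans (max_le (h2.trans ?_) ?_)
  · nlinarith [norm_nonneg (xc P - xc Q)]
  · rw [norm_div, cube1_add_norm hQ hy, div_one]

/-- leading term of the parameter of a difference in one disc -/
theorem cube1_lead {E : WeierstrassCurve K} (hE : Good Λ E) {ρ : ℝ} (hρ : Unif K Λ ρ)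
    {L : IntermediateField K Λ} (hL : Unr L) {P Q : Pt E Λ} (mP : P ∈ pts E L) (mQ : Q ∈ pts E L)
    (hP : Gd P) (hQ : Gd Q) (hy : ‖yc P - yc Q‖ < 1) {m : ℕ} (hm : 1 ≤ m)
    (hx : ‖xc P - xc Q‖ ≤ ρ ^ m) {c : Λ} (hc1 : ‖c‖ ≤ ρ ^ m)
    (h : ‖xc P - xc Q - 2 * yc Q * c‖ ≤ ρ ^ (m + 1)) : ‖zp (P - Q) - c‖ ≤ ρ ^ (m + 1) := by
  have r1 : ρ ^ m ≤ ρ := pow_le_of_le_one hρ.pos.le hρ.lt.le (by omega)
  have r0 : 0 < ρ ^ m := pow_pos hρ.pos _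
  obtain ⟨-, h2⟩ := hE.disc_sub hP hQ (hx.trans_lt (r1.trans_lt hρ.lt)) hy
  have hs := cube1_add_norm hQ hy
  have hs0 : yc P + yc Q ≠ 0 := by rw [← norm_ne_zero_iff, hs]; exact one_ne_zero
  have hyy : ‖yc P - yc Q‖ ≤ ρ := by
    simpa using hρ.le_succ hL (sub_mem (mem_pts_iff.1 mP).2 (mem_pts_iff.1 mQ).2) (n := 0)
      (by simpa using hy)
  have e : zp (P - Q) - c = (zp (P - Q) - (xc P - xc Q) / (yc P + yc Q)) +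
      ((xc P - xc Q - 2 * yc Q * c) + -((yc P - yc Q) * c)) / (yc P + yc Q) := by
    field_simp
    ring
  rw [e]
  refine (IsUltrametricDist.norm_add_le_max _ _).trans (max_le (h2.trans ?_) ?_)
  · rw [pow_two, pow_succ]
    exact mul_le_mul hx (hx.trans r1) (norm_nonneg _) r0.le
  · rw [norm_div, hs, div_one]
    refine (IsUltrametricDist.norm_add_le_max _ _).trans (max_le h ?_)
    rw [norm_neg, norm_mul, pow_succ, mul_comm]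
    exact mul_le_mul hc1 hyy (norm_nonneg _) r0.le

variable {ι : Type} [Fintype ι] {W : ι → WeierstrassCurve K} (hW : ∀ i, Good Λ (W i))
  {I : Finset ι} {ρ : ℝ} (hρ : Unif K Λ ρ) {L : IntermediateField K Λ} [FiniteDimensional K L]
  (hL : Unr L) {n : ι → ℕ} (hn : ∀ i ∈ I, 1 ≤ n i) {a : Pts W Λ} (ha : ∀ k, a k ∈ pts (W k) L)
include hW hρ hL hn ha

theorem cube1_core {i j : ι} (hi : i ∈ I) (hj : j ∈ I) (hij : i ≠ j)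
    (h : ∀ k ∈ I, k ≠ i → k ≠ j → Form (a k) ∧ ‖zp (a k)‖ ≤ ρ ^ n k) {c d : Λ} (hc : c ∈ L)
    (hd : d ∈ L) (hc1 : ‖c‖ = 1) (hd1 : ‖d‖ ≤ 1)
    (hind : ∀ r, (cub ((W i).baseChange Λ)).eval r = 0 →
      (cub ((W j).baseChange Λ)).eval (c * r + d) ≠ 0)
    {x₀ x₁ x₂ ζ : Λ} {P₀ P₁ P₂ Pz : Pt (W i) Λ} {Q₀ Q₁ Q₂ Qz : Pt (W j) Λ}
    (o₀ : OnC W L i j c d x₀ P₀ Q₀) (o₁ : OnC W L i j c d x₁ P₁ Q₁)
    (o₂ : OnC W L i j c d x₂ P₂ Q₂) (oz : OnC W L i j c d ζ Pz Qz) (hζ : ‖ζ - x₀‖ = 1)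
    (d₁ : ‖x₁ - x₀‖ ≤ ρ ^ n i) (d₂ : ‖x₂ - x₀‖ ≤ ρ ^ n j) (p₁ : ‖yc P₁ - yc P₀‖ < 1)
    (p₂ : ‖yc P₂ - yc P₀‖ < 1) (q₁ : ‖yc Q₁ - yc Q₀‖ < 1) (q₂ : ‖yc Q₂ - yc Q₀‖ < 1)
    (h₁₀ : x₁ ≠ x₀) (h₂₀ : x₂ ≠ x₀) (h₁₂ : x₁ ≠ x₂) :
    pair W I L a i j (P₁ - P₀) (Q₂ - Q₀) + pair W I L a i j (P₂ - P₀) (Q₁ - Q₀) ∈
      Wt W p I ρ (∑ i ∈ I, n i + 1) := by
  have lt1 : ∀ k ∈ I, ρ ^ n k < 1 := fun k hk =>
    pow_lt_one₀ hρ.pos.le hρ.lt (by have := hn k hk; omega)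
  have d₁' := d₁.trans_lt (lt1 i hi)
  have d₂' := d₂.trans_lt (lt1 j hj)
  have hlin : Intg (C c * X + C d) := ((intg_C hc1.le).mul intg_X).add (intg_C hd1)
  obtain ⟨A, α, x₃, z, z', hA, hα, hα0, m₃, mz, mz', hN, hr, e₃, ez, ez', v₀, v₁, v₂, v₃, vz,
      vz'⟩ := exists_cube_poly (p := p) (L := L) (F := cub ((W i).baseChange Λ) *
      (cub ((W j).baseChange Λ)).comp (C c * X + C d))
    ((over_cub _).mul ((over_cub _).comp (((over_C hc).mul over_X).add (over_C hd))))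
    ((hW i).intg.mul ((hW j).intg.comp hlin))
    (natDegree_mul_le.trans (by
      have h3 : ∀ k, (cub ((W k).baseChange Λ)).natDegree = 3 := fun k =>
        natDegree_cub (E := Affine.baseChange (W k) Λ)
      have := natDegree_comp_le (p := cub ((W j).baseChange Λ)) (q := C c * X + C d)
      have := natDegree_linear_le (a := c) (b := d)
      rw [h3] at *
      nlinarith))
    o₀.mem.1 o₁.mem.1 o₂.mem.1 o₀.mem.2 o₁.mem.2 o₂.mem.2 oz.mem.1 oz.mem.2 (o₀.xP ▸ o₀.gP.2.1)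
    (oz.xP ▸ oz.gP.2.1) o₀.norm oz.norm d₁' d₂' hζ (cube1_mul_sub o₁.gP.2.2 o₀.gQ.2.2 p₁ q₁)
    (cube1_mul_sub o₂.gP.2.2 o₀.gQ.2.2 p₂ q₂) (o₀.sq hW) (o₁.sq hW) (o₂.sq hW) (oz.sq hW) h₁₀ h₂₀
    h₁₂
  have hb : ‖x₁ - x₀‖ * ‖x₂ - x₀‖ ≤ ρ ^ (n i + n j) := by
    rw [pow_add]
    exact mul_le_mul d₁ d₂ (norm_nonneg _) (pow_pos hρ.pos _).le
  have hb1 : ‖x₁ - x₀‖ * ‖x₂ - x₀‖ < 1 :=
    mul_lt_one_of_nonneg_of_lt_one_left (norm_nonneg _) d₁' d₂'.le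
  have d₃ : ‖x₃ - x₀‖ < 1 := by
    have : x₃ - x₀ = (x₃ + x₀ - x₁ - x₂) + ((x₁ - x₀) + (x₂ - x₀)) := by ring
    rw [this]
    exact (IsUltrametricDist.norm_add_le_max _ _).trans_lt (max_lt (e₃.trans_lt hb1)
      ((IsUltrametricDist.norm_add_le_max _ _).trans_lt (max_lt d₁' d₂')))
  obtain ⟨P₃, Q₃, o₃, p₃, q₃⟩ := o₀.disc hW hc hd hc1 m₃ d₃
  obtain ⟨P₄, Q₄, o₄, p₄, q₄⟩ := oz.disc hW hc hd hc1 mz (ez.trans_lt hb1)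
  obtain ⟨P₅, Q₅, o₅, p₅, q₅⟩ := oz.disc hW hc hd hc1 mz' (ez'.trans_lt hb1)
  have sq : ∀ {x P Q}, OnC W L i j c d x P Q → x ∈ ({x₀, x₁, x₂, x₃, z, z'} : Multiset Λ) →
      (A.eval x / α) ^ 2 = (yc P * yc Q) ^ 2 := fun {x P Q} o hx => by
    rw [← hr, mem_roots hN, IsRoot, eval_sub, eval_pow, eval_mul, eval_C, ← o.sq hW] at hx
    field_simp
    linear_combination hx
  have w₃ : A.eval x₃ = α * (yc P₃ * yc Q₃) := by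
    rw [← cube1_sign (K := K) (sq o₃ (by simp)) o₀.norm v₃
      (cube1_mul_sub o₃.gP.2.2 o₀.gQ.2.2 p₃ q₃)]
    field_simp
  have w₄ : A.eval z = α * (yc P₄ * yc Q₄) := by
    rw [← cube1_sign (K := K) (sq o₄ (by simp)) oz.norm vz
      (cube1_mul_sub o₄.gP.2.2 oz.gQ.2.2 p₄ q₄)]
    field_simp
  have w₅ : A.eval z' = α * -(yc P₅ * yc Q₅) := by
    rw [← cube1_sign (K := K) (u := -(A.eval z' / α)) (by rw [neg_sq]; exact sq o₅ (by simp))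
      oz.norm (by rwa [← norm_neg, neg_sub, sub_neg_eq_add, add_comm])
      (cube1_mul_sub o₅.gP.2.2 oz.gQ.2.2 p₅ q₅)]
    field_simp
  have key := cube1_R3 hW hij hc hd hc1 hind (z := ∏ k ∈ (I.erase i).erase j, dl W k (a k))
    (prod_mem fun k _ => dl_mem_ZL (ha k)) hA hα hα0 hN
    [(x₀, P₀, Q₀), (x₁, -P₁, Q₁), (x₂, -P₂, Q₂), (x₃, P₃, Q₃), (z, P₄, Q₄), (z', -P₅, Q₅)] hr (by
      simp only [List.mem_cons, List.not_mem_nil, or_false]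
      rintro t (rfl | rfl | rfl | rfl | rfl | rfl)
      · exact ⟨o₀, v₀⟩
      · exact ⟨(o₁.neg hW).1, by rw [(o₁.neg hW).2, v₁, mul_neg]⟩
      · exact ⟨(o₂.neg hW).1, by rw [(o₂.neg hW).2, v₂, mul_neg]⟩
      · exact ⟨o₃, w₃⟩
      · exact ⟨o₄, w₄⟩
      · exact ⟨(o₅.neg hW).1, by rw [(o₅.neg hW).2, w₅]⟩)
  simp only [List.map_cons, List.map_nil, List.sum_cons, List.sum_nil, mul_add, map_add, mul_zero,
    map_zero, ← pair_eq (p := p) hi hj hij] at key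
  let B : pts (W i) L →+ pts (W j) L →+ VV Λ W := AddMonoidHom.mk'
    (fun u => AddMonoidHom.mk' (fun v => pair W I L a i j u v) fun v v' =>
      pair_add_right hW ha hj u.2 v.2 v'.2) fun u u' => by
        ext v
        exact pair_add_left hW ha hi hij u.2 u'.2 v.2
  have hB : ∀ u v, B u v = pair W I L a i j u v := fun _ _ => rfl
  lift P₀ to pts (W i) L using o₀.mP
  lift P₁ to pts (W i) L using o₁.mP
  lift P₂ to pts (W i) L using o₂.mP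
  lift P₃ to pts (W i) L using o₃.mP
  lift P₄ to pts (W i) L using o₄.mP
  lift P₅ to pts (W i) L using o₅.mP
  lift Q₀ to pts (W j) L using o₀.mQ
  lift Q₁ to pts (W j) L using o₁.mQ
  lift Q₂ to pts (W j) L using o₂.mQ
  lift Q₃ to pts (W j) L using o₃.mQ
  lift Q₄ to pts (W j) L using o₄.mQ
  lift Q₅ to pts (W j) L using o₅.mQ
  simp only [← NegMemClass.coe_neg, ← hB, map_neg, AddMonoidHom.neg_apply, neg_neg] at key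
  simp only [← AddSubgroupClass.coe_sub, ← hB]
  have c₁ := (hW i).disc_cube o₀.gP o₁.gP o₂.gP o₃.gP (by rwa [o₁.xP, o₀.xP])
    (by rwa [o₂.xP, o₀.xP]) (by rwa [o₃.xP, o₀.xP]) p₁ p₂ p₃
  have cx : ∀ s t : Λ, ‖c * s + d - (c * t + d)‖ = ‖s - t‖ := fun s t => by
    rw [add_sub_add_right_eq_sub, ← mul_sub, norm_mul, hc1, one_mul]
  have c₂ := (hW j).disc_cube o₀.gQ o₁.gQ o₂.gQ o₃.gQ (by rwa [o₁.xQ, o₀.xQ, cx])
    (by rwa [o₂.xQ, o₀.xQ, cx]) (by rwa [o₃.xQ, o₀.xQ, cx]) q₁ q₂ q₃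
  rw [o₀.xP, o₁.xP, o₂.xP, o₃.xP] at c₁
  rw [o₀.xQ, o₁.xQ, o₂.xQ, o₃.xQ, cx, cx, show c * x₃ + d + (c * x₀ + d) - (c * x₁ + d) -
    (c * x₂ + d) = c * (x₃ + x₀ - x₁ - x₂) by ring, norm_mul, hc1, one_mul] at c₂
  have tri : ∀ {s t u : Λ} {r : ℝ}, ‖s - u‖ ≤ r → ‖t - u‖ ≤ r → ‖s - t‖ ≤ r := fun {s t u r} a b =>
    by
      rw [show s - t = (s - u) + -(t - u) by ring]
      exact (IsUltrametricDist.norm_add_le_max _ _).trans (max_le a (by rwa [norm_neg]))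
  have tri' : ∀ {s t u : Λ}, ‖s - u‖ < 1 → ‖t - u‖ < 1 → ‖s - t‖ < 1 := fun a b =>
    (tri (le_max_left _ _) (le_max_right _ _)).trans_lt (max_lt a b)
  have zz := tri ez ez'
  have c₃ := cube1_disc_le (hW i) o₄.gP o₅.gP (by rw [o₄.xP, o₅.xP]; exact zz.trans_lt hb1)
    (tri' p₄ p₅)
  have c₄ := cube1_disc_le (hW j) o₄.gQ o₅.gQ (by rw [o₄.xQ, o₅.xQ, cx]; exact zz.trans_lt hb1)
    (tri' q₄ q₅)
  rw [o₄.xP, o₅.xP] at c₃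
  rw [o₄.xQ, o₅.xQ, cx] at c₄
  have s₁ : B (P₃ + P₀ - P₁ - P₂) Q₃ ∈ _ := pair_small_left hW ha hi hj hij hρ hL hn h
    (P₃ + P₀ - P₁ - P₂).2 Q₃.2 c₁.1 (c₁.2.trans (max_le (e₃.trans hb) hb))
  have s₂ : B (P₁ + P₂ - P₀) (Q₃ + Q₀ - Q₁ - Q₂) ∈ _ := pair_small_right hW ha hi hj hij hρ hL hn h
    (P₁ + P₂ - P₀).2 (Q₃ + Q₀ - Q₁ - Q₂).2 c₂.1 (c₂.2.trans (max_le (e₃.trans hb) hb))
  have s₃ : B (P₄ - P₅) Q₄ ∈ _ := pair_small_left hW ha hi hj hij hρ hL hn h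
    (P₄ - P₅).2 Q₄.2 c₃.1 (c₃.2.trans (zz.trans hb))
  have s₄ : B P₅ (Q₄ - Q₅) ∈ _ := pair_small_right hW ha hi hj hij hρ hL hn h
    P₅.2 (Q₄ - Q₅).2 c₄.1 (c₄.2.trans (zz.trans hb))
  set Y := B (P₁ - P₀) (Q₂ - Q₀) + B (P₂ - P₀) (Q₁ - Q₀) with hY
  have hT : ∀ u v, B u v ∈ Tall Λ W I := fun u v =>
    Sy_mem_TT trivial (update_mem (update_mem ha u.2) v.2) fun _ _ => trivial
  have hp : p • Y ∈ Wt W p I ρ (∑ i ∈ I, n i + 1) :=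
    AddSubgroup.mem_sup_left (mem_mulS.2 ⟨Y, add_mem (hT _ _) (hT _ _), rfl⟩)
  have h2 : 2 • Y ∈ Wt W p I ρ (∑ i ∈ I, n i + 1) := by
    convert neg_mem (nsmul_mem (add_mem (add_mem s₁ s₂) (add_mem s₃ s₄)) 2) using 1
    rw [← sub_eq_zero, ← key, hY]
    simp only [map_add, map_sub, AddMonoidHom.add_apply, AddMonoidHom.sub_apply]
    abel
  obtain ⟨k, hk⟩ := (Loc.prime (K := K) (Λ := Λ)).odd_of_ne_two (Loc.odd (K := K) (Λ := Λ))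
  convert sub_mem hp (nsmul_mem h2 k) using 1
  rw [hk, add_nsmul, one_nsmul, mul_comm, mul_nsmul', add_sub_cancel_left]

/-- the antisymmetry relation given by a curve of slope `γ`, over a suitable extension -/
theorem cube_rel {i j : ι} (hi : i ∈ I) (hj : j ∈ I) (hij : i ≠ j) (T : Tower p L)
    (h : ∀ k ∈ I, k ≠ i → k ≠ j → Form (a k) ∧ ‖zp (a k)‖ ≤ ρ ^ n k)
    {γ : Λ} (hγ : γ ∈ L) (hγ1 : ‖γ‖ = 1) :
    ∃ N, 0 < N ∧ ∀ M, 0 < M → N ∣ M → ∀ (c e : Λ) (u u' : Pt (W i) Λ) (v v' : Pt (W j) Λ),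
      c ∈ T.U M → e ∈ T.U M → ‖c‖ ≤ ρ ^ n i → ‖e‖ ≤ ρ ^ n j →
      u ∈ pts (W i) (T.U M) → u' ∈ pts (W i) (T.U M) → v ∈ pts (W j) (T.U M) →
      v' ∈ pts (W j) (T.U M) → Form u → Form u' → Form v → Form v' →
      ‖zp u - c‖ ≤ ρ ^ (n i + 1) → ‖zp v - γ * e‖ ≤ ρ ^ (n j + 1) →
      ‖zp u' - e‖ ≤ ρ ^ (n j + 1) → ‖zp v' - γ * c‖ ≤ ρ ^ (n i + 1) →
      Sy W (T.U M) I (Function.update (Function.update a i u) j v) +
        Sy W (T.U M) I (Function.update (Function.update a i u') j v') ∈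
          Wt W p I ρ (∑ i ∈ I, n i + 1) := by
  have : CharZero Λ := charZero_of_loc K
  obtain ⟨N, hN, c₀, d, P₀, Pz, Q₀, Qz, mc, md, mP₀, mPz, mQ₀, mQz, gP₀, gPz, gQ₀, gQz, hc1, hd1,
    xQ₀, xQz, hζ, hγ', hind⟩ := cube1_base T (hW i) (hW j) hγ hγ1
  refine ⟨N, hN, fun M hM hNM c e u u' v v' hc he nc ne mu mu' mv mv' fu fu' fv fv' zu zv zu'
    zv' => ?_⟩
  have := T.fin M hM
  have hle := T.mono hN hM hNM
  have hU := T.unr_of hL hM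
  have ha' : ∀ k, a k ∈ pts (W k) (T.U M) := fun k => pts_mono (T.le M) (ha k)
  have o₀ : OnC W (T.U M) i j c₀ d (xc P₀) P₀ Q₀ :=
    ⟨pts_mono hle mP₀, pts_mono hle mQ₀, gP₀, gQ₀, rfl, xQ₀⟩
  have oz : OnC W (T.U M) i j c₀ d (xc Pz) Pz Qz :=
    ⟨pts_mono hle mPz, pts_mono hle mQz, gPz, gQz, rfl, xQz⟩
  have pert : ∀ (t s₁ s₂ : Λ) (m : ℕ), ∃ δ ∈ T.U M, ‖δ‖ ≤ ρ ^ m ∧ t + δ ≠ s₁ ∧ t + δ ≠ s₂ := by
    intro t s₁ s₂ m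
    obtain ⟨π, hπ⟩ := hρ.ex
    have h0 : algebraMap K Λ π ^ m ≠ 0 :=
      pow_ne_zero _ (by rw [← norm_pos_iff, hπ]; exact hρ.pos)
    have hk : ∀ k : ℕ, (k : Λ) * algebraMap K Λ π ^ m ∈ T.U M ∧
        ‖(k : Λ) * algebraMap K Λ π ^ m‖ ≤ ρ ^ m := fun k =>
      ⟨mul_mem (natCast_mem _ _) (pow_mem (IntermediateField.algebraMap_mem _ _) _), by
        rw [norm_mul, norm_pow, hπ]
        exact mul_le_of_le_one_left (pow_pos hρ.pos _).le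
          (IsUltrametricDist.norm_natCast_le_one Λ k)⟩
    have hinj : Function.Injective fun k : ℕ => t + (k : Λ) * algebraMap K Λ π ^ m :=
      fun a b hab => by simpa [h0] using hab
    obtain ⟨_, ⟨k, rfl⟩, hk'⟩ := (Set.infinite_range_of_injective hinj).exists_notMem_finset
      {s₁, s₂}
    exact ⟨_, (hk k).1, (hk k).2, by simpa using hk'⟩
  have y₀ := (mem_pts_iff.1 o₀.mP).2
  have n2 : ∀ t : Λ, ‖2 * yc P₀ * t‖ = ‖t‖ := fun t => by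
    rw [norm_mul, norm_mul, norm_two K, gP₀.2.2, one_mul, one_mul]
  have sc : ∀ m : ℕ, ρ ^ (m + 1) ≤ ρ ^ m := fun m =>
    pow_le_pow_of_le_one hρ.pos.le hρ.lt.le m.le_succ
  have um := IsUltrametricDist.norm_add_le_max (S := Λ)
  obtain ⟨δ₂, m₂, n₂, a₂, -⟩ := pert (2 * yc P₀ * e) 0 0 (n j + 1)
  obtain ⟨δ₁, m₁, n₁, a₁, b₁⟩ := pert (2 * yc P₀ * c) 0 (2 * yc P₀ * e + δ₂) (n i + 1)
  have d₁ : ‖2 * yc P₀ * c + δ₁‖ ≤ ρ ^ n i :=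
    (um _ _).trans (max_le (by rwa [n2]) (n₁.trans (sc _)))
  have d₂ : ‖2 * yc P₀ * e + δ₂‖ ≤ ρ ^ n j :=
    (um _ _).trans (max_le (by rwa [n2]) (n₂.trans (sc _)))
  have lt1 : ∀ k ∈ I, ρ ^ n k < 1 := fun k hk =>
    pow_lt_one₀ hρ.pos.le hρ.lt (by have := hn k hk; omega)
  have two : (2 : Λ) ∈ T.U M := by exact_mod_cast natCast_mem (T.U M) 2
  obtain ⟨P₁, Q₁, o₁, p₁, q₁⟩ := o₀.disc hW (hle mc) (hle md) hc1
    (x' := xc P₀ + (2 * yc P₀ * c + δ₁))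
    (add_mem o₀.mem.1 (add_mem (mul_mem (mul_mem two y₀) hc) m₁))
    (by rw [add_sub_cancel_left]; exact d₁.trans_lt (lt1 i hi))
  obtain ⟨P₂, Q₂, o₂, p₂, q₂⟩ := o₀.disc hW (hle mc) (hle md) hc1
    (x' := xc P₀ + (2 * yc P₀ * e + δ₂))
    (add_mem o₀.mem.1 (add_mem (mul_mem (mul_mem two y₀) he) m₂))
    (by rw [add_sub_cancel_left]; exact d₂.trans_lt (lt1 j hj))
  have core := cube1_core hW hρ hU hn ha' hi hj hij h (hle mc) (hle md) hc1 hd1 hind o₀ o₁ o₂ oz hζ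
    (by rwa [add_sub_cancel_left]) (by rwa [add_sub_cancel_left]) p₁ p₂ q₁ q₂ (by simpa using a₁)
    (by simpa using a₂) (by simpa using b₁)
  have hγρ : ‖c₀ * yc P₀ - γ * yc Q₀‖ ≤ ρ := by
    simpa using hρ.le_succ hU (sub_mem (mul_mem (hle mc) y₀)
      (mul_mem (T.le M hγ) (mem_pts_iff.1 o₀.mQ).2)) (n := 0) (by simpa using hγ')
  have main : ∀ {t δ : Λ} {m : ℕ} {P : Pt (W i) Λ} {Q : Pt (W j) Λ}, 1 ≤ m → ‖t‖ ≤ ρ ^ m →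
      ‖δ‖ ≤ ρ ^ (m + 1) → ‖2 * yc P₀ * t + δ‖ ≤ ρ ^ m →
      OnC W (T.U M) i j c₀ d (xc P₀ + (2 * yc P₀ * t + δ)) P Q → ‖yc P - yc P₀‖ < 1 →
      ‖yc Q - yc Q₀‖ < 1 → Form (P - P₀) ∧ Form (Q - Q₀) ∧ ‖zp (P - P₀) - t‖ ≤ ρ ^ (m + 1) ∧
        ‖zp (Q - Q₀) - γ * t‖ ≤ ρ ^ (m + 1) := fun {t δ m P Q} hm ht hδ hd o hp hq => by
    have l1 : ρ ^ m < 1 := pow_lt_one₀ hρ.pos.le hρ.lt (by omega)
    have e1 : xc P - xc P₀ = 2 * yc P₀ * t + δ := by rw [o.xP, add_sub_cancel_left]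
    have e2 : xc Q - xc Q₀ = c₀ * (2 * yc P₀ * t + δ) := by rw [o.xQ, xQ₀]; ring
    have e3 : ‖xc Q - xc Q₀‖ ≤ ρ ^ m := by rwa [e2, norm_mul, hc1, one_mul]
    refine ⟨((hW i).disc_sub o.gP gP₀ (by rw [e1]; exact hd.trans_lt l1) hp).1,
      ((hW j).disc_sub o.gQ gQ₀ (e3.trans_lt l1) hq).1,
      cube1_lead (hW i) hρ hU o.mP o₀.mP o.gP gP₀ hp hm (by rwa [e1]) ht
        (by rwa [e1, add_sub_cancel_left]),
      cube1_lead (hW j) hρ hU o.mQ o₀.mQ o.gQ gQ₀ hq hm e3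
        (by rwa [norm_mul, hγ1, one_mul]) ?_⟩
    rw [e2, show c₀ * (2 * yc P₀ * t + δ) - 2 * yc Q₀ * (γ * t) =
      c₀ * δ + 2 * (t * (c₀ * yc P₀ - γ * yc Q₀)) by ring]
    refine (um _ _).trans (max_le (by rwa [norm_mul, hc1, one_mul]) ?_)
    rw [norm_mul, norm_two K, one_mul, norm_mul, pow_succ]
    exact mul_le_mul ht hγρ (norm_nonneg _) (pow_pos hρ.pos _).le
  obtain ⟨f₁, g₁, z₁, w₁⟩ := main (hn i hi) nc n₁ d₁ o₁ p₁ q₁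
  obtain ⟨f₂, g₂, z₂, w₂⟩ := main (hn j hj) ne n₂ d₂ o₂ p₂ q₂
  have tri : ∀ {s t u : Λ} {r : ℝ}, ‖s - u‖ ≤ r → ‖t - u‖ ≤ r → ‖s - t‖ ≤ r := fun {s t u r} a b =>
    by
      rw [show s - t = (s - u) + -(t - u) by ring]
      exact (um _ _).trans (max_le a (by rwa [norm_neg]))
  have bd : ∀ {s t : Λ} {m : ℕ}, ‖s - t‖ ≤ ρ ^ (m + 1) → ‖t‖ ≤ ρ ^ m → ‖s‖ ≤ ρ ^ m :=
    fun {s t m} a b => by
      rw [← sub_add_cancel s t]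
      exact (um _ _).trans (max_le (a.trans (sc _)) b)
  have s₁ := pair_sub_mem hW ha' hi hj hij hρ hU hn h mu (sub_mem o₁.mP o₀.mP) mv
    (sub_mem o₂.mQ o₀.mQ) (hn i hi) (hn j hj) rfl fu f₁ fv g₂ (bd zu nc)
    (bd zv (by rwa [norm_mul, hγ1, one_mul])) (tri zu z₁) (tri zv w₂)
  have s₂ := pair_sub_mem hW ha' hi hj hij hρ hU hn h mu' (sub_mem o₂.mP o₀.mP) mv'
    (sub_mem o₁.mQ o₀.mQ) (hn j hj) (hn i hi) (add_comm _ _) fu' f₂ fv' g₁ (bd zu' ne)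
    (bd zv' (by rwa [norm_mul, hγ1, one_mul])) (tri zu' z₂) (tri zv' w₁)
  convert add_mem core (add_mem s₁ s₂) using 1
  simp only [pair]
  abel

end Pool.Agent.Lib.MP_796ce4_ag
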