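import Pool.Agent.Lib.MP_796ce4_ag.Red

/-! Estimates for the formal parameter. -/

namespace Pool.Agent.Lib.MP_796ce4_ag

open WeierstrassCurve Polynomial Module
open scoped Classical IntermediateField

set_option linter.unusedSectionVars false

section aux
variable {Λ : Type} [NormedField Λ] [IsUltrametricDist Λ]

theorem formal_add_le {x y : Λ} {r : ℝ} (hx : ‖x‖ ≤ r) (hy : ‖y‖ ≤ r) : ‖x + y‖ ≤ r :=
  (IsUltrametricDist.norm_add_le_max x y).trans (max_le hx hy)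

theorem formal_sub_le {x y : Λ} {r : ℝ} (hx : ‖x‖ ≤ r) (hy : ‖y‖ ≤ r) : ‖x - y‖ ≤ r := by
  rw [sub_eq_add_neg]
  exact formal_add_le hx (by rwa [norm_neg])

theorem formal_add_lt {x y : Λ} {r : ℝ} (hx : ‖x‖ < r) (hy : ‖y‖ < r) : ‖x + y‖ < r :=
  (IsUltrametricDist.norm_add_le_max x y).trans_lt (max_lt hx hy)

theorem formal_sub_lt {x y : Λ} {r : ℝ} (hx : ‖x‖ < r) (hy : ‖y‖ < r) : ‖x - y‖ < r := by
  rw [sub_eq_add_neg]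
  exact formal_add_lt hx (by rwa [norm_neg])

theorem formal_add_eq {x y : Λ} (h : ‖y‖ < ‖x‖) : ‖x + y‖ = ‖x‖ := by
  refine le_antisymm (formal_add_le le_rfl h.le) ?_
  by_contra h1
  have h2 := formal_sub_lt (not_le.1 h1) h
  rw [add_sub_cancel_right] at h2
  exact lt_irrefl _ h2

theorem formal_mul_le {x y : Λ} {r : ℝ} (hx : ‖x‖ ≤ 1) (hy : ‖y‖ ≤ r) : ‖x * y‖ ≤ r := by
  rw [norm_mul]
  exact (mul_le_of_le_one_left (norm_nonneg _) hx).trans hy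

theorem formal_mul_lt {x y : Λ} {r : ℝ} (hx : ‖x‖ ≤ 1) (hy : ‖y‖ < r) : ‖x * y‖ < r := by
  rw [norm_mul]
  exact (mul_le_of_le_one_left (norm_nonneg _) hx).trans_lt hy

theorem formal_nat_le (n : ℕ) : ‖(n : Λ)‖ ≤ 1 := IsUltrametricDist.norm_natCast_le_one Λ n

theorem formal_near_le {x y : Λ} (hy : ‖y‖ ≤ 1) (h : ‖x - y‖ < 1) : ‖x‖ ≤ 1 := by
  have := formal_add_le h.le hy
  rwa [sub_add_cancel] at this

theorem formal_near_eq {x y : Λ} (hy : ‖y‖ = 1) (h : ‖x - y‖ < 1) : ‖x‖ = 1 := by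
  have := formal_add_eq (x := y) (y := x - y) (by rwa [hy])
  rwa [add_sub_cancel, hy] at this

theorem formal_near_trans {x y z : Λ} (h : ‖x - y‖ < 1) (h' : ‖y - z‖ < 1) : ‖x - z‖ < 1 := by
  have := formal_add_lt h h'
  rwa [sub_add_sub_cancel] at this

theorem formal_near_symm {x y : Λ} (h : ‖x - y‖ < 1) : ‖y - x‖ < 1 := by
  rwa [norm_sub_rev]

theorem formal_unit_add (h2 : ‖(2 : Λ)‖ = 1) {x y : Λ} (hy : ‖y‖ = 1) (h : ‖x - y‖ < 1) :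
    ‖x + y‖ = 1 := by
  have h3 : ‖2 * y‖ = 1 := by rw [norm_mul, h2, hy, mul_one]
  refine formal_near_eq h3 ?_
  rwa [show x + y - 2 * y = x - y by ring]

/-- the size of `y` at a non-integral point -/
theorem formal_norm_y {a b c x y : Λ} (ha : ‖a‖ ≤ 1) (hb : ‖b‖ ≤ 1) (hc : ‖c‖ ≤ 1)
    (h : y ^ 2 = x ^ 3 + a * x ^ 2 + b * x + c) (hx : 1 < ‖x‖) : ‖y‖ ^ 2 = ‖x‖ ^ 3 := by
  have h1 : ‖x‖ ≤ ‖x‖ ^ 2 := by nlinarith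
  have h2 : ‖x‖ ^ 2 < ‖x‖ ^ 3 := by nlinarith
  have h3 : ‖a * x ^ 2 + b * x + c‖ ≤ ‖x‖ ^ 2 :=
    formal_add_le (formal_add_le (formal_mul_le ha (norm_pow x 2).le) (formal_mul_le hb h1))
      (hc.trans (hx.le.trans h1))
  rw [← norm_pow, h, add_assoc, add_assoc, ← add_assoc (a * x ^ 2), formal_add_eq, norm_pow]
  rw [norm_pow]
  exact h3.trans_lt h2

/-- three collinear non-integral points -/
theorem formal_three {a b c l m x₁ x₂ x₃ y₁ y₂ y₃ : Λ} (ha : ‖a‖ ≤ 1) (hb : ‖b‖ ≤ 1)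
    (hc : ‖c‖ ≤ 1) (h₁ : 1 < ‖x₁‖) (h₂ : 1 < ‖x₂‖) (h₃ : 1 < ‖x₃‖) (n₁ : y₁ ≠ 0) (n₂ : y₂ ≠ 0)
    (n₃ : y₃ ≠ 0) (e₁ : y₁ = l * x₁ + m) (e₂ : y₂ = l * x₂ + m) (e₃ : y₃ = l * x₃ + m)
    (s₁ : x₁ + x₂ + x₃ = l ^ 2 - a) (s₂ : x₁ * x₂ + x₁ * x₃ + x₂ * x₃ = b - 2 * l * m)
    (s₃ : x₁ * x₂ * x₃ = m ^ 2 - c) :
    ‖-x₁ / y₁ + -x₂ / y₂ + -x₃ / y₃‖ ≤ ‖-x₁ / y₁‖ * ‖-x₂ / y₂‖ * ‖-x₃ / y₃‖ := by
  have k₁ : 1 < ‖x₁‖ * ‖x₂‖ := by nlinarith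
  have k₂ : 1 < ‖x₁‖ * ‖x₃‖ := by nlinarith
  have k₃ : 1 < ‖x₂‖ * ‖x₃‖ := by nlinarith
  have hX : ‖x₁ * x₂ * x₃‖ = ‖x₁‖ * ‖x₂‖ * ‖x₃‖ := by rw [norm_mul, norm_mul]
  have hX1 : 1 < ‖x₁ * x₂ * x₃‖ := by rw [hX]; nlinarith
  have hm : ‖m‖ ^ 2 = ‖x₁ * x₂ * x₃‖ := by
    rw [← norm_pow, show m ^ 2 = x₁ * x₂ * x₃ + c by rw [s₃]; ring,
      formal_add_eq (hc.trans_lt hX1)]
  have hl : ‖l‖ ^ 2 ≤ ‖x₁ * x₂ * x₃‖ := by
    rw [← norm_pow, show l ^ 2 = x₁ + x₂ + x₃ + a by rw [s₁]; ring]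
    refine formal_add_le (formal_add_le (formal_add_le ?_ ?_) ?_) (ha.trans hX1.le)
    · rw [hX]; nlinarith
    · rw [hX]; nlinarith
    · rw [hX]; nlinarith
  have hlm : ‖l * m‖ ≤ ‖x₁ * x₂ * x₃‖ := by
    rw [norm_mul]
    nlinarith [sq_nonneg (‖l‖ - ‖m‖)]
  have key : -x₁ / y₁ + -x₂ / y₂ + -x₃ / y₃ =
      ((3 : ℕ) * (c * l ^ 2) - (2 : ℕ) * (b * (l * m)) + a * m ^ 2) / (y₁ * y₂ * y₃) := by
    have h4 : -(x₁ * y₂ * y₃ + x₂ * y₁ * y₃ + x₃ * y₁ * y₂) =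
        (3 : ℕ) * (c * l ^ 2) - (2 : ℕ) * (b * (l * m)) + a * m ^ 2 := by
      rw [e₁, e₂, e₃]
      push_cast
      linear_combination (-3 * l ^ 2) * s₃ - 2 * l * m * s₂ - m ^ 2 * s₁
    rw [← h4]
    field_simp
    ring
  have h5 : ‖((3 : ℕ) : Λ) * (c * l ^ 2) - (2 : ℕ) * (b * (l * m)) + a * m ^ 2‖ ≤
      ‖x₁ * x₂ * x₃‖ :=
    formal_add_le (formal_sub_le
      (formal_mul_le (formal_nat_le 3) (formal_mul_le hc (by rwa [norm_pow])))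
      (formal_mul_le (formal_nat_le 2) (formal_mul_le hb hlm)))
      (formal_mul_le ha (by rw [norm_pow, hm]))
  rw [key, norm_div, norm_div, norm_div, norm_div, norm_neg, norm_neg, norm_neg,
    div_mul_div_comm, div_mul_div_comm, ← hX, norm_mul (y₁ * y₂), norm_mul y₁]
  exact div_le_div_of_nonneg_right h5 (by positivity)

/-- the line through two points of one residue disc is integral -/
theorem formal_slope {a b l m x₁ x₂ x₃ y₁ y₂ : Λ} (ha : ‖a‖ ≤ 1) (hb : ‖b‖ ≤ 1)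
    (h₁ : ‖x₁‖ ≤ 1) (h₂ : ‖x₂‖ ≤ 1) (hy : ‖y₁ + y₂‖ = 1) (e₁ : y₁ = l * x₁ + m)
    (e₂ : y₂ = l * x₂ + m) (s₁ : x₁ + x₂ + x₃ = l ^ 2 - a)
    (s₂ : x₁ * x₂ + x₁ * x₃ + x₂ * x₃ = b - 2 * l * m) : ‖l‖ ≤ 1 := by
  have h3 : l * (y₁ + y₂) = (x₁ + x₂) * (x₁ + x₂) + a * (x₁ + x₂) + b - x₁ * x₂ := by
    rw [e₁, e₂]
    linear_combination -(x₁ + x₂) * s₁ + s₂
  have h4 : ‖x₁ + x₂‖ ≤ 1 := formal_add_le h₁ h₂
  have h5 : ‖l * (y₁ + y₂)‖ ≤ 1 := by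
    rw [h3]
    exact formal_sub_le (formal_add_le (formal_add_le (formal_mul_le h4 h4) (formal_mul_le ha h4))
      hb) (formal_mul_le h₁ h₂)
  rwa [norm_mul, hy, mul_one] at h5

/-- the line through a point and the opposite of a point of the same disc -/
theorem formal_disc {a l m x₁ x₂ x₃ y₁ y₂ y₃ : Λ} (ha : ‖a‖ ≤ 1) (h₁ : ‖x₁‖ ≤ 1) (h₂ : ‖x₂‖ ≤ 1)
    (hy₁ : ‖y₁‖ ≤ 1) (hy : ‖y₁ + y₂‖ = 1) (hx : ‖x₁ - x₂‖ < 1) (e₁ : y₁ = l * x₁ + m)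
    (e₂ : -y₂ = l * x₂ + m) (e₃ : -y₃ = l * x₃ + m) (s₁ : x₁ + x₂ + x₃ = l ^ 2 - a) :
    1 < ‖x₃‖ ∧ ‖-x₃ / y₃ - (x₁ - x₂) / (y₁ + y₂)‖ ≤ ‖x₁ - x₂‖ ^ 2 := by
  have h3 : y₁ + y₂ = l * (x₁ - x₂) := by linear_combination e₁ - e₂
  have h4 : ‖l‖ * ‖x₁ - x₂‖ = 1 := by rw [← norm_mul, ← h3, hy]
  have hd : 0 < ‖x₁ - x₂‖ := by
    refine (norm_nonneg _).lt_of_ne fun h => ?_
    rw [← h, mul_zero] at h4
    exact zero_ne_one h4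
  have hl : 1 < ‖l‖ := by nlinarith [norm_nonneg l]
  have hl2 : 1 < ‖l ^ 2‖ := by rw [norm_pow]; nlinarith
  have h5 : ‖x₃‖ = ‖l‖ ^ 2 := by
    rw [show x₃ = l ^ 2 + -(a + x₁ + x₂) by linear_combination s₁, formal_add_eq, norm_pow]
    rw [norm_neg]
    exact (formal_add_le (formal_add_le ha h₁) h₂).trans_lt hl2
  have hm : ‖m‖ ≤ ‖l‖ := by
    rw [show m = y₁ - x₁ * l by linear_combination -e₁]
    exact formal_sub_le (hy₁.trans hl.le) (formal_mul_le h₁ le_rfl)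
  have h6 : ‖y₃‖ = ‖l‖ ^ 3 := by
    have h7 : ‖l * x₃‖ = ‖l‖ ^ 3 := by rw [norm_mul, h5]; ring
    rw [← norm_neg, e₃, formal_add_eq, h7]
    rw [h7]
    nlinarith
  have hl0 : l ≠ 0 := norm_pos_iff.1 (zero_lt_one.trans hl)
  have hy3 : y₃ ≠ 0 := norm_pos_iff.1 (by rw [h6]; positivity)
  have hd0 : x₁ - x₂ ≠ 0 := norm_pos_iff.1 hd
  refine ⟨by rw [h5, ← norm_pow]; exact hl2, ?_⟩
  have h8 : -x₃ / y₃ - (x₁ - x₂) / (y₁ + y₂) = m / (l * y₃) := by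
    rw [h3]
    field_simp
    linear_combination e₃
  rw [h8, norm_div, norm_mul, h6, div_le_iff₀ (by positivity)]
  calc ‖m‖ ≤ ‖l‖ * 1 * 1 := by rwa [mul_one, mul_one]
    _ ≤ ‖l‖ * ‖l‖ * (‖l‖ * ‖x₁ - x₂‖) ^ 2 := by
        rw [h4, one_pow]
        gcongr
    _ = _ := by ring

/-- two lines through a common point -/
theorem formal_two {a b l m l' m' x₀ x₁ x₂ x₃ s t y₀ y₁ : Λ} (hl : ‖l‖ ≤ 1) (hl' : ‖l'‖ ≤ 1)
    (hy : ‖y₁ + y₀‖ = 1) (hx : ‖x₁ - x₀‖ < 1) (e₁ : y₁ = l * x₁ + m) (e₀ : y₀ = l' * x₀ + m')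
    (f : t = l * s + m) (f' : t = l' * s + m') (s₁ : x₁ + x₂ + s = l ^ 2 - a)
    (s₂ : x₁ * x₂ + x₁ * s + x₂ * s = b - 2 * l * m) (s₁' : x₀ + x₃ + s = l' ^ 2 - a)
    (s₂' : x₀ * x₃ + x₀ * s + x₃ * s = b - 2 * l' * m') :
    ‖x₃ + x₀ - x₁ - x₂‖ ≤ ‖x₁ - x₀‖ * ‖x₂ - x₀‖ := by
  have h1 : x₃ + x₀ - x₁ - x₂ = (l + l') * (l' - l) := by linear_combination s₁' - s₁
  have h2 : (l' - l) * (y₁ + y₀ - l * (x₁ - x₀)) = (x₁ - x₀) * (x₂ - x₀) := by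
    rw [e₁, e₀]
    linear_combination s₂' - s₂ - (x₀ + s) * (s₁' - s₁) - (l + l') * (f - f')
  have h3 : ‖y₁ + y₀ - l * (x₁ - x₀)‖ = 1 := by
    refine formal_near_eq hy ?_
    rw [sub_sub_cancel_left, norm_neg]
    exact formal_mul_lt hl hx
  rw [h1, ← norm_mul, ← h2, norm_mul (l' - l), h3, mul_one]
  exact formal_mul_le (formal_add_le hl hl') le_rfl

end aux

variable {p : ℕ} {K Λ : Type} [Field K] [CharZero K] [NormedField Λ] [IsUltrametricDist Λ]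
  [IsAlgClosed Λ] [Algebra K Λ] [IsGalois K Λ] [Loc p K Λ]

include p

variable {E : WeierstrassCurve K} (hE : Good Λ E) {L : IntermediateField K Λ}
include hE

theorem Good.formal_a₁ : (Affine.baseChange E Λ).a₁ = 0 := by
  change algebraMap K Λ E.a₁ = 0
  rw [hE.a₁, map_zero]

theorem Good.formal_a₃ : (Affine.baseChange E Λ).a₃ = 0 := by
  change algebraMap K Λ E.a₃ = 0
  rw [hE.a₃, map_zero]

theorem Good.formal_a₂ : ‖(Affine.baseChange E Λ).a₂‖ ≤ 1 := hE.a₂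
theorem Good.formal_a₄ : ‖(Affine.baseChange E Λ).a₄‖ ≤ 1 := hE.a₄
theorem Good.formal_a₆ : ‖(Affine.baseChange E Λ).a₆‖ ≤ 1 := hE.a₆

theorem Good.formal_Δ : (Affine.baseChange E Λ).Δ ≠ 0 := by
  have h : (Affine.baseChange E Λ).Δ = algebraMap K Λ E.Δ := E.map_Δ _
  rw [h, ← norm_pos_iff, hE.Δ]
  exact zero_lt_one

theorem Good.formal_norm {P : Pt E Λ} (h : Form P) (h0 : P ≠ 0) :
    1 < ‖xc P‖ ∧ ‖yc P‖ ^ 2 = ‖xc P‖ ^ 3 ∧ yc P ≠ 0 := by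
  have h1 := h.resolve_left h0
  have h2 := yc_sq hE.formal_a₁ hE.formal_a₃ h0
  rw [eval_cub] at h2
  have h3 := formal_norm_y hE.formal_a₂ hE.formal_a₄ hE.formal_a₆ h2 h1
  refine ⟨h1, h3, fun h4 => ?_⟩
  rw [h4, norm_zero] at h3
  have : 0 < ‖xc P‖ ^ 3 := by positivity
  linarith

theorem Good.zp_zero : zp (0 : Pt E Λ) = 0 := by
  rw [zp, yc_zero, div_zero]
theorem Good.zp_neg (P : Pt E Λ) : zp (-P) = -zp P := by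
  rw [zp, zp, xc_neg, yc_neg hE.formal_a₁ hE.formal_a₃, div_neg]
theorem Good.zp_gal (σ : Λ ≃ₐ[K] Λ) (P : Pt E Λ) : zp (galP E σ P) = σ (zp P) := by
  rw [zp, zp, xc_galP, yc_galP, map_div₀, map_neg]
theorem Good.zp_mem {P : Pt E Λ} (h : P ∈ pts E L) : zp P ∈ L := by
  obtain ⟨hx, hy⟩ := mem_pts_iff.1 h
  exact div_mem (neg_mem hx) hy
theorem Good.formal_xc {P : Pt E Λ} (h : Form P) (h0 : P ≠ 0) : ‖xc P‖ * ‖zp P‖ ^ 2 = 1 := by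
  obtain ⟨h1, h2, -⟩ := hE.formal_norm h h0
  rw [zp, norm_div, norm_neg, div_pow, h2]
  field_simp
theorem Good.zp_lt {P : Pt E Λ} (h : Form P) : ‖zp P‖ < 1 := by
  by_cases h0 : P = 0
  · rw [h0, hE.zp_zero, norm_zero]
    exact zero_lt_one
  · have h1 := (hE.formal_norm h h0).1
    have h2 := hE.formal_xc h h0
    by_contra h3
    nlinarith [one_le_pow₀ (n := 2) (not_lt.1 h3)]
theorem Good.zp_eq_zero {P : Pt E Λ} (h : Form P) (h0 : zp P = 0) : P = 0 := by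
  by_contra h1
  have h2 := hE.formal_xc h h1
  rw [h0, norm_zero, zero_pow two_ne_zero, mul_zero] at h2
  exact zero_ne_one h2
theorem Good.norm_xc {P : Pt E Λ} (h : Form P) (h0 : P ≠ 0) : ‖xc P‖ * ‖zp P‖ ^ 2 = 1 :=
  hE.formal_xc h h0
theorem Good.norm_yc {P : Pt E Λ} (h : Form P) (h0 : P ≠ 0) : ‖yc P‖ * ‖zp P‖ ^ 3 = 1 := by
  obtain ⟨h1, h2, h3⟩ := hE.formal_norm h h0
  have h4 : ‖yc P‖ ≠ 0 := norm_ne_zero_iff.2 h3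
  rw [zp, norm_div, norm_neg, div_pow, ← h2]
  field_simp

theorem Good.zp_add {P Q : Pt E Λ} (hP : Form P) (hQ : Form Q) :
    ‖zp (P + Q) - zp P - zp Q‖ ≤ ‖zp P‖ * ‖zp Q‖ := by
  have h0 : 0 ≤ ‖zp P‖ * ‖zp Q‖ := by positivity
  by_cases hP0 : P = 0
  · rw [hP0, zero_add, hE.zp_zero, sub_zero, sub_self, norm_zero, zero_mul]
  by_cases hQ0 : Q = 0
  · rw [hQ0, add_zero, hE.zp_zero, sub_zero, sub_self, norm_zero, mul_zero]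
  by_cases hR0 : P + Q = 0
  · have h1 : zp Q = -zp P := by rw [← hE.zp_neg, neg_eq_of_add_eq_zero_right hR0]
    rw [hR0, hE.zp_zero, show 0 - zp P - zp Q = 0 by rw [h1]; ring, norm_zero]
    exact h0
  have hR : Form (-(P + Q)) := hE.form_neg (hE.form_add hP hQ)
  have hR1 : -(P + Q) ≠ 0 := neg_ne_zero.2 hR0
  obtain ⟨l, m, e₁, e₂, e₃, s₁, s₂, s₃⟩ :=
    (add3_iff hE.formal_a₁ hE.formal_a₃ hP0 hQ0 hR1).1 (add_neg_cancel _)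
  obtain ⟨a1, -, a2⟩ := hE.formal_norm hP hP0
  obtain ⟨b1, -, b2⟩ := hE.formal_norm hQ hQ0
  obtain ⟨c1, -, c2⟩ := hE.formal_norm hR hR1
  have h2 : ‖zp P + zp Q + zp (-(P + Q))‖ ≤ ‖zp P‖ * ‖zp Q‖ * ‖zp (-(P + Q))‖ :=
    formal_three hE.formal_a₂ hE.formal_a₄ hE.formal_a₆ a1 b1 c1 a2 b2 c2 e₁ e₂ e₃ s₁ s₂ s₃
  have h3 := h2.trans (mul_le_of_le_one_right h0 (hE.zp_lt hR).le)
  rwa [hE.zp_neg, ← norm_neg, show -(zp P + zp Q + -zp (P + Q)) = zp (P + Q) - zp P - zp Q by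
    ring] at h3
theorem Good.zp_add_le {P Q : Pt E Λ} (hP : Form P) (hQ : Form Q) :
    ‖zp (P + Q)‖ ≤ max ‖zp P‖ ‖zp Q‖ := by
  have h1 := (hE.zp_add hP hQ).trans (mul_le_of_le_one_right (norm_nonneg _) (hE.zp_lt hQ).le)
  have h2 := formal_add_le (formal_add_le (h1.trans (le_max_left _ ‖zp Q‖)) (le_max_right _ _))
    (le_max_left ‖zp P‖ ‖zp Q‖)
  rwa [sub_add_cancel, sub_add_cancel] at h2
theorem Good.zp_sub {P Q : Pt E Λ} (hP : Form P) (hQ : Form Q) :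
    ‖zp (P - Q) - (zp P - zp Q)‖ ≤ ‖zp P‖ * ‖zp Q‖ := by
  have h1 := hE.zp_add hP (hE.form_neg hQ)
  rwa [hE.zp_neg, norm_neg, ← sub_eq_add_neg,
    show zp (P - Q) - zp P - -zp Q = zp (P - Q) - (zp P - zp Q) by ring] at h1
theorem Good.zp_sum {T : Type} (s : Finset T) {P : T → Pt E Λ} {ρ : ℝ} (hρ : 0 ≤ ρ)
    (hP : ∀ t ∈ s, Form (P t) ∧ ‖zp (P t)‖ ≤ ρ) :
    ‖zp (∑ t ∈ s, P t)‖ ≤ ρ ∧ ‖zp (∑ t ∈ s, P t) - ∑ t ∈ s, zp (P t)‖ ≤ ρ ^ 2 := by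
  induction s using Finset.induction_on with
  | empty =>
    rw [Finset.sum_empty, Finset.sum_empty, hE.zp_zero, sub_zero, norm_zero]
    exact ⟨hρ, sq_nonneg _⟩
  | insert t s ht ih =>
    have h1 := fun u hu => hP u (Finset.mem_insert_of_mem hu)
    obtain ⟨h2, h3⟩ := ih h1
    obtain ⟨h4, h5⟩ := hP t (Finset.mem_insert_self _ _)
    have h6 : Form (∑ u ∈ s, P u) := hE.form.sum_mem fun u hu => (h1 u hu).1
    rw [Finset.sum_insert ht, Finset.sum_insert ht]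
    refine ⟨(hE.zp_add_le h4 h6).trans (max_le h5 h2), ?_⟩
    have h7 : ‖zp (P t)‖ * ‖zp (∑ u ∈ s, P u)‖ ≤ ρ ^ 2 := by
      rw [sq]
      exact mul_le_mul h5 h2 (norm_nonneg _) hρ
    have h8 := formal_add_le ((hE.zp_add h4 h6).trans h7) h3
    rwa [sub_add_sub_cancel, sub_sub] at h8
theorem Good.zp_nsmul {P : Pt E Λ} (hP : Form P) (m : ℕ) :
    ‖zp (m • P)‖ ≤ ‖zp P‖ ∧ ‖zp (m • P) - m * zp P‖ ≤ ‖zp P‖ ^ 2 := by
  have h := hE.zp_sum (Finset.range m) (P := fun _ => P) (norm_nonneg (zp P))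
    fun _ _ => ⟨hP, le_rfl⟩
  rwa [Finset.sum_const, Finset.sum_const, Finset.card_range, nsmul_eq_mul] at h

theorem Good.exists_zp {z : Λ} (hz : z ∈ L) (h : ‖z‖ < 1) :
    ∃ P ∈ pts E L, Form P ∧ ‖zp P‖ = ‖z‖ ∧ ‖zp P - z‖ ≤ ‖z‖ ^ 2 := by
  by_cases h0 : z = 0
  · refine ⟨0, zero_mem _, Or.inl rfl, by rw [hE.zp_zero, h0], ?_⟩
    rw [hE.zp_zero, h0, sub_zero, norm_zero]
    exact sq_nonneg _
  have h2 : ‖(2 : Λ)‖ = 1 := norm_two K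
  have hn : 0 < ‖z‖ := norm_pos_iff.2 h0
  set a := (Affine.baseChange E Λ).a₂ with ha
  set b := (Affine.baseChange E Λ).a₄ with hb
  set c := (Affine.baseChange E Λ).a₆ with hc
  have hz2 : ‖z ^ 2‖ ≤ 1 := by rw [norm_pow]; exact pow_le_one₀ hn.le h.le
  have h3 : ‖(a + z ^ 2 * (b + z ^ 2 * c)) * z ^ 2‖ ≤ ‖z‖ ^ 2 :=
    formal_mul_le (formal_add_le hE.formal_a₂ (formal_mul_le hz2
      (formal_add_le hE.formal_a₄ (formal_mul_le hz2 hE.formal_a₆)))) (norm_pow z 2).le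
  have h4 : ‖z‖ ^ 2 ≤ ‖z‖ := by nlinarith
  have hL : 1 + (a + z ^ 2 * (b + z ^ 2 * c)) * z ^ 2 ∈ L :=
    add_mem (one_mem _) (mul_mem (add_mem (L.algebraMap_mem E.a₂) (mul_mem (pow_mem hz 2)
      (add_mem (L.algebraMap_mem E.a₄) (mul_mem (pow_mem hz 2) (L.algebraMap_mem E.a₆)))))
      (pow_mem hz 2))
  obtain ⟨t, htL, ht, ht1⟩ := exists_sqrt_mem hL (one_mem L) norm_one (by
    rw [one_pow, sub_add_cancel_left, norm_neg]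
    exact (h3.trans h4).trans_lt h)
  have ht2 : ‖t‖ = 1 := formal_near_eq norm_one ht1
  have ht0 : t ≠ 0 := norm_pos_iff.1 (by rw [ht2]; exact zero_lt_one)
  have ht3 : ‖t - 1‖ ≤ ‖z‖ := by
    have h5 : (t - 1) * (t + 1) = (a + z ^ 2 * (b + z ^ 2 * c)) * z ^ 2 := by
      linear_combination ht
    rw [← h5, norm_mul, formal_unit_add h2 norm_one ht1, mul_one] at h3
    exact h3.trans h4
  obtain ⟨P, -, hx, hy⟩ := exists_pt hE.formal_a₁ hE.formal_a₃ hE.formal_Δ (x := 1 / z ^ 2)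
    (y := -t / z ^ 3) (by
      rw [eval_cub, ← ha, ← hb, ← hc, div_pow, neg_sq, ht]
      field_simp
      ring)
  have h6 : zp P = z / t := by
    rw [zp, hx, hy]
    field_simp
  refine ⟨P, mem_pts_iff.2 ⟨?_, ?_⟩, Or.inr ?_, ?_, ?_⟩
  · rw [hx]
    exact div_mem (one_mem _) (pow_mem hz 2)
  · rw [hy]
    exact div_mem (neg_mem htL) (pow_mem hz 3)
  · rw [hx, norm_div, norm_one, norm_pow, lt_div_iff₀ (by positivity), one_mul]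
    exact h4.trans_lt h
  · rw [h6, norm_div, ht2, div_one]
  · rw [h6, show z / t - z = -(z * (t - 1)) / t by field_simp; ring, norm_div, ht2, div_one,
      norm_neg, norm_mul, sq]
    gcongr

/-- a point of the residue disc of a good point with prescribed `x` -/
theorem Good.exists_disc {P : Pt E Λ} (hP : P ∈ pts E L) (hG : Gd P) {x : Λ} (hx : x ∈ L)
    (h : ‖x - xc P‖ < 1) : ∃ Q ∈ pts E L, Gd Q ∧ xc Q = x ∧ ‖yc Q - yc P‖ < 1 := by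
  obtain ⟨h0, h1, h2⟩ := hG
  have h3 : ‖x‖ ≤ 1 := formal_near_le h1 h
  obtain ⟨y, hyL, hy, hy1⟩ := exists_sqrt_mem ((over_cub E).eval hx) (mem_pts_iff.1 hP).2 h2 (by
    rw [yc_sq hE.formal_a₁ hE.formal_a₃ h0]
    exact (hE.intg.eval_sub_le h1 h3).trans_lt (formal_near_symm h))
  obtain ⟨Q, hQ, hQx, hQy⟩ := exists_pt hE.formal_a₁ hE.formal_a₃ hE.formal_Δ hy
  refine ⟨Q, mem_pts_iff.2 ⟨?_, ?_⟩, ⟨hQ, ?_, ?_⟩, hQx, ?_⟩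
  · rwa [hQx]
  · rwa [hQy]
  · rwa [hQx]
  · rw [hQy]
    exact formal_near_eq h2 hy1
  · rwa [hQy]

/-- difference of two points of one good residue disc -/
theorem Good.disc_sub {P Q : Pt E Λ} (hP : Gd P) (hQ : Gd Q) (hx : ‖xc P - xc Q‖ < 1)
    (hy : ‖yc P - yc Q‖ < 1) :
    Form (P - Q) ∧ ‖zp (P - Q) - (xc P - xc Q) / (yc P + yc Q)‖ ≤ ‖xc P - xc Q‖ ^ 2 := by
  by_cases h0 : P - Q = 0
  · refine ⟨Or.inl h0, ?_⟩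
    rw [h0, hE.zp_zero, sub_eq_zero.1 h0, sub_self, zero_div, sub_zero, norm_zero]
    exact sq_nonneg _
  obtain ⟨l, m, e₁, e₂, e₃, s₁, -, -⟩ :=
    (add3_iff hE.formal_a₁ hE.formal_a₃ hP.1 (neg_ne_zero.2 hQ.1) (neg_ne_zero.2 h0)).1
      (by abel)
  rw [xc_neg, yc_neg hE.formal_a₁ hE.formal_a₃] at e₂ e₃
  rw [xc_neg, xc_neg] at s₁
  obtain ⟨h1, h2⟩ := formal_disc hE.formal_a₂ hP.2.1 hQ.2.1 hP.2.2.le
    (formal_unit_add (norm_two K) hQ.2.2 hy) hx e₁ e₂ e₃ s₁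
  exact ⟨Or.inr h1, h2⟩

/-- second difference in one good residue disc -/
theorem Good.disc_cube {P₀ P₁ P₂ P₃ : Pt E Λ} (h₀ : Gd P₀) (h₁ : Gd P₁) (h₂ : Gd P₂) (h₃ : Gd P₃)
    (x₁ : ‖xc P₁ - xc P₀‖ < 1) (x₂ : ‖xc P₂ - xc P₀‖ < 1) (x₃ : ‖xc P₃ - xc P₀‖ < 1)
    (y₁ : ‖yc P₁ - yc P₀‖ < 1) (y₂ : ‖yc P₂ - yc P₀‖ < 1) (y₃ : ‖yc P₃ - yc P₀‖ < 1) :
    Form (P₃ + P₀ - P₁ - P₂) ∧ ‖zp (P₃ + P₀ - P₁ - P₂)‖ ≤
      max ‖xc P₃ + xc P₀ - xc P₁ - xc P₂‖ (‖xc P₁ - xc P₀‖ * ‖xc P₂ - xc P₀‖) := by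
  have h2 : ‖(2 : Λ)‖ = 1 := norm_two K
  obtain ⟨hQ, x₄, y₄⟩ := hE.gd_add (hE.disc_sub h₂ h₀ x₂ y₂).1 h₁
  set Q := P₂ - P₀ + P₁ with hQd
  have x₅ := formal_near_trans x₄ x₁
  have y₅ := formal_near_trans y₄ y₁
  have u₁ : ‖yc P₁ + yc P₂‖ = 1 :=
    formal_unit_add h2 h₂.2.2 (formal_near_trans y₁ (formal_near_symm y₂))
  have u₂ : ‖yc P₀ + yc Q‖ = 1 := formal_unit_add h2 hQ.2.2 (formal_near_symm y₅)
  have hS : -(P₁ + P₂) ≠ 0 := by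
    intro h
    rw [neg_eq_zero] at h
    rw [← neg_eq_of_add_eq_zero_right h, yc_neg hE.formal_a₁ hE.formal_a₃, add_neg_cancel,
      norm_zero] at u₁
    exact zero_ne_one u₁
  obtain ⟨l, m, e₁, e₂, e₃, s₁, s₂, -⟩ :=
    (add3_iff hE.formal_a₁ hE.formal_a₃ h₁.1 h₂.1 hS).1 (add_neg_cancel _)
  obtain ⟨l', m', e₁', e₂', e₃', s₁', s₂', -⟩ :=
    (add3_iff hE.formal_a₁ hE.formal_a₃ h₀.1 hQ.1 hS).1 (by rw [hQd]; abel)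
  have hl := formal_slope hE.formal_a₂ hE.formal_a₄ h₁.2.1 h₂.2.1 u₁ e₁ e₂ s₁ s₂
  have hl' := formal_slope hE.formal_a₂ hE.formal_a₄ h₀.2.1 hQ.2.1 u₂ e₁' e₂' s₁' s₂'
  have h4 := formal_two hl hl' (formal_unit_add h2 h₀.2.2 y₁) x₁ e₁ e₁' e₃ e₃' s₁ s₂ s₁' s₂'
  have x₆ := formal_near_trans x₃ (formal_near_symm x₅)
  have y₆ := formal_near_trans y₃ (formal_near_symm y₅)
  obtain ⟨h5, h6⟩ := hE.disc_sub h₃ hQ x₆ y₆
  rw [show P₃ + P₀ - P₁ - P₂ = P₃ - Q by rw [hQd]; abel]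
  refine ⟨h5, ?_⟩
  have h7 : ‖(xc P₃ - xc Q) / (yc P₃ + yc Q)‖ ≤ ‖xc P₃ - xc Q‖ := by
    rw [norm_div, formal_unit_add h2 hQ.2.2 y₆, div_one]
  have h8 := formal_add_le (h6.trans (by nlinarith [norm_nonneg (xc P₃ - xc Q)])) h7
  rw [sub_add_cancel] at h8
  refine h8.trans ?_
  rw [show xc P₃ - xc Q = xc P₃ + xc P₀ - xc P₁ - xc P₂ - (xc Q + xc P₀ - xc P₁ - xc P₂) by ring]
  exact formal_sub_le (le_max_left _ _) (h4.trans (le_max_right _ _))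

end Pool.Agent.Lib.MP_796ce4_ag
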