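import Pool.Agent.Lib.MP_796ce4_ag.R3
import Pool.Agent.Lib.MP_796ce4_ag.Formal

/-! The function on the curve through three points of one residue disc. -/

namespace Pool.Agent.Lib.MP_796ce4_ag

open WeierstrassCurve Polynomial Module
open scoped Classical IntermediateField

set_option linter.unusedSectionVars false

section aux
variable {Λ : Type} [NormedField Λ] [IsUltrametricDist Λ]

theorem cubea_add_le {a b : Λ} {c : ℝ} (ha : ‖a‖ ≤ c) (hb : ‖b‖ ≤ c) : ‖a + b‖ ≤ c :=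
  (IsUltrametricDist.norm_add_le_max a b).trans (max_le ha hb)

theorem cubea_sub_le {a b : Λ} {c : ℝ} (ha : ‖a‖ ≤ c) (hb : ‖b‖ ≤ c) : ‖a - b‖ ≤ c := by
  rw [sub_eq_add_neg]
  exact cubea_add_le ha (by rwa [norm_neg])

theorem cubea_add_lt {a b : Λ} {c : ℝ} (ha : ‖a‖ < c) (hb : ‖b‖ < c) : ‖a + b‖ < c :=
  (IsUltrametricDist.norm_add_le_max a b).trans_lt (max_lt ha hb)

theorem cubea_sub_lt {a b : Λ} {c : ℝ} (ha : ‖a‖ < c) (hb : ‖b‖ < c) : ‖a - b‖ < c := by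
  rw [sub_eq_add_neg]
  exact cubea_add_lt ha (by rwa [norm_neg])

theorem cubea_mul_le {a b : Λ} (hb : ‖b‖ ≤ 1) : ‖a * b‖ ≤ ‖a‖ := by
  rw [norm_mul]
  exact mul_le_of_le_one_right (norm_nonneg _) hb

theorem cubea_mul_le' {a b : Λ} (ha : ‖a‖ ≤ 1) : ‖a * b‖ ≤ ‖b‖ := by
  rw [mul_comm]
  exact cubea_mul_le ha

theorem cubea_unit {a b : Λ} (hb : ‖b‖ = 1) (h : ‖b - a‖ < 1) : ‖a‖ = 1 := by
  rw [norm_eq_of_sub_lt (x := b) (y := a) (by rwa [hb]), hb]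

theorem cubea_int {a b : Λ} (hb : ‖b‖ ≤ 1) (h : ‖a - b‖ < 1) : ‖a‖ ≤ 1 := by
  have := cubea_add_le h.le hb
  rwa [sub_add_cancel] at this

theorem cubea_sum_lt {c : ℝ} (hc : 0 < c) (s : Multiset Λ) (h : ∀ x ∈ s, ‖x‖ < c) :
    ‖s.sum‖ < c := by
  induction s using Multiset.induction_on with
  | empty => simpa using hc
  | cons a s ih =>
    rw [Multiset.sum_cons]
    exact cubea_add_lt (h a (Multiset.mem_cons_self _ _))
      (ih fun x hx => h x (Multiset.mem_cons_of_mem hx))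

theorem cubea_newton [IsAlgClosed Λ] {f : Λ[X]} {t : Λ} (hd : ‖f.derivative.eval t‖ = 1) :
    ∃ r, f.eval r = 0 ∧ ‖r - t‖ ≤ ‖f.eval t‖ := by
  by_cases h0 : f.eval t = 0
  · exact ⟨t, h0, by simp⟩
  by_contra hc
  push Not at hc
  have hp : 0 < ‖f.eval t‖ := norm_pos_iff.2 h0
  have h1 := (IsAlgClosed.splits f).eval_derivative_div_eval_of_ne_zero h0
  have h2 := cubea_sum_lt (inv_pos.2 hp) (f.roots.map fun z => 1 / (t - z)) (by
    intro x hx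
    obtain ⟨z, hz, rfl⟩ := Multiset.mem_map.1 hx
    have h3 := hc z (isRoot_of_mem_roots hz)
    rw [norm_sub_rev] at h3
    rw [one_div, norm_inv]
    exact inv_strictAnti₀ hp h3)
  rw [← h1, norm_div, hd, one_div] at h2
  exact lt_irrefl _ h2

end aux

variable {p : ℕ} {K Λ : Type} [Field K] [CharZero K] [NormedField Λ] [IsUltrametricDist Λ]
  [IsAlgClosed Λ] [Algebra K Λ] [IsGalois K Λ] [Loc p K Λ]

include p

theorem cubea_div {L : IntermediateField K Λ} {f : Λ[X]} (hL : Over L f) (hf : Intg f) {a : Λ}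
    (haL : a ∈ L) (ha : ‖a‖ ≤ 1) (h0 : f.eval a = 0) {n : ℕ} (hn : f.natDegree ≤ n + 1) :
    ∃ g : Λ[X], Over L g ∧ Intg g ∧ g.natDegree ≤ n ∧ f = (X - C a) * g := by
  refine ⟨f /ₘ (X - C a), hL.divByMonic (over_X.sub (over_C haL)) (monic_X_sub_C a),
    hf.divByMonic (intg_X.sub (intg_C ha)) (monic_X_sub_C a), ?_,
    (mul_divByMonic_eq_iff_isRoot.2 h0).symm⟩
  rw [natDegree_divByMonic f (monic_X_sub_C a), natDegree_X_sub_C]
  omega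

theorem cubea_hensel {L : IntermediateField K Λ} {f : Λ[X]} (hL : Over L f) (hf : Intg f) {t : Λ}
    (htL : t ∈ L) (ht : ‖t‖ ≤ 1) (h0 : ‖f.eval t‖ < 1) (hd : ‖f.derivative.eval t‖ = 1) :
    ∃ r ∈ L, f.eval r = 0 ∧ ‖r - t‖ ≤ ‖f.eval t‖ := by
  obtain ⟨r, hr, hrt⟩ := cubea_newton hd
  have h1 : ‖r - t‖ < 1 := hrt.trans_lt h0
  have h2 : ‖r‖ ≤ 1 := cubea_int ht h1
  refine ⟨r, hensel_mem (p := p) hL hf h2 hr (cubea_unit hd ?_) htL h1, hr, hrt⟩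
  refine (hf.derivative.eval_sub_le ht h2).trans_lt ?_
  rwa [norm_sub_rev]

theorem cubea_z {L : IntermediateField K Λ} {q l G : Λ[X]} (qL : Over L q) (lL : Over L l)
    (GO : Over L G) (hq : Intg q) (hl : Intg l) (hG : Intg G) {α ζ w : Λ} (mα : α ∈ L)
    (mζ : ζ ∈ L) (mw : w ∈ L) (hα : ‖α‖ < 1) (hζ : ‖ζ‖ ≤ 1) (hw : ‖w‖ = 1)
    (hqζ : ‖q.eval ζ‖ = 1) (hrel : w ^ 2 = l.eval ζ ^ 2 + q.eval ζ * G.eval ζ) :
    ∃ e ∈ L, ‖e‖ ≤ 1 ∧
      q.eval (ζ + α * e) * e ^ 2 - 2 * l.eval (ζ + α * e) * e - G.eval (ζ + α * e) = 0 ∧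
      ‖q.eval (ζ + α * e) * e - l.eval (ζ + α * e) - w‖ < 1 := by
  have h2 : ‖(2 : Λ)‖ = 1 := norm_two (p := p) K
  have hint : ∀ e : Λ, ‖e‖ ≤ 1 → ‖ζ + α * e‖ ≤ 1 := fun e he =>
    cubea_add_le hζ ((cubea_mul_le he).trans hα.le)
  have hnear : ∀ g : Λ[X], Intg g → ∀ e : Λ, ‖e‖ ≤ 1 → ‖g.eval (ζ + α * e) - g.eval ζ‖ < 1 := by
    intro g hg e he
    refine (hg.eval_sub_le (hint e he) hζ).trans_lt ?_
    rw [add_sub_cancel_left]
    exact (cubea_mul_le he).trans_lt hα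
  have hq0 : q.eval ζ ≠ 0 := by
    intro h
    rw [h, norm_zero] at hqζ
    exact zero_ne_one hqζ
  obtain ⟨e₀, he₀⟩ : ∃ e₀, e₀ = (l.eval ζ + w) / q.eval ζ := ⟨_, rfl⟩
  have e1 : q.eval ζ * e₀ = l.eval ζ + w := by rw [he₀]; field_simp
  have m0 : e₀ ∈ L := he₀ ▸ L.div_mem (L.add_mem (lL.eval mζ) mw) (qL.eval mζ)
  have n0 : ‖e₀‖ ≤ 1 := by
    rw [he₀, norm_div, hqζ, div_one]
    exact cubea_add_le (hl.eval_le hζ) hw.le
  have e2 : q.eval ζ * e₀ ^ 2 - 2 * l.eval ζ * e₀ - G.eval ζ = 0 := by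
    apply mul_left_cancel₀ hq0
    linear_combination (q.eval ζ * e₀ - l.eval ζ + w) * e1 + hrel
  have uL : Over L (C ζ + C α * X) := (over_C mζ).add ((over_C mα).mul over_X)
  have uI : Intg (C ζ + C α * X) := (intg_C hζ).add ((intg_C hα.le).mul intg_X)
  have m2 : (2 : Λ) ∈ L := by exact_mod_cast natCast_mem L 2
  obtain ⟨P, hP⟩ : ∃ P : Λ[X], P = q.comp (C ζ + C α * X) * X ^ 2 -
    C 2 * l.comp (C ζ + C α * X) * X - G.comp (C ζ + C α * X) := ⟨_, rfl⟩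
  have PL : Over L P := hP ▸ (((qL.comp uL).mul (over_X.pow 2)).sub
    (((over_C m2).mul (lL.comp uL)).mul over_X)).sub (GO.comp uL)
  have PI : Intg P := hP ▸ (((hq.comp uI).mul (intg_X.pow 2)).sub
    (((intg_C h2.le).mul (hl.comp uI)).mul intg_X)).sub (hG.comp uI)
  have Pe : ∀ e, P.eval e = q.eval (ζ + α * e) * e ^ 2 - 2 * l.eval (ζ + α * e) * e -
      G.eval (ζ + α * e) := fun e => by
    simp [hP, eval_comp]
  have Pd : P.derivative.eval e₀ = α * (q.derivative.eval (ζ + α * e₀) * e₀ ^ 2 -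
      2 * l.derivative.eval (ζ + α * e₀) * e₀ - G.derivative.eval (ζ + α * e₀)) +
      2 * (q.eval (ζ + α * e₀) * e₀ - l.eval (ζ + α * e₀)) := by
    simp [hP, eval_comp, derivative_comp]
    ring
  have n2 : ‖e₀ ^ 2‖ ≤ 1 := by
    rw [norm_pow]
    exact pow_le_one₀ (norm_nonneg _) n0
  have hP0 : ‖P.eval e₀‖ < 1 := by
    have : P.eval e₀ = (q.eval (ζ + α * e₀) - q.eval ζ) * e₀ ^ 2 -
        2 * ((l.eval (ζ + α * e₀) - l.eval ζ) * e₀) - (G.eval (ζ + α * e₀) - G.eval ζ) := by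
      rw [Pe]
      linear_combination e2
    rw [this]
    exact cubea_sub_lt (cubea_sub_lt ((cubea_mul_le n2).trans_lt (hnear q hq _ n0))
      ((cubea_mul_le' h2.le).trans_lt ((cubea_mul_le n0).trans_lt (hnear l hl _ n0))))
      (hnear G hG _ n0)
  have hPd : ‖P.derivative.eval e₀‖ = 1 := by
    refine cubea_unit (b := 2 * w) (by rw [norm_mul, h2, hw, one_mul]) ?_
    have : 2 * w - P.derivative.eval e₀ = 2 * ((l.eval (ζ + α * e₀) - l.eval ζ) -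
        (q.eval (ζ + α * e₀) - q.eval ζ) * e₀) - α * (q.derivative.eval (ζ + α * e₀) * e₀ ^ 2 -
      2 * l.derivative.eval (ζ + α * e₀) * e₀ - G.derivative.eval (ζ + α * e₀)) := by
      rw [Pd]
      linear_combination (-2) * e1
    rw [this]
    refine cubea_sub_lt ((cubea_mul_le' h2.le).trans_lt (cubea_sub_lt (hnear l hl _ n0)
      ((cubea_mul_le n0).trans_lt (hnear q hq _ n0)))) ((cubea_mul_le ?_).trans_lt hα)
    exact cubea_sub_le (cubea_sub_le ((cubea_mul_le n2).trans (hq.derivative.eval_le (hint _ n0)))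
      ((cubea_mul_le n0).trans ((cubea_mul_le' h2.le).trans (hl.derivative.eval_le (hint _ n0)))))
      (hG.derivative.eval_le (hint _ n0))
  obtain ⟨e, me, he, hee⟩ := cubea_hensel (p := p) PL PI m0 n0 hP0 hPd
  have h3 : ‖e - e₀‖ < 1 := hee.trans_lt hP0
  have ne : ‖e‖ ≤ 1 := cubea_int n0 h3
  refine ⟨e, me, ne, by rw [← Pe, he], ?_⟩
  have : q.eval (ζ + α * e) * e - l.eval (ζ + α * e) - w =
      (q.eval (ζ + α * e) - q.eval ζ) * e + q.eval ζ * (e - e₀) -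
        (l.eval (ζ + α * e) - l.eval ζ) := by
    linear_combination e1
  rw [this]
  exact cubea_sub_lt (cubea_add_lt ((cubea_mul_le ne).trans_lt (hnear q hq _ ne))
    ((cubea_mul_le' hqζ.le).trans_lt h3)) (hnear l hl _ ne)

/-- Polynomial data of the cube relation: `F` has unit values `w₀ ^ 2, w₁ ^ 2, w₂ ^ 2` at three
points of one residue disc and `wζ ^ 2` at a point of another. -/
theorem exists_cube_poly {L : IntermediateField K Λ} {F : Λ[X]} (hFL : Over L F) (hF : Intg F)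
    (hd : F.natDegree ≤ 6) {x₀ x₁ x₂ w₀ w₁ w₂ ζ wζ : Λ} (m₀ : x₀ ∈ L) (m₁ : x₁ ∈ L) (m₂ : x₂ ∈ L)
    (n₀ : w₀ ∈ L) (n₁ : w₁ ∈ L) (n₂ : w₂ ∈ L) (mζ : ζ ∈ L) (nζ : wζ ∈ L)
    (hx₀ : ‖x₀‖ ≤ 1) (hζ : ‖ζ‖ ≤ 1) (hw₀ : ‖w₀‖ = 1) (hwζ : ‖wζ‖ = 1)
    (d₁ : ‖x₁ - x₀‖ < 1) (d₂ : ‖x₂ - x₀‖ < 1) (dζ : ‖ζ - x₀‖ = 1)
    (e₁ : ‖w₁ - w₀‖ < 1) (e₂ : ‖w₂ - w₀‖ < 1)
    (f₀ : w₀ ^ 2 = F.eval x₀) (f₁ : w₁ ^ 2 = F.eval x₁) (f₂ : w₂ ^ 2 = F.eval x₂)
    (fζ : wζ ^ 2 = F.eval ζ) (h₁₀ : x₁ ≠ x₀) (h₂₀ : x₂ ≠ x₀) (h₁₂ : x₁ ≠ x₂) :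
    ∃ (A : Λ[X]) (α x₃ z z' : Λ), Over L A ∧ α ∈ L ∧ α ≠ 0 ∧ x₃ ∈ L ∧ z ∈ L ∧ z' ∈ L ∧
      A ^ 2 - C (α ^ 2) * F ≠ 0 ∧
      (A ^ 2 - C (α ^ 2) * F).roots = {x₀, x₁, x₂, x₃, z, z'} ∧
      ‖x₃ + x₀ - x₁ - x₂‖ ≤ ‖x₁ - x₀‖ * ‖x₂ - x₀‖ ∧
      ‖z - ζ‖ ≤ ‖x₁ - x₀‖ * ‖x₂ - x₀‖ ∧ ‖z' - ζ‖ ≤ ‖x₁ - x₀‖ * ‖x₂ - x₀‖ ∧
      A.eval x₀ = α * w₀ ∧ A.eval x₁ = -(α * w₁) ∧ A.eval x₂ = -(α * w₂) ∧
      ‖A.eval x₃ / α - w₀‖ < 1 ∧ ‖A.eval z / α - wζ‖ < 1 ∧ ‖A.eval z' / α + wζ‖ < 1 := by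
  have h2 : ‖(2 : Λ)‖ = 1 := norm_two (p := p) K
  have m2 : (2 : Λ) ∈ L := by exact_mod_cast natCast_mem L 2
  have hu : ∀ {a : Λ}, ‖a‖ = 1 → a ≠ 0 := fun {a} h h0 => by
    rw [h0, norm_zero] at h
    exact zero_ne_one h
  have hx₁ : ‖x₁‖ ≤ 1 := cubea_int hx₀ d₁
  have hx₂ : ‖x₂‖ ≤ 1 := cubea_int hx₀ d₂
  have hw₁ : ‖w₁‖ ≤ 1 := cubea_int hw₀.le e₁
  have h2w : ‖2 * w₀‖ = 1 := by rw [norm_mul, h2, hw₀, one_mul]
  have hs12 : ‖w₁ + w₂‖ = 1 := by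
    refine cubea_unit h2w ?_
    have : 2 * w₀ - (w₁ + w₂) = -((w₁ - w₀) + (w₂ - w₀)) := by ring
    rw [this, norm_neg]
    exact cubea_add_lt e₁ e₂
  have h12 : x₁ - x₂ ≠ 0 := sub_ne_zero.2 h₁₂
  obtain ⟨lam, hlam⟩ : ∃ lam, lam = (w₁ - w₂) / (x₁ - x₂) := ⟨_, rfl⟩
  have el : lam * (x₁ - x₂) = w₁ - w₂ := by rw [hlam]; field_simp
  have ml : lam ∈ L := hlam ▸ L.div_mem (L.sub_mem n₁ n₂) (L.sub_mem m₁ m₂)
  have nl : ‖lam‖ ≤ 1 := by
    have h3 := hF.eval_sub_le hx₁ hx₂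
    have h4 : F.eval x₁ - F.eval x₂ = (w₁ - w₂) * (w₁ + w₂) := by rw [← f₁, ← f₂]; ring
    rw [h4, norm_mul, hs12, mul_one] at h3
    rw [hlam, norm_div]
    exact div_le_one_of_le₀ h3 (norm_nonneg _)
  obtain ⟨l, hl⟩ : ∃ l : Λ[X], l = C w₁ + C lam * (X - C x₁) := ⟨_, rfl⟩
  have lL : Over L l := hl ▸ (over_C n₁).add ((over_C ml).mul (over_X.sub (over_C m₁)))
  have lI : Intg l := hl ▸ (intg_C hw₁).add ((intg_C nl).mul (intg_X.sub (intg_C hx₁)))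
  have le : ∀ x, l.eval x = w₁ + lam * (x - x₁) := fun x => by simp [hl]
  have ld : l.natDegree ≤ 1 := by
    rw [hl]
    compute_degree
  have lnear : ∀ x, ‖x - x₀‖ < 1 → ‖l.eval x - w₀‖ < 1 := fun x hx => by
    have : l.eval x - w₀ = (w₁ - w₀) + lam * ((x - x₀) - (x₁ - x₀)) := by rw [le]; ring
    rw [this]
    exact cubea_add_lt e₁ ((cubea_mul_le' nl).trans_lt (cubea_sub_lt hx d₁))
  obtain ⟨G₁, G₁L, G₁I, G₁d, hG₁⟩ := cubea_div (p := p) (hFL.sub (lL.pow 2)) (hF.sub (lI.pow 2))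
    m₁ hx₁ (by simp [le, f₁]) (n := 5) ((natDegree_sub_le _ _).trans (max_le hd
      (natDegree_pow_le.trans (by omega))))
  obtain ⟨G, GO, GI, Gd, hG⟩ := cubea_div (p := p) G₁L G₁I m₂ hx₂ (by
    have h3 := congrArg (eval x₂) hG₁
    simp only [eval_sub, eval_pow, eval_mul, eval_X, eval_C, le] at h3
    apply mul_left_cancel₀ (sub_ne_zero.2 h₁₂.symm)
    rw [← h3, ← f₂]
    linear_combination (w₁ + w₂ + lam * (x₂ - x₁)) * el) (n := 4) G₁d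
  obtain ⟨q, hq⟩ : ∃ q : Λ[X], q = (X - C x₁) * (X - C x₂) := ⟨_, rfl⟩
  have qL : Over L q := hq ▸ (over_X.sub (over_C m₁)).mul (over_X.sub (over_C m₂))
  have qI : Intg q := hq ▸ (intg_X.sub (intg_C hx₁)).mul (intg_X.sub (intg_C hx₂))
  have qe : ∀ x, q.eval x = (x - x₁) * (x - x₂) := fun x => by simp [hq]
  have hFq : F = l ^ 2 + q * G := by
    rw [hq]
    linear_combination hG₁ + (X - C x₁) * hG
  have hFe : ∀ x, F.eval x = l.eval x ^ 2 + q.eval x * G.eval x := fun x => by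
    conv_lhs => rw [hFq]
    simp
  have hk : ‖w₀ + l.eval x₀‖ = 1 := by
    refine cubea_unit h2w ?_
    have : 2 * w₀ - (w₀ + l.eval x₀) = -(l.eval x₀ - w₀) := by ring
    rw [this, norm_neg]
    exact lnear _ (by simp)
  have dζ' : ‖x₀ - ζ‖ = 1 := by rwa [norm_sub_rev]
  obtain ⟨α, hα⟩ : ∃ α, α = q.eval x₀ * (x₀ - ζ) / (w₀ + l.eval x₀) := ⟨_, rfl⟩
  obtain ⟨κ, hκ⟩ : ∃ κ, κ = (w₀ + l.eval x₀) / (x₀ - ζ) := ⟨_, rfl⟩
  have eα : α * (w₀ + l.eval x₀) = q.eval x₀ * (x₀ - ζ) := by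
    rw [hα, div_mul_cancel₀ _ (hu hk)]
  have eκ : κ * (x₀ - ζ) = w₀ + l.eval x₀ := by rw [hκ, div_mul_cancel₀ _ (hu dζ')]
  have eακ : α * κ = q.eval x₀ := by
    apply mul_right_cancel₀ (hu dζ')
    rw [mul_assoc, eκ, eα]
  have mα : α ∈ L := hα ▸ L.div_mem (L.mul_mem (qL.eval m₀) (L.sub_mem m₀ mζ))
    (L.add_mem n₀ (lL.eval m₀))
  have mκ : κ ∈ L := hκ ▸ L.div_mem (L.add_mem n₀ (lL.eval m₀)) (L.sub_mem m₀ mζ)
  have nκ : ‖κ‖ ≤ 1 := by rw [hκ, norm_div, hk, dζ', div_one]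
  have nα : ‖α‖ = ‖x₁ - x₀‖ * ‖x₂ - x₀‖ := by
    rw [hα, norm_div, norm_mul, hk, dζ', qe, norm_mul, norm_sub_rev x₀ x₁, norm_sub_rev x₀ x₂,
      mul_one, div_one]
  have nα1 : ‖α‖ < 1 := by
    rw [nα]
    exact mul_lt_one_of_nonneg_of_lt_one_left (norm_nonneg _) d₁ d₂.le
  have hα0 : α ≠ 0 := by
    rw [← norm_pos_iff, nα]
    exact mul_pos (norm_pos_iff.2 (sub_ne_zero.2 h₁₀)) (norm_pos_iff.2 (sub_ne_zero.2 h₂₀))
  have ζL : Over L (X - C ζ) := over_X.sub (over_C mζ)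
  have ζI : Intg (X - C ζ) := intg_X.sub (intg_C hζ)
  obtain ⟨H, HL, HI, Hd, hH⟩ := cubea_div (p := p)
    (f := C κ * (X - C ζ) ^ 2 - C 2 * l * (X - C ζ) - C α * G)
    ((((over_C mκ).mul (ζL.pow 2)).sub (((over_C m2).mul lL).mul ζL)).sub ((over_C mα).mul GO))
    ((((intg_C nκ).mul (ζI.pow 2)).sub (((intg_C h2.le).mul lI).mul ζI)).sub
      ((intg_C nα1.le).mul GI)) m₀ hx₀ (by
        simp only [eval_sub, eval_pow, eval_mul, eval_X, eval_C]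
        apply mul_left_cancel₀ (hu hk)
        have h3 := hFe x₀
        rw [← f₀] at h3
        linear_combination (w₀ + l.eval x₀) * (x₀ - ζ) * eκ - G.eval x₀ * eα + (x₀ - ζ) * h3)
    (n := 3) (by
      refine (natDegree_sub_le _ _).trans (max_le ((natDegree_sub_le _ _).trans (max_le ?_ ?_)) ?_)
      · compute_degree!
      · refine natDegree_mul_le.trans ?_
        have h3 := natDegree_C_mul_le (2 : Λ) l
        rw [natDegree_X_sub_C]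
        omega
      · exact (natDegree_C_mul_le _ _).trans Gd)
  obtain ⟨s, hs⟩ : ∃ s, s = x₁ + x₂ - x₀ := ⟨_, rfl⟩
  have ms : s ∈ L := hs ▸ L.sub_mem (L.add_mem m₁ m₂) m₀
  have ds : ‖s - x₀‖ < 1 := by
    have : s - x₀ = (x₁ - x₀) + (x₂ - x₀) := by rw [hs]; ring
    rw [this]
    exact cubea_add_lt d₁ d₂
  have ns : ‖s‖ ≤ 1 := cubea_int hx₀ ds
  have hfar : ∀ x, ‖x - x₀‖ < 1 → ‖x - ζ‖ = 1 := fun x hx => by
    refine cubea_unit dζ' ?_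
    have : x₀ - ζ - (x - ζ) = -(x - x₀) := by ring
    rwa [this, norm_neg]
  obtain ⟨M, hM⟩ : ∃ M : Λ[X], M = (X - C s) * (X - C ζ) ^ 2 + C α * H := ⟨_, rfl⟩
  have ML : Over L M := hM ▸ ((over_X.sub (over_C ms)).mul (ζL.pow 2)).add ((over_C mα).mul HL)
  have MI : Intg M := hM ▸ ((intg_X.sub (intg_C ns)).mul (ζI.pow 2)).add ((intg_C nα1.le).mul HI)
  have Md : M.natDegree ≤ 3 := by
    rw [hM]
    refine (natDegree_add_le _ _).trans (max_le ?_ ((natDegree_C_mul_le _ _).trans Hd))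
    compute_degree!
  have hqs : q = (X - C x₀) * (X - C s) + C α * C κ := by
    rw [← C_mul, eακ, qe, hq, hs]
    simp only [map_sub, map_add, map_mul]
    ring
  have hMM : (X - C x₀) * M =
      q * (X - C ζ) ^ 2 - 2 * C α * l * (X - C ζ) - C α ^ 2 * G := by
    have h3 : (C 2 : Λ[X]) = 2 := rfl
    rw [h3] at hH
    rw [hM]
    linear_combination (-(X - C ζ) ^ 2) * hqs - C α * hH
  have hMe : ∀ x, (x - x₀) * M.eval x =
      q.eval x * (x - ζ) ^ 2 - 2 * α * l.eval x * (x - ζ) - α ^ 2 * G.eval x := fun x => by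
    have h3 := congrArg (eval x) hMM
    simpa using h3
  have hMs : ‖M.eval s‖ ≤ ‖α‖ := by
    have : M.eval s = α * H.eval s := by simp [hM]
    rw [this]
    exact cubea_mul_le (HI.eval_le ns)
  have hMd : ‖M.derivative.eval s‖ = 1 := by
    refine cubea_unit (b := (s - ζ) ^ 2) (by rw [norm_pow, hfar s ds, one_pow]) ?_
    have : (s - ζ) ^ 2 - M.derivative.eval s = -(α * H.derivative.eval s) := by
      simp [hM]
    rw [this, norm_neg]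
    exact (cubea_mul_le (HI.derivative.eval_le ns)).trans_lt nα1
  obtain ⟨x₃, m₃, hx₃, d₃⟩ := cubea_hensel (p := p) ML MI ms ns (hMs.trans_lt nα1) hMd
  have d₃' : ‖x₃ - x₀‖ < 1 := by
    have : x₃ - x₀ = (x₃ - s) + (s - x₀) := by ring
    rw [this]
    exact cubea_add_lt ((d₃.trans hMs).trans_lt nα1) ds
  have hqζ : ‖q.eval ζ‖ = 1 := by
    rw [qe, norm_mul, norm_sub_rev ζ x₁, norm_sub_rev ζ x₂, hfar _ d₁, hfar _ d₂, one_mul]
  obtain ⟨e, me, ne, he, he'⟩ := cubea_z (p := p) qL lL GO qI lI GI mα mζ nζ nα1 hζ hwζ hqζ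
    (by rw [fζ, hFe])
  obtain ⟨f, mf, nf, hf, hf'⟩ := cubea_z (p := p) qL lL GO qI lI GI mα mζ (L.neg_mem nζ) nα1 hζ
    (by rwa [norm_neg]) hqζ (by rw [neg_sq, fζ, hFe])
  have hz : ∀ e : Λ, ‖e‖ ≤ 1 → ‖ζ + α * e - ζ‖ ≤ ‖α‖ := fun e he => by
    rw [add_sub_cancel_left]
    exact cubea_mul_le he
  have hne : ∀ e : Λ, ‖e‖ ≤ 1 → ∀ x, ‖x - x₀‖ < 1 → x ≠ ζ + α * e := fun e he x hx h => by
    have h3 := hfar x hx
    rw [h] at h3
    exact absurd ((hz e he).trans_lt nα1) (by rw [h3]; exact lt_irrefl _)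
  have hroot : ∀ e : Λ, ‖e‖ ≤ 1 → q.eval (ζ + α * e) * e ^ 2 - 2 * l.eval (ζ + α * e) * e -
      G.eval (ζ + α * e) = 0 → M.eval (ζ + α * e) = 0 := fun e he h => by
    apply mul_left_cancel₀ (sub_ne_zero.2 (hne e he x₀ (by simp)).symm)
    rw [hMe]
    linear_combination α ^ 2 * h
  have hef : ζ + α * e ≠ ζ + α * f := fun h => by
    have h3 : e = f := mul_left_cancel₀ hα0 (add_left_cancel h)
    subst h3
    have h4 := cubea_sub_lt hf' he'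
    have h5 : q.eval (ζ + α * e) * e - l.eval (ζ + α * e) - -wζ -
      (q.eval (ζ + α * e) * e - l.eval (ζ + α * e) - wζ) = 2 * wζ := by ring
    rw [h5, norm_mul, h2, hwζ, one_mul] at h4
    exact lt_irrefl _ h4
  have hM0 : M ≠ 0 := fun h => by
    rw [h] at hMd
    simp at hMd
  have hMr : M.roots = {x₃, ζ + α * e, ζ + α * f} := by
    symm
    refine Multiset.eq_of_le_of_card_le ((Multiset.le_iff_subset ?_).2 ?_) ?_
    · simp [hne e ne x₃ d₃', hne f nf x₃ d₃', hef]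
    · intro x hx
      rw [mem_roots hM0]
      simp only [Multiset.insert_eq_cons, Multiset.mem_cons, Multiset.mem_singleton] at hx
      rcases hx with rfl | rfl | rfl
      · exact hx₃
      · exact hroot e ne he
      · exact hroot f nf hf
    · exact (card_roots' M).trans (by simpa using Md)
  have hN : (q * (X - C ζ) - C α * l) ^ 2 - C (α ^ 2) * F =
      (X - C x₀) * ((X - C x₁) * ((X - C x₂) * M)) := by
    rw [map_pow]
    linear_combination (-C α ^ 2) * hFq - q * hMM + (X - C x₀) * M * hq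
  have hN2 : (X - C x₂) * M ≠ 0 := mul_ne_zero (X_sub_C_ne_zero _) hM0
  have hN1 : (X - C x₁) * ((X - C x₂) * M) ≠ 0 := mul_ne_zero (X_sub_C_ne_zero _) hN2
  have hN0 : (X - C x₀) * ((X - C x₁) * ((X - C x₂) * M)) ≠ 0 :=
    mul_ne_zero (X_sub_C_ne_zero _) hN1
  have Ae : ∀ x, (q * (X - C ζ) - C α * l).eval x = q.eval x * (x - ζ) - α * l.eval x :=
    fun x => by simp
  have Az : ∀ e : Λ, (q * (X - C ζ) - C α * l).eval (ζ + α * e) / α =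
      q.eval (ζ + α * e) * e - l.eval (ζ + α * e) := fun e => by
    rw [Ae]
    field_simp
    ring
  refine ⟨q * (X - C ζ) - C α * l, α, x₃, ζ + α * e, ζ + α * f,
    (qL.mul ζL).sub ((over_C mα).mul lL), mα, hα0, m₃, L.add_mem mζ (L.mul_mem mα me),
    L.add_mem mζ (L.mul_mem mα mf), hN ▸ hN0, ?_, ?_, nα ▸ hz e ne, nα ▸ hz f nf, ?_, ?_, ?_, ?_,
    ?_, ?_⟩
  · rw [hN, roots_mul hN0, roots_mul hN1, roots_mul hN2, hMr, roots_X_sub_C, roots_X_sub_C,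
      roots_X_sub_C]
    rfl
  · have : x₃ + x₀ - x₁ - x₂ = x₃ - s := by rw [hs]; ring
    rw [this, ← nα]
    exact d₃.trans hMs
  · rw [Ae]
    linear_combination -eα
  · rw [Ae, qe, le]
    ring
  · rw [Ae, qe, le]
    linear_combination α * el
  · have h3 := hMe x₃
    rw [hx₃, mul_zero] at h3
    have h4 := hu (hfar x₃ d₃')
    have h5 : (q * (X - C ζ) - C α * l).eval x₃ / α - w₀ =
        (l.eval x₃ - w₀) + α * (G.eval x₃ / (x₃ - ζ)) := by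
      rw [Ae]
      field_simp
      linear_combination -h3
    rw [h5]
    refine cubea_add_lt (lnear _ d₃') ((cubea_mul_le ?_).trans_lt nα1)
    rw [norm_div, hfar x₃ d₃', div_one]
    exact GI.eval_le (cubea_int hx₀ d₃')
  · rw [Az]
    exact he'
  · rw [Az, ← sub_neg_eq_add]
    exact hf'

end Pool.Agent.Lib.MP_796ce4_ag
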