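import Pool.Agent.Lib.MP_796ce4_ag.Cube0
import Pool.Agent.Lib.MP_796ce4_ag.CubeA

/-! The pairing in two entries and the base points of the cube relation. -/

namespace Pool.Agent.Lib.MP_796ce4_ag

open WeierstrassCurve Polynomial Module
open scoped Classical IntermediateField

set_option linter.unusedSectionVars false

variable {p : ℕ} {K Λ : Type} [Field K] [CharZero K] [NormedField Λ] [IsUltrametricDist Λ]
  [IsAlgClosed Λ] [Algebra K Λ] [IsGalois K Λ] [Loc p K Λ]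

include p

section base
variable {L : IntermediateField K Λ} (T : Tower p L)

theorem cube1_pt {E : WeierstrassCurve K} (hE : Good Λ E) {n : ℕ} (hn : 0 < n) {x : Λ}
    (hx : x ∈ T.U n) (h1 : ‖x‖ ≤ 1) (hf : ‖(cub (E.baseChange Λ)).eval x‖ = 1) :
    ∃ n', 0 < n' ∧ ∃ P ∈ pts E (T.U (n * n')), Gd P ∧ xc P = x := by
  obtain ⟨y, hy⟩ := IsAlgClosed.exists_pow_nat_eq ((cub (E.baseChange Λ)).eval x) two_pos
  have hy1 : ‖y‖ = 1 := by
    have : ‖y‖ ^ 2 = 1 := by rw [← norm_pow, hy, hf]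
    exact (pow_eq_one_iff_of_nonneg (norm_nonneg _) two_ne_zero).1 this
  obtain ⟨n', hn', t, ht, hyt⟩ := T.exists_near hy1.le
  have hN : 0 < n * n' := Nat.mul_pos hn hn'
  have ht' : t ∈ T.U (n * n') := T.mono hn' hN (Dvd.intro_left _ rfl) ht
  have hx' : x ∈ T.U (n * n') := T.mono hn hN (Dvd.intro _ rfl) hx
  have ht1 : ‖t‖ = 1 := by rw [norm_eq_of_sub_lt (x := y) (by rwa [hy1]), hy1]
  obtain ⟨y', hy', hy2, hy3⟩ := exists_sqrt_mem (p := p) ((over_cub E).eval hx') ht' ht1 (by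
    rw [← hy, ← norm_neg, neg_sub]
    exact norm_pow_sub_pow_lt hy1.le hyt 2)
  have hΔ : (Affine.baseChange E Λ).Δ ≠ 0 := by
    rw [Affine.baseChange, WeierstrassCurve.baseChange, map_Δ]
    exact (_root_.map_ne_zero _).2 hE.Δ_ne
  obtain ⟨P, hP0, hPx, hPy⟩ := exists_pt (E := Affine.baseChange E Λ)
    (by simp [Affine.baseChange, hE.a₁]) (by simp [Affine.baseChange, hE.a₃]) hΔ hy2
  refine ⟨n', hn', P, mem_pts_iff.2 ⟨hPx ▸ hx', hPy ▸ hy'⟩, ⟨hP0, hPx ▸ h1, ?_⟩, hPx⟩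
  rw [hPy, norm_eq_of_sub_lt (x := t) (by rwa [ht1, ← norm_neg, neg_sub]), ht1]

omit p in
theorem cube1_unit {f : Λ[X]} (hf : Intg f) (hm : f.Monic) {t : Λ} (ht : ‖t‖ ≤ 1)
    (h : ∀ r, f.eval r = 0 → ¬‖t - r‖ < 1) : ‖f.eval t‖ = 1 := by
  refine le_antisymm (hf.eval_le ht) (not_lt.1 fun hlt => ?_)
  obtain ⟨r, hr, hr'⟩ := hf.exists_root_near hm hlt
  exact h r hr (by rwa [← norm_neg, neg_sub])

/-- base points on the curve `x' = c x + d` -/
theorem cube1_base {E E' : WeierstrassCurve K} (hE : Good Λ E) (hE' : Good Λ E') {γ : Λ}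
    (hγ : γ ∈ L) (hγ1 : ‖γ‖ = 1) : ∃ N, 0 < N ∧ ∃ (c d : Λ) (P₀ Pz : Pt E Λ) (Q₀ Qz : Pt E' Λ),
      c ∈ T.U N ∧ d ∈ T.U N ∧ P₀ ∈ pts E (T.U N) ∧ Pz ∈ pts E (T.U N) ∧ Q₀ ∈ pts E' (T.U N) ∧
      Qz ∈ pts E' (T.U N) ∧ Gd P₀ ∧ Gd Pz ∧ Gd Q₀ ∧ Gd Qz ∧ ‖c‖ = 1 ∧ ‖d‖ ≤ 1 ∧
      xc Q₀ = c * xc P₀ + d ∧ xc Qz = c * xc Pz + d ∧ ‖xc Pz - xc P₀‖ = 1 ∧
      ‖c * yc P₀ - γ * yc Q₀‖ < 1 ∧
      ∀ r, (cub (E.baseChange Λ)).eval r = 0 → (cub (E'.baseChange Λ)).eval (c * r + d) ≠ 0 := by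
  have : CharZero Λ := charZero_of_loc K
  obtain ⟨n₁, hn₁, P₀, hP₀, gP₀⟩ := hE.exists_gd T
  obtain ⟨n₂, hn₂, Q₁, hQ₁, gQ₁⟩ := hE'.exists_gd T
  set f := cub (E.baseChange Λ) with hf
  set g := cub (E'.baseChange Λ) with hg
  have fm : f.Monic := monic_cub (E := Affine.baseChange E Λ)
  have gm : g.Monic := monic_cub (E := Affine.baseChange E' Λ)
  have h12 : 0 < n₁ * n₂ := Nat.mul_pos hn₁ hn₂
  have hP₀' := pts_mono (T.mono hn₁ h12 (Dvd.intro _ rfl)) hP₀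
  have hQ₁' := pts_mono (T.mono hn₂ h12 (Dvd.intro_left _ rfl)) hQ₁
  have y0 : yc P₀ ≠ 0 := by rw [← norm_ne_zero_iff, gP₀.2.2]; exact one_ne_zero
  set c := γ * yc Q₁ / yc P₀ with hc
  have hc1 : ‖c‖ = 1 := by rw [hc, norm_div, norm_mul, hγ1, gP₀.2.2, gQ₁.2.2]; norm_num
  have hc0 : c ≠ 0 := by rw [← norm_ne_zero_iff, hc1]; exact one_ne_zero
  have hcm : c ∈ T.U (n₁ * n₂) :=
    div_mem (mul_mem (T.le _ hγ) (mem_pts_iff.1 hQ₁').2) (mem_pts_iff.1 hP₀').2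
  obtain ⟨k, hk⟩ : ∃ k : ℕ, xc Q₁ - c * xc P₀ + (p : Λ) * k ∉
      (f.roots.toFinset ×ˢ g.roots.toFinset).image fun r : Λ × Λ => r.2 - c * r.1 := by
    have hp0 : (p : Λ) ≠ 0 := by exact_mod_cast (Loc.prime (K := K) (Λ := Λ)).ne_zero
    have hinj : Function.Injective fun k : ℕ => xc Q₁ - c * xc P₀ + (p : Λ) * k := fun a b hab => by
      simpa [hp0] using hab
    by_contra hcon
    push Not at hcon
    exact (Set.infinite_range_of_injective hinj) ((Finset.finite_toSet _).subset (by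
      rintro _ ⟨k, rfl⟩
      exact hcon k))
  set d := xc Q₁ - c * xc P₀ + (p : Λ) * k with hd
  have hpk : ‖(p : Λ) * k‖ < 1 := by
    rw [norm_mul]
    exact mul_lt_one_of_nonneg_of_lt_one_left (norm_nonneg _) (Loc.norm_p (K := K))
      (IsUltrametricDist.norm_natCast_le_one Λ k)
  have hdm : d ∈ T.U (n₁ * n₂) :=
    add_mem (sub_mem (mem_pts_iff.1 hQ₁').1 (mul_mem hcm (mem_pts_iff.1 hP₀').1))
      (mul_mem (natCast_mem _ _) (natCast_mem _ _))
  have hd1 : ‖d‖ ≤ 1 := by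
    refine (IsUltrametricDist.norm_add_le_max _ _).trans (max_le ?_ hpk.le)
    rw [sub_eq_add_neg]
    refine (IsUltrametricDist.norm_add_le_max _ _).trans (max_le gQ₁.2.1 ?_)
    rw [norm_neg, norm_mul, hc1, one_mul]
    exact gP₀.2.1
  obtain ⟨Q₀, hQ₀, gQ₀, xQ₀, yQ₀⟩ := hE'.exists_disc hQ₁' gQ₁ (x := c * xc P₀ + d)
    (add_mem (mul_mem hcm (mem_pts_iff.1 hP₀').1) hdm) (by
      rw [hd]
      convert hpk using 2
      ring)
  obtain ⟨j, hj, -, t, ht, ht1, hav⟩ := T.exists_avoid (insert (xc P₀)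
    (f.roots.toFinset ∪ g.roots.toFinset.image fun r => (r - d) / c))
  have hN : 0 < n₁ * n₂ * j := Nat.mul_pos h12 hj
  have ht' : t ∈ T.U (n₁ * n₂ * j) := T.mono hj hN (Dvd.intro_left _ rfl) ht
  have hle := T.mono h12 hN (Dvd.intro _ rfl)
  have ht2 : ‖c * t + d‖ ≤ 1 := (IsUltrametricDist.norm_add_le_max _ _).trans
    (max_le (by rwa [norm_mul, hc1, one_mul]) hd1)
  obtain ⟨n₃, hn₃, Pz, hPz, gPz, xPz⟩ := cube1_pt T hE hN ht' ht1
    (cube1_unit hE.intg fm ht1 fun r hr => hav r (by simp [show f.eval r = 0 from hr, fm.ne_zero]))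
  obtain ⟨n₄, hn₄, Qz, hQz, gQz, xQz⟩ := cube1_pt T hE' hN
    (add_mem (mul_mem (hle hcm) ht') (hle hdm)) ht2
    (cube1_unit hE'.intg gm ht2 fun r hr hlt => hav ((r - d) / c)
      (by
        simp only [Finset.mem_insert, Finset.mem_union, Finset.mem_image]
        exact Or.inr (Or.inr ⟨r, by simp [show g.eval r = 0 from hr, gm.ne_zero], rfl⟩)) (by
        have : t - (r - d) / c = (c * t + d - r) / c := by field_simp; ring
        rwa [this, norm_div, hc1, div_one]))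
  have hM : 0 < n₁ * n₂ * j * n₃ * n₄ := by positivity
  have l1 : T.U (n₁ * n₂) ≤ T.U (n₁ * n₂ * j * n₃ * n₄) :=
    T.mono h12 hM ⟨j * n₃ * n₄, by ring⟩
  refine ⟨_, hM, c, d, P₀, Pz, Q₀, Qz, l1 hcm, l1 hdm, pts_mono l1 hP₀',
    pts_mono (T.mono (by positivity) hM (Dvd.intro _ rfl)) hPz, pts_mono l1 hQ₀,
    pts_mono (T.mono (by positivity) hM ⟨n₃, by ring⟩) hQz, gP₀, gPz, gQ₀, gQz, hc1, hd1, xQ₀,
    by rw [xQz, xPz], ?_, ?_, fun r hr hr' => hk ?_⟩
  · rw [xPz]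
    refine le_antisymm ?_ (not_lt.1 (hav _ (Finset.mem_insert_self _ _)))
    rw [sub_eq_add_neg]
    exact (IsUltrametricDist.norm_add_le_max _ _).trans (max_le ht1 (by simpa using gP₀.2.1))
  · have : c * yc P₀ - γ * yc Q₀ = -(γ * (yc Q₀ - yc Q₁)) := by rw [hc]; field_simp; ring
    rwa [this, norm_neg, norm_mul, hγ1, one_mul]
  · exact Finset.mem_image.2 ⟨(r, c * r + d), by simp [hr, hr', fm.ne_zero, gm.ne_zero], by ring⟩

end base

variable {ι : Type} [Fintype ι] {W : ι → WeierstrassCurve K} (hW : ∀ i, Good Λ (W i))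
  {I : Finset ι} {L : IntermediateField K Λ} [FiniteDimensional K L] {a : Pts W Λ}
  (ha : ∀ k, a k ∈ pts (W k) L) {i j : ι} (hi : i ∈ I) (hj : j ∈ I) (hij : i ≠ j)

variable (W L I a i j) in
/-- the symbol as a function of two entries -/
noncomputable def pair (u : Pt (W i) Λ) (v : Pt (W j) Λ) : VV Λ W :=
  Sy W L I (Function.update (Function.update a i u) j v)

include hi hj hij in
theorem pair_eq (u : Pt (W i) Λ) (v : Pt (W j) Λ) : pair W I L a i j u v =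
    clL W L ((∏ k ∈ (I.erase i).erase j, dl W k (a k)) * (dl W i u * dl W j v)) := by
  have hj' : j ∈ I.erase i := Finset.mem_erase.2 ⟨hij.symm, hj⟩
  rw [pair, Sy, ← Finset.mul_prod_erase _ _ hi, ← Finset.mul_prod_erase _ _ hj',
    Function.update_self, Function.update_of_ne hij, Function.update_self,
    Finset.prod_congr rfl (g := fun k => dl W k (a k)) fun k hk => by
      rw [Function.update_of_ne (Finset.mem_erase.1 hk).1,
        Function.update_of_ne (Finset.mem_erase.1 (Finset.mem_erase.1 hk).2).1]]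
  congr 1
  ring

include hW ha hi hij in
theorem pair_add_left {u u' : Pt (W i) Λ} {v : Pt (W j) Λ} (hu : u ∈ pts (W i) L)
    (hu' : u' ∈ pts (W i) L) (hv : v ∈ pts (W j) L) :
    pair W I L a i j (u + u') v = pair W I L a i j u v + pair W I L a i j u' v := by
  simp only [pair, Function.update_comm hij]
  exact Sy_add (short_of_good hW) hi (update_mem ha hv) hu hu'

include hW ha hj in
theorem pair_add_right {u : Pt (W i) Λ} {v v' : Pt (W j) Λ} (hu : u ∈ pts (W i) L)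
    (hv : v ∈ pts (W j) L) (hv' : v' ∈ pts (W j) L) :
    pair W I L a i j u (v + v') = pair W I L a i j u v + pair W I L a i j u v' :=
  Sy_add (short_of_good hW) hj (update_mem ha hu) hv hv'

include hW ha hi hij in
theorem pair_neg_left {u : Pt (W i) Λ} {v : Pt (W j) Λ} (hu : u ∈ pts (W i) L)
    (hv : v ∈ pts (W j) L) : pair W I L a i j (-u) v = -pair W I L a i j u v := by
  simp only [pair, Function.update_comm hij]
  exact Sy_neg (short_of_good hW) hi (update_mem ha hv) hu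

include hW ha hj in
theorem pair_neg_right {u : Pt (W i) Λ} {v : Pt (W j) Λ} (hu : u ∈ pts (W i) L)
    (hv : v ∈ pts (W j) L) : pair W I L a i j u (-v) = -pair W I L a i j u v :=
  Sy_neg (short_of_good hW) hj (update_mem ha hu) hv

variable {ρ : ℝ} (hρ : Unif K Λ ρ) (hL : Unr L) {n : ι → ℕ} (hn : ∀ i ∈ I, 1 ≤ n i)
  (h : ∀ k ∈ I, k ≠ i → k ≠ j → Form (a k) ∧ ‖zp (a k)‖ ≤ ρ ^ n k)
include hW ha hi hj hij hρ hL hn h

theorem pair_small_left {u : Pt (W i) Λ} {v : Pt (W j) Λ} (hu : u ∈ pts (W i) L)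
    (hv : v ∈ pts (W j) L) (fu : Form u) (zu : ‖zp u‖ ≤ ρ ^ (n i + n j)) :
    pair W I L a i j u v ∈ Wt W p I ρ (∑ i ∈ I, n i + 1) := by
  refine Sy_one_step hW hρ hL hn (update_mem (update_mem ha hu) hv) hi hj hij
    (fun k hk h1 h2 => ?_) ?_
  · rw [Function.update_of_ne h2, Function.update_of_ne h1]
    exact h k hk h1 h2
  · rw [Function.update_of_ne hij, Function.update_self]
    exact ⟨fu, zu⟩

theorem pair_small_right {u : Pt (W i) Λ} {v : Pt (W j) Λ} (hu : u ∈ pts (W i) L)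
    (hv : v ∈ pts (W j) L) (fv : Form v) (zv : ‖zp v‖ ≤ ρ ^ (n i + n j)) :
    pair W I L a i j u v ∈ Wt W p I ρ (∑ i ∈ I, n i + 1) := by
  refine Sy_one_step hW hρ hL hn (update_mem (update_mem ha hu) hv) hj hi hij.symm
    (fun k hk h1 h2 => ?_) ?_
  · rw [Function.update_of_ne h1, Function.update_of_ne h2]
    exact h k hk h2 h1
  · rw [Function.update_self, add_comm]
    exact ⟨fv, zv⟩

theorem pair_sub_mem {u u' : Pt (W i) Λ} {v v' : Pt (W j) Λ} (hu : u ∈ pts (W i) L)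
    (hu' : u' ∈ pts (W i) L) (hv : v ∈ pts (W j) L) (hv' : v' ∈ pts (W j) L) {m₁ m₂ : ℕ}
    (h₁ : 1 ≤ m₁) (h₂ : 1 ≤ m₂) (hm : m₁ + m₂ = n i + n j) (fu : Form u) (fu' : Form u')
    (fv : Form v) (fv' : Form v') (zu : ‖zp u‖ ≤ ρ ^ m₁) (zv : ‖zp v‖ ≤ ρ ^ m₂)
    (du : ‖zp u - zp u'‖ ≤ ρ ^ (m₁ + 1)) (dv : ‖zp v - zp v'‖ ≤ ρ ^ (m₂ + 1)) :
    pair W I L a i j u v - pair W I L a i j u' v' ∈ Wt W p I ρ (∑ i ∈ I, n i + 1) := by
  have hj' : j ∈ I.erase i := Finset.mem_erase.2 ⟨hij.symm, hj⟩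
  set n' := Function.update (Function.update n i m₁) j m₂ with hn'
  have e : ∑ k ∈ I, n' k = ∑ k ∈ I, n k := by
    rw [← Finset.add_sum_erase _ _ hi, ← Finset.add_sum_erase _ _ hj',
      ← Finset.add_sum_erase _ n hi, ← Finset.add_sum_erase _ n hj', hn', Function.update_self,
      Function.update_of_ne hij, Function.update_self, ← add_assoc, hm, add_assoc]
    congr 2
    refine Finset.sum_congr rfl fun k hk => ?_
    rw [Function.update_of_ne (Finset.mem_erase.1 hk).1,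
      Function.update_of_ne (Finset.mem_erase.1 (Finset.mem_erase.1 hk).2).1]
  rw [← e]
  refine Sy_sub_mem hW hρ hL (fun k hk => ?_) (update_mem (update_mem ha hu) hv)
    (update_mem (update_mem ha hu') hv') fun k hk => ?_
  · by_cases h2 : k = j
    · subst h2; simpa [hn'] using h₂
    by_cases h1 : k = i
    · subst h1; simpa [hn', h2] using h₁
    simpa [hn', h1, h2] using hn k hk
  · by_cases h2 : k = j
    · subst h2
      simpa [hn'] using ⟨fv, fv', zv, dv⟩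
    by_cases h1 : k = i
    · subst h1
      simpa [hn', h2] using ⟨fu, fu', zu, du⟩
    simp only [hn', Function.update_of_ne h1, Function.update_of_ne h2, sub_self, norm_zero]
    exact ⟨(h k hk h1 h2).1, (h k hk h1 h2).1, (h k hk h1 h2).2, pow_nonneg hρ.pos.le _⟩

end Pool.Agent.Lib.MP_796ce4_ag
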