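import Pool.Agent.Lib.MP_796ce4_ag.Cube1a

/-! The six-term relation on the curve `x' = c x + d`. -/

namespace Pool.Agent.Lib.MP_796ce4_ag

open WeierstrassCurve Polynomial Module
open scoped Classical IntermediateField

set_option linter.unusedSectionVars false

section
variable {K Λ ι : Type} [Field K] [Field Λ] [Algebra K Λ] {W : ι → WeierstrassCurve K} {i j : ι}

theorem evenSum_pair (hij : i ≠ j) (y : Pts W Λ) : evenSum W {i, j} y =
    dl W i (y i) * dl W j (y j) + dl W i (-y i) * dl W j (-y j) := by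
  have hi : i ∉ ({j} : Finset ι) := by simpa using hij
  have hj : j ∉ (∅ : Finset ι) := by simp
  rw [evenSum, Finset.sum_filter, Finset.sum_powerset_insert hi, ← insert_empty_eq,
    Finset.sum_powerset_insert hj, Finset.sum_powerset_insert hj]
  simp [Finset.prod_pair hij, Finset.card_pair hij, hij, hij.symm]

theorem cube1_evenSum (hij : i ≠ j) (h₁ : ∀ k, (W k).a₁ = 0) (h₃ : ∀ k, (W k).a₃ = 0)
    [CharZero Λ] {y : Pts W Λ} {P : Pt (W i) Λ} {Q : Pt (W j) Λ} (hP : P ≠ 0) (hQ : Q ≠ 0)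
    (yi : y i ≠ 0) (yj : y j ≠ 0) (xi : xc (y i) = xc P) (xj : xc (y j) = xc Q)
    (h0 : yc P * yc Q ≠ 0) (h : yc (y i) * yc (y j) = yc P * yc Q) :
    evenSum W {i, j} y = dl W i P * dl W j Q + dl W i (-P) * dl W j (-Q) := by
  have a₁ : ∀ k, (Affine.baseChange (W k) Λ).a₁ = 0 := fun k => by simp [Affine.baseChange, h₁]
  have a₃ : ∀ k, (Affine.baseChange (W k) Λ).a₃ = 0 := fun k => by simp [Affine.baseChange, h₃]
  have key : ∀ t : Λ, -t = t → t = 0 := fun t ht => by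
    have : (2 : Λ) * t = 0 := by linear_combination -ht
    simpa using this
  rw [evenSum_pair hij]
  rcases eq_or_eq_neg_of_xc yi hP xi with e | e <;> rcases eq_or_eq_neg_of_xc yj hQ xj with e' | e'
  · rw [e, e']
  · rw [e, e', yc_neg (a₁ j) (a₃ j), mul_neg] at h
    exact absurd (key _ h) h0
  · rw [e, e', yc_neg (a₁ i) (a₃ i), neg_mul] at h
    exact absurd (key _ h) h0
  · rw [e, e', neg_neg, neg_neg, add_comm]

end

variable {p : ℕ} {K Λ : Type} [Field K] [CharZero K] [NormedField Λ] [IsUltrametricDist Λ]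
  [IsAlgClosed Λ] [Algebra K Λ] [IsGalois K Λ] [Loc p K Λ]

include p

include K in
theorem cube1_sign {u v w : Λ} (h : u ^ 2 = v ^ 2) (hw : ‖w‖ = 1) (hu : ‖u - w‖ < 1)
    (hv : ‖v - w‖ < 1) : u = v := by
  rcases sq_eq_sq_iff_eq_or_eq_neg.1 h with e | e
  · exact e
  have h2 : ‖(u - w) + (v - w)‖ < 1 :=
    (IsUltrametricDist.norm_add_le_max _ _).trans_lt (max_lt hu hv)
  have : (u - w) + (v - w) = -(2 * w) := by rw [e]; ring
  rw [this, norm_neg, norm_mul, norm_two K, hw, one_mul] at h2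
  exact absurd h2 (lt_irrefl _)

omit p in
theorem cube1_mul_sub {a b a' b' : Λ} (ha : ‖a‖ = 1) (hb : ‖b'‖ = 1) (h : ‖a - a'‖ < 1)
    (h' : ‖b - b'‖ < 1) : ‖a * b - a' * b'‖ < 1 := by
  have : a * b - a' * b' = a * (b - b') + (a - a') * b' := by ring
  rw [this]
  refine (IsUltrametricDist.norm_add_le_max _ _).trans_lt (max_lt ?_ ?_)
  · rwa [norm_mul, ha, one_mul]
  · rwa [norm_mul, hb, mul_one]

variable {ι : Type} [Fintype ι] {W : ι → WeierstrassCurve K} (hW : ∀ i, Good Λ (W i))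
  {L : IntermediateField K Λ} [FiniteDimensional K L] {i j : ι} (hij : i ≠ j) {c d : Λ}
  (hc : c ∈ L) (hd : d ∈ L) (hc1 : ‖c‖ = 1) (hd1 : ‖d‖ ≤ 1)

variable (W L i j c d) in
/-- a good point of the curve above `x` -/
structure OnC (x : Λ) (P : Pt (W i) Λ) (Q : Pt (W j) Λ) : Prop where
  mP : P ∈ pts (W i) L
  mQ : Q ∈ pts (W j) L
  gP : Gd P
  gQ : Gd Q
  xP : xc P = x
  xQ : xc Q = c * x + d

include hW hc hd hc1 in
theorem OnC.disc {x : Λ} {P : Pt (W i) Λ} {Q : Pt (W j) Λ} (h : OnC W L i j c d x P Q) {x' : Λ}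
    (hx : x' ∈ L) (h1 : ‖x' - x‖ < 1) : ∃ P' Q', OnC W L i j c d x' P' Q' ∧
      ‖yc P' - yc P‖ < 1 ∧ ‖yc Q' - yc Q‖ < 1 := by
  obtain ⟨P', m1, g1, x1, y1⟩ := (hW i).exists_disc h.mP h.gP hx (by rwa [h.xP])
  obtain ⟨Q', m2, g2, x2, y2⟩ := (hW j).exists_disc h.mQ h.gQ (add_mem (mul_mem hc hx) hd) (by
    rwa [h.xQ, add_sub_add_right_eq_sub, ← mul_sub, norm_mul, hc1, one_mul])
  exact ⟨P', Q', ⟨m1, m2, g1, g2, x1, x2⟩, y1, y2⟩

include hW in
theorem OnC.sq {x : Λ} {P : Pt (W i) Λ} {Q : Pt (W j) Λ} (h : OnC W L i j c d x P Q) :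
    (yc P * yc Q) ^ 2 =
      (cub ((W i).baseChange Λ) * (cub ((W j).baseChange Λ)).comp (C c * X + C d)).eval x := by
  have a₁ : ∀ k, (Affine.baseChange (W k) Λ).a₁ = 0 := fun k => by
    simp [Affine.baseChange, (hW k).a₁]
  have a₃ : ∀ k, (Affine.baseChange (W k) Λ).a₃ = 0 := fun k => by
    simp [Affine.baseChange, (hW k).a₃]
  rw [mul_pow, yc_sq (a₁ i) (a₃ i) h.gP.1, yc_sq (a₁ j) (a₃ j) h.gQ.1, h.xP, h.xQ, eval_mul,
    eval_comp]
  simp [Affine.baseChange]

omit p in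
theorem OnC.norm {x : Λ} {P : Pt (W i) Λ} {Q : Pt (W j) Λ} (h : OnC W L i j c d x P Q) :
    ‖yc P * yc Q‖ = 1 := by rw [norm_mul, h.gP.2.2, h.gQ.2.2, one_mul]

theorem OnC.mem {x : Λ} {P : Pt (W i) Λ} {Q : Pt (W j) Λ} (h : OnC W L i j c d x P Q) :
    x ∈ L ∧ yc P * yc Q ∈ L :=
  ⟨h.xP ▸ (mem_pts_iff.1 h.mP).1, mul_mem (mem_pts_iff.1 h.mP).2 (mem_pts_iff.1 h.mQ).2⟩

include hW in
theorem OnC.neg {x : Λ} {P : Pt (W i) Λ} {Q : Pt (W j) Λ} (h : OnC W L i j c d x P Q) :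
    OnC W L i j c d x (-P) Q ∧ yc (-P) * yc Q = -(yc P * yc Q) :=
  ⟨⟨neg_mem h.mP, h.mQ, (hW i).gd_neg h.gP, h.gQ, by rw [xc_neg, h.xP], h.xQ⟩, by
    rw [yc_neg (by simp [Affine.baseChange, (hW i).a₁]) (by simp [Affine.baseChange, (hW i).a₃]),
      neg_mul]⟩

include hW hij hc hd hc1 in
/-- the relation given by `A - α y y'` -/
theorem cube1_R3 (hind : ∀ r, (cub ((W i).baseChange Λ)).eval r = 0 →
      (cub ((W j).baseChange Λ)).eval (c * r + d) ≠ 0) {z : GR Λ W} (hz : z ∈ ZL W L)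
    {A : Λ[X]} (hA : Over L A) {α : Λ} (hα : α ∈ L) (hα0 : α ≠ 0)
    (hN : A ^ 2 - C (α ^ 2) * (cub ((W i).baseChange Λ) *
      (cub ((W j).baseChange Λ)).comp (C c * X + C d)) ≠ 0)
    (l : List (Λ × Pt (W i) Λ × Pt (W j) Λ))
    (hl : (A ^ 2 - C (α ^ 2) * (cub ((W i).baseChange Λ) *
      (cub ((W j).baseChange Λ)).comp (C c * X + C d))).roots = (l.map Prod.fst : List Λ))
    (ho : ∀ t ∈ l, OnC W L i j c d t.1 t.2.1 t.2.2 ∧ A.eval t.1 = α * (yc t.2.1 * yc t.2.2)) :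
    clL W L (z * (l.map fun t => dl W i t.2.1 * dl W j t.2.2 +
      dl W i (-t.2.1) * dl W j (-t.2.2)).sum) = 0 := by
  have : CharZero Λ := charZero_of_loc K
  have hc0 : c ≠ 0 := by rw [← norm_ne_zero_iff, hc1]; exact one_ne_zero
  set R : ι → Λ[X] := fun k => if k = i then X else C c * X + C d with hR
  have Ri : R i = X := by simp [hR]
  have Rj : R j = C c * X + C d := by simp [hR, hij.symm]
  have Fi : Fp W R i = cub ((W i).baseChange Λ) := by rw [Fp, Ri, comp_X]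
  have Fj : Fp W R j = (cub ((W j).baseChange Λ)).comp (C c * X + C d) := by rw [Fp, Rj]
  have hex : ∀ ξ ∈ l.map Prod.fst, ∃ y : Pts W Λ, (∀ k ∈ ({i, j} : Finset ι), y k ≠ 0 ∧
      xc (y k) = (R k).eval ξ ∧ yc (y k) ≠ 0) ∧
        α * ∏ k ∈ ({i, j} : Finset ι), yc (y k) = A.eval ξ := by
    intro ξ hξ
    obtain ⟨t, ht, rfl⟩ := List.mem_map.1 hξ
    obtain ⟨o, e⟩ := ho t ht
    refine ⟨Function.update (Function.update 0 i t.2.1) j t.2.2, fun k hk => ?_, ?_⟩
    · rcases Finset.mem_insert.1 hk with rfl | hk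
      · rw [Function.update_of_ne hij, Function.update_self, Ri, eval_X]
        exact ⟨o.gP.1, o.xP, by rw [← norm_ne_zero_iff, o.gP.2.2]; exact one_ne_zero⟩
      · obtain rfl := Finset.mem_singleton.1 hk
        rw [Function.update_self, Rj]
        exact ⟨o.gQ.1, by simpa using o.xQ, by rw [← norm_ne_zero_iff, o.gQ.2.2]; exact one_ne_zero⟩
    · rw [Finset.prod_pair hij, Function.update_of_ne hij, Function.update_self,
        Function.update_self, e]
  choose! pt hpt using hex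
  have sep : ∀ k r, (cub ((W k).baseChange Λ)).eval r = 0 →
      (cub ((W k).baseChange Λ)).derivative.eval r ≠ 0 := fun k r hr => by
    rw [← norm_ne_zero_iff, (hW k).deriv_unit ((hW k).intg.root_le
      (monic_cub (E := Affine.baseChange (W k) Λ)) hr) (by simp [hr])]
    exact one_ne_zero
  have root : ∀ k, ∃ r, (cub ((W k).baseChange Λ)).eval r = 0 := fun k =>
    IsAlgClosed.exists_root _ (by
      rw [degree_eq_natDegree (monic_cub (E := Affine.baseChange (W k) Λ)).ne_zero]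
      exact_mod_cast (natDegree_cub (E := Affine.baseChange (W k) Λ)).trans_ne (by norm_num))
  have key := R3 (L := L) (fun k => (hW k).a₁) (fun k => (hW k).a₃) (fun k => (hW k).Δ_ne)
    (I := {i, j}) ⟨i, by simp⟩ hz (R := R) (fun k hk => by
      rcases Finset.mem_insert.1 hk with rfl | hk
      · rw [Ri]; exact ⟨over_X, by simp⟩
      · obtain rfl := Finset.mem_singleton.1 hk
        rw [Rj]
        exact ⟨((over_C hc).mul over_X).add (over_C hd), by rw [natDegree_linear hc0]; norm_num⟩)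
    (fun k hk => by
      rcases Finset.mem_insert.1 hk with rfl | hk
      · obtain ⟨r, hr⟩ := root k
        refine ⟨r, by rwa [Fi], by rw [Fi]; exact sep k r hr, fun k' hk' hne => ?_⟩
        obtain rfl : k' = j := by simpa [hne] using hk'
        rw [Fj, eval_comp]
        simpa using hind r hr
      · obtain rfl := Finset.mem_singleton.1 hk
        obtain ⟨r, hr⟩ := root k
        have e : c * ((r - d) / c) + d = r := by field_simp; ring
        refine ⟨(r - d) / c, by rw [Fj, eval_comp]; simpa [e] using hr, ?_, fun k' hk' hne => ?_⟩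
        · rw [Fj, derivative_comp, eval_mul, eval_comp]
          simpa [e, hc0] using sep k r hr
        · obtain rfl : k' = i := by simpa [hne] using hk'
          rw [Fi]
          exact fun h0 => hind _ h0 (by rwa [e]))
    hA hα hα0 (by rw [Finset.prod_pair hij, Fi, Fj]) hN pt
    (fun ξ hξ => hpt ξ (by rwa [hl, Multiset.mem_coe] at hξ))
  rw [hl, Multiset.map_coe, Multiset.sum_coe, List.map_map] at key
  rw [← key]
  congr 3
  refine List.map_congr_left fun t ht => ?_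
  obtain ⟨o, e⟩ := ho t ht
  obtain ⟨h1, h2⟩ := hpt t.1 (List.mem_map_of_mem ht)
  obtain ⟨a1, a2, -⟩ := h1 i (by simp)
  obtain ⟨b1, b2, -⟩ := h1 j (by simp)
  rw [Finset.prod_pair hij, e] at h2
  refine (cube1_evenSum hij (fun k => (hW k).a₁) (fun k => (hW k).a₃) o.gP.1 o.gQ.1 a1 b1
    (by rw [a2, Ri, eval_X, o.xP]) (by rw [b2, Rj, o.xQ]; simp)
    (by rw [← norm_ne_zero_iff, o.norm]; exact one_ne_zero) (mul_left_cancel₀ hα0 h2)).symm

end Pool.Agent.Lib.MP_796ce4_ag
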