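import Pool.Agent.Lib.MP_796ce4_ag.Curve0

/-! Additivity of specialisation. -/

namespace Pool.Agent.Lib.MP_796ce4_ag

open WeierstrassCurve Polynomial Module
open scoped Classical IntermediateField

set_option linter.unusedSectionVars false

/-- hypotheses under which specialisation is a homomorphism -/
structure SpecData {F κ : Type} [Field F] [Field κ] (O : Subring F) (ev : O →+* κ)
    (W₁ : Affine F) (W₂ : Affine κ) : Prop where
  val : ∀ x : F, x ∈ O ∨ x⁻¹ ∈ O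
  loc : ∀ z : O, ev z ≠ 0 → (z : F)⁻¹ ∈ O
  a₁ : W₁.a₁ = 0
  a₃ : W₁.a₃ = 0
  b₁ : W₂.a₁ = 0
  b₃ : W₂.a₃ = 0
  a₂ : ∃ h : W₁.a₂ ∈ O, ev ⟨_, h⟩ = W₂.a₂
  a₄ : ∃ h : W₁.a₄ ∈ O, ev ⟨_, h⟩ = W₂.a₄
  a₆ : ∃ h : W₁.a₆ ∈ O, ev ⟨_, h⟩ = W₂.a₆
  Δ : W₂.Δ ≠ 0

namespace SpecData
variable {F κ : Type} [Field F] [Field κ] {O : Subring F} {ev : O →+* κ}
  {W₁ : Affine F} {W₂ : Affine κ} (D : SpecData O ev W₁ W₂)
include D

theorem curve_sq_mem {y : F} (h : y ^ 2 ∈ O) : y ∈ O := by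
  rcases D.val y with h' | h'
  · exact h'
  · by_cases hy : y = 0
    · rw [hy]; exact O.zero_mem
    · have : y = y ^ 2 * y⁻¹ := by field_simp
      rw [this]; exact O.mul_mem h h'

theorem curve_inv_mem {y : F} (h : y ∉ O) : y⁻¹ ∈ O := (D.val y).resolve_left h

theorem curve_ev_inv {y : F} (h : y ∉ O) : ev ⟨_, D.curve_inv_mem h⟩ = 0 := by
  by_contra hne
  have := D.loc _ hne
  simp only [inv_inv] at this
  exact h this

theorem yc_mem {P : W₁.Point} (hx : xc P ∈ O) : yc P ∈ O := by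
  by_cases hP : P = 0
  · rw [hP, yc_zero]; exact O.zero_mem
  · apply D.curve_sq_mem
    rw [yc_sq D.a₁ D.a₃ hP, eval_cub]
    obtain ⟨h2, -⟩ := D.a₂
    obtain ⟨h4, -⟩ := D.a₄
    obtain ⟨h6, -⟩ := D.a₆
    exact O.add_mem (O.add_mem (O.add_mem (O.pow_mem hx 3) (O.mul_mem h2 (O.pow_mem hx 2)))
      (O.mul_mem h4 hx)) h6

theorem curve_nonsing {P : W₁.Point} (hP : P ≠ 0) (hx : xc P ∈ O) :
    W₂.Nonsingular (ev ⟨_, hx⟩) (ev ⟨_, D.yc_mem hx⟩) := by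
  rw [← Affine.equation_iff_nonsingular_of_Δ_ne_zero D.Δ, Affine.equation_iff, D.b₁, D.b₃]
  obtain ⟨h2, e2⟩ := D.a₂
  obtain ⟨h4, e4⟩ := D.a₄
  obtain ⟨h6, e6⟩ := D.a₆
  have h := yc_sq D.a₁ D.a₃ hP
  rw [eval_cub] at h
  have h' : (⟨_, D.yc_mem hx⟩ : O) ^ 2 =
      ⟨_, hx⟩ ^ 3 + ⟨_, h2⟩ * ⟨_, hx⟩ ^ 2 + ⟨_, h4⟩ * ⟨_, hx⟩ + ⟨_, h6⟩ := Subtype.ext h
  have h'' := congrArg ev h'
  simp only [map_add, map_mul, map_pow, e2, e4, e6] at h''
  linear_combination h''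

theorem spec_of_mem {P : W₁.Point} (hP : P ≠ 0) (hx : xc P ∈ O) :
    spec O ev W₁ W₂ P ≠ 0 ∧ xc (spec O ev W₁ W₂ P) = ev ⟨_, hx⟩ ∧
      yc (spec O ev W₁ W₂ P) = ev ⟨_, D.yc_mem hx⟩ := by
  have hn := D.curve_nonsing hP hx
  rcases P with _ | ⟨x, y, h⟩
  · exact absurd rfl hP
  · have hex : ∃ hx : x ∈ O, ∃ hy : y ∈ O, W₂.Nonsingular (ev ⟨x, hx⟩) (ev ⟨y, hy⟩) :=
      ⟨hx, D.yc_mem hx, hn⟩
    have e : spec O ev W₁ W₂ (.some x y h) = .some _ _ hex.choose_spec.choose_spec :=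
      dif_pos hex
    rw [e]
    exact ⟨Affine.Point.some_ne_zero _, rfl, rfl⟩

theorem spec_of_not_mem {P : W₁.Point} (hx : xc P ∉ O) : spec O ev W₁ W₂ P = 0 := by
  rcases P with _ | ⟨x, y, h⟩
  · rfl
  · exact dif_neg fun ⟨h', _⟩ => hx h'

theorem curve_spec_zero : spec O ev W₁ W₂ 0 = 0 := rfl

theorem curve_spec_neg (P : W₁.Point) : spec O ev W₁ W₂ (-P) = -spec O ev W₁ W₂ P := by
  by_cases hP : P = 0
  · rw [hP, neg_zero, D.curve_spec_zero, neg_zero]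
  by_cases hx : xc P ∈ O
  · have hx' : xc (-P) ∈ O := by rwa [xc_neg]
    obtain ⟨n1, x1, y1⟩ := D.spec_of_mem hP hx
    obtain ⟨n2, x2, y2⟩ := D.spec_of_mem (neg_ne_zero.2 hP) hx'
    refine pt_ext n2 (neg_ne_zero.2 n1) ?_ ?_
    · rw [xc_neg, x1, x2]
      exact congrArg ev (Subtype.ext (xc_neg P))
    · rw [yc_neg D.b₁ D.b₃, y1, y2, ← map_neg]
      exact congrArg ev (Subtype.ext (yc_neg D.a₁ D.a₃ P))
  · have hx' : xc (-P) ∉ O := by rwa [xc_neg]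
    rw [D.spec_of_not_mem hx, D.spec_of_not_mem hx', neg_zero]

/-- two of three collinear affine points are integral -/
theorem curve_two {P Q R : W₁.Point} (hP : P ≠ 0) (hQ : Q ≠ 0) (hR : R ≠ 0)
    (h : P + Q + R = 0) (hp : xc P ∈ O) (hq : xc Q ∈ O) :
    spec O ev W₁ W₂ P + spec O ev W₁ W₂ Q + spec O ev W₁ W₂ R = 0 := by
  obtain ⟨l, m, e1, e2, e3, s1, s2, s3⟩ := (add3_iff D.a₁ D.a₃ hP hQ hR).1 h
  obtain ⟨h2, c2⟩ := D.a₂
  obtain ⟨h4, c4⟩ := D.a₄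
  obtain ⟨h6, c6⟩ := D.a₆
  obtain ⟨n1, x1, y1⟩ := D.spec_of_mem hP hp
  obtain ⟨n2, x2, y2⟩ := D.spec_of_mem hQ hq
  by_cases hl : l ∈ O
  · have hm : m ∈ O := by
      have : m = yc P - l * xc P := by linear_combination -e1
      rw [this]; exact O.sub_mem (D.yc_mem hp) (O.mul_mem hl hp)
    have hr : xc R ∈ O := by
      have : xc R = l ^ 2 - W₁.a₂ - xc P - xc Q := by linear_combination s1
      rw [this]; exact O.sub_mem (O.sub_mem (O.sub_mem (O.pow_mem hl 2) h2) hp) hq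
    obtain ⟨n3, x3, y3⟩ := D.spec_of_mem hR hr
    refine (add3_iff D.b₁ D.b₃ n1 n2 n3).2 ⟨ev ⟨l, hl⟩, ev ⟨m, hm⟩, ?_, ?_, ?_, ?_, ?_, ?_⟩
    · rw [x1, y1, ← map_mul, ← map_add]; exact congrArg ev (Subtype.ext e1)
    · rw [x2, y2, ← map_mul, ← map_add]; exact congrArg ev (Subtype.ext e2)
    · rw [x3, y3, ← map_mul, ← map_add]; exact congrArg ev (Subtype.ext e3)
    · rw [x1, x2, x3, ← c2, ← map_pow, ← map_add, ← map_add, ← map_sub]
      exact congrArg ev (Subtype.ext s1)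
    · have s2' : (⟨_, hp⟩ * ⟨_, hq⟩ + ⟨_, hp⟩ * ⟨_, hr⟩ + ⟨_, hq⟩ * ⟨_, hr⟩ : O) =
          ⟨_, h4⟩ - (⟨l, hl⟩ * ⟨m, hm⟩ + ⟨l, hl⟩ * ⟨m, hm⟩) :=
        Subtype.ext (s2.trans (by push_cast; ring))
      have := congrArg ev s2'
      simp only [map_add, map_mul, map_sub, c4] at this
      rw [x1, x2, x3]
      linear_combination this
    · rw [x1, x2, x3, ← c6, ← map_pow, ← map_mul, ← map_mul, ← map_sub]
      exact congrArg ev (Subtype.ext s3)
  · have hr : xc R ∉ O := by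
      intro hr
      apply hl
      apply D.curve_sq_mem
      have : l ^ 2 = xc P + xc Q + xc R + W₁.a₂ := by linear_combination -s1
      rw [this]; exact O.add_mem (O.add_mem (O.add_mem hp hq) hr) h2
    have hl0 : l ≠ 0 := fun h0 => hl (h0 ▸ O.zero_mem)
    have hu := D.curve_ev_inv hl
    rw [D.spec_of_not_mem hr, add_zero, add_eq_zero_iff_eq_neg]
    refine pt_ext n1 (neg_ne_zero.2 n2) ?_ ?_
    · have t : (⟨_, hp⟩ : O) = ⟨_, hq⟩ + ⟨_, D.curve_inv_mem hl⟩ *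
          (⟨_, D.yc_mem hp⟩ - ⟨_, D.yc_mem hq⟩) := by
        apply Subtype.ext
        push_cast
        field_simp
        linear_combination e2 - e1
      rw [xc_neg, x1, x2, t, map_add, map_mul, hu, zero_mul, add_zero]
    · have t : (⟨_, D.yc_mem hp⟩ : O) = -⟨_, D.yc_mem hq⟩ + ⟨_, D.curve_inv_mem hl⟩ *
          (⟨_, hp⟩ ^ 2 + ⟨_, hp⟩ * ⟨_, hq⟩ + ⟨_, hq⟩ ^ 2 + ⟨_, h2⟩ * (⟨_, hp⟩ + ⟨_, hq⟩) +
            ⟨_, h4⟩) := by
        apply Subtype.ext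
        push_cast
        field_simp
        linear_combination l * e1 + l * e2 - (xc P + xc Q) * s1 + s2
      rw [yc_neg D.b₁ D.b₃, y1, y2, t, map_add, map_mul, hu, zero_mul, add_zero, map_neg]

/-- exactly one of three collinear affine points cannot be integral -/
theorem curve_one {P Q R : W₁.Point} (hP : P ≠ 0) (hQ : Q ≠ 0) (hR : R ≠ 0)
    (h : P + Q + R = 0) (hp : xc P ∈ O) (hq : xc Q ∉ O) (hr : xc R ∉ O) : False := by
  obtain ⟨l, m, e1, -, -, s1, s2, -⟩ := (add3_iff D.a₁ D.a₃ hP hQ hR).1 h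
  obtain ⟨h2, -⟩ := D.a₂
  obtain ⟨h4, -⟩ := D.a₄
  have hy := D.yc_mem hp
  have hA : xc Q - xc P ∉ O := fun h' => hq (by simpa using O.add_mem h' hp)
  have hB : xc R - xc P ∉ O := fun h' => hr (by simpa using O.add_mem h' hp)
  have hA0 : xc Q - xc P ≠ 0 := fun h0 => hA (h0 ▸ O.zero_mem)
  have hB0 : xc R - xc P ≠ 0 := fun h0 => hB (h0 ▸ O.zero_mem)
  set f := W₁.a₄ + (W₁.a₂ * xc P + W₁.a₂ * xc P) + (xc P ^ 2 + xc P ^ 2 + xc P ^ 2) with hf
  have hfO : f ∈ O := O.add_mem (O.add_mem h4 (O.add_mem (O.mul_mem h2 hp) (O.mul_mem h2 hp)))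
    (O.add_mem (O.add_mem (O.pow_mem hp 2) (O.pow_mem hp 2)) (O.pow_mem hp 2))
  have hAB : (xc Q - xc P) * (xc R - xc P) = f - l * (yc P + yc P) := by
    rw [hf]; linear_combination s2 - 2 * xc P * s1 + 2 * l * e1
  have hS : (xc Q - xc P) + (xc R - xc P) = l ^ 2 - (W₁.a₂ + (xc P + xc P + xc P)) := by
    linear_combination s1
  have hg : W₁.a₂ + (xc P + xc P + xc P) ∈ O := O.add_mem h2 (O.add_mem (O.add_mem hp hp) hp)
  generalize xc Q - xc P = A at *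
  generalize xc R - xc P = B at *
  generalize W₁.a₂ + (xc P + xc P + xc P) = g at *
  have hl : l ∈ O := by
    by_contra hl
    have hl0 : l ≠ 0 := fun h0 => hl (h0 ▸ O.zero_mem)
    apply hl
    have : l = (A⁻¹ + B⁻¹) * (f * l⁻¹ - (yc P + yc P)) + l⁻¹ * g := by
      have t : f * l⁻¹ - (yc P + yc P) = A * B * l⁻¹ := by
        rw [hAB]; field_simp
      rw [t]
      field_simp
      linear_combination -hS
    rw [this]
    exact O.add_mem (O.mul_mem (O.add_mem (D.curve_inv_mem hA) (D.curve_inv_mem hB))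
      (O.sub_mem (O.mul_mem hfO (D.curve_inv_mem hl)) (O.add_mem hy hy)))
      (O.mul_mem (D.curve_inv_mem hl) hg)
  apply hA
  have : A = (f - l * (yc P + yc P)) * B⁻¹ := by rw [← hAB]; field_simp
  rw [this]
  exact O.mul_mem (O.sub_mem hfO (O.mul_mem hl (O.add_mem hy hy))) (D.curve_inv_mem hB)

theorem curve_three {P Q R : W₁.Point} (h : P + Q + R = 0) :
    spec O ev W₁ W₂ P + spec O ev W₁ W₂ Q + spec O ev W₁ W₂ R = 0 := by
  by_cases hP : P = 0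
  · rw [hP, zero_add, add_eq_zero_iff_eq_neg] at h
    rw [hP, h, D.curve_spec_zero, D.curve_spec_neg, zero_add, neg_add_cancel]
  by_cases hQ : Q = 0
  · rw [hQ, add_zero, add_eq_zero_iff_eq_neg] at h
    rw [hQ, h, D.curve_spec_zero, D.curve_spec_neg, add_zero, neg_add_cancel]
  by_cases hR : R = 0
  · rw [hR, add_zero, add_eq_zero_iff_eq_neg] at h
    rw [hR, h, D.curve_spec_zero, D.curve_spec_neg, add_zero, neg_add_cancel]
  have h132 : P + R + Q = 0 := by rw [← h]; abel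
  have h231 : Q + R + P = 0 := by rw [← h]; abel
  have h312 : R + P + Q = 0 := by rw [← h]; abel
  by_cases hp : xc P ∈ O <;> by_cases hq : xc Q ∈ O <;> by_cases hr : xc R ∈ O
  · exact D.curve_two hP hQ hR h hp hq
  · exact D.curve_two hP hQ hR h hp hq
  · rw [← D.curve_two hP hR hQ h132 hp hr]; abel
  · exact (D.curve_one hP hQ hR h hp hq hr).elim
  · rw [← D.curve_two hQ hR hP h231 hq hr]; abel
  · exact (D.curve_one hQ hR hP h231 hq hr hp).elim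
  · exact (D.curve_one hR hP hQ h312 hr hp hq).elim
  · rw [D.spec_of_not_mem hp, D.spec_of_not_mem hq, D.spec_of_not_mem hr, add_zero, add_zero]

theorem spec_add (P Q : W₁.Point) :
    spec O ev W₁ W₂ (P + Q) = spec O ev W₁ W₂ P + spec O ev W₁ W₂ Q := by
  have h := D.curve_three (P := P) (Q := Q) (R := -(P + Q)) (add_neg_cancel _)
  rw [D.curve_spec_neg, add_neg_eq_zero] at h
  exact h.symm

/-- specialisation as a homomorphism -/
noncomputable def hom : W₁.Point →+ W₂.Point := AddMonoidHom.mk' (spec O ev W₁ W₂) D.spec_add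

theorem hom_apply (P : W₁.Point) : D.hom P = spec O ev W₁ W₂ P := rfl

end SpecData

end Pool.Agent.Lib.MP_796ce4_ag
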