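import Pool.Agent.Lib.MP_796ce4_ag.Gal

/-! Points of y ^ 2 = cubic, collinearity, and additivity of specialisation. -/

namespace Pool.Agent.Lib.MP_796ce4_ag

open WeierstrassCurve Polynomial Module
open scoped Classical IntermediateField

set_option linter.unusedSectionVars false

section one
variable {F : Type} [Field F] {E : Affine F}

@[simp] theorem xc_zero : xc (0 : E.Point) = 0 := rfl
@[simp] theorem yc_zero : yc (0 : E.Point) = 0 := rfl
theorem pt_ext {P Q : E.Point} (hP : P ≠ 0) (hQ : Q ≠ 0) (hx : xc P = xc Q) (hy : yc P = yc Q) :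
    P = Q := by
  rcases P with _ | ⟨x, y, h⟩
  · exact absurd rfl hP
  rcases Q with _ | ⟨x', y', h'⟩
  · exact absurd rfl hQ
  obtain rfl : x = x' := hx
  obtain rfl : y = y' := hy
  rfl
@[simp] theorem xc_neg (P : E.Point) : xc (-P) = xc P := by
  cases P <;> rfl
theorem yc_neg (h₁ : E.a₁ = 0) (h₃ : E.a₃ = 0) (P : E.Point) : yc (-P) = -yc P := by
  rcases P with _ | ⟨x, y, h⟩
  · exact (neg_zero (G := F)).symm
  · change E.negY x y = -y
    simp [Affine.negY, h₁, h₃]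
theorem curve0_eval (x : F) : (cub E).eval x = x ^ 3 + E.a₂ * x ^ 2 + E.a₄ * x + E.a₆ := by
  simp [cub]
theorem yc_sq (h₁ : E.a₁ = 0) (h₃ : E.a₃ = 0) {P : E.Point} (hP : P ≠ 0) :
    yc P ^ 2 = (cub E).eval (xc P) := by
  rcases P with _ | ⟨x, y, h⟩
  · exact absurd rfl hP
  have e := (Affine.equation_iff x y).1 h.1
  rw [h₁, h₃] at e
  rw [curve0_eval]
  change y ^ 2 = x ^ 3 + E.a₂ * x ^ 2 + E.a₄ * x + E.a₆
  linear_combination e
theorem exists_pt (h₁ : E.a₁ = 0) (h₃ : E.a₃ = 0) (hΔ : E.Δ ≠ 0) {x y : F}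
    (h : y ^ 2 = (cub E).eval x) : ∃ P : E.Point, P ≠ 0 ∧ xc P = x ∧ yc P = y := by
  have e : E.Equation x y := by
    rw [Affine.equation_iff, h₁, h₃]
    rw [curve0_eval] at h
    linear_combination h
  exact ⟨.some x y ((Affine.equation_iff_nonsingular_of_Δ_ne_zero hΔ).1 e),
    Affine.Point.some_ne_zero _, rfl, rfl⟩
theorem eq_or_eq_neg_of_xc {P Q : E.Point} (hP : P ≠ 0) (hQ : Q ≠ 0) (hx : xc P = xc Q) :
    P = Q ∨ P = -Q := by
  rcases P with _ | ⟨x, y, h⟩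
  · exact absurd rfl hP
  rcases Q with _ | ⟨x', y', h'⟩
  · exact absurd rfl hQ
  exact Affine.Point.X_eq_iff.1 hx
theorem eval_cub (x : F) : (cub E).eval x = x ^ 3 + E.a₂ * x ^ 2 + E.a₄ * x + E.a₆ :=
  curve0_eval x
theorem monic_cub : (cub E).Monic := by
  unfold cub
  monicity!
theorem natDegree_cub : (cub E).natDegree = 3 := by
  unfold cub
  compute_degree!
theorem separable_cub (h₁ : E.a₁ = 0) (h₃ : E.a₃ = 0) (hΔ : E.Δ ≠ 0) : (cub E).Separable := by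
  have hd : derivative (cub E) = 3 * X ^ 2 + 2 * C E.a₂ * X + C E.a₄ := by
    simp only [cub, derivative_add, derivative_mul, derivative_X_pow, derivative_C, derivative_X,
      map_natCast]
    push_cast
    ring
  have hD : C E.Δ = 16 * (C E.a₂ ^ 2 * C E.a₄ ^ 2 - 4 * C E.a₄ ^ 3 - 4 * C E.a₂ ^ 3 * C E.a₆
      - 27 * C E.a₆ ^ 2 + 18 * C E.a₂ * C E.a₄ * C E.a₆) := by
    have : E.Δ = 16 * (E.a₂ ^ 2 * E.a₄ ^ 2 - 4 * E.a₄ ^ 3 - 4 * E.a₂ ^ 3 * E.a₆
        - 27 * E.a₆ ^ 2 + 18 * E.a₂ * E.a₄ * E.a₆) := by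
      simp only [WeierstrassCurve.Δ, b₂, b₄, b₆, b₈, h₁, h₃]
      ring
    rw [this]
    simp only [map_mul, map_add, map_sub, map_pow, map_ofNat]
  have hi : C E.Δ⁻¹ * C E.Δ = 1 := by rw [← map_mul, inv_mul_cancel₀ hΔ, map_one]
  refine ⟨C E.Δ⁻¹ * (-16 * (6 * (C E.a₂ ^ 2 - 3 * C E.a₄) * X + 3 * (9 * C E.a₆ - C E.a₂ * C E.a₄)
      + 4 * C E.a₂ * (C E.a₂ ^ 2 - 3 * C E.a₄))),
    C E.Δ⁻¹ * (-16 * (-2 * (C E.a₂ ^ 2 - 3 * C E.a₄) * X ^ 2
      - (2 * C E.a₂ * (C E.a₂ ^ 2 - 3 * C E.a₄) + (9 * C E.a₆ - C E.a₂ * C E.a₄)) * X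
      + (4 * C E.a₄ ^ 2 - C E.a₂ ^ 2 * C E.a₄ - 3 * C E.a₂ * C E.a₆))), ?_⟩
  rw [hd, ← hi, hD, cub]
  ring

/-- the two identities that characterise the slope -/
theorem curve0_slope (h₁ : E.a₁ = 0) (h₃ : E.a₃ = 0) {x₁ x₂ y₁ y₂ : F} (e₁ : E.Equation x₁ y₁)
    (e₂ : E.Equation x₂ y₂) (hxy : ¬(x₁ = x₂ ∧ y₁ = E.negY x₂ y₂)) :
    y₂ = y₁ + E.slope x₁ x₂ y₁ y₂ * (x₂ - x₁) ∧
      E.slope x₁ x₂ y₁ y₂ * (y₁ + y₂) = x₁ ^ 2 + x₁ * x₂ + x₂ ^ 2 + E.a₂ * (x₁ + x₂) + E.a₄ := by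
  by_cases hx : x₁ = x₂
  · have hy : y₁ ≠ E.negY x₂ y₂ := fun h => hxy ⟨hx, h⟩
    have hy' := Affine.Y_eq_of_Y_ne e₁ e₂ hx hy
    have hs := Affine.slope_of_Y_ne hx hy
    subst hx hy'
    have hn : E.negY x₁ y₁ = -y₁ := by simp [Affine.negY, h₁, h₃]
    rw [hn] at hs hy
    have h0 : y₁ - -y₁ ≠ 0 := sub_ne_zero.2 hy
    refine ⟨by ring, ?_⟩
    rw [hs, h₁, show y₁ + y₁ = y₁ - -y₁ by ring, div_mul_cancel₀ _ h0]
    ring
  · have h0 : x₁ - x₂ ≠ 0 := sub_ne_zero.2 hx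
    have hs : E.slope x₁ x₂ y₁ y₂ * (x₁ - x₂) = y₁ - y₂ := by
      rw [Affine.slope_of_X_ne hx, div_mul_cancel₀ _ h0]
    rw [Affine.equation_iff, h₁, h₃] at e₁ e₂
    refine ⟨by linear_combination hs, mul_right_cancel₀ h0 ?_⟩
    linear_combination (y₁ + y₂) * hs + e₁ - e₂

/-- three affine points add up to zero iff they are cut out by a line -/
theorem add3_iff (h₁ : E.a₁ = 0) (h₃ : E.a₃ = 0) {P Q R : E.Point} (hP : P ≠ 0)
    (hQ : Q ≠ 0) (hR : R ≠ 0) :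
    P + Q + R = 0 ↔ ∃ l m : F, yc P = l * xc P + m ∧ yc Q = l * xc Q + m ∧ yc R = l * xc R + m ∧
      xc P + xc Q + xc R = l ^ 2 - E.a₂ ∧
      xc P * xc Q + xc P * xc R + xc Q * xc R = E.a₄ - 2 * l * m ∧
      xc P * xc Q * xc R = m ^ 2 - E.a₆ := by
  rcases P with _ | ⟨x₁, y₁, n₁⟩
  · exact absurd rfl hP
  rcases Q with _ | ⟨x₂, y₂, n₂⟩
  · exact absurd rfl hQ
  rcases R with _ | ⟨x₃, y₃, n₃⟩
  · exact absurd rfl hR
  simp only [xc, yc]
  have hn : ∀ x y : F, E.negY x y = -y := fun x y => by simp [Affine.negY, h₁, h₃]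
  rw [add_eq_zero_iff_eq_neg]
  constructor
  · intro h
    have hxy : ¬(x₁ = x₂ ∧ y₁ = E.negY x₂ y₂) := fun hxy => by
      rw [Affine.Point.add_of_Y_eq hxy.1 hxy.2] at h
      exact hR (neg_eq_zero.1 h.symm)
    rw [Affine.Point.add_some hxy, Affine.Point.neg_some, Affine.Point.some.injEq] at h
    obtain ⟨a, b⟩ := h
    obtain ⟨s₁, s₂⟩ := curve0_slope h₁ h₃ n₁.1 n₂.1 hxy
    have e := (Affine.equation_iff x₁ y₁).1 n₁.1
    rw [h₁, h₃] at e
    rw [Affine.addY, Affine.negAddY, hn, hn, a] at b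
    rw [Affine.addX, h₁] at a
    generalize E.slope x₁ x₂ y₁ y₂ = l at a b s₁ s₂
    obtain rfl : x₃ = l ^ 2 - E.a₂ - x₁ - x₂ := by linear_combination -a
    refine ⟨l, y₁ - l * x₁, by ring, by linear_combination s₁, by linear_combination b, by ring,
      by linear_combination s₂ - l * s₁, ?_⟩
    linear_combination x₁ * (s₂ - l * s₁) - e
  · rintro ⟨l, m, a₁, a₂, a₃, v₁, v₂, -⟩
    have s₂ : l * (y₁ + y₂) = x₁ ^ 2 + x₁ * x₂ + x₂ ^ 2 + E.a₂ * (x₁ + x₂) + E.a₄ := by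
      linear_combination l * a₁ + l * a₂ - (x₁ + x₂) * v₁ + v₂
    have hxy : ¬(x₁ = x₂ ∧ y₁ = E.negY x₂ y₂) := by
      rintro ⟨rfl, hy⟩
      rw [hn] at hy
      have hy' : y₁ = y₂ := a₁.trans a₂.symm
      rcases ((Affine.nonsingular_iff x₁ y₁).1 n₁).2 with h | h
      · refine h ?_
        rw [h₁]
        linear_combination s₂ - l * hy
      · refine h ?_
        rw [h₁, h₃]
        linear_combination hy + hy'
    obtain ⟨t₁, t₂⟩ := curve0_slope h₁ h₃ n₁.1 n₂.1 hxy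
    have hl : E.slope x₁ x₂ y₁ y₂ = l := by
      by_contra hl
      have hl' := sub_ne_zero.2 hl
      refine hxy ⟨?_, ?_⟩
      · refine (sub_eq_zero.1 (mul_left_cancel₀ hl' ?_)).symm
        linear_combination a₂ - a₁ - t₁
      · rw [hn]
        refine eq_neg_of_add_eq_zero_left (mul_left_cancel₀ hl' ?_)
        linear_combination t₂ - s₂
    have hX : E.addX x₁ x₂ l = x₃ := by
      rw [Affine.addX, h₁]
      linear_combination -v₁
    rw [Affine.Point.add_some hxy, Affine.Point.neg_some, Affine.Point.some.injEq, hl,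
      Affine.addY, Affine.negAddY, hn, hn, hX]
    exact ⟨rfl, by linear_combination a₃ - a₁⟩

end one

section gal
variable {K F F' : Type} [Field K] [Field F] [Field F'] [Algebra K F] [Algebra K F']
  {E : WeierstrassCurve K}

theorem xc_map (f : F →ₐ[K] F') (P : Pt E F) : xc (Affine.Point.map f P) = f (xc P) := by
  rcases P with _ | ⟨x, y, h⟩
  · exact (map_zero f).symm
  · rfl
theorem yc_map (f : F →ₐ[K] F') (P : Pt E F) : yc (Affine.Point.map f P) = f (yc P) := by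
  rcases P with _ | ⟨x, y, h⟩
  · exact (map_zero f).symm
  · rfl
theorem map_eq_zero' (f : F →ₐ[K] F') (P : Pt E F) : Affine.Point.map f P = 0 ↔ P = 0 :=
  map_eq_zero_iff _ (Affine.Point.map_injective f)
@[simp] theorem xc_galP (σ : F ≃ₐ[K] F) (P : Pt E F) : xc (galP E σ P) = σ (xc P) :=
  xc_map (σ : F →ₐ[K] F) P
@[simp] theorem yc_galP (σ : F ≃ₐ[K] F) (P : Pt E F) : yc (galP E σ P) = σ (yc P) :=
  yc_map (σ : F →ₐ[K] F) P
@[simp] theorem galP_eq_zero (σ : F ≃ₐ[K] F) (P : Pt E F) : galP E σ P = 0 ↔ P = 0 :=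
  map_eq_zero' (σ : F →ₐ[K] F) P
@[simp] theorem galP_one (P : Pt E F) : galP E 1 P = P := by
  cases P <;> rfl
theorem galP_mul (σ τ : F ≃ₐ[K] F) (P : Pt E F) : galP E (σ * τ) P = galP E σ (galP E τ P) := by
  cases P <;> rfl
theorem galP_congr {σ τ : F ≃ₐ[K] F} {P : Pt E F} (hx : σ (xc P) = τ (xc P))
    (hy : σ (yc P) = τ (yc P)) : galP E σ P = galP E τ P := by
  by_cases hP : P = 0
  · rw [hP, map_zero, map_zero]
  · exact pt_ext (by simpa using hP) (by simpa using hP) (by simpa using hx) (by simpa using hy)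
theorem mem_pts_iff [IsGalois K F] {L : IntermediateField K F} {P : Pt E F} :
    P ∈ pts E L ↔ xc P ∈ L ∧ yc P ∈ L := by
  constructor
  · intro h
    exact ⟨mem_of_fixed fun σ hσ => by rw [← xc_galP, h σ hσ],
      mem_of_fixed fun σ hσ => by rw [← yc_galP, h σ hσ]⟩
  · rintro ⟨hx, hy⟩ σ hσ
    exact (galP_congr (τ := 1) (hσ _ hx) (hσ _ hy)).trans (galP_one P)
theorem pts_mono {L L' : IntermediateField K F} (h : L ≤ L') : pts E L ≤ pts E L' :=
  fun _ hP σ hσ => hP σ fun x hx => hσ x (h hx)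
theorem Fam.tr_mem [IsGalois K F] {L L' : IntermediateField K F} {T : Type} [Fintype T]
    {s : T → F ≃ₐ[K] F} (h : Fam L L' s) {P : Pt E F} (hP : P ∈ pts E L') :
    ∑ t, galP E (s t) P ∈ pts E L := by
  intro σ hσ
  obtain ⟨ρ, hρ⟩ := h.perm σ hσ
  obtain ⟨hx, hy⟩ := mem_pts_iff.1 hP
  rw [map_sum, ← Equiv.sum_comp ρ fun t => galP E (s t) P]
  refine Finset.sum_congr rfl fun t _ => ?_
  rw [← galP_mul]
  exact galP_congr (hρ t _ hx) (hρ t _ hy)
/-- an L-rational point comes from a point over L -/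
theorem exists_pt_over [IsGalois K F] {L : IntermediateField K F} {P : Pt E F}
    (hP : P ∈ pts E L) : ∃ Q : Pt E L, Affine.Point.map L.val Q = P := by
  obtain ⟨hx, hy⟩ := mem_pts_iff.1 hP
  rcases P with _ | ⟨x, y, h⟩
  · exact ⟨0, rfl⟩
  · exact ⟨.some ⟨x, hx⟩ ⟨y, hy⟩
      ((Affine.baseChange_nonsingular E (f := L.val) L.val.injective _ _).1 h), rfl⟩
theorem cub_baseChange : cub (E.baseChange F) = (cub E).map (algebraMap K F) := by
  simp [cub, WeierstrassCurve.baseChange]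

end gal

theorem Good.Δ_ne {K Λ : Type} [Field K] [NormedField Λ] [Algebra K Λ] {E : WeierstrassCurve K}
    (hE : Good Λ E) : E.Δ ≠ 0 := fun h => by
  have := hE.Δ
  rw [h, map_zero, norm_zero] at this
  exact zero_ne_one this

end Pool.Agent.Lib.MP_796ce4_ag
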