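import Mathlib

/-!
Zero-cycles of degree zero modulo rational equivalence on a product of Weierstrass curves.
-/

namespace Pool.Agent.Lib.MP_796ce4_ag

open WeierstrassCurve
open scoped Classical IntermediateField

/-- An `Λ`-valued point of the smooth complete curve with function field `F / K`: a normalised
discrete valuation `v` of `F` and a ring homomorphism over `K` from its valuation ring to `Λ`. -/
structure Place (K F Λ : Type) [Field K] [Field F] [Field Λ] [Algebra K F] [Algebra K Λ] where
  v : Valuation F (WithZero (Multiplicative ℤ))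
  surj : Function.Surjective v
  ev : v.integer →+* Λ
  ev_alg : ∀ c : K, ∃ h, ev ⟨algebraMap K F c, h⟩ = algebraMap K Λ c

/-- Specialisation of a point along `ev : O → κ`; points with a non-integral coordinate go to the
point at infinity. -/
noncomputable def spec {F κ : Type} [Field F] [Field κ] (O : Subring F) (ev : O →+* κ)
    (W₁ : Affine F) (W₂ : Affine κ) : W₁.Point → W₂.Point
  | .zero => .zero
  | .some x y _ =>
    if h : ∃ hx : x ∈ O, ∃ hy : y ∈ O, W₂.Nonsingular (ev ⟨x, hx⟩) (ev ⟨y, hy⟩) then
      .some _ _ h.choose_spec.choose_spec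
    else .zero

variable {K : Type} [Field K] {ι : Type} (W : ι → WeierstrassCurve K)

/-- The `F`-points of the product of the curves `W i`. -/
abbrev Pts (F : Type) [Field F] [Algebra K F] : Type :=
  ∀ i, (Affine.baseChange (W i) F).Point

variable (Λ : Type) [Field Λ] [Algebra K Λ]

/-- The push-forward `g_* div f` of the divisor of `f ∈ F` along the map `g` from the curve with
function field `F` to the product, as a function on `Λ`-points. -/
noncomputable def pushDiv {F : Type} [Field F] [Algebra K F] (g : Pts W F) (f : F) :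
    Pts W Λ →₀ ℤ :=
  ∑ᶠ P : Place K F Λ, Finsupp.single (fun i => spec P.v.integer P.ev _ _ (g i))
    (-WithZero.log (P.v f))

/-- Cycles rationally equivalent to zero. -/
noncomputable def RatEq : AddSubgroup (Pts W Λ →₀ ℤ) :=
  AddSubgroup.closure {D | ∃ (F : Type) (_ : Field F) (_ : Algebra K F) (t : F),
    Transcendental K t ∧ FiniteDimensional K⟮t⟯ F ∧
      ∃ (g : Pts W F) (f : F), f ≠ 0 ∧ D = pushDiv W Λ g f}

/-- Zero-cycles of degree zero: Galois-invariant finitely supported functions of total sum `0`. -/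
noncomputable def Cyc0 : AddSubgroup (Pts W Λ →₀ ℤ) where
  carrier := {D | (∀ (σ : Λ ≃ₐ[K] Λ) (y : Pts W Λ),
    D (fun i => Affine.Point.map (σ : Λ →ₐ[K] Λ) (y i)) = D y) ∧ D.degree = 0}
  zero_mem' := ⟨fun _ _ => rfl, map_zero _⟩
  add_mem' := fun {a b} ha hb => ⟨fun σ y => by
    rw [Finsupp.add_apply, Finsupp.add_apply, ha.1, hb.1], by rw [map_add, ha.2, hb.2, add_zero]⟩
  neg_mem' := fun {a} ha => ⟨fun σ y => by
    rw [Finsupp.neg_apply, Finsupp.neg_apply, ha.1], by rw [map_neg, ha.2, neg_zero]⟩

/-- The degree-zero Chow group of zero-cycles. -/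
abbrev A0 : Type := Cyc0 W Λ ⧸ (RatEq W Λ).addSubgroupOf (Cyc0 W Λ)

/-- The maximal divisible subgroup. -/
noncomputable def maxDiv (A : Type) [AddCommGroup A] : AddSubgroup A :=
  sSup {H | ∀ n : ℕ, n ≠ 0 → ∀ x ∈ H, ∃ y ∈ H, n • y = x}

end Pool.Agent.Lib.MP_796ce4_ag
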