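import Pool.Agent.Lib.MP_796ce4_ag.Final

/-!
Colliot-Thelene's question for products of elliptic curves with good reduction, p odd.
-/

namespace Pool.Agent.Results.MP_796ce4_ag.EllProd

open Pool.Agent.Lib.MP_796ce4_ag

/-- The quotient of `A` by its maximal divisible subgroup is isomorphic to `ℤ_p ^ n × F` with `F`
finite. -/
def ZpFin (p : ℕ) [Fact p.Prime] (A : Type) [AddCommGroup A] : Prop :=
  ∃ (n : ℕ) (F : Type) (_ : AddCommGroup F) (_ : Finite F),
    Nonempty ((A ⧸ maxDiv A) ≃+ (Fin n → ℤ_[p]) × F)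

/-- The question has a positive answer for the product of the curves `W i` over `K`. -/
def Holds (p : ℕ) [Fact p.Prime] {K : Type} [Field K] {ι : Type} (W : ι → WeierstrassCurve K) :
    Prop :=
  ZpFin p (A0 W (AlgebraicClosure K))

theorem result (p : ℕ) [Fact p.Prime] (hp : p ≠ 2) (K : Type) [Field K] [Algebra ℚ_[p] K]
    [FiniteDimensional ℚ_[p] K] [Algebra ℤ_[p] K] [IsScalarTower ℤ_[p] ℚ_[p] K] (d : ℕ)
    (W : Fin d → WeierstrassCurve (integralClosure ℤ_[p] K)) (hW : ∀ i, (W i).IsElliptic) :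
    Holds p (fun i => (W i).baseChange K) :=
  final p hp K d W hW

end Pool.Agent.Results.MP_796ce4_ag.EllProd
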