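import Pool.Agent.Lib.MP_796ce4_ag.Base

/-! Completing the square does not change the Chow group. -/

namespace Pool.Agent.Lib.MP_796ce4_ag

open WeierstrassCurve Polynomial Module
open scoped Classical IntermediateField

set_option linter.unusedSectionVars false

/-- the equation obtained by completing the square -/
noncomputable def sq {R : Type} [Field R] (E : WeierstrassCurve R) : WeierstrassCurve R :=
  ⟨0, E.b₂ / 4, 0, E.b₄ / 2, E.b₆ / 4⟩

theorem sq_Δ {R : Type} [Field R] [CharZero R] (E : WeierstrassCurve R) : (sq E).Δ = E.Δ := by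
  simp only [sq, Δ, b₂, b₄, b₆, b₈]
  field_simp
  ring

section aux

variable {K : Type} [Field K] [CharZero K] (E : WeierstrassCurve K)

/-- the shift of the second coordinate -/
noncomputable def varchT (F : Type) [Field F] [Algebra K F] (x : F) : F :=
  algebraMap K F (E.a₁ / 2) * x + algebraMap K F (E.a₃ / 2)

theorem varch_ns (F : Type) [Field F] [Algebra K F] (x y : F) :
    (Affine.baseChange E F).Nonsingular x y ↔
      (Affine.baseChange (sq E) F).Nonsingular x (y + varchT E F x) := by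
  have : CharZero F := charZero_of_injective_algebraMap (algebraMap K F).injective
  simp only [Affine.nonsingular_iff, Affine.equation_iff, Affine.baseChange, baseChange, map_a₁,
    map_a₂, map_a₃, map_a₄, map_a₆, sq, b₂, b₄, b₆, varchT, map_div₀, map_add, map_mul, map_pow,
    map_ofNat, map_zero]
  generalize algebraMap K F E.a₁ = a₁
  generalize algebraMap K F E.a₂ = a₂
  generalize algebraMap K F E.a₃ = a₃
  generalize algebraMap K F E.a₄ = a₄
  generalize algebraMap K F E.a₆ = a₆
  refine and_congr ⟨fun h => by linear_combination h, fun h => by linear_combination h⟩ ?_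
  rw [← not_iff_not]
  simp only [not_or, not_not]
  exact ⟨fun h => ⟨by linear_combination h.1 - a₁ / 2 * h.2, by linear_combination h.2⟩,
    fun h => ⟨by linear_combination h.1 + a₁ / 2 * h.2, by linear_combination h.2⟩⟩

/-- the bijection on points -/
noncomputable def varchE (F : Type) [Field F] [Algebra K F] : Pt E F ≃ Pt (sq E) F where
  toFun
    | .zero => .zero
    | .some x y h => .some x (y + varchT E F x) ((varch_ns E F x y).1 h)
  invFun
    | .zero => .zero
    | .some x y h => .some x (y - varchT E F x)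
        ((varch_ns E F x _).2 (by rwa [sub_add_cancel]))
  left_inv := by rintro (_ | ⟨x, y, h⟩) <;> simp
  right_inv := by rintro (_ | ⟨x, y, h⟩) <;> simp

theorem varchE_map {Λ : Type} [Field Λ] [Algebra K Λ] (σ : Λ →ₐ[K] Λ) (P : Pt E Λ) :
    Affine.Point.map σ (varchE E Λ P) = varchE E Λ (Affine.Point.map σ P) := by
  rcases P with _ | ⟨x, y, h⟩
  · rfl
  · change Affine.Point.some _ _ _ = Affine.Point.some _ _ _
    simp [varchT]

theorem varchE_spec {F Λ : Type} [Field F] [Algebra K F] [Field Λ] [Algebra K Λ]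
    (P : Place K F Λ) (Q : Pt E F) :
    spec P.v.integer P.ev _ _ (varchE E F Q) = varchE E Λ (spec P.v.integer P.ev _ _ Q) := by
  rcases Q with _ | ⟨x, y, h⟩
  · rfl
  obtain ⟨h1, e1⟩ := P.ev_alg (E.a₁ / 2)
  obtain ⟨h3, e3⟩ := P.ev_alg (E.a₃ / 2)
  have hT : ∀ hx : x ∈ P.v.integer, varchT E F x ∈ P.v.integer := fun hx =>
    add_mem (mul_mem h1 hx) h3
  have key : ∀ (hx : x ∈ P.v.integer) (hy : y ∈ P.v.integer) (h' : y + varchT E F x ∈ _),
      P.ev ⟨y + varchT E F x, h'⟩ = P.ev ⟨y, hy⟩ + varchT E Λ (P.ev ⟨x, hx⟩) := by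
    intro hx hy h'
    rw [show varchT E Λ (P.ev ⟨x, hx⟩) = _ * _ + _ from rfl, ← e1, ← e3, ← map_mul, ← map_add,
      ← map_add]
    rfl
  change spec _ _ _ _ (Affine.Point.some _ _ _) = _
  simp only [spec]
  split_ifs with c1 c2 c2
  · change Affine.Point.some _ _ _ = Affine.Point.some _ _ _
    simp only [Affine.Point.some.injEq, true_and]
    exact key _ _ _
  · obtain ⟨hx, hy, c⟩ := c1
    have hy' : y ∈ P.v.integer := by simpa using sub_mem hy (hT hx)
    exact absurd ⟨hx, hy', (varch_ns E Λ _ _).2 (key hx hy' hy ▸ c)⟩ c2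
  · obtain ⟨hx, hy, c⟩ := c2
    exact absurd ⟨hx, add_mem hy (hT hx), key hx hy _ ▸ (varch_ns E Λ _ _).1 c⟩ c1
  · rfl

end aux

theorem A0_sq {K Λ ι : Type} [Field K] [CharZero K] [Field Λ] [Algebra K Λ]
    (W : ι → WeierstrassCurve K) : Nonempty (A0 W Λ ≃+ A0 (fun i => sq (W i)) Λ) := by
  let Φ : ∀ (F : Type) [Field F] [Algebra K F], Pts W F ≃ Pts (fun i => sq (W i)) F :=
    fun F _ _ => Equiv.piCongrRight fun i => varchE (W i) F
  let e : (Pts W Λ →₀ ℤ) ≃+ (Pts (fun i => sq (W i)) Λ →₀ ℤ) := Finsupp.domCongr (Φ Λ)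
  have he : ∀ D y, e D (Φ Λ y) = D y := fun D y => by simp [e]
  have hp : ∀ (F : Type) [Field F] [Algebra K F] (g : Pts W F) (f : F),
      e (pushDiv W Λ g f) = pushDiv _ Λ (Φ F g) f := fun F _ _ g f => by
    rw [pushDiv, pushDiv, e.map_finsum]
    refine finsum_congr fun P => ?_
    simp only [e, Finsupp.domCongr_apply, Finsupp.equivMapDomain_single]
    congr 1
    funext i
    exact (varchE_spec (W i) P (g i)).symm
  have hR : ∀ D, e D ∈ RatEq (fun i => sq (W i)) Λ ↔ D ∈ RatEq W Λ := fun D => by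
    have : (RatEq W Λ).map e.toAddMonoidHom = RatEq (fun i => sq (W i)) Λ := by
      rw [RatEq, RatEq, AddMonoidHom.map_closure]
      congr 1
      ext D'
      constructor
      · rintro ⟨_, ⟨F, _, _, t, h1, h2, g, f, h3, rfl⟩, rfl⟩
        exact ⟨F, _, _, t, h1, h2, Φ F g, f, h3, hp F g f⟩
      · rintro ⟨F, _, _, t, h1, h2, g, f, h3, rfl⟩
        obtain ⟨g, rfl⟩ := (Φ F).surjective g
        exact ⟨_, ⟨F, _, _, t, h1, h2, g, f, h3, rfl⟩, hp F g f⟩
    rw [← this]
    exact e.injective.mem_set_image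
  have hC : (Cyc0 W Λ).map e.toAddMonoidHom = Cyc0 (fun i => sq (W i)) Λ := by
    ext D'
    obtain ⟨D, rfl⟩ := e.surjective D'
    refine e.injective.mem_set_image.trans (and_congr (forall_congr' fun σ => ?_) ?_)
    · rw [(Φ Λ).surjective.forall]
      refine forall_congr' fun y => ?_
      rw [he, ← he D fun i => Affine.Point.map (σ : Λ →ₐ[K] Λ) (y i)]
      congr! 2
      funext i
      exact (varchE_map (W i) _ (y i)).symm
    · have : (e D).degree = D.degree := by
        simp only [e, Finsupp.domCongr_apply, Finsupp.equivMapDomain_eq_mapDomain,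
          Finsupp.degree_mapDomain]
      rw [this]
  let e' : Cyc0 W Λ ≃+ Cyc0 (fun i => sq (W i)) Λ :=
    (e.addSubgroupMap (Cyc0 W Λ)).trans (AddEquiv.addSubgroupCongr hC)
  refine ⟨QuotientAddGroup.congr _ _ e' ?_⟩
  ext D'
  obtain ⟨D, rfl⟩ := e'.surjective D'
  exact e'.injective.mem_set_image.trans (hR D).symm

end Pool.Agent.Lib.MP_796ce4_ag
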