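import Pool.Agent.Lib.MP_796ce4_ag.Main
import Pool.Agent.Lib.MP_796ce4_ag.VarCh
import Pool.Agent.Lib.MP_796ce4_ag.LocInst

/-! The structure theorem for products of elliptic curves with good reduction. -/

namespace Pool.Agent.Lib.MP_796ce4_ag

open WeierstrassCurve Polynomial Module
open scoped Classical IntermediateField

set_option linter.unusedSectionVars false

theorem final_good (p : ℕ) [Fact p.Prime] (K Λ : Type) [Field K] [CharZero K] [NormedField Λ]
    [IsUltrametricDist Λ] [IsAlgClosed Λ] [NormedAlgebra ℚ_[p] Λ] [Algebra ℚ_[p] K] [Algebra K Λ]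
    [IsScalarTower ℚ_[p] K Λ] [FiniteDimensional ℚ_[p] K] [Algebra.IsAlgebraic K Λ]
    [IsGalois K Λ] [Loc p K Λ] [Algebra ℤ_[p] K] [IsScalarTower ℤ_[p] ℚ_[p] K]
    (E : WeierstrassCurve (integralClosure ℤ_[p] K)) (hE : E.IsElliptic) :
    Good Λ (sq (E.baseChange K)) := by
  have hint : ∀ a : integralClosure ℤ_[p] K,
      ‖algebraMap K Λ (algebraMap (integralClosure ℤ_[p] K) K a)‖ ≤ 1 := fun a =>
    norm_le_one_of_isIntegral p K Λ a.2
  have h2 : ‖(2 : Λ)‖ = 1 := norm_two (p := p) K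
  have h4 : ‖(4 : Λ)‖ = 1 := by
    rw [show (4 : Λ) = 2 * 2 by norm_num, norm_mul, h2, one_mul]
  refine ⟨rfl, rfl, ?_, ?_, ?_, ?_⟩
  · change ‖algebraMap K Λ ((E.baseChange K).b₂ / 4)‖ ≤ 1
    rw [map_div₀, map_ofNat, norm_div, h4, div_one, baseChange, map_b₂]
    exact hint _
  · change ‖algebraMap K Λ ((E.baseChange K).b₄ / 2)‖ ≤ 1
    rw [map_div₀, map_ofNat, norm_div, h2, div_one, baseChange, map_b₄]
    exact hint _
  · change ‖algebraMap K Λ ((E.baseChange K).b₆ / 4)‖ ≤ 1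
    rw [map_div₀, map_ofNat, norm_div, h4, div_one, baseChange, map_b₆]
    exact hint _
  · rw [sq_Δ, baseChange, map_Δ]
    obtain ⟨u, hu⟩ := hE.isUnit
    have h1 := hint (u : integralClosure ℤ_[p] K)
    have h3 := hint ((u⁻¹ : (integralClosure ℤ_[p] K)ˣ) : integralClosure ℤ_[p] K)
    have h5 : ‖algebraMap K Λ (algebraMap (integralClosure ℤ_[p] K) K u)‖ *
        ‖algebraMap K Λ (algebraMap (integralClosure ℤ_[p] K) K
          ((u⁻¹ : (integralClosure ℤ_[p] K)ˣ) : integralClosure ℤ_[p] K))‖ = 1 := by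
      rw [← norm_mul, ← map_mul, ← map_mul, Units.mul_inv, map_one, map_one, norm_one]
    rw [← hu]
    refine le_antisymm h1 ?_
    have h6 := norm_nonneg (algebraMap K Λ (algebraMap (integralClosure ℤ_[p] K) K u))
    nlinarith

theorem final (p : ℕ) [Fact p.Prime] (hp : p ≠ 2) (K : Type) [Field K] [Algebra ℚ_[p] K]
    [FiniteDimensional ℚ_[p] K] [Algebra ℤ_[p] K] [IsScalarTower ℤ_[p] ℚ_[p] K] (d : ℕ)
    (W : Fin d → WeierstrassCurve (integralClosure ℤ_[p] K)) (hW : ∀ i, (W i).IsElliptic) :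
    ∃ (n : ℕ) (F : Type) (_ : AddCommGroup F) (_ : Finite F),
      Nonempty ((A0 (fun i => (W i).baseChange K) (AlgebraicClosure K) ⧸
        maxDiv (A0 (fun i => (W i).baseChange K) (AlgebraicClosure K))) ≃+
          (Fin n → ℤ_[p]) × F) := by
  have : CharZero K := charZero_of_injective_algebraMap (algebraMap ℚ_[p] K).injective
  have : Algebra.IsAlgebraic ℚ_[p] (AlgebraicClosure K) :=
    Algebra.IsAlgebraic.trans ℚ_[p] K (AlgebraicClosure K)
  let : NormedField (AlgebraicClosure K) := spectralNorm.normedField ℚ_[p] (AlgebraicClosure K)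
  let : NormedAlgebra ℚ_[p] (AlgebraicClosure K) := spectralNorm.normedAlgebra _ _
  have : IsUltrametricDist (AlgebraicClosure K) :=
    IsUltrametricDist.isUltrametricDist_of_forall_norm_add_le_max_norm
      (isNonarchimedean_spectralNorm (K := ℚ_[p]) (L := AlgebraicClosure K))
  have : Loc p K (AlgebraicClosure K) := loc_of_padic p K (AlgebraicClosure K) hp
  obtain ⟨n, F, iF, hF, ⟨e⟩⟩ := main_short (p := p) (Λ := AlgebraicClosure K)
    (W := fun i => sq ((W i).baseChange K))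
    (fun i => final_good p K (AlgebraicClosure K) (W i) (hW i))
  obtain ⟨e₁⟩ := A0_sq (Λ := AlgebraicClosure K) (fun i => (W i).baseChange K)
  obtain ⟨e₂⟩ := maxDiv_congr e₁
  exact ⟨n, F, iF, hF, ⟨e₂.trans e⟩⟩

end Pool.Agent.Lib.MP_796ce4_ag
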