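import Pool.Agent.Lib.MP_796ce4_ag.Sym

/-! The degree-zero Chow group is generated by symbols. -/

namespace Pool.Agent.Lib.MP_796ce4_ag

open WeierstrassCurve Polynomial Module
open scoped Classical IntermediateField

set_option linter.unusedSectionVars false

variable {K Λ ι : Type} [Field K] [CharZero K] [Field Λ] [IsAlgClosed Λ] [Algebra K Λ]
  [IsGalois K Λ] [Fintype ι] {W : ι → WeierstrassCurve K}

theorem g0_fld (y : Pts W Λ) : ∃ L : IntermediateField K Λ, FiniteDimensional K L ∧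
    (∀ i, y i ∈ pts (W i) L) ∧ finrank K L = (orb W y).ncard ∧
    ∀ L' : IntermediateField K Λ, (∀ i, y i ∈ pts (W i) L') → L ≤ L' := by
  let S : Set Λ := Set.range (fun i => xc (y i)) ∪ Set.range (fun i => yc (y i))
  have hS : S.Finite := (Set.finite_range _).union (Set.finite_range _)
  have := hS.to_subtype
  have hy : ∀ i, y i ∈ pts (W i) (IntermediateField.adjoin K S) := fun i =>
    mem_pts_iff.2 ⟨IntermediateField.subset_adjoin K S (Or.inl ⟨i, rfl⟩),
      IntermediateField.subset_adjoin K S (Or.inr ⟨i, rfl⟩)⟩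
  refine ⟨IntermediateField.adjoin K S, IntermediateField.finiteDimensional_adjoin fun x _ =>
    Algebra.IsIntegral.isIntegral x, hy, ?_, fun L' h => ?_⟩
  · let _ : MulAction (Λ ≃ₐ[K] Λ) (Pts W Λ) :=
      { smul := fun σ z => gal W σ z
        one_smul := fun z => gal_one z
        mul_smul := fun σ τ z => gal_mul σ τ z }
    have h1 : (IntermediateField.adjoin K S).fixingSubgroup = MulAction.stabilizer _ y := by
      apply le_antisymm
      · intro σ hσ
        rw [IntermediateField.mem_fixingSubgroup_iff] at hσ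
        exact funext fun i => hy i σ hσ
      · rw [← IntermediateField.le_iff_le, IntermediateField.adjoin_le_iff]
        intro x hx
        rw [SetLike.mem_coe, IntermediateField.mem_fixedField_iff]
        intro σ hσ
        have h2 : ∀ i, galP (W i) σ (y i) = y i := fun i => congrFun hσ i
        rcases hx with ⟨i, rfl⟩ | ⟨i, rfl⟩
        · rw [← xc_galP, h2]
        · rw [← yc_galP, h2]
    rw [IntermediateField.finrank_eq_fixingSubgroup_index, h1, MulAction.index_stabilizer]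
    rfl
  · rw [IntermediateField.adjoin_le_iff]
    rintro x (⟨i, rfl⟩ | ⟨i, rfl⟩)
    · exact (mem_pts_iff.1 (h i)).1
    · exact (mem_pts_iff.1 (h i)).2

theorem g0_orb_gal (σ : Λ ≃ₐ[K] Λ) (y z : Pts W Λ) : gal W σ z ∈ orb W y ↔ z ∈ orb W y := by
  constructor
  · rintro ⟨τ, h⟩
    refine ⟨σ⁻¹ * τ, ?_⟩
    change gal W τ y = _ at h
    change gal W _ y = _
    rw [gal_mul, h, ← gal_mul, inv_mul_cancel, gal_one]
  · rintro ⟨τ, rfl⟩
    exact ⟨σ * τ, gal_mul σ τ y⟩

theorem g0_ind (y : Pts W Λ) : ∃ E : Pts W Λ →₀ ℤ,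
    (∀ z, E z = if z ∈ orb W y then 1 else 0) ∧ E.degree = (orb W y).ncard ∧
    ((orb W y).ncard : ℚ) • avg W (AddMonoidAlgebra.single y 1) = incl Λ W E := by
  have hf := orb_finite y
  have h0 : ((orb W y).ncard : ℚ) ≠ 0 :=
    Nat.cast_ne_zero.2 ((Set.ncard_pos hf).2 ⟨y, 1, gal_one y⟩).ne'
  refine ⟨∑ z ∈ hf.toFinset, Finsupp.single z 1, fun z => ?_, ?_, ?_⟩
  · simp [Finsupp.finsetSum_apply, Finsupp.single_apply]
  · simp [map_sum, Set.ncard_eq_toFinset_card _ hf]
  · have : avg W (AddMonoidAlgebra.single y 1) =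
        ((orb W y).ncard : ℚ)⁻¹ • ∑ᶠ y' ∈ orb W y, Finsupp.single y' (1 : ℚ) := by
      simp [avg]
    rw [this, smul_smul, mul_inv_cancel₀ h0, one_smul, finsum_mem_eq_finite_toFinset_sum _ hf,
      map_sum]
    simp [incl]

theorem g0_clL (L : IntermediateField K Λ) (z : GR Λ W) :
    clL W L z = QuotientAddGroup.mk ((finrank K L : ℚ) • avg W z) := by
  change QuotientAddGroup.mk (avg W ((finrank K L : ℚ) • z)) = _
  rw [map_smul]

theorem g0_single (L : IntermediateField K Λ) [FiniteDimensional K L] {y : Pts W Λ}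
    (hy : ∀ i, y i ∈ pts (W i) L) :
    clL W L (AddMonoidAlgebra.single y 1) - (finrank K L : ℤ) • clL W ⊥ 1 ∈
      (⨆ (I : Finset ι) (_ : I.Nonempty), Tall Λ W I : AddSubgroup (VV Λ W)) := by
  have h1 : (AddMonoidAlgebra.single y 1 : GR Λ W) = ∏ i, (1 + dl W i (y i)) := by
    simp only [dl, add_sub_cancel]
    rw [AddMonoidAlgebra.prod_single, Finset.univ_sum_single, Finset.prod_const_one]
  have h2 : clL W L 1 = (finrank K L : ℤ) • clL W ⊥ 1 := by
    rw [natCast_zsmul]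
    exact clL_eq_nsmul (by rw [IntermediateField.finrank_bot, mul_one]) 1
  rw [h1, Finset.prod_one_add, map_sum,
    ← Finset.add_sum_erase _ _ (Finset.empty_mem_powerset _), Finset.prod_empty, h2,
    add_sub_cancel_left]
  refine sum_mem fun I hI => ?_
  have hI' : I.Nonempty := Finset.nonempty_iff_ne_empty.2 (Finset.ne_of_mem_erase hI)
  exact AddSubgroup.mem_iSup_of_mem I (AddSubgroup.mem_iSup_of_mem hI'
    (Sy_mem_TT (L := L) trivial hy fun _ _ => trivial))

theorem g0_sub (D : Pts W Λ →₀ ℤ) (hD : ∀ σ y, D (gal W σ y) = D y) :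
    (QuotientAddGroup.mk (incl Λ W D) : VV Λ W) - D.degree • clL W ⊥ 1 ∈
      (⨆ (I : Finset ι) (_ : I.Nonempty), Tall Λ W I : AddSubgroup (VV Λ W)) := by
  induction h : D.support using Finset.strongInduction generalizing D with
  | H s ih =>
    by_cases h0 : D = 0
    · subst h0
      simp
    obtain ⟨y, hy⟩ := Finsupp.support_nonempty_iff.2 h0
    obtain ⟨E, hE1, hE2, hE3⟩ := g0_ind y
    obtain ⟨L, hL, hL1, hL2, -⟩ := g0_fld y
    have hyo : y ∈ orb W y := ⟨1, gal_one y⟩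
    have h1 : (D - D y • E).support ⊂ s := by
      rw [← h, Finset.ssubset_iff_of_subset]
      · refine ⟨y, hy, ?_⟩
        simp [hE1, hyo]
      · intro z hz
        rw [Finsupp.mem_support_iff] at hz ⊢
        intro hz0
        apply hz
        by_cases hzo : z ∈ orb W y
        · obtain ⟨σ, rfl⟩ := hzo
          have : D y = 0 := (hD σ y).symm.trans hz0
          simp [this, hz0]
        · simp [hE1, hzo, hz0]
    have h2 := ih _ h1 (D - D y • E) (fun σ z => by simp [hE1, hD, g0_orb_gal]) rfl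
    have h3 := g0_single L hL1
    rw [g0_clL L (AddMonoidAlgebra.single y 1), hL2, hE3, ← hE2] at h3
    convert add_mem h2 (zsmul_mem h3 (D y)) using 1
    rw [map_sub, map_sub, map_zsmul, map_zsmul, QuotientAddGroup.mk_sub, QuotientAddGroup.mk_zsmul,
      smul_eq_mul]
    module

theorem g0_sup (L : IntermediateField K Λ) [FiniteDimensional K L] {z : GR Λ W}
    (hz : z ∈ ZL W L) : ∃ D : Pts W Λ →₀ ℤ, (∀ σ y, D (gal W σ y) = D y) ∧
      incl Λ W D = (finrank K L : ℚ) • avg W z ∧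
      ((D.degree : ℤ) : ℚ) = finrank K L * AddMonoidAlgebra.lift ℚ ℚ (Pts W Λ) 1 z := by
  refine ZL_induction (C := fun z => ∃ D : Pts W Λ →₀ ℤ, (∀ σ y, D (gal W σ y) = D y) ∧
      incl Λ W D = (finrank K L : ℚ) • avg W z ∧
      ((D.degree : ℤ) : ℚ) = finrank K L * AddMonoidAlgebra.lift ℚ ℚ (Pts W Λ) 1 z)
    ⟨0, fun _ _ => rfl, by simp, by simp⟩ ?_ ?_ ?_ hz
  · rintro a b ⟨D, h1, h2, h3⟩ ⟨D', h1', h2', h3'⟩
    refine ⟨D + D', fun σ y => by simp [h1, h1'], ?_, ?_⟩
    · rw [map_add, map_add, h2, h2', smul_add]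
    · rw [map_add, map_add, Int.cast_add, h3, h3', mul_add]
  · rintro a ⟨D, h1, h2, h3⟩
    refine ⟨-D, fun σ y => by simp [h1], ?_, ?_⟩
    · rw [map_neg, map_neg, h2, smul_neg]
    · rw [map_neg, map_neg, Int.cast_neg, h3, mul_neg]
  · intro c hc
    obtain ⟨E, hE1, hE2, hE3⟩ := g0_ind c
    obtain ⟨L₀, -, -, hL2, hL3⟩ := g0_fld c
    obtain ⟨m, hm⟩ := IntermediateField.finrank_dvd_of_le_right (hL3 L hc)
    rw [hL2] at hm
    refine ⟨m • E, fun σ y => by simp [hE1, g0_orb_gal], ?_, ?_⟩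
    · rw [map_nsmul, ← hE3, hm, Nat.cast_mul, mul_comm, mul_smul, Nat.cast_smul_eq_nsmul ℚ m]
    · rw [map_nsmul, hE2, hm]
      simp [mul_comm]

theorem A0_equiv :
    Nonempty (A0 W Λ ≃+ (⨆ (I : Finset ι) (_ : I.Nonempty), Tall Λ W I : AddSubgroup (VV Λ W))) := by
  let Φ : Cyc0 W Λ →+ VV Λ W :=
    (QuotientAddGroup.mk' _).comp ((incl Λ W).comp (Cyc0 W Λ).subtype)
  have hΦ : ∀ D, Φ D = QuotientAddGroup.mk (incl Λ W D.1) := fun D => rfl
  have hinj : Function.Injective (incl Λ W) :=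
    Finsupp.mapRange_injective _ (map_zero _) Int.cast_injective
  have hker : (RatEq W Λ).addSubgroupOf (Cyc0 W Λ) = Φ.ker := by
    ext D
    rw [AddMonoidHom.mem_ker, hΦ, QuotientAddGroup.eq_zero_iff, AddSubgroup.mem_addSubgroupOf,
      AddSubgroup.mem_map_iff_mem hinj]
  have hran : Φ.range = ⨆ (I : Finset ι) (_ : I.Nonempty), Tall Λ W I := by
    apply le_antisymm
    · rintro _ ⟨D, rfl⟩
      have := g0_sub D.1 D.2.1
      rwa [D.2.2, zero_zsmul, sub_zero] at this
    · refine iSup₂_le fun I hI => TT_le fun L a hL _ ha _ => ?_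
      obtain ⟨D, h1, h2, h3⟩ := g0_sup L (z := ∏ i ∈ I, dl W i (a i))
        (prod_mem fun i _ => dl_mem_ZL (ha i))
      obtain ⟨i, hi⟩ := hI
      rw [map_prod, Finset.prod_eq_zero hi (by simp [dl]), mul_zero, Int.cast_eq_zero] at h3
      exact ⟨⟨D, h1, h3⟩, by rw [hΦ, Sy, g0_clL, ← h2]⟩
  exact ⟨((QuotientAddGroup.quotientAddEquivOfEq hker).trans
    (QuotientAddGroup.quotientKerEquivRange Φ)).trans (AddEquiv.addSubgroupCongr hran)⟩

theorem Tall_single (hW : Short W) {i : ι} {v : VV Λ W} (hv : v ∈ Tall Λ W {i}) :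
    ∃ a ∈ pts (W i) (⊥ : IntermediateField K Λ), v = Sy W ⊥ {i} (Pi.single i a) := by
  have hi : i ∈ ({i} : Finset ι) := Finset.mem_singleton_self i
  have h0 : ∀ k, (0 : Pts W Λ) k ∈ pts (W k) (⊥ : IntermediateField K Λ) := fun k => zero_mem _
  obtain ⟨h, hh⟩ := exists_SyHom hW hi h0
  have : Tall Λ W {i} ≤ h.range := TT_le fun L a hL _ ha _ => by
    obtain ⟨n, s, hs⟩ := exists_fam_bot L
    refine ⟨⟨_, hs.tr_mem (ha i)⟩, ?_⟩
    rw [hh, ← Sy_tr hW hs hi h0 (ha i)]
    exact Sy_congr fun k hk => by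
      rw [Finset.mem_singleton.1 hk, Function.update_self]
  obtain ⟨u, rfl⟩ := this hv
  exact ⟨u, u.2, hh u⟩

end Pool.Agent.Lib.MP_796ce4_ag
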