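import Pool.Agent.Lib.MP_796ce4_ag.Tow

/-! A finite extension is totally ramified over an unramified one. -/

namespace Pool.Agent.Lib.MP_796ce4_ag

open WeierstrassCurve Polynomial Module
open scoped Classical IntermediateField

set_option linter.unusedSectionVars false

variable {p : ℕ} {K Λ : Type} [Field K] [CharZero K] [NormedField Λ] [IsUltrametricDist Λ]
  [IsAlgClosed Λ] [Algebra K Λ] [IsGalois K Λ] [Loc p K Λ]

include p

theorem unr_bot : Unr (⊥ : IntermediateField K Λ) := by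
  intro x hx
  obtain ⟨y, rfl⟩ := IntermediateField.mem_bot.1 hx
  exact ⟨y, rfl⟩

theorem totram_res (L : IntermediateField K Λ) [FiniteDimensional K L] :
    ∃ L₀ : IntermediateField K Λ, Unr L₀ ∧ L₀ ≤ L ∧
      ∀ y ∈ L, ‖y‖ ≤ 1 → ∃ c ∈ L₀, ‖c‖ ≤ 1 ∧ ‖y - c‖ < 1 := by
  obtain ⟨T⟩ := exists_tower (p := p) (⊥ : IntermediateField K Λ)
  obtain ⟨s, hs, hs'⟩ := Loc.resfin (p := p) L inferInstance
  have key : ∀ t : s, ∃ n, 0 < n ∧ ∃ z ∈ L, z ∈ T.U n ∧ ‖z‖ ≤ 1 ∧ ‖z - t‖ < 1 := by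
    rintro ⟨t, ht⟩
    obtain ⟨htL, ht1⟩ := hs t ht
    obtain ⟨n, hn, h1⟩ := T.alg t ht1
    obtain ⟨u, hu, h2⟩ := T.lift n hn t ht1 h1
    have hq : 1 < p ^ (T.r * n) :=
      Nat.one_lt_pow (Nat.mul_pos T.r_pos hn).ne' (Loc.prime (K := K) (Λ := Λ)).one_lt
    have hi : Intg (X ^ p ^ (T.r * n) - X : Λ[X]) := (intg_X.pow _).sub intg_X
    have hm : (X ^ p ^ (T.r * n) - X : Λ[X]).Monic :=
      monic_X_pow_sub (by rw [degree_X]; exact_mod_cast hq)
    obtain ⟨z, hz, h3⟩ := hi.exists_root_near hm (t := t) (by simpa using h1)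
    have hz1 := hi.root_le hm hz
    have hd : ‖(derivative (X ^ p ^ (T.r * n) - X : Λ[X])).eval z‖ = 1 := by
      have h4 : ‖((p ^ (T.r * n) : ℕ) : Λ) * z ^ (p ^ (T.r * n) - 1)‖ < 1 := by
        rw [norm_mul, norm_pow, Nat.cast_pow, norm_pow]
        exact mul_lt_one_of_nonneg_of_lt_one_left (by positivity)
          (pow_lt_one₀ (norm_nonneg _) (Loc.norm_p (K := K)) (Nat.mul_pos T.r_pos hn).ne')
          (pow_le_one₀ (norm_nonneg _) hz1)
      have h5 := norm_eq_of_sub_lt (x := (-1 : Λ))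
        (y := ((p ^ (T.r * n) : ℕ) : Λ) * z ^ (p ^ (T.r * n) - 1) - 1) (by
          rw [show ∀ a : Λ, -1 - (a - 1) = -a from fun a => by ring, norm_neg, norm_neg, norm_one]
          exact h4)
      rw [norm_neg, norm_one] at h5
      simpa [derivative_X_pow] using h5
    refine ⟨n, hn, z, hensel_mem ((over_X.pow _).sub over_X) hi hz1 hz hd htL h3,
      hensel_mem ((over_X.pow _).sub over_X) hi hz1 hz hd hu ?_, hz1, h3⟩
    rw [show z - u = (z - t) + (t - u) by ring]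
    exact (IsUltrametricDist.norm_add_le_max _ _).trans_lt (max_lt h3 h2)
  choose n hn z hzL hzU hz1 hz using key
  have hN : 0 < ∏ t, n t := Finset.prod_pos fun t _ => hn t
  refine ⟨L ⊓ T.U (∏ t, n t), fun x hx => T.unr_of unr_bot hN x hx.2, inf_le_left,
    fun y hy hy1 => ?_⟩
  obtain ⟨t, ht, h1⟩ := hs' y hy hy1
  refine ⟨z ⟨t, ht⟩, ⟨hzL _, T.mono (hn _) hN (Finset.dvd_prod_of_mem _ (Finset.mem_univ _))
    (hzU _)⟩, hz1 _, ?_⟩
  rw [show y - z ⟨t, ht⟩ = (y - t) + -(z ⟨t, ht⟩ - t) by ring]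
  exact (IsUltrametricDist.norm_add_le_max _ _).trans_lt (max_lt h1 (by rw [norm_neg]; exact hz _))

theorem totram_digits {L₀ L : IntermediateField K Λ} (hle : L₀ ≤ L) {ϖ : Λ} (hϖ : ϖ ∈ L)
    (h0 : ϖ ≠ 0) (hm : ∀ x ∈ L, ‖x‖ < 1 → ‖x‖ ≤ ‖ϖ‖)
    (hres : ∀ y ∈ L, ‖y‖ ≤ 1 → ∃ c ∈ L₀, ‖c‖ ≤ 1 ∧ ‖y - c‖ < 1) (k : ℕ) :
    ∀ y ∈ L, ‖y‖ ≤ 1 → ∃ c : ℕ → Λ, (∀ j, c j ∈ L₀ ∧ ‖c j‖ ≤ 1) ∧ ∃ y' ∈ L, ‖y'‖ ≤ 1 ∧
      y = ∑ j ∈ Finset.range k, c j * ϖ ^ j + ϖ ^ k * y' := by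
  induction k with
  | zero => exact fun y hy h1 => ⟨0, fun _ => ⟨L₀.zero_mem, by simp⟩, y, hy, h1, by simp⟩
  | succ k ih =>
    intro y hy h1
    obtain ⟨c, hc, y', hy', h2, h3⟩ := ih y hy h1
    obtain ⟨a, ha, ha1, h4⟩ := hres y' hy' h2
    have h5 : y' - a ∈ L := L.sub_mem hy' (hle ha)
    refine ⟨Function.update c k a, fun j => ?_, (y' - a) / ϖ, L.div_mem h5 hϖ, ?_, ?_⟩
    · by_cases hj : j = k
      · rw [hj, Function.update_self]; exact ⟨ha, ha1⟩
      · rw [Function.update_of_ne hj]; exact hc j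
    · rw [norm_div, div_le_one (norm_pos_iff.2 h0)]
      exact hm _ h5 h4
    · rw [Finset.sum_range_succ, Function.update_self, Finset.sum_congr rfl fun j hj => by
        rw [Function.update_of_ne (Finset.mem_range.1 hj).ne], h3]
      field_simp
      ring

theorem totram_poly {L₀ L : IntermediateField K Λ} [FiniteDimensional K L₀] (hle : L₀ ≤ L) {ϖ : Λ}
    (hϖ : ϖ ∈ L) (h0 : ϖ ≠ 0) (h1 : ‖ϖ‖ < 1) (hm : ∀ x ∈ L, ‖x‖ < 1 → ‖x‖ ≤ ‖ϖ‖)
    (hres : ∀ y ∈ L, ‖y‖ ≤ 1 → ∃ c ∈ L₀, ‖c‖ ≤ 1 ∧ ‖y - c‖ < 1) {y : Λ} (hy : y ∈ L)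
    (hy1 : ‖y‖ ≤ 1) : ∃ R : Λ[X], Over L₀ R ∧ Intg R ∧ R.eval ϖ = y := by
  have : CharZero Λ := charZero_of_injective_algebraMap (algebraMap K Λ).injective
  have hp : (p : Λ) ≠ 0 := Nat.cast_ne_zero.2 (Loc.prime (K := K) (Λ := Λ)).ne_zero
  have hp0 : 0 < ‖(p : Λ)‖ := norm_pos_iff.2 hp
  have hp1 : ‖(p : Λ)‖ < 1 := Loc.norm_p (K := K)
  obtain ⟨k, hk⟩ := exists_pow_lt_of_lt_one hp0 h1
  have step : ∀ w : {w : Λ // w ∈ L ∧ ‖w‖ ≤ 1}, ∃ (c : ℕ → Λ) (w' : {w : Λ // w ∈ L ∧ ‖w‖ ≤ 1}),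
      (∀ j, c j ∈ L₀ ∧ ‖c j‖ ≤ 1) ∧
        (w : Λ) = ∑ j ∈ Finset.range k, c j * ϖ ^ j + p * (w' : Λ) := by
    rintro ⟨w, hw, hw1⟩
    obtain ⟨c, hc, y', hy', h2, h3⟩ := totram_digits (p := p) hle hϖ h0 hm hres k w hw hw1
    refine ⟨c, ⟨ϖ ^ k * y' / p, L.div_mem (L.mul_mem (pow_mem hϖ k) hy') (natCast_mem L p), ?_⟩,
      hc, ?_⟩
    · rw [norm_div, div_le_one hp0, norm_mul, norm_pow]
      exact (mul_le_of_le_one_right (by positivity) h2).trans hk.le
    · simp only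
      rw [mul_div_cancel₀ _ hp]
      exact h3
  choose c nx hc hw using step
  let w : ℕ → {w : Λ // w ∈ L ∧ ‖w‖ ≤ 1} := fun n => nx^[n] ⟨y, hy, hy1⟩
  let S : ℕ → ℕ → Λ := fun j n => ∑ i ∈ Finset.range n, (p : Λ) ^ i * c (w i) j
  have hS : ∀ n, y = ∑ j ∈ Finset.range k, S j n * ϖ ^ j + (p : Λ) ^ n * (w n : Λ) := by
    intro n
    induction n with
    | zero => simp [S, w]
    | succ n ih =>
      have e : w (n + 1) = nx (w n) := Function.iterate_succ_apply' _ _ _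
      rw [ih, hw (w n), e]
      simp only [S, Finset.sum_range_succ, add_mul, Finset.sum_add_distrib, mul_add,
        Finset.mul_sum]
      rw [add_assoc, pow_succ, mul_assoc]
      simp only [mul_assoc]
  have hterm : ∀ j i, ‖(p : Λ) ^ i * c (w i) j‖ ≤ ‖(p : Λ)‖ ^ i := fun j i => by
    rw [norm_mul, norm_pow]
    exact mul_le_of_le_one_right (by positivity) (hc _ j).2
  have hlim : ∀ j, ∃ a ∈ L₀, ‖a‖ ≤ 1 ∧ Filter.Tendsto (S j) Filter.atTop (nhds a) := by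
    intro j
    have hcau : CauchySeq (S j) := cauchySeq_of_le_geometric ‖(p : Λ)‖ 1 hp1 fun n => by
      rw [dist_comm, dist_eq_norm, one_mul]
      simp only [S, Finset.sum_range_succ, add_sub_cancel_left]
      exact hterm j n
    obtain ⟨a, ha, hta⟩ := cauchySeq_tendsto_of_isComplete
      (Loc.complete (p := p) L₀ inferInstance) (u := S j) (fun n => L₀.sum_mem fun i _ =>
        L₀.mul_mem (pow_mem (natCast_mem L₀ p) i) (hc _ j).1) hcau
    refine ⟨a, ha, le_of_tendsto' hta.norm fun n => ?_, hta⟩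
    exact IsUltrametricDist.norm_sum_le_of_forall_le_of_nonneg zero_le_one fun i _ =>
      (hterm j i).trans (pow_le_one₀ hp0.le hp1.le)
  choose a ha ha1 hta using hlim
  refine ⟨∑ j ∈ Finset.range k, C (a j) * X ^ j,
    Over.sum fun j _ => (over_C (ha j)).mul (over_X.pow j),
    Intg.sum fun j _ => (intg_C (ha1 j)).mul (intg_X.pow j), ?_⟩
  have t1 : Filter.Tendsto (fun n => (p : Λ) ^ n * (w n : Λ)) Filter.atTop (nhds 0) := by
    refine squeeze_zero_norm (fun n => ?_) (tendsto_pow_atTop_nhds_zero_of_lt_one hp0.le hp1)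
    rw [norm_mul, norm_pow]
    exact mul_le_of_le_one_right (by positivity) (w n).2.2
  have t2 := (tendsto_finsetSum (Finset.range k) fun j _ => (hta j).mul_const (ϖ ^ j)).add t1
  simp only [← hS, add_zero] at t2
  rw [tendsto_nhds_unique tendsto_const_nhds t2]
  simp [eval_finsetSum]

omit p [IsAlgClosed Λ] in
theorem totram_coeff {T : Type} (s : Finset T) (a : T → Λ) (ha : ∀ t, ‖a t‖ < 1) :
    ∀ k < s.card, ‖(∏ t ∈ s, (X - C (a t))).coeff k‖ < 1 := by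
  induction s using Finset.induction_on with
  | empty => simp
  | insert t s ht ih =>
    intro k hk
    have hi : Intg (∏ t ∈ s, (X - C (a t))) :=
      Intg.prod fun t _ => intg_X.sub (intg_C (ha t).le)
    have h1 : ∀ j, ‖a t * (∏ t ∈ s, (X - C (a t))).coeff j‖ < 1 := fun j => by
      rw [norm_mul]
      exact mul_lt_one_of_nonneg_of_lt_one_left (norm_nonneg _) (ha t) (hi j)
    rw [Finset.card_insert_of_notMem ht] at hk
    rw [Finset.prod_insert ht, sub_mul, coeff_sub, coeff_C_mul]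
    rcases k with _ | k
    · rw [coeff_X_mul_zero, zero_sub, norm_neg]
      exact h1 0
    · rw [coeff_X_mul, sub_eq_add_neg]
      exact (IsUltrametricDist.norm_add_le_max _ _).trans_lt
        (max_lt (ih k (by omega)) (by rw [norm_neg]; exact h1 _))

theorem exists_totram (L : IntermediateField K Λ) [FiniteDimensional K L] :
    ∃ (L₀ : IntermediateField K Λ) (e : ℕ) (ϖ : Λ) (s : Fin e → Λ ≃ₐ[K] Λ),
      0 < e ∧ FiniteDimensional K L₀ ∧ Unr L₀ ∧ L₀ ≤ L ∧ ϖ ∈ L ∧ ‖ϖ‖ < 1 ∧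
      (∀ t, Fix L₀ (s t)) ∧ e * finrank K L₀ = finrank K L ∧
      Over L₀ (∏ t, (X - C (s t ϖ))) ∧ (Function.Injective fun t => s t ϖ) ∧
      (∀ k < e, ‖(∏ t, (X - C (s t ϖ))).coeff k‖ < 1) ∧
      ∀ y ∈ L, ‖y‖ ≤ 1 → ∃ R : Λ[X], Over L₀ R ∧ Intg R ∧ R.eval ϖ = y := by
  obtain ⟨L₀, hu, hle, hres⟩ := totram_res (p := p) L
  have : FiniteDimensional K L₀ :=
    FiniteDimensional.of_injective (IntermediateField.inclusion hle).toLinearMap
      (IntermediateField.inclusion_injective hle)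
  obtain ⟨ϖ, hϖ, h0, h1, hm⟩ := Loc.unif (p := p) L inferInstance
  have hpoly := fun y hy hy1 => totram_poly (p := p) hle hϖ h0 h1 hm hres (y := y) hy hy1
  have : CharZero L₀ := algebraRat.charZero L₀
  have hint : IsIntegral L₀ ϖ := Algebra.IsIntegral.isIntegral ϖ
  have hL : IntermediateField.restrictScalars K L₀⟮ϖ⟯ = L := by
    apply le_antisymm
    · intro x hx
      have : L₀⟮ϖ⟯ ≤ IntermediateField.extendScalars hle :=
        IntermediateField.adjoin_simple_le_iff.2 hϖ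
      exact this hx
    · have h2 : ∀ y ∈ L, ‖y‖ ≤ 1 → y ∈ L₀⟮ϖ⟯ := by
        intro y hy hy1
        obtain ⟨R, hR, -, rfl⟩ := hpoly y hy hy1
        obtain ⟨g, rfl⟩ := hR.exists_map
        rw [eval_map_algebraMap]
        exact IntermediateField.algebra_adjoin_le_adjoin _ _ (Polynomial.aeval_mem_adjoin_singleton _ _)
      intro y hy
      rcases le_total ‖y‖ 1 with h | h
      · exact h2 y hy h
      · have := h2 y⁻¹ (L.inv_mem hy) (by rw [norm_inv]; exact inv_le_one_of_one_le₀ h)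
        simpa using L₀⟮ϖ⟯.inv_mem this
  set g := (minpoly L₀ ϖ).map (algebraMap L₀ Λ) with hg
  have hnd : g.roots.Nodup := nodup_roots (minpoly.irreducible hint).separable.map
  have hcard : g.roots.toFinset.card = (minpoly L₀ ϖ).natDegree := by
    rw [Multiset.toFinset_card_of_nodup hnd, ← (IsAlgClosed.splits g).natDegree_eq_card_roots,
      hg, natDegree_map]
  let r := (Finset.equivFinOfCardEq hcard).symm
  have hr : ∀ t, ∃ σ : Λ ≃ₐ[L₀] Λ, σ ϖ = r t := by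
    intro t
    have h2 : aeval (r t : Λ) (minpoly L₀ ϖ) = 0 := by
      rw [← eval_map_algebraMap]
      exact (mem_roots'.1 (Multiset.mem_toFinset.1 (r t).2)).2
    exact minpoly.exists_algEquiv_of_root' hint.isAlgebraic h2
  choose σ hσ using hr
  have hprod : ∏ t, (X - C ((σ t).restrictScalars K ϖ)) = g := by
    simp only [AlgEquiv.restrictScalars_apply, hσ]
    rw [Equiv.prod_comp r fun x => X - C (x : Λ), Finset.prod_coe_sort _ fun x => X - C x,
      Finset.prod_eq_multiset_prod, Multiset.toFinset_val, hnd.dedup]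
    exact ((IsAlgClosed.splits g).eq_prod_roots_of_monic ((minpoly.monic hint).map _)).symm
  refine ⟨L₀, (minpoly L₀ ϖ).natDegree, ϖ, fun t => (σ t).restrictScalars K,
    minpoly.natDegree_pos hint, inferInstance, hu, hle, hϖ, h1,
    fun t x hx => (σ t).commutes ⟨x, hx⟩, ?_, ?_, ?_, ?_, hpoly⟩
  · rw [← IntermediateField.adjoin.finrank hint, mul_comm, finrank_mul_finrank, ← hL]
    rfl
  · rw [hprod]
    intro n
    rw [hg, coeff_map]
    exact ((minpoly L₀ ϖ).coeff n).2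
  · intro t t' h
    simp only [AlgEquiv.restrictScalars_apply, hσ] at h
    exact r.injective (Subtype.ext h)
  · intro k hk
    exact totram_coeff Finset.univ (fun t => (σ t).restrictScalars K ϖ)
      (fun t => by rw [Loc.norm_gal (p := p)]; exact h1) k (by simpa using hk)

end Pool.Agent.Lib.MP_796ce4_ag
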