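import Pool.Agent.Lib.MP_796ce4_ag.Sym
import Pool.Agent.Lib.MP_796ce4_ag.Compl
import Pool.Agent.Lib.MP_796ce4_ag.TotRam

/-! Reduction to symbols with entries in the formal groups. -/

namespace Pool.Agent.Lib.MP_796ce4_ag

open WeierstrassCurve Polynomial Module
open scoped Classical IntermediateField

set_option linter.unusedSectionVars false

variable {p : ℕ} {K Λ : Type} [Field K] [CharZero K] [NormedField Λ] [IsUltrametricDist Λ]
  [IsAlgClosed Λ] [Algebra K Λ] [IsGalois K Λ] [Loc p K Λ]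

include p

variable {ι : Type} [Fintype ι] {W : ι → WeierstrassCurve K} (hW : ∀ i, Good Λ (W i))
  {I : Finset ι}
include hW

theorem short_of_good : Short W :=
  ⟨fun i => (hW i).a₁, fun i => (hW i).a₃, fun i h => by
    have := (hW i).Δ
    rw [h, map_zero, norm_zero] at this
    exact zero_ne_one this⟩

/-- a symbol over `L` is a symbol over an unramified extension, with one entry changed -/
theorem g1_lift {L : IntermediateField K Λ} [FiniteDimensional K L] (T : Tower p L) {n : ℕ}
    (hn : 0 < n) {j : ι} (hj : j ∈ I) {a : Pts W Λ} (ha : ∀ k, a k ∈ pts (W k) L) :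
    ∃ a' : Pts W Λ, (∀ k, a' k ∈ pts (W k) (T.U n)) ∧ (∀ k, k ≠ j → a' k = a k) ∧
      (∀ k, Form (a k) → Form (a' k)) ∧ Sy W L I a = Sy W (T.U n) I a' := by
  obtain ⟨b, hb, hf, e⟩ : ∃ b ∈ pts (W j) (T.U n), (Form (a j) → Form b) ∧
      ∑ i : Fin n, galP (W j) (T.φ ^ (i : ℕ)) b = a j := by
    by_cases h : Form (a j)
    · obtain ⟨b, hb, h1, -, h2⟩ := (hW j).form_tr T hn (ha j) h
      exact ⟨b, hb, fun _ => h1, h2⟩
    · obtain ⟨b, hb, h2⟩ := (hW j).tr_surj T hn (ha j)
      exact ⟨b, hb, fun h' => absurd h' h, h2⟩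
  refine ⟨Function.update a j b, update_mem (fun k => pts_mono (T.le n) (ha k)) hb,
    fun k hk => Function.update_of_ne hk _ _, fun k hk => ?_, ?_⟩
  · by_cases h : k = j
    · subst h
      rw [Function.update_self]
      exact hf hk
    · rwa [Function.update_of_ne h]
  · rw [Sy_tr (short_of_good hW) (T.fam hn) hj ha hb, e, Function.update_eq_self]

theorem G1 (hI : 2 ≤ I.card) {Pr : IntermediateField K Λ → Prop}
    (hPr : ∀ (L : IntermediateField K Λ) (T : Tower p L) (n : ℕ), 0 < n → Pr L → Pr (T.U n))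
    {m : ℕ} (hm : m ≠ 0) :
    TT W I Pr (fun _ _ => True) ≤ mulS m (Tall Λ W I) ⊔ TT W I Pr fun _ a => Form a := by
  have hS := short_of_good hW
  suffices h : ∀ (J : Finset ι) (L : IntermediateField K Λ) (a : Pts W Λ),
      FiniteDimensional K L → Pr L → (∀ k, a k ∈ pts (W k) L) →
      (∀ k ∈ I, k ∉ J → Form (a k)) →
      Sy W L I a ∈ mulS m (Tall Λ W I) ⊔ TT W I Pr fun _ a => Form a from
    TT_le fun L a h1 h2 h3 _ => h I L a h1 h2 h3 fun k hk hk' => absurd hk hk'
  intro J
  induction J using Finset.induction_on with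
  | empty =>
    intro L a h1 h2 h3 h4
    exact AddSubgroup.mem_sup_right (Sy_mem_TT h2 h3 fun k hk => h4 k hk (Finset.notMem_empty k))
  | insert i J _ ih =>
    intro L a h1 h2 h3 h4
    by_cases hi : i ∈ I
    swap
    · refine ih L a h1 h2 h3 fun k hk hk' => h4 k hk fun h => ?_
      rcases Finset.mem_insert.1 h with rfl | h
      · exact hi hk
      · exact hk' h
    obtain ⟨T⟩ := exists_tower (p := p) L
    obtain ⟨n, hn, b, hb, hf⟩ := (hW i).red_div T hm (h3 i)
    obtain ⟨j, hj, hji⟩ := Finset.exists_mem_ne (show 1 < I.card from hI) i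
    obtain ⟨a', m1, m2, m3, m4⟩ := g1_lift hW T hn hj h3
    have := T.fin n hn
    have hu : a i - m • b ∈ pts (W i) (T.U n) :=
      sub_mem (pts_mono (T.le n) (h3 i)) (nsmul_mem hb m)
    have e : a' = Function.update a' i (m • b + (a i - m • b)) := by
      rw [add_sub_cancel, ← m2 i hji.symm, Function.update_eq_self]
    rw [m4, e, Sy_add hS hi m1 (nsmul_mem hb m) hu, Sy_nsmul hS hi m1 hb]
    refine add_mem (AddSubgroup.mem_sup_left (mem_mulS.2
      ⟨_, Sy_mem_TT trivial (update_mem m1 hb) fun _ _ => trivial, rfl⟩))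
      (ih _ _ this (hPr L T n hn h2) (update_mem m1 hu) fun k hk hk' => ?_)
    by_cases h : k = i
    · subst h
      rwa [Function.update_self]
    · rw [Function.update_of_ne h]
      exact m3 k (h4 k hk fun h' => (Finset.mem_insert.1 h').elim h hk')

theorem Tall_div (hI : 2 ≤ I.card) {m : ℕ} (hm : ¬p ∣ m) : Tall Λ W I ≤ mulS m (Tall Λ W I) := by
  refine (G1 hW hI (fun _ _ _ _ _ => trivial) (m := m) fun h => hm (h ▸ dvd_zero p)).trans
    (sup_le le_rfl (TT_le fun L a h1 _ h3 h4 => ?_))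
  obtain ⟨i, hi⟩ := Finset.card_pos.1 (show 0 < I.card by omega)
  obtain ⟨b, hb, -, e⟩ := (hW i).div_prime_to hm (h3 i) (h4 i hi)
  refine mem_mulS.2 ⟨_, Sy_mem_TT trivial (update_mem h3 hb) fun _ _ => trivial, ?_⟩
  rw [← Sy_nsmul (short_of_good hW) hi h3 hb, e, Function.update_eq_self]

theorem form_le_gd (hI : I.Nonempty) :
    TT (Λ := Λ) W I (fun _ => True) (fun _ a => Form a) ≤
      TT W I (fun _ => True) fun _ a => Gd a := by
  have hS := short_of_good hW
  refine TT_le fun L a h1 _ h3 h4 => ?_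
  obtain ⟨T⟩ := exists_tower (p := p) L
  choose n hn b hb hG using fun i => (hW i).exists_gd T
  have hN : 0 < ∏ i, n i := Finset.prod_pos fun i _ => hn i
  have hb' : ∀ i, b i ∈ pts (W i) (T.U (∏ i, n i)) := fun i =>
    pts_mono (T.mono (hn i) hN (Finset.dvd_prod_of_mem n (Finset.mem_univ i))) (hb i)
  obtain ⟨j, hj⟩ := hI
  obtain ⟨a', m1, -, m3, m4⟩ := g1_lift hW T hN hj h3
  have := T.fin _ hN
  rw [m4]
  suffices h : ∀ (J : Finset ι) (c : Pts W Λ), (∀ k, c k ∈ pts (W k) (T.U (∏ i, n i))) →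
      (∀ k ∈ I, Gd (c k) ∨ (k ∈ J ∧ Form (c k))) →
      Sy W (T.U (∏ i, n i)) I c ∈ TT W I (fun _ => True) fun _ a => Gd a from
    h I a' m1 fun k hk => Or.inr ⟨hk, m3 k (h4 k hk)⟩
  intro J
  induction J using Finset.induction_on with
  | empty =>
    intro c c1 c2
    exact Sy_mem_TT trivial c1 fun k hk =>
      (c2 k hk).resolve_right fun h => Finset.notMem_empty k h.1
  | insert i J _ ih =>
    intro c c1 c2
    by_cases hi : i ∈ I ∧ Form (c i)
    swap
    · refine ih c c1 fun k hk => (c2 k hk).imp_right fun h => ⟨?_, h.2⟩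
      rcases Finset.mem_insert.1 h.1 with rfl | h'
      · exact absurd ⟨hk, h.2⟩ hi
      · exact h'
    have key : ∀ u ∈ pts (W i) (T.U (∏ i, n i)), Gd u →
        Sy W (T.U (∏ i, n i)) I (Function.update c i u) ∈
          TT W I (fun _ => True) fun _ a => Gd a := by
      intro u hu hg
      refine ih _ (update_mem c1 hu) fun k hk => ?_
      by_cases h : k = i
      · subst h
        rw [Function.update_self]
        exact Or.inl hg
      · rw [Function.update_of_ne h]
        exact (c2 k hk).imp_right fun h' => ⟨(Finset.mem_insert.1 h'.1).resolve_left h, h'.2⟩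
    have e : c = Function.update c i (c i + b i + -b i) := by
      rw [add_neg_cancel_right, Function.update_eq_self]
    rw [e, Sy_add hS hi.1 c1 (add_mem (c1 i) (hb' i)) (neg_mem (hb' i))]
    exact add_mem (key _ (add_mem (c1 i) (hb' i)) ((hW i).gd_add hi.2 (hG i)).1)
      (key _ (neg_mem (hb' i)) ((hW i).gd_neg (hG i)))

end Pool.Agent.Lib.MP_796ce4_ag
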