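import Pool.Agent.Lib.MP_796ce4_ag.Base

/-! General position over an algebraically closed field. -/

namespace Pool.Agent.Lib.MP_796ce4_ag

open WeierstrassCurve Polynomial Module
open scoped Classical IntermediateField

set_option linter.unusedSectionVars false

variable {k : Type} [Field k] [IsAlgClosed k]

theorem gpk_ne_zero {e : ℕ} {R₀ : k[X]} (he : 0 < e) {M : ℕ} (hM : (M : k) ≠ 0)
    (hM' : R₀.natDegree < M) (r : k) :
    X * R₀.derivative - C (e : k) * R₀ + C (M : k) * X ^ (e + M) + C ((e : k) * r) ≠ 0 := by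
  intro h
  have h1 := congrArg (fun q : k[X] => q.coeff (e + M)) h
  obtain ⟨n, hn⟩ : ∃ n, e + M = n + 1 := ⟨e + M - 1, by omega⟩
  have h2 : R₀.coeff (n + 1) = 0 := coeff_eq_zero_of_natDegree_lt (by omega)
  simp only [hn, coeff_add, coeff_sub, coeff_X_mul, coeff_derivative, coeff_C_mul, h2,
    coeff_X_pow_self, coeff_C_succ, coeff_zero] at h1
  apply hM
  simpa using h1

theorem gp_R {f : k[X]} (hf : f.Separable) {e : ℕ} {R₀ : k[X]} (he : 0 < e)
    (h0 : f.eval (R₀.eval 0) ≠ 0) {M : ℕ} (hM : (M : k) ≠ 0) (hM' : R₀.natDegree < M) {H : k[X]}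
    (hH : H ≠ 0) : ∃ bad : Finset k, ∀ γ ∉ bad, ∀ ξ,
      (f.comp (R₀ + X ^ e * (X ^ M + C γ))).eval ξ = 0 →
        (f.comp (R₀ + X ^ e * (X ^ M + C γ))).derivative.eval ξ ≠ 0 ∧ H.eval ξ ≠ 0 := by
  refine ⟨f.roots.toFinset.biUnion fun r =>
    ((X * R₀.derivative - C (e : k) * R₀ + C (M : k) * X ^ (e + M) + C ((e : k) * r)) *
      H).roots.toFinset.image fun ξ => (r - R₀.eval ξ) / ξ ^ e - ξ ^ M, fun γ hγ ξ hξ => ?_⟩
  rw [eval_comp] at hξ
  obtain ⟨r, hr⟩ : ∃ r, r = (R₀ + X ^ e * (X ^ M + C γ)).eval ξ := ⟨_, rfl⟩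
  rw [← hr] at hξ
  have hr' : r = R₀.eval ξ + ξ ^ e * (ξ ^ M + γ) := by simp [hr]
  have hξ0 : ξ ≠ 0 := by
    rintro rfl
    rw [zero_pow he.ne', zero_mul, add_zero] at hr'
    exact h0 (hr' ▸ hξ)
  have key : ((X * R₀.derivative - C (e : k) * R₀ + C (M : k) * X ^ (e + M) + C ((e : k) * r)) *
      H).eval ξ ≠ 0 := by
    intro h
    apply hγ
    refine Finset.mem_biUnion.2 ⟨r, ?_, Finset.mem_image.2 ⟨ξ, ?_, ?_⟩⟩
    · exact Multiset.mem_toFinset.2 ((mem_roots hf.ne_zero).2 hξ)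
    · exact Multiset.mem_toFinset.2
        ((mem_roots (mul_ne_zero (gpk_ne_zero he hM hM' r) hH)).2 h)
    · rw [hr']
      field_simp
      ring
  rw [eval_mul] at key
  refine ⟨?_, right_ne_zero_of_mul key⟩
  rw [derivative_comp, eval_mul, eval_comp, ← hr]
  refine mul_ne_zero ?_ ?_
  · intro h
    apply left_ne_zero_of_mul key
    obtain ⟨n, rfl⟩ : ∃ n, e = n + 1 := ⟨e - 1, by omega⟩
    obtain ⟨m, rfl⟩ : ∃ m, M = m + 1 := ⟨M - 1, by omega⟩
    simp only [derivative_add, derivative_mul, derivative_X_pow_succ, derivative_C, eval_add,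
      eval_mul, eval_pow, eval_X, eval_C, eval_zero, eval_sub] at h ⊢
    rw [hr']
    push_cast at h ⊢
    linear_combination ξ * h
  · have := hf.eval₂_derivative_ne_zero (RingHom.id k) (x := r) (by simpa using hξ)
    simpa using this

theorem gp_A (h2 : (2 : k) ≠ 0) {F A Q : k[X]} {ρ : k} (hρ : F.eval ρ = 0)
    (hρ' : F.derivative.eval ρ ≠ 0) {e : ℕ} (he : 0 < e) (h : A ^ 2 - F = X ^ e * Q)
    (h0 : F.eval 0 ≠ 0) : ∃ bad : Finset k, ∀ γ ∉ bad, ∀ ξ,
      (Q + C (2 * γ) * A + C (γ ^ 2) * X ^ e).eval ξ = 0 →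
        (Q + C (2 * γ) * A + C (γ ^ 2) * X ^ e).derivative.eval ξ ≠ 0 ∧ F.eval ξ ≠ 0 := by
  obtain ⟨S, hS⟩ : ∃ S : k[X], S = C 4 * F * (X * A.derivative - C (e : k) * A) ^ 2 -
      (X * F.derivative - C (2 * (e : k)) * F) ^ 2 := ⟨_, rfl⟩
  have hρ0 : ρ ≠ 0 := by
    rintro rfl
    exact h0 hρ
  have hS0 : S ≠ 0 := by
    intro hs
    have h1 := congrArg (eval ρ) hs
    simp only [hS, eval_sub, eval_mul, eval_pow, eval_C, eval_X, hρ, eval_zero] at h1
    have h3 : (ρ * F.derivative.eval ρ) ^ 2 = 0 := by linear_combination -h1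
    exact pow_ne_zero 2 (mul_ne_zero hρ0 hρ') h3
  have hF0 : F ≠ 0 := by
    rintro rfl
    exact h0 eval_zero
  have hA0 : A.eval 0 ≠ 0 := by
    intro ha
    have h1 := congrArg (eval 0) h
    simp only [eval_sub, eval_pow, eval_mul, eval_X, ha, zero_pow he.ne'] at h1
    apply h0
    linear_combination -h1
  have hT : ∀ ξ : k, C (Q.eval ξ) + C (2 * A.eval ξ) * X + C (ξ ^ e) * X ^ 2 ≠ 0 := by
    intro ξ ht
    have h1 := congrArg (fun q : k[X] => q.coeff 1) ht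
    have h3 := congrArg (fun q : k[X] => q.coeff 2) ht
    simp only [coeff_add, coeff_C_mul, coeff_C_succ, coeff_X, coeff_X_pow, coeff_zero] at h1 h3
    have h4 : ξ ^ e = 0 := by simpa using h3
    have h5 : ξ = 0 := pow_eq_zero_iff he.ne' |>.1 h4
    subst h5
    have h6 : 2 * A.eval 0 = 0 := by simpa using h1
    exact mul_ne_zero h2 hA0 h6
  refine ⟨(X * S * F).roots.toFinset.biUnion fun ξ =>
    (C (Q.eval ξ) + C (2 * A.eval ξ) * X + C (ξ ^ e) * X ^ 2).roots.toFinset,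
    fun γ hγ ξ hξ => ?_⟩
  simp only [eval_add, eval_mul, eval_C, eval_pow, eval_X] at hξ
  have key : (X * S * F).eval ξ ≠ 0 := by
    intro hk
    apply hγ
    refine Finset.mem_biUnion.2 ⟨ξ, ?_, ?_⟩
    · exact Multiset.mem_toFinset.2
        ((mem_roots (mul_ne_zero (mul_ne_zero X_ne_zero hS0) hF0)).2 hk)
    · refine Multiset.mem_toFinset.2 ((mem_roots (hT ξ)).2 ?_)
      simp only [IsRoot.def, eval_add, eval_mul, eval_C, eval_pow, eval_X]
      linear_combination hξ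
  rw [eval_mul, eval_mul] at key
  refine ⟨fun hd => ?_, right_ne_zero_of_mul key⟩
  apply right_ne_zero_of_mul (left_ne_zero_of_mul key)
  obtain ⟨n, rfl⟩ : ∃ n, e = n + 1 := ⟨e - 1, by omega⟩
  have h1 := congrArg (eval ξ) h
  have h3 := congrArg (fun q : k[X] => q.derivative.eval ξ) h
  simp only [derivative_add, derivative_sub, derivative_mul, derivative_X_pow_succ, derivative_C,
    derivative_sq, eval_add, eval_sub, eval_mul, eval_pow, eval_X, eval_C, eval_zero] at h1 h3 hd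
  simp only [hS, eval_sub, eval_mul, eval_pow, eval_C, eval_X]
  obtain ⟨w, hw⟩ : ∃ w, w = A.eval ξ + γ * ξ ^ (n + 1) := ⟨_, rfl⟩
  have e1 : F.eval ξ = w ^ 2 := by
    rw [hw]
    linear_combination -h1 - ξ ^ (n + 1) * hξ
  have e2 : ξ * F.derivative.eval ξ - 2 * ((n : k) + 1) * F.eval ξ =
      2 * w * (ξ * A.derivative.eval ξ - ((n : k) + 1) * A.eval ξ) := by
    rw [e1, hw]
    linear_combination -ξ * h3 - ((n : k) + 1) * ξ ^ (n + 1) * hξ - ξ ^ (n + 2) * hd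
  push_cast
  rw [e2, e1]
  ring

end Pool.Agent.Lib.MP_796ce4_ag
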