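import Pool.Agent.Lib.MP_796ce4_ag.R3
import Pool.Agent.Lib.MP_796ce4_ag.GPk

/-! General position modulo the maximal ideal. -/

namespace Pool.Agent.Lib.MP_796ce4_ag

open WeierstrassCurve Polynomial Module
open scoped Classical IntermediateField

set_option linter.unusedSectionVars false

theorem gp_ev {O k : Type} [CommRing O] [CommRing k] (π : O →+* k) (g : O[X]) (ξ : O) :
    (g.map π).eval (π ξ) = π (g.eval ξ) := by
  rw [eval_map, eval₂_at_apply]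

theorem gp_res (Λ : Type) [NormedField Λ] [IsUltrametricDist Λ] [IsAlgClosed Λ] :
    ∃ (O : Subring Λ) (k : Type) (_ : Field k) (_ : IsAlgClosed k) (π : O →+* k),
      (∀ x, x ∈ O ↔ ‖x‖ ≤ 1) ∧ Function.Surjective π ∧ ∀ x : O, π x = 0 ↔ ‖(x : Λ)‖ < 1 := by
  let V : ValuationSubring Λ := (NormedField.valuation (K := Λ)).valuationSubring
  have hO : ∀ x, x ∈ V.toSubring ↔ ‖x‖ ≤ 1 := fun x => by
    change x ∈ V ↔ _
    rw [Valuation.mem_valuationSubring_iff, NormedField.valuation_apply, ← NNReal.coe_le_coe]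
    rfl
  refine ⟨V.toSubring, IsLocalRing.ResidueField V, inferInstance, ?_, IsLocalRing.residue V, hO,
    IsLocalRing.residue_surjective (R := V), fun x => ?_⟩
  · refine IsAlgClosed.of_exists_root _ fun g hg hi => ?_
    obtain ⟨q, rfl, hq1, hq2⟩ := lifts_and_natDegree_eq_and_monic
      (f := IsLocalRing.residue V) (p := g)
      ((lifts_iff_coeff_lifts _).2 fun n => IsLocalRing.residue_surjective _) hg
    have h1 : (q.map V.subtype).Monic := hq2.map _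
    obtain ⟨x, hx⟩ := IsAlgClosed.exists_root (q.map V.subtype) (by
      rw [hq2.degree_map, ← hq2.degree_map (IsLocalRing.residue V)]
      exact (degree_pos_of_irreducible hi).ne')
    have h2 : Intg (q.map V.subtype) := fun n => by
      rw [coeff_map]
      exact (hO _).1 (q.coeff n).2
    let y : V := ⟨x, (hO x).2 (h2.root_le h1 hx)⟩
    have h3 : q.eval y = 0 := V.subtype_injective (by
      rw [← gp_ev, map_zero]
      exact hx)
    exact ⟨IsLocalRing.residue V y, by rw [gp_ev, h3, map_zero]⟩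
  · refine (IsLocalRing.residue_eq_zero_iff (R := V) x).trans ?_
    rw [Valuation.mem_maximalIdeal_iff, NormedField.valuation_apply, ← NNReal.coe_lt_coe]
    rfl

theorem gp_k {k ι : Type} [Field k] [IsAlgClosed k] {p : ℕ} (hp : p.Prime) (G : ℕ → k → Prop)
    (hG : ∀ bad : Finset k, ∃ j, 0 < j ∧ ¬p ∣ j ∧ ∃ c, G j c ∧ c ∉ bad)
    (hmono : ∀ j j' c, 0 < j → 0 < j' → j ∣ j' → G j c → G j' c) (f R₀ : ι → k[X]) {e M : ℕ}
    (he : 0 < e) (hM : (M : k) ≠ 0) (J : Finset ι) (hf : ∀ i ∈ J, (f i).Separable ∧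
      (f i).eval ((R₀ i).eval 0) ≠ 0 ∧ (R₀ i).natDegree < M) :
    ∃ j, 0 < j ∧ ¬p ∣ j ∧ ∃ γ : ι → k, (∀ i ∈ J, G j (γ i)) ∧ ∀ i ∈ J, ∀ ξ,
      ((f i).comp (R₀ i + X ^ e * (X ^ M + C (γ i)))).eval ξ = 0 →
        ((f i).comp (R₀ i + X ^ e * (X ^ M + C (γ i)))).derivative.eval ξ ≠ 0 ∧
        ∀ l ∈ J, l ≠ i → ((f l).comp (R₀ l + X ^ e * (X ^ M + C (γ l)))).eval ξ ≠ 0 := by
  induction J using Finset.induction_on with
  | empty => exact ⟨1, one_pos, hp.not_dvd_one, fun _ => 0, by simp, by simp⟩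
  | insert a J ha ih =>
    obtain ⟨j, hj, hpj, γ, h1, h2⟩ := ih fun i hi => hf i (Finset.mem_insert_of_mem hi)
    obtain ⟨a1, a2, a3⟩ := hf a (Finset.mem_insert_self _ _)
    have hH : ∏ l ∈ J, (f l).comp (R₀ l + X ^ e * (X ^ M + C (γ l))) ≠ 0 := by
      refine Finset.prod_ne_zero_iff.2 fun l hl h => (hf l (Finset.mem_insert_of_mem hl)).2.1 ?_
      have := congrArg (eval 0) h
      simpa [eval_comp, he.ne'] using this
    obtain ⟨bad, hbad⟩ := gp_R a1 he a2 hM a3 hH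
    obtain ⟨j', hj', hpj', c, hc1, hc2⟩ := hG bad
    have h3 := hbad c hc2
    simp only [eval_prod, Finset.prod_ne_zero_iff] at h3
    have hu : ∀ l ∈ J, Function.update γ a c l = γ l := fun l hl =>
      Function.update_of_ne (fun h : l = a => ha (h ▸ hl)) _ _
    refine ⟨j * j', mul_pos hj hj', fun h => (hp.dvd_mul.1 h).elim hpj hpj',
      Function.update γ a c, fun i hi => ?_, fun i hi ξ hξ => ?_⟩
    · rcases Finset.mem_insert.1 hi with rfl | hi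
      · rw [Function.update_self]
        exact hmono _ _ _ hj' (mul_pos hj hj') (dvd_mul_left _ _) hc1
      · rw [hu i hi]
        exact hmono _ _ _ hj (mul_pos hj hj') (dvd_mul_right _ _) (h1 i hi)
    · rcases Finset.mem_insert.1 hi with rfl | hi'
      · rw [Function.update_self] at hξ ⊢
        refine ⟨(h3 ξ hξ).1, fun l hl hli => ?_⟩
        have hl' := (Finset.mem_insert.1 hl).resolve_left hli
        rw [hu l hl']
        exact (h3 ξ hξ).2 l hl'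
      · rw [hu i hi'] at hξ ⊢
        refine ⟨(h2 i hi' ξ hξ).1, fun l hl hli => ?_⟩
        rcases Finset.mem_insert.1 hl with rfl | hl'
        · rw [Function.update_self]
          exact fun h => (h3 ξ h).2 i hi' hξ
        · rw [hu l hl']
          exact (h2 i hi' ξ hξ).2 l hl' hli

theorem gp_monic {O : Type} [CommRing O] [IsDomain O] {m B u : O[X]} (hm : m.Monic)
    (hu : u.Monic) (h : B.natDegree < u.natDegree) :
    (B + m * u).Monic ∧ u.natDegree ≤ (B + m * u).natDegree := by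
  have h1 : B.natDegree < (m * u).natDegree := by
    rw [hm.natDegree_mul hu]
    omega
  refine ⟨(hm.mul hu).add_of_right (degree_lt_degree h1), ?_⟩
  rw [natDegree_add_eq_right_of_natDegree_lt h1, hm.natDegree_mul hu]
  omega

theorem gp_O {O k ι : Type} [CommRing O] [IsDomain O] [Field k] [IsAlgClosed k] (π : O →+* k)
    {p : ℕ} (hp : p.Prime) (hpk : (p : k) = 0) (h2 : (2 : k) ≠ 0) (G : ℕ → O → Prop)
    (hG : ∀ bad : Finset k, ∃ j, 0 < j ∧ ¬p ∣ j ∧ ∃ t, G j t ∧ π t ∉ bad)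
    (hmono : ∀ j j' t, 0 < j → 0 < j' → j ∣ j' → G j t → G j' t) {I : Finset ι}
    (hI : I.Nonempty) (f : ι → O[X])
    (hf : ∀ i, (f i).Monic ∧ 0 < (f i).natDegree ∧ ((f i).map π).Separable) {m : O[X]}
    (hm : m.Monic) (hm0 : 0 < m.natDegree) (hm1 : m.map π = X ^ m.natDegree) (R₀ : ι → O[X])
    (A₀ : O[X]) (hdvd : m ∣ A₀ ^ 2 - ∏ i ∈ I, (f i).comp (R₀ i))
    (hunit : π ((∏ i ∈ I, (f i).comp (R₀ i)).eval 0) ≠ 0) :
    ∃ j, 0 < j ∧ ¬p ∣ j ∧ ∃ (M M' : ℕ) (γ : ι → O) (δ : O) (R : ι → O[X]) (A Q : O[X]),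
      (∀ i ∈ I, G j (γ i) ∧ R i = R₀ i + m * (X ^ M + C (γ i)) ∧ (R i).Monic ∧
        0 < (R i).natDegree) ∧ G j δ ∧ A = A₀ + m * (X ^ M' + C δ) ∧ Q.Monic ∧
      A ^ 2 - ∏ i ∈ I, (f i).comp (R i) = m * Q ∧
      (∀ i ∈ I, ∀ ξ : O, π (((f i).comp (R i)).eval ξ) = 0 →
        π (((f i).comp (R i)).derivative.eval ξ) ≠ 0 ∧
          ∀ l ∈ I, l ≠ i → π (((f l).comp (R l)).eval ξ) ≠ 0) ∧
      ∀ ξ : O, π (Q.eval ξ) = 0 → π (Q.derivative.eval ξ) ≠ 0 ∧
        π ((∏ i ∈ I, (f i).comp (R i)).eval ξ) ≠ 0 := by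
  obtain ⟨M, hM1, hM2, hM3⟩ : ∃ M : ℕ, (M : k) ≠ 0 ∧ M ≠ 0 ∧ ∀ i ∈ I, (R₀ i).natDegree < M := by
    refine ⟨p * I.sup (fun i => (R₀ i).natDegree) + 1, by simp [hpk], by omega, fun i hi => ?_⟩
    have h1 := Finset.le_sup (f := fun i => (R₀ i).natDegree) hi
    exact Nat.lt_succ_of_le (h1.trans (Nat.le_mul_of_pos_left _ hp.pos))
  obtain ⟨j, hj, hpj, c, hc1, hc2⟩ := gp_k hp (fun j c => ∃ t, G j t ∧ π t = c)
    (fun bad => by
      obtain ⟨j, a1, a2, t, a3, a4⟩ := hG bad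
      exact ⟨j, a1, a2, π t, ⟨t, a3, rfl⟩, a4⟩)
    (fun j j' c a1 a2 a3 ⟨t, a4, a5⟩ => ⟨t, hmono _ _ _ a1 a2 a3 a4, a5⟩)
    (fun i => (f i).map π) (fun i => (R₀ i).map π) hm0 hM1 I fun i hi =>
      ⟨(hf i).2.2, by
        rw [eval_prod, map_prod, Finset.prod_ne_zero_iff] at hunit
        rw [← map_zero π, gp_ev, gp_ev, map_zero, ← eval_comp]
        exact hunit i hi, natDegree_map_le.trans_lt (hM3 i hi)⟩
  choose! γ hγ1 hγ2 using hc1
  obtain ⟨R, hR⟩ : ∃ R : ι → O[X], R = fun i => R₀ i + m * (X ^ M + C (γ i)) := ⟨_, rfl⟩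
  have hR1 : ∀ i ∈ I, (R i).Monic ∧ 0 < (R i).natDegree := fun i hi => by
    have := gp_monic (B := R₀ i) hm (monic_X_pow_add_C (γ i) hM2)
      (by rw [natDegree_X_pow_add_C]; exact hM3 i hi)
    rw [natDegree_X_pow_add_C] at this
    exact hR ▸ ⟨this.1, (Nat.pos_of_ne_zero hM2).trans_le this.2⟩
  have hR2 : ∀ i ∈ I, ((f i).map π).comp ((R₀ i).map π + X ^ m.natDegree * (X ^ M + C (c i))) =
      ((f i).comp (R i)).map π := fun i hi => by
    simp [hR, map_comp, hm1, hγ2 i hi]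
  have hc3 : ∀ i ∈ I, ∀ ξ, (((f i).comp (R i)).map π).eval ξ = 0 →
      (((f i).comp (R i)).map π).derivative.eval ξ ≠ 0 ∧
        ∀ l ∈ I, l ≠ i → (((f l).comp (R l)).map π).eval ξ ≠ 0 := fun i hi ξ hξ => by
    rw [← hR2 i hi] at hξ ⊢
    exact ⟨(hc2 i hi ξ hξ).1, fun l hl hli => hR2 l hl ▸ (hc2 i hi ξ hξ).2 l hl hli⟩
  obtain ⟨F, hF⟩ : ∃ F : O[X], F = ∏ i ∈ I, (f i).comp (R i) := ⟨_, rfl⟩
  have hF1 : m ∣ F - ∏ i ∈ I, (f i).comp (R₀ i) := by
    rw [← Ideal.mem_span_singleton, ← Ideal.Quotient.eq, hF, map_prod, map_prod]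
    refine Finset.prod_congr rfl fun i _ => ?_
    rw [comp, comp, hom_eval₂, hom_eval₂]
    congr 1
    rw [Ideal.Quotient.eq, Ideal.mem_span_singleton, hR]
    simp
  have hF2 : (F.map π).eval 0 ≠ 0 := by
    obtain ⟨u, hu⟩ := hF1
    have h1 : π (m.eval 0) = 0 := by
      rw [← gp_ev, hm1, map_zero]
      simp [hm0.ne']
    rw [← map_zero π, gp_ev, map_zero, eq_add_of_sub_eq hu, eval_add, eval_mul, map_add, map_mul,
      h1, zero_mul, zero_add]
    exact hunit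
  obtain ⟨ρ, hρ1, hρ2⟩ : ∃ ρ, (F.map π).eval ρ = 0 ∧ (F.map π).derivative.eval ρ ≠ 0 := by
    obtain ⟨i, hi⟩ := hI
    have h1 : ((f i).comp (R i)).Monic := (hf i).1.comp (hR1 i hi).1 (hR1 i hi).2.ne'
    obtain ⟨ρ, hρ⟩ := IsAlgClosed.exists_root (((f i).comp (R i)).map π) (by
      rw [h1.degree_map]
      refine (natDegree_pos_iff_degree_pos.1 ?_).ne'
      rw [natDegree_comp]
      exact mul_pos (hf i).2.1 (hR1 i hi).2)
    have h3 := hc3 i hi ρ hρ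
    refine ⟨ρ, ?_⟩
    rw [hF, Polynomial.map_prod, ← Finset.mul_prod_erase I _ hi, derivative_mul, eval_add,
      eval_mul, eval_mul, eval_mul, hρ.eq_zero, zero_mul, zero_mul, add_zero, eval_prod]
    exact ⟨rfl, mul_ne_zero h3.1 (Finset.prod_ne_zero_iff.2 fun l hl =>
      h3.2 l (Finset.mem_of_mem_erase hl) (Finset.ne_of_mem_erase hl))⟩
  obtain ⟨M', hM'⟩ : ∃ M', M' = A₀.natDegree + F.natDegree + 1 := ⟨_, rfl⟩
  obtain ⟨Q₁, hQ₁⟩ : m ∣ (A₀ + m * X ^ M') ^ 2 - F := by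
    have : (A₀ + m * X ^ M') ^ 2 - F = (A₀ ^ 2 - ∏ i ∈ I, (f i).comp (R₀ i)) -
        (F - ∏ i ∈ I, (f i).comp (R₀ i)) + m * (X ^ M' * (2 * A₀ + m * X ^ M')) := by ring
    rw [this]
    exact (hdvd.sub hF1).add (dvd_mul_right _ _)
  obtain ⟨bad, hbad⟩ := gp_A h2 (A := (A₀ + m * X ^ M').map π) (Q := Q₁.map π) hρ1 hρ2 hm0
    (by rw [← hm1, ← Polynomial.map_mul, ← hQ₁, Polynomial.map_sub, Polynomial.map_pow]) hF2
  obtain ⟨j', hj', hpj', δ, hδ1, hδ2⟩ := hG bad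
  have hQ : (A₀ + m * (X ^ M' + C δ)) ^ 2 - F =
      m * (Q₁ + C (2 * δ) * (A₀ + m * X ^ M') + C (δ ^ 2) * m) := by
    rw [map_mul, map_pow, map_ofNat]
    linear_combination hQ₁
  have hA := gp_monic (B := A₀) hm (monic_X_pow_add_C δ (n := M') (by omega))
    (by rw [natDegree_X_pow_add_C]; omega)
  rw [natDegree_X_pow_add_C] at hA
  refine ⟨j * j', mul_pos hj hj', fun h => (hp.dvd_mul.1 h).elim hpj hpj', M, M', γ, δ, R, _, _,
    fun i hi => ⟨hmono _ _ _ hj (mul_pos hj hj') (dvd_mul_right _ _) (hγ1 i hi), by rw [hR],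
      hR1 i hi⟩, hmono _ _ _ hj' (mul_pos hj hj') (dvd_mul_left _ _) hδ1, rfl, ?_, hF ▸ hQ,
    fun i hi ξ hξ => ?_, fun ξ hξ => ?_⟩
  · refine hm.of_mul_monic_left (hQ ▸ (hA.1.pow 2).sub_of_left (degree_lt_degree ?_))
    rw [hA.1.natDegree_pow]
    omega
  · simp only [← gp_ev, ← derivative_map] at hξ ⊢
    exact hc3 i hi _ hξ
  · have h3 : (Q₁ + C (2 * δ) * (A₀ + m * X ^ M') + C (δ ^ 2) * m).map π = Q₁.map π +
        C (2 * π δ) * (A₀ + m * X ^ M').map π + C (π δ ^ 2) * X ^ m.natDegree := by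
      rw [Polynomial.map_add, Polynomial.map_add, Polynomial.map_mul, Polynomial.map_mul, map_C,
        map_C, hm1, map_mul π, map_pow π, map_ofNat]
    rw [← hF]
    simp only [← gp_ev, ← derivative_map] at hξ ⊢
    rw [h3] at hξ ⊢
    exact hbad _ hδ2 _ hξ

variable {p : ℕ} {K Λ : Type} [Field K] [CharZero K] [NormedField Λ] [IsUltrametricDist Λ]
  [IsAlgClosed Λ] [Algebra K Λ] [IsGalois K Λ] [Loc p K Λ]

include p

variable {ι : Type} [Fintype ι] {W : ι → WeierstrassCurve K}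
  (hu : ∀ i, Intg (cub ((W i).baseChange Λ)) ∧ ∀ x : Λ, ‖x‖ ≤ 1 →
    ‖(cub ((W i).baseChange Λ)).eval x‖ < 1 → ‖(cub ((W i).baseChange Λ)).derivative.eval x‖ = 1)
  {L : IntermediateField K Λ} (T : Tower p L)
include hu

theorem exists_gp {I : Finset ι} (hI : I.Nonempty) {m : Λ[X]} (hm : m.Monic) (hmL : Over L m)
    (hm0 : 0 < m.natDegree) (hm1 : ∀ k < m.natDegree, ‖m.coeff k‖ < 1) {R₀ : ι → Λ[X]}
    (hR₀ : ∀ i ∈ I, Over L (R₀ i) ∧ Intg (R₀ i)) {A₀ : Λ[X]} (hA₀ : Over L A₀ ∧ Intg A₀)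
    (hdvd : m ∣ A₀ ^ 2 - ∏ i ∈ I, Fp W R₀ i) (hunit : ‖(∏ i ∈ I, Fp W R₀ i).eval 0‖ = 1) :
    ∃ j, 0 < j ∧ ¬p ∣ j ∧ ∃ (R : ι → Λ[X]) (A Q : Λ[X]),
      (∀ i ∈ I, Over (T.U j) (R i) ∧ Intg (R i) ∧ 0 < (R i).natDegree ∧ m ∣ R i - R₀ i) ∧
      Over (T.U j) A ∧ Intg A ∧ m ∣ A - A₀ ∧ Indep W I R ∧
      Over (T.U j) Q ∧ Intg Q ∧ Q.Monic ∧ A ^ 2 - ∏ i ∈ I, Fp W R i = m * Q ∧
      ∀ ξ, Q.eval ξ = 0 → ‖Q.derivative.eval ξ‖ = 1 ∧ ‖(∏ i ∈ I, Fp W R i).eval ξ‖ = 1 := by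
  obtain ⟨O, k, _, _, π, hO, hπ, hπ0⟩ := gp_res Λ
  have hinj : Function.Injective O.subtype := O.subtype_injective
  have hlift : ∀ g : Λ[X], Intg g → ∃ g' : O[X], g'.map O.subtype = g := fun g hg =>
    (mem_lifts _).1 ((lifts_iff_coeff_lifts _).2 fun n => ⟨⟨_, (hO _).2 (hg n)⟩, rfl⟩)
  have hint : ∀ g : O[X], Intg (g.map O.subtype) := fun g n => by
    rw [coeff_map]
    exact (hO _).1 (g.coeff n).2
  have hev : ∀ (g : O[X]) (ξ : O), (g.map O.subtype).eval (ξ : Λ) = (g.eval ξ : O) := fun g ξ =>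
    gp_ev O.subtype g ξ
  have hπ1 : ∀ x : O, π x ≠ 0 ↔ ‖(x : Λ)‖ = 1 := fun x => by
    rw [Ne, hπ0, not_lt]
    exact ⟨fun h => le_antisymm ((hO _).1 x.2) h, fun h => h.ge⟩
  choose f hf using fun i => hlift _ (hu i).1
  choose! S₀ hS₀ using fun i hi => hlift _ (hR₀ i hi).2
  obtain ⟨B₀, rfl⟩ := hlift _ hA₀.2
  obtain ⟨m, rfl⟩ := hlift m fun n => by
    rcases lt_trichotomy n m.natDegree with h | rfl | h
    · exact (hm1 n h).le
    · rw [hm.coeff_natDegree, norm_one]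
    · rw [coeff_eq_zero_of_natDegree_lt h, norm_zero]
      exact zero_le_one
  have hm' : m.Monic := monic_of_injective hinj hm
  rw [hm'.natDegree_map] at hm0 hm1
  have hFp : ∀ (S : ι → O[X]) (R : ι → Λ[X]) (i : ι), (S i).map O.subtype = R i →
      Fp W R i = ((f i).comp (S i)).map O.subtype := fun S R i h => by
    rw [map_comp, hf, h, Fp]
  have hFP : ∀ (S : ι → O[X]) (R : ι → Λ[X]), (∀ i ∈ I, (S i).map O.subtype = R i) →
      ∏ i ∈ I, Fp W R i = (∏ i ∈ I, (f i).comp (S i)).map O.subtype := fun S R h => by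
    rw [Polynomial.map_prod]
    exact Finset.prod_congr rfl fun i hi => hFp S R i (h i hi)
  have hf1 : ∀ i, (f i).Monic ∧ 0 < (f i).natDegree ∧ ((f i).map π).Separable := fun i => by
    have h1 : (cub ((W i).baseChange Λ)).Monic := by
      unfold cub
      monicity!
    have h2 : (cub ((W i).baseChange Λ)).natDegree = 3 := by
      unfold cub
      compute_degree!
    refine ⟨monic_of_injective hinj (hf i ▸ h1), ?_, ?_⟩
    · rw [← natDegree_map_eq_of_injective hinj, hf, h2]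
      norm_num
    · refine (isCoprime_iff_aeval_ne_zero_of_isAlgClosed k k _ _).2 fun a => ?_
      obtain ⟨x, rfl⟩ := hπ a
      rw [coe_aeval_eq_eval, derivative_map, gp_ev, gp_ev]
      refine or_iff_not_imp_left.2 fun h => ?_
      rw [not_not, hπ0, ← hev, hf] at h
      rw [hπ1, ← hev, ← derivative_map, hf]
      exact (hu i).2 x ((hO _).1 x.2) h
  obtain ⟨j, hj, hpj, M, M', γ, δ, R, A, Q, h1, h2, h3, h4, h5, h6, h7⟩ :=
    gp_O π (Loc.prime (K := K) (Λ := Λ))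
      (by rw [← map_natCast π, hπ0]; exact Loc.norm_p (K := K))
      (by rw [← map_ofNat π 2, hπ1]; exact norm_two K)
      (fun j t => (t : Λ) ∈ T.U j)
      (fun bad => by
        obtain ⟨j, a1, a2, t, a3, a4, a5⟩ :=
          T.exists_avoid (bad.image fun b => ((Function.surjInv hπ b : O) : Λ))
        refine ⟨j, a1, a2, ⟨t, (hO t).2 a4⟩, a3, fun h => a5 _ (Finset.mem_image_of_mem _ h) ?_⟩
        refine (hπ0 (⟨t, (hO t).2 a4⟩ - Function.surjInv hπ _)).1 ?_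
        rw [map_sub, Function.surjInv_eq hπ, sub_self])
      (fun j j' t a1 a2 a3 a4 => T.mono a1 a2 a3 a4) hI f hf1 hm' hm0
      (by
        ext n
        rw [coeff_map, coeff_X_pow]
        rcases lt_trichotomy n m.natDegree with h | rfl | h
        · rw [if_neg h.ne, hπ0]
          simpa using hm1 n h
        · rw [if_pos rfl, hm'.coeff_natDegree, map_one]
        · rw [if_neg h.ne', coeff_eq_zero_of_natDegree_lt h, map_zero]) S₀ B₀
      (by
        rw [← map_dvd_map O.subtype hinj hm', Polynomial.map_sub, Polynomial.map_pow,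
          ← hFP S₀ R₀ hS₀]
        exact hdvd)
      (by
        rw [hπ1, ← hev, ← hFP S₀ R₀ hS₀]
        exact hunit)
  have hov : ∀ (B : O[X]) (N : ℕ) (t : O), Over L (B.map O.subtype) → (t : Λ) ∈ T.U j →
      Over (T.U j) ((B + m * (X ^ N + C t)).map O.subtype) ∧
      m.map O.subtype ∣ (B + m * (X ^ N + C t)).map O.subtype - B.map O.subtype := by
    intro B N t hB ht
    rw [Polynomial.map_add, Polynomial.map_mul, add_sub_cancel_left, Polynomial.map_add,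
      Polynomial.map_pow, map_X, map_C]
    exact ⟨(hB.mono (T.le j)).add ((hmL.mono (T.le j)).mul ((over_X.pow N).add (over_C ht))),
      dvd_mul_right _ _⟩
  have hR : ∀ i ∈ I, Over (T.U j) ((R i).map O.subtype) ∧
      m.map O.subtype ∣ (R i).map O.subtype - R₀ i := fun i hi => by
    rw [(h1 i hi).2.1, ← hS₀ i hi]
    exact hov _ _ _ (hS₀ i hi ▸ (hR₀ i hi).1) (h1 i hi).1
  have hA := h3 ▸ hov B₀ M' δ hA₀.1 h2
  have hQ : A.map O.subtype ^ 2 - ∏ i ∈ I, Fp W (fun i => (R i).map O.subtype) i =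
      m.map O.subtype * Q.map O.subtype := by
    rw [hFP R _ fun _ _ => rfl, ← Polynomial.map_mul, ← h5, Polynomial.map_sub,
      Polynomial.map_pow]
  refine ⟨j, hj, hpj, fun i => (R i).map O.subtype, A.map O.subtype, Q.map O.subtype,
    fun i hi => ⟨(hR i hi).1, hint _, ?_, (hR i hi).2⟩, hA.1, hint _, hA.2, fun i hi => ?_, ?_,
    hint _, h4.map _, hQ, fun ξ hξ => ?_⟩
  · rw [(h1 i hi).2.2.1.natDegree_map]
    exact (h1 i hi).2.2.2
  · have a1 : ((f i).comp (R i)).Monic := (hf1 i).1.comp (h1 i hi).2.2.1 (h1 i hi).2.2.2.ne'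
    obtain ⟨ρ, hρ⟩ := IsAlgClosed.exists_root (((f i).comp (R i)).map O.subtype) (by
      rw [a1.degree_map]
      refine (natDegree_pos_iff_degree_pos.1 ?_).ne'
      rw [natDegree_comp]
      exact mul_pos (hf1 i).2.1 (h1 i hi).2.2.2)
    obtain ⟨x, rfl⟩ : ∃ x : O, (x : Λ) = ρ :=
      ⟨⟨ρ, (hO ρ).2 ((hint _).root_le (a1.map _) hρ)⟩, rfl⟩
    have a2 := h6 i hi x (by
      rw [hπ0, ← hev, hρ.eq_zero, norm_zero]
      exact one_pos)
    have a3 : ∀ y : O, π y ≠ 0 → (y : Λ) ≠ 0 := fun y hy h =>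
      hy (by rw [hπ0, h, norm_zero]; exact one_pos)
    refine ⟨x, ?_, ?_, fun l hl hli => ?_⟩
    · rw [hFp R _ i rfl]
      exact hρ
    · rw [hFp R _ i rfl, derivative_map, hev]
      exact a3 _ a2.1
    · rw [hFp R _ l rfl, hev]
      exact a3 _ (a2.2 l hl hli)
  · rw [← mul_divByMonic_cancel_left (Q.map O.subtype) hm, ← hQ]
    exact ((hA.1.pow 2).sub (Over.prod fun i hi => (over_cub _).comp (hR i hi).1)).divByMonic
      (hmL.mono (T.le j)) hm
  · obtain ⟨x, rfl⟩ : ∃ x : O, (x : Λ) = ξ :=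
      ⟨⟨ξ, (hO ξ).2 ((hint _).root_le (h4.map _) hξ)⟩, rfl⟩
    have a2 := h7 x (by
      rw [hπ0, ← hev, hξ, norm_zero]
      exact one_pos)
    rw [hFP R _ fun _ _ => rfl, derivative_map, hev, hev]
    exact ⟨(hπ1 _).1 a2.1, (hπ1 _).1 a2.2⟩

end Pool.Agent.Lib.MP_796ce4_ag
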