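import Pool.Agent.Lib.MP_796ce4_ag.G1
import Pool.Agent.Lib.MP_796ce4_ag.GP

/-! Moving symbols over ramified extensions to unramified ones. -/

namespace Pool.Agent.Lib.MP_796ce4_ag

open WeierstrassCurve Polynomial Module
open scoped Classical IntermediateField

set_option linter.unusedSectionVars false

theorem move_even {ι : Type} {I : Finset ι} (hI : I.Nonempty) :
    2 * (I.powerset.filter fun J => Even J.card).card = 2 ^ I.card := by
  have h1 := Finset.sum_powerset_neg_one_pow_card_of_nonempty hI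
  have h2 := Finset.card_filter_add_card_filter_not (s := I.powerset) (fun J => Even J.card)
  rw [← Finset.sum_filter_add_sum_filter_not _ (fun J => Even J.card),
    Finset.sum_congr rfl (g := fun _ => (1 : ℤ))
      (fun J hJ => (Finset.mem_filter.1 hJ).2.neg_one_pow),
    Finset.sum_congr rfl (g := fun _ => (-1 : ℤ))
      (fun J hJ => (Nat.not_even_iff_odd.1 (Finset.mem_filter.1 hJ).2).neg_one_pow)] at h1
  simp only [Finset.sum_const, nsmul_eq_mul, mul_one, mul_neg] at h1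
  rw [Finset.card_powerset] at h2
  omega

section sign

variable {K Λ ι : Type} [Field K] [Field Λ] [Algebra K Λ] {W : ι → WeierstrassCurve K}

/-- change the signs on `J` and forget the entries outside `I` -/
noncomputable def moveSg (I J : Finset ι) (a : Pts W Λ) : Pts W Λ :=
  fun i => if i ∈ I then (if i ∈ J then -a i else a i) else 0

/-- points over `ξ` of the curve cut out by `R` and `A` -/
def MoveOk (I : Finset ι) (R : ι → Λ[X]) (A : Λ[X]) (ξ : Λ) (y : Pts W Λ) : Prop :=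
  (∀ i ∈ I, y i ≠ 0 ∧ xc (y i) = (R i).eval ξ ∧ yc (y i) ≠ 0) ∧ ∏ i ∈ I, yc (y i) = A.eval ξ

variable (h₁ : ∀ i, (W i).a₁ = 0) (h₃ : ∀ i, (W i).a₃ = 0) {I J : Finset ι} {R : ι → Λ[X]}
  {A : Λ[X]} {ξ : Λ}
include h₁ h₃

theorem move_yneg (i : ι) (P : Pt (W i) Λ) : yc (-P) = -yc P :=
  yc_neg (by simp [h₁ i]) (by simp [h₃ i]) P

theorem move_prod (hJ : J ⊆ I) (a : Pts W Λ) :
    ∏ i ∈ I, yc (moveSg I J a i) = (-1) ^ J.card * ∏ i ∈ I, yc (a i) := by
  have h : ∀ i ∈ I, yc (moveSg I J a i) = (if i ∈ J then -1 else 1) * yc (a i) := by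
    intro i hi
    rw [moveSg, if_pos hi]
    split_ifs
    · rw [move_yneg h₁ h₃, neg_one_mul]
    · rw [one_mul]
  rw [Finset.prod_congr rfl h, Finset.prod_mul_distrib, Finset.prod_ite_mem,
    Finset.inter_eq_right.2 hJ, Finset.prod_const]

theorem MoveOk.sg {a : Pts W Λ} (h : MoveOk I R A ξ a) (hJ : J ⊆ I) (he : Even J.card) :
    MoveOk I R A ξ (moveSg I J a) := by
  refine ⟨fun i hi => ?_, by rw [move_prod h₁ h₃ hJ, he.neg_one_pow, one_mul, h.2]⟩
  obtain ⟨a1, a2, a3⟩ := h.1 i hi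
  rw [moveSg, if_pos hi]
  split_ifs
  · exact ⟨neg_ne_zero.2 a1, by rw [xc_neg, a2], by rwa [move_yneg h₁ h₃, neg_ne_zero]⟩
  · exact ⟨a1, a2, a3⟩

theorem MoveOk.exists_sg (h2 : (2 : Λ) ≠ 0) {a y : Pts W Λ} (h : MoveOk I R A ξ a)
    (hy : MoveOk I R A ξ y) (h0 : ∀ i ∉ I, y i = 0) :
    ∃ J ⊆ I, Even J.card ∧ moveSg I J a = y := by
  have e : moveSg I (I.filter fun i => y i ≠ a i) a = y := by
    funext i
    rw [moveSg]
    split_ifs with hi hJ
    · exact ((eq_or_eq_neg_of_xc (hy.1 i hi).1 (h.1 i hi).1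
        ((hy.1 i hi).2.1.trans (h.1 i hi).2.1.symm)).resolve_left (Finset.mem_filter.1 hJ).2).symm
    · by_contra hc
      exact hJ (Finset.mem_filter.2 ⟨hi, Ne.symm hc⟩)
    · exact (h0 i hi).symm
  refine ⟨_, Finset.filter_subset _ _, ?_, e⟩
  by_contra hc
  have h3 := move_prod h₁ h₃ (Finset.filter_subset (fun i => y i ≠ a i) I) a
  rw [e, (Nat.not_even_iff_odd.1 hc).neg_one_pow, hy.2, ← h.2] at h3
  exact mul_ne_zero h2 (Finset.prod_ne_zero_iff.2 fun i hi => (h.1 i hi).2.2)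
    (by linear_combination h3)

theorem MoveOk.sg_inj (h2 : (2 : Λ) ≠ 0) {a : Pts W Λ} (h : MoveOk I R A ξ a) {J' : Finset ι}
    (hJ : J ⊆ I) (hJ' : J' ⊆ I) (e : moveSg I J a = moveSg I J' a) : J = J' := by
  have key : ∀ i ∈ I, -a i ≠ a i := fun i hi e => by
    have h3 := congrArg yc e
    rw [move_yneg h₁ h₃] at h3
    exact mul_ne_zero h2 (h.1 i hi).2.2 (by linear_combination -h3)
  ext i
  constructor
  · intro hi
    by_contra hc
    have := congrFun e i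
    rw [moveSg, moveSg, if_pos (hJ hi), if_pos (hJ hi), if_pos hi, if_neg hc] at this
    exact key i (hJ hi) this
  · intro hi
    by_contra hc
    have := congrFun e i
    rw [moveSg, moveSg, if_pos (hJ' hi), if_pos (hJ' hi), if_pos hi, if_neg hc] at this
    exact key i (hJ' hi) this.symm

theorem move_exists_ok [IsAlgClosed Λ] (hΔ : ∀ i, (W i).Δ ≠ 0) (hI : I.Nonempty)
    (h : A.eval ξ ^ 2 = (∏ i ∈ I, Fp W R i).eval ξ) (h0 : (∏ i ∈ I, Fp W R i).eval ξ ≠ 0) :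
    ∃ y : Pts W Λ, MoveOk I R A ξ y := by
  have ex : ∀ i, ∃ P : Pt (W i) Λ, P ≠ 0 ∧ xc P = (R i).eval ξ ∧
      yc P ^ 2 = (Fp W R i).eval ξ := by
    intro i
    obtain ⟨w, hw⟩ := IsAlgClosed.exists_pow_nat_eq ((Fp W R i).eval ξ) two_pos
    obtain ⟨P, a1, a2, a3⟩ := exists_pt (E := Affine.baseChange (W i) Λ) (x := (R i).eval ξ)
      (y := w) (by simp [h₁ i]) (by simp [h₃ i]) 
      (by rw [Affine.baseChange, baseChange, map_Δ]; exact (_root_.map_ne_zero _).2 (hΔ i))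
      (by rw [hw, Fp, eval_comp])
    exact ⟨P, a1, a2, by rw [a3, hw]⟩
  choose y y1 y2 y3 using ex
  rw [eval_prod] at h h0
  have y4 : ∀ i ∈ I, yc (y i) ≠ 0 := fun i hi e =>
    Finset.prod_ne_zero_iff.1 h0 i hi (by rw [← y3, e, zero_pow two_ne_zero])
  have y5 : (∏ i ∈ I, yc (y i)) ^ 2 = A.eval ξ ^ 2 := by
    rw [h, ← Finset.prod_pow]
    exact Finset.prod_congr rfl fun i _ => y3 i
  rcases sq_eq_sq_iff_eq_or_eq_neg.1 y5 with e | e
  · exact ⟨y, fun i hi => ⟨y1 i, y2 i, y4 i hi⟩, e⟩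
  · obtain ⟨i0, hi0⟩ := hI
    refine ⟨moveSg I {i0} y, fun i hi => ?_, by
      rw [move_prod h₁ h₃ (Finset.singleton_subset_iff.2 hi0), e]; simp⟩
    rw [moveSg, if_pos hi]
    split_ifs
    · exact ⟨neg_ne_zero.2 (y1 i), by rw [xc_neg, y2],
        by rw [move_yneg h₁ h₃, neg_ne_zero]; exact y4 i hi⟩
    · exact ⟨y1 i, y2 i, y4 i hi⟩

omit h₁ h₃ in
theorem MoveOk.gal {L : IntermediateField K Λ} {y : Pts W Λ} (h : MoveOk I R A ξ y)
    (hR : ∀ i ∈ I, Over L (R i)) (hA : Over L A) {σ : Λ ≃ₐ[K] Λ} (hσ : Fix L σ) :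
    MoveOk I R A (σ ξ) (gal W σ y) := by
  refine ⟨fun i hi => ?_, ?_⟩
  · obtain ⟨a1, a2, a3⟩ := h.1 i hi
    change galP (W i) σ (y i) ≠ 0 ∧ xc (galP (W i) σ (y i)) = _ ∧ yc (galP (W i) σ (y i)) ≠ 0
    rw [Ne, galP_eq_zero, xc_galP, yc_galP, a2, (hR i hi).apply_eval hσ]
    exact ⟨a1, rfl, (map_ne_zero σ).2 a3⟩
  · rw [← hA.apply_eval hσ, ← h.2, map_prod]
    exact Finset.prod_congr rfl fun i _ => yc_galP σ (y i)

end sign

variable {p : ℕ} {K Λ : Type} [Field K] [CharZero K] [NormedField Λ] [IsUltrametricDist Λ]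
  [IsAlgClosed Λ] [Algebra K Λ] [IsGalois K Λ] [Loc p K Λ]

include p

theorem move_root {L : IntermediateField K Λ} (T : Tower p L) {n : ℕ} (hn : 0 < n) {f : Λ[X]}
    (hL : Over (T.U n) f) (hf : Intg f) {x : Λ} (hx : ‖x‖ ≤ 1) (h0 : f.eval x = 0)
    (hd : ‖f.derivative.eval x‖ = 1) : ∃ N, 0 < N ∧ n ∣ N ∧ x ∈ T.U N := by
  obtain ⟨k, hk, t, ht, h⟩ := T.exists_near hx
  have hN : 0 < n * k := Nat.mul_pos hn hk
  exact ⟨n * k, hN, dvd_mul_right _ _, hensel_mem (hL.mono (T.mono hn hN (dvd_mul_right _ _))) hf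
    hx h0 hd (T.mono hk hN (dvd_mul_left _ _) ht) h⟩

variable {ι : Type} [Fintype ι] {W : ι → WeierstrassCurve K} (hW : ∀ i, Good Λ (W i))
  {I : Finset ι}

theorem move_clL (L : IntermediateField K Λ) (a : Pts W Λ) : clL W L (evenSum W I a) =
    ∑ J ∈ I.powerset with Even J.card, Sy W L I (moveSg I J a) := by
  rw [evenSum, map_sum]
  refine Finset.sum_congr rfl fun J _ => ?_
  exact Sy_congr (a := fun i => if i ∈ J then -a i else a i) fun i hi => by
    rw [moveSg, if_pos hi]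

include hW

/-- an invariant finite set of unramified points gives an unramified class -/
theorem orbit_mem {L : IntermediateField K Λ} [FiniteDimensional K L] (hL : Unr L) (T : Tower p L)
    {A : Type} (Y : Finset A) (ψ : A → A) (hY : ∀ t ∈ Y, ψ t ∈ Y) (hψ : Function.Injective ψ)
    (y : A → Pts W Λ) (hy : ∀ t ∈ Y, y (ψ t) = gal W T.φ (y t))
    (hur : ∀ t ∈ Y, ∃ n, 0 < n ∧ ∀ i, y t i ∈ pts (W i) (T.U n)) :
    ∑ t ∈ Y, Sy W L I (y t) ∈ TT W I Unr fun _ _ => True := by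
  induction Y using Finset.strongInduction with
  | H Y ih =>
  rcases Y.eq_empty_or_nonempty with rfl | ⟨t, ht⟩
  · simp
  have hit : ∀ k, ψ^[k] t ∈ Y ∧ y (ψ^[k] t) = gal W (T.φ ^ k) (y t) := by
    intro k
    induction k with
    | zero => exact ⟨ht, by rw [pow_zero, gal_one]; rfl⟩
    | succ k ih =>
      rw [Function.iterate_succ_apply']
      exact ⟨hY _ ih.1, by rw [hy _ ih.1, ih.2, pow_succ', gal_mul]⟩
  have hper : t ∈ Function.periodicPts ψ := by
    obtain ⟨a, b, hab, h⟩ := Y.finite_toSet.exists_lt_map_eq_of_forall_mem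
      (f := fun k : ℕ => ψ^[k] t) fun k => (hit k).1
    obtain ⟨c, rfl⟩ := Nat.exists_eq_add_of_lt hab
    refine ⟨c + 1, by omega, (hψ.iterate a) ?_⟩
    rw [← Function.iterate_add_apply, ← add_assoc]
    exact h.symm
  have hd : 0 < Function.minimalPeriod ψ t := Function.minimalPeriod_pos_of_mem_periodicPts hper
  have hdt : ψ^[Function.minimalPeriod ψ t] t = t := Function.iterate_minimalPeriod
  have hinj := Function.iterate_injOn_Iio_minimalPeriod (f := ψ) (x := t)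
  have hmod := fun k => Function.iterate_mod_minimalPeriod_eq (f := ψ) (x := t) (n := k)
  generalize Function.minimalPeriod ψ t = d at hd hdt hinj hmod
  set O : Finset A := (Finset.range d).image fun k => ψ^[k] t with hO
  have hmem : ∀ k, ψ^[k] t ∈ O := fun k =>
    Finset.mem_image.2 ⟨k % d, Finset.mem_range.2 (Nat.mod_lt _ hd), hmod k⟩
  have hOY : O ⊆ Y := fun s hs => by
    obtain ⟨k, -, rfl⟩ := Finset.mem_image.1 hs
    exact (hit k).1
  rw [← Finset.sum_sdiff hOY]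
  refine add_mem (ih _ (Finset.sdiff_ssubset hOY ⟨_, hmem 0⟩) (fun s hs => ?_)
    (fun s hs => hy s (Finset.mem_sdiff.1 hs).1) fun s hs => hur s (Finset.mem_sdiff.1 hs).1) ?_
  · obtain ⟨h1, h2⟩ := Finset.mem_sdiff.1 hs
    refine Finset.mem_sdiff.2 ⟨hY s h1, fun h => h2 ?_⟩
    obtain ⟨k, -, hk⟩ := Finset.mem_image.1 h
    have h3 : ψ (ψ^[k + d - 1] t) = ψ s := by
      rw [← Function.iterate_succ_apply' ψ, show (k + d - 1).succ = k + d by omega,
        Function.iterate_add_apply, hdt, hk]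
    exact hψ h3 ▸ hmem _
  · rw [hO, Finset.sum_image fun a ha b hb h =>
      hinj (Finset.mem_range.1 ha) (Finset.mem_range.1 hb) h,
      Finset.sum_congr rfl (g := fun _ => Sy W L I (y t)) fun k _ => by rw [(hit k).2, Sy_gal],
      Finset.sum_const, Finset.card_range, ← Sy_eq_nsmul (T.rank d hd).symm]
    have := T.fin d hd
    obtain ⟨n, hn, h⟩ := hur t ht
    refine Sy_mem_TT (T.unr_of hL hd) (fun i => ?_) fun _ _ => trivial
    have h1 : galP (W i) (T.φ ^ d) (y t i) = y t i := by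
      have h2 := (hit d).2
      rw [hdt] at h2
      exact (congrFun h2 i).symm
    have h2 := mem_pts_iff.1 (h i)
    exact mem_pts_iff.2 ⟨T.mem_U d n hd hn _ h2.1 (by rw [← xc_galP, h1]),
      T.mem_U d n hd hn _ h2.2 (by rw [← yc_galP, h1])⟩

/-- the contribution of the simple roots of `Q` -/
theorem move_simple {L : IntermediateField K Λ} [FiniteDimensional K L] (hL : Unr L)
    {R : ι → Λ[X]} {A Q : Λ[X]} (hR : ∀ i ∈ I, Over L (R i) ∧ Intg (R i)) (hA : Over L A)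
    (hQ : Over L Q) (hQi : Intg Q) (hQm : Q.Monic)
    (hs : ∀ ξ, Q.eval ξ = 0 → ‖Q.derivative.eval ξ‖ = 1 ∧ ‖(∏ i ∈ I, Fp W R i).eval ξ‖ = 1)
    {pt : Λ → Pts W Λ} (hpt : ∀ ξ, Q.eval ξ = 0 → MoveOk I R A ξ (pt ξ)) :
    clL W L (Q.roots.map fun ξ => evenSum W I (pt ξ)).sum ∈ TT W I Unr fun _ _ => True := by
  obtain ⟨T⟩ := exists_tower (p := p) L
  have S := short_of_good hW
  have h2 : (2 : Λ) ≠ 0 := fun h => by simpa [h] using norm_two (Λ := Λ) K
  have hQ0 := hQm.ne_zero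
  have hroot : ∀ ξ, ξ ∈ Q.roots.toFinset ↔ Q.eval ξ = 0 := fun ξ => by
    rw [Multiset.mem_toFinset, mem_roots hQ0, IsRoot.def]
  have hnd : Q.roots.Nodup := by
    rw [Multiset.nodup_iff_count_le_one]
    intro ξ
    rw [count_roots]
    by_contra hc
    have h1 := (one_lt_rootMultiplicity_iff_isRoot hQ0).1 (not_le.1 hc)
    have h3 := (hs ξ h1.1).1
    rw [h1.2] at h3
    simp at h3
  set Y : Finset (Λ × Pts W Λ) :=
    (Q.roots.toFinset ×ˢ (I.powerset.filter fun J => Even J.card)).image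
      fun x => (x.1, moveSg I x.2 (pt x.1)) with hYdef
  have hYmem : ∀ t : Λ × Pts W Λ, t ∈ Y ↔
      Q.eval t.1 = 0 ∧ MoveOk I R A t.1 t.2 ∧ ∀ i ∉ I, t.2 i = 0 := by
    rintro ⟨ξ, y⟩
    simp only [hYdef, Finset.mem_image, Finset.mem_product, hroot, Finset.mem_filter,
      Finset.mem_powerset, Prod.mk.injEq]
    constructor
    · rintro ⟨⟨ξ, J⟩, ⟨a1, a2, a3⟩, rfl, rfl⟩
      exact ⟨a1, (hpt _ a1).sg S.a₁ S.a₃ a2 a3, fun i hi => if_neg hi⟩
    · rintro ⟨a1, a2, a3⟩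
      obtain ⟨J, b1, b2, b3⟩ := (hpt _ a1).exists_sg S.a₁ S.a₃ h2 a2 a3
      exact ⟨(ξ, J), ⟨a1, b1, b2⟩, rfl, b3⟩
  have hsum : clL W L (Q.roots.map fun ξ => evenSum W I (pt ξ)).sum =
      ∑ t ∈ Y, Sy W L I t.2 := by
    rw [hYdef, Finset.sum_image, Finset.sum_product, ← Multiset.toFinset_eq hnd,
      ← Finset.sum_mk _ hnd, map_sum]
    · exact Finset.sum_congr rfl fun ξ _ => move_clL L _
    · rintro ⟨ξ, J⟩ hx ⟨ξ', J'⟩ hx' e
      simp only [Finset.coe_product, Set.mem_prod, Finset.mem_coe, hroot, Finset.mem_filter,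
        Finset.mem_powerset, Prod.mk.injEq] at hx hx' e ⊢
      obtain ⟨rfl, e⟩ := e
      exact ⟨rfl, (hpt _ hx.1).sg_inj S.a₁ S.a₃ h2 hx.2.1 hx'.2.1 e⟩
  rw [hsum]
  refine orbit_mem hW hL T Y (fun t => (T.φ t.1, gal W T.φ t.2)) (fun t ht => ?_) ?_ Prod.snd
    (fun _ _ => rfl) fun t ht => ?_
  · obtain ⟨a1, a2, a3⟩ := (hYmem t).1 ht
    refine (hYmem _).2 ⟨by rw [← hQ.apply_eval T.φ_fix, a1, map_zero],
      a2.gal (fun i hi => (hR i hi).1) hA T.φ_fix, fun i hi => ?_⟩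
    change galP (W i) T.φ (t.2 i) = 0
    rw [a3 i hi, map_zero]
  · intro t t' e
    simp only [Prod.mk.injEq] at e
    refine Prod.ext (T.φ.injective e.1) ?_
    rw [← gal_one t.2, ← gal_one t'.2, ← inv_mul_cancel T.φ, gal_mul, gal_mul, e.2]
  · obtain ⟨a1, a2, a3⟩ := (hYmem t).1 ht
    have hξ := hQi.root_le hQm a1
    obtain ⟨n, hn, -, hnξ⟩ := move_root T one_pos (hQ.mono (T.le 1)) hQi hξ a1 (hs _ a1).1
    have hF : ∀ i ∈ I, ‖(Fp W R i).eval t.1‖ ≤ 1 := fun i hi =>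
      ((hW i).intg.comp (hR i hi).2).eval_le hξ
    have ex : ∀ i, ∃ N, 0 < N ∧ t.2 i ∈ pts (W i) (T.U N) := by
      intro i
      by_cases hi : i ∈ I
      swap
      · exact ⟨1, one_pos, by rw [a3 i hi]; exact zero_mem _⟩
      obtain ⟨b1, b2, -⟩ := a2.1 i hi
      have hsq : yc (t.2 i) ^ 2 = (Fp W R i).eval t.1 := by
        rw [yc_sq (by simp [S.a₁ i]) (by simp [S.a₃ i]) b1, b2, Fp, eval_comp]
      have h1 : ‖(Fp W R i).eval t.1‖ = 1 := by
        refine le_antisymm (hF i hi) ?_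
        have h3 := (hs _ a1).2
        rw [eval_prod, norm_prod, ← Finset.mul_prod_erase _ _ hi] at h3
        have h4 : ∏ k ∈ I.erase i, ‖(Fp W R k).eval t.1‖ ≤ 1 :=
          Finset.prod_le_one (fun _ _ => norm_nonneg _) fun k hk => hF k (Finset.mem_of_mem_erase hk)
        nlinarith [norm_nonneg ((Fp W R i).eval t.1)]
      have h5 : ‖yc (t.2 i)‖ = 1 := by
        rw [← hsq, norm_pow] at h1
        exact (pow_eq_one_iff_of_nonneg (norm_nonneg _) two_ne_zero).1 h1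
      have hx : xc (t.2 i) ∈ T.U n := b2 ▸ ((hR i hi).1.mono (T.le n)).eval hnξ
      have hc : (Fp W R i).eval t.1 ∈ T.U n :=
        ((over_cub (W i)).comp ((hR i hi).1.mono (T.le n))).eval hnξ
      obtain ⟨N, hN, hd, hy⟩ := move_root T hn (f := X ^ 2 - C ((Fp W R i).eval t.1))
        ((over_X.pow 2).sub (over_C hc)) ((intg_X.pow 2).sub (intg_C h1.le)) h5.le
        (by simp [hsq]) (by simp [h5, one_add_one_eq_two, norm_two (Λ := Λ) K])
      exact ⟨N, hN, mem_pts_iff.2 ⟨T.mono hn hN hd hx, hy⟩⟩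
    choose N hN hm using ex
    have hP : 0 < ∏ i, N i := Finset.prod_pos fun i _ => hN i
    exact ⟨∏ i, N i, hP, fun i =>
      pts_mono (T.mono (hN i) hP (Finset.dvd_prod_of_mem _ (Finset.mem_univ i))) (hm i)⟩

theorem move_gd (hI : I.Nonempty) {L : IntermediateField K Λ} [FiniteDimensional K L]
    {a : Pts W Λ} (ha : ∀ k, a k ∈ pts (W k) L) (hG : ∀ i ∈ I, Gd (a i)) :
    ∃ j, ¬p ∣ j ∧ j • Sy W L I a ∈ TT W I Unr fun _ _ => True := by
  have S := short_of_good hW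
  obtain ⟨L₀, e, ϖ, s, he, hfin, hunr, -, -, hϖ, hs, hrank, hm, hinj, hco, hsurj⟩ :=
    exists_totram (p := p) L
  have exR : ∀ i, ∃ R : Λ[X], i ∈ I → Over L₀ R ∧ Intg R ∧ R.eval ϖ = xc (a i) := by
    intro i
    by_cases hi : i ∈ I
    · obtain ⟨R, hR⟩ := hsurj _ (mem_pts_iff.1 (ha i)).1 (hG i hi).2.1
      exact ⟨R, fun _ => hR⟩
    · exact ⟨0, fun h => absurd h hi⟩
  choose R₀ hR₀ using exR
  have hy1 : ‖∏ i ∈ I, yc (a i)‖ = 1 := by
    rw [norm_prod]
    exact Finset.prod_eq_one fun i hi => (hG i hi).2.2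
  obtain ⟨A₀, hA1, hA2, hA3⟩ := hsurj _ (prod_mem fun i _ => (mem_pts_iff.1 (ha i)).2) hy1.le
  set m : Λ[X] := ∏ t, (X - C (s t ϖ)) with hmdef
  have hmon : m.Monic := monic_prod_of_monic _ _ fun t _ => monic_X_sub_C _
  have hdeg : m.natDegree = e := by
    rw [hmdef, natDegree_prod_of_monic _ _ fun t _ => monic_X_sub_C _]
    simp
  have hroots : m.roots = Finset.univ.val.map fun t => s t ϖ := by
    rw [hmdef, Finset.prod_eq_multiset_prod, ← roots_multiset_prod_X_sub_C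
      (Finset.univ.val.map fun t => s t ϖ), Multiset.map_map]
    rfl
  have hm0 : ∀ t, m.eval (s t ϖ) = 0 := fun t => by
    rw [hmdef, eval_prod]
    exact Finset.prod_eq_zero (Finset.mem_univ t) (by simp)
  have ok0 : MoveOk I R₀ A₀ ϖ a := ⟨fun i hi => ⟨(hG i hi).1, (hR₀ i hi).2.2.symm,
    fun h => by simpa [h] using (hG i hi).2.2⟩, hA3.symm⟩
  have hFo : Over L₀ (∏ i ∈ I, Fp W R₀ i) :=
    Over.prod fun i hi => (over_cub (W i)).comp (hR₀ i hi).1
  have hFi : Intg (∏ i ∈ I, Fp W R₀ i) := Intg.prod fun i hi => (hW i).intg.comp (hR₀ i hi).2.1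
  have hFϖ : (∏ i ∈ I, Fp W R₀ i).eval ϖ = (∏ i ∈ I, yc (a i)) ^ 2 := by
    rw [eval_prod, ← Finset.prod_pow]
    refine Finset.prod_congr rfl fun i hi => ?_
    rw [yc_sq (by simp [S.a₁ i]) (by simp [S.a₃ i]) (hG i hi).1, Fp, eval_comp, (hR₀ i hi).2.2]
  obtain ⟨T⟩ := exists_tower (p := p) L₀
  obtain ⟨j, hj, hpj, R, A, Q, hR, hA, -, hAd, hInd, hQ, hQi, hQm, hN, hsim⟩ :=
    exists_gp (fun i => ⟨(hW i).intg, fun x => (hW i).deriv_unit⟩) T hI hmon hm (hdeg ▸ he)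
      (hdeg ▸ hco) (fun i hi => ⟨(hR₀ i hi).1, (hR₀ i hi).2.1⟩) ⟨hA1, hA2⟩
      (Finset.prod_dvd_of_coprime ((pairwise_coprime_X_sub_C hinj).set_pairwise _) fun t _ => by
        rw [dvd_iff_isRoot, IsRoot.def, ← ((hA1.pow 2).sub hFo).apply_eval (hs t), eval_sub,
          eval_pow, hA3, hFϖ, sub_self, map_zero])
      (by
        have h1 : ‖(∏ i ∈ I, Fp W R₀ i).eval ϖ‖ = 1 := by rw [hFϖ, norm_pow, hy1, one_pow]
        rw [← h1]
        refine norm_eq_of_sub_lt ((hFi.eval_sub_le hϖ.le (by simp)).trans_lt ?_)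
        rwa [h1, sub_zero])
  have := T.fin j hj
  have ok1 : ∀ t, MoveOk I R A (s t ϖ) (gal W (s t) a) := by
    intro t
    have h := ok0.gal (fun i hi => (hR₀ i hi).1) hA1 (hs t)
    have ev : ∀ f g : Λ[X], m ∣ f - g → f.eval (s t ϖ) = g.eval (s t ϖ) := fun f g hd => by
      have := eval_eq_zero_of_dvd_of_eval_eq_zero hd (hm0 t)
      rwa [eval_sub, sub_eq_zero] at this
    exact ⟨fun i hi => by rw [ev _ _ (hR i hi).2.2.2]; exact h.1 i hi, by rw [ev _ _ hAd, h.2]⟩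
  have ex : ∀ ξ, ∃ y : Pts W Λ, (∀ t, ξ = s t ϖ → y = gal W (s t) a) ∧
      (Q.eval ξ = 0 → MoveOk I R A ξ y) := by
    intro ξ
    by_cases h : ∃ t, ξ = s t ϖ
    · obtain ⟨t, rfl⟩ := h
      exact ⟨_, fun t' e => by rw [hinj e], fun _ => ok1 t⟩
    by_cases h0 : Q.eval ξ = 0
    · obtain ⟨y, hy⟩ := move_exists_ok S.a₁ S.a₃ S.Δ hI (R := R) (A := A) (ξ := ξ)
        (by rw [← sub_eq_zero, ← eval_pow, ← eval_sub, hN, eval_mul, h0, mul_zero])
        (fun e => by simpa [e] using (hsim ξ h0).2)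
      exact ⟨y, fun t e => absurd ⟨t, e⟩ h, fun _ => hy⟩
    · exact ⟨0, fun t e => absurd ⟨t, e⟩ h, fun e => absurd e h0⟩
  choose pt pt1 pt2 using ex
  have hN0 : m * Q ≠ 0 := (hmon.mul hQm).ne_zero
  have key := R3 (L := T.U j) S.a₁ S.a₃ S.Δ hI (one_mem _)
    (fun i hi => ⟨(hR i hi).1, (hR i hi).2.2.1⟩) hInd hA (one_mem _) one_ne_zero
    (N := m * Q) (by rw [← hN]; simp) hN0 pt (by
      intro ξ hξ
      rw [one_mul]
      rw [roots_mul hN0, Multiset.mem_add, hroots, mem_roots hQm.ne_zero] at hξ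
      rcases hξ with hξ | hξ
      · obtain ⟨t, -, rfl⟩ := Multiset.mem_map.1 hξ
        rw [pt1 _ t rfl]
        exact ok1 t
      · exact pt2 ξ hξ)
  rw [one_mul, roots_mul hN0, Multiset.map_add, Multiset.sum_add, map_add, hroots,
    Multiset.map_map, ← Finset.sum_eq_multiset_sum, map_sum] at key
  have h1 : ∀ t, clL W (T.U j) (evenSum W I (pt (s t ϖ))) =
      j • ∑ J ∈ I.powerset with Even J.card, Sy W L₀ I (moveSg I J a) := by
    intro t
    rw [pt1 _ t rfl, move_clL, Finset.smul_sum]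
    refine Finset.sum_congr rfl fun J _ => ?_
    rw [← Sy_eq_nsmul (T.rank j hj).symm, ← Sy_gal (s t) I (moveSg I J a)]
    refine Sy_congr fun i hi => ?_
    simp only [moveSg, gal_apply, if_pos hi]
    split_ifs
    · rw [map_neg]
    · rfl
  have h2 : e • ∑ J ∈ I.powerset with Even J.card, Sy W L₀ I (moveSg I J a) =
      (I.powerset.filter fun J => Even J.card).card • Sy W L I a := by
    rw [Finset.smul_sum, ← Finset.sum_const]
    refine Finset.sum_congr rfl fun J hJ => ?_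
    obtain ⟨b1, b2⟩ := Finset.mem_filter.1 hJ
    rw [← Sy_eq_nsmul hrank, Sy_congr (b := fun i => if i ∈ J then -a i else a i)
      (fun i hi => by rw [moveSg, if_pos hi]), Sy_sign S (Finset.mem_powerset.1 b1) ha,
      b2.neg_one_pow, one_smul]
  refine ⟨j * (I.powerset.filter fun J => Even J.card).card, fun h => ?_, ?_⟩
  · have hp : p.Prime := Loc.prime K Λ
    rcases hp.dvd_mul.1 h with h | h
    · exact hpj h
    · have h3 : p ∣ 2 ^ I.card := move_even hI ▸ h.mul_left 2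
      exact Loc.odd K Λ ((Nat.prime_dvd_prime_iff_eq hp Nat.prime_two).1 (hp.dvd_of_dvd_pow h3))
  · simp only [Function.comp_apply, h1, Finset.sum_const, Finset.card_univ, Fintype.card_fin] at key
    rw [smul_comm, h2, ← mul_smul] at key
    rw [eq_neg_of_add_eq_zero_left key]
    exact neg_mem (move_simple hW (T.unr_of hunr hj) (fun i hi => ⟨(hR i hi).1, (hR i hi).2.1⟩) hA
      hQ hQi hQm hsim pt2)

theorem G2 (hI : 2 ≤ I.card) :
    Tall Λ W I ≤ mulS p (Tall Λ W I) ⊔ TT W I Unr fun _ a => Form a := by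
  have hp : p.Prime := Loc.prime K Λ
  have hne : I.Nonempty := Finset.card_pos.1 (by omega)
  refine (G1 hW hI (fun _ _ _ _ h => h) hp.ne_zero).trans (sup_le le_sup_left
    ((form_le_gd hW hne).trans (TT_le fun L a hL _ ha hG => ?_)))
  obtain ⟨j, hj, h⟩ := move_gd hW hne ha hG
  have h1 := G1 hW hI (Pr := Unr) (fun _ T _ hn h => T.unr_of h hn) hp.ne_zero h
  obtain ⟨u, v, huv⟩ := Nat.isCoprime_iff_coprime.2 ((Nat.Prime.coprime_iff_not_dvd hp).2 hj)
  have h2 : Sy W L I a = p • (u • Sy W L I a) + v • (j • Sy W L I a) := by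
    rw [← natCast_zsmul, ← natCast_zsmul _ j, smul_smul, smul_smul, ← add_zsmul, mul_comm, huv,
      one_zsmul]
  rw [h2]
  exact add_mem (AddSubgroup.mem_sup_left (mem_mulS.2
    ⟨_, zsmul_mem (Sy_mem_TT trivial ha fun _ _ => trivial) u, rfl⟩)) (zsmul_mem h1 v)

end Pool.Agent.Lib.MP_796ce4_ag
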