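import Pool.Agent.Lib.MP_796ce4_ag.Cube
import Pool.Agent.Lib.MP_796ce4_ag.Move

/-! Finite generation modulo p. -/

namespace Pool.Agent.Lib.MP_796ce4_ag

open WeierstrassCurve Polynomial Module
open scoped Classical IntermediateField

set_option linter.unusedSectionVars false

theorem g3_sq_le {ρ x : ℝ} (h0 : 0 < ρ) (h1 : ρ < 1) {m : ℕ} (hm : 1 ≤ m) (hx0 : 0 ≤ x)
    (hx : x ≤ ρ ^ m) : x ^ 2 ≤ ρ ^ (m + 1) := by
  calc x ^ 2 ≤ (ρ ^ m) ^ 2 := pow_le_pow_left₀ hx0 hx 2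
    _ = ρ ^ (m * 2) := (pow_mul ρ m 2).symm
    _ ≤ ρ ^ (m + 1) := pow_le_pow_of_le_one h0.le h1.le (by omega)

theorem g3_norm_sub_le {Λ : Type} [NormedField Λ] [IsUltrametricDist Λ] {x y z : Λ} {r : ℝ}
    (h : ‖x - y‖ ≤ r) (h' : ‖z - y‖ ≤ r) : ‖x - z‖ ≤ r := by
  have e : x - z = (x - y) + -(z - y) := by ring
  rw [e]
  refine (IsUltrametricDist.norm_add_le_max _ _).trans (max_le h ?_)
  rwa [norm_neg]

variable {p : ℕ} {K Λ : Type} [Field K] [CharZero K] [NormedField Λ] [IsUltrametricDist Λ]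
  [IsAlgClosed Λ] [Algebra K Λ] [IsGalois K Λ] [Loc p K Λ]

include p

/-- a formal point with a prescribed leading term of level `m` -/
theorem g3_exists_zp {E : WeierstrassCurve K} (hE : Good Λ E) {L : IntermediateField K Λ}
    {ρ : ℝ} (hρ : Unif K Λ ρ) {m : ℕ} (hm : 1 ≤ m) {z : Λ} (hz : z ∈ L) (h : ‖z‖ ≤ ρ ^ m) :
    ∃ P ∈ pts E L, Form P ∧ ‖zp P‖ ≤ ρ ^ m ∧ ‖zp P - z‖ ≤ ρ ^ (m + 1) := by
  have h1 : ‖z‖ < 1 := h.trans_lt (pow_lt_one₀ hρ.pos.le hρ.lt (by omega))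
  obtain ⟨P, hP, hf, hn, hs⟩ := hE.exists_zp hz h1
  exact ⟨P, hP, hf, hn ▸ h, hs.trans (g3_sq_le hρ.pos hρ.lt hm (norm_nonneg _) h)⟩

variable {ι : Type} [Fintype ι] {W : ι → WeierstrassCurve K} (hW : ∀ i, Good Λ (W i))
  {I : Finset ι}
include hW

theorem g3_TW_le_Wt {ρ : ℝ} {n : ι → ℕ} (hn : ∀ i ∈ I, 1 ≤ n i) {s : ℕ}
    (hs : s ≤ ∑ i ∈ I, n i) : TW (Λ := Λ) W I ρ n ≤ Wt W p I ρ s :=
  le_sup_of_le_right (le_iSup₂_of_le n hn (le_iSup_of_le hs le_rfl))

theorem TW_fin {ρ : ℝ} (hρ : Unif K Λ ρ) (hI : I.Nonempty) {n : ι → ℕ} (hn : ∀ i ∈ I, 1 ≤ n i) :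
    ∃ s : Finset (Pts W Λ), (∀ a ∈ s, ∀ i, a i ∈ pts (W i) (⊥ : IntermediateField K Λ) ∧
      Form (a i)) ∧ TW W I ρ n ≤ AddSubgroup.closure (Sy W ⊥ I '' (s : Set (Pts W Λ))) ⊔
        Wt W p I ρ (∑ i ∈ I, n i + 1) := by
  obtain ⟨i₀, hi₀⟩ := hI
  obtain ⟨π₀, hπ₀⟩ := hρ.ex
  set π : Λ := algebraMap K Λ π₀ with hπdef
  have hπb : π ∈ (⊥ : IntermediateField K Λ) := IntermediateField.algebraMap_mem _ _
  have hπn : ∀ m : ℕ, ‖π ^ m‖ = ρ ^ m := fun m => by rw [norm_pow, hπ₀]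
  have hπ0 : ∀ m : ℕ, π ^ m ≠ 0 := fun m h => by
    have := hπn m
    rw [h, norm_zero] at this
    exact (pow_pos hρ.pos m).ne this
  have hS : Short W := short_of_good hW
  have hb : ∀ k, ∃ P ∈ pts (W k) (⊥ : IntermediateField K Λ), Form P ∧
      (k ∈ I → ‖zp P‖ ≤ ρ ^ n k ∧ ‖zp P - π ^ n k‖ ≤ ρ ^ (n k + 1)) := by
    intro k
    by_cases hk : k ∈ I
    · obtain ⟨P, hP, hf, h1, h2⟩ :=
        g3_exists_zp (hW k) hρ (hn k hk) (pow_mem hπb (n k)) (hπn _).le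
      exact ⟨P, hP, hf, fun _ => ⟨h1, h2⟩⟩
    · exact ⟨0, zero_mem _, Or.inl rfl, fun h => (hk h).elim⟩
  choose b hbm hbf hbz using hb
  obtain ⟨R, hR, hR'⟩ := Loc.resfin (p := p) (⊥ : IntermediateField K Λ) inferInstance
  have hu : ∀ t : Λ, ∃ P ∈ pts (W i₀) (⊥ : IntermediateField K Λ), Form P ∧
      (t ∈ R → ‖zp P‖ ≤ ρ ^ n i₀ ∧ ‖zp P - t * π ^ n i₀‖ ≤ ρ ^ (n i₀ + 1)) := by
    intro t
    by_cases ht : t ∈ R
    · have h0 : ‖t * π ^ n i₀‖ ≤ ρ ^ n i₀ := by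
        rw [norm_mul, hπn]
        exact mul_le_of_le_one_left (pow_pos hρ.pos _).le (hR t ht).2
      obtain ⟨P, hP, hf, h1, h2⟩ :=
        g3_exists_zp (hW i₀) hρ (hn i₀ hi₀) (mul_mem (hR t ht).1 (pow_mem hπb (n i₀))) h0
      exact ⟨P, hP, hf, fun _ => ⟨h1, h2⟩⟩
    · exact ⟨0, zero_mem _, Or.inl rfl, fun h => (ht h).elim⟩
  choose u hum huf huz using hu
  refine ⟨R.image fun t => Function.update b i₀ (u t), ?_, ?_⟩
  · intro a ha i
    obtain ⟨t, -, rfl⟩ := Finset.mem_image.1 ha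
    refine ⟨update_mem hbm (hum t) i, ?_⟩
    by_cases h : i = i₀
    · subst h
      rw [Function.update_self]
      exact huf t
    · rw [Function.update_of_ne h]
      exact hbf i
  set H := AddSubgroup.closure (Sy W ⊥ I '' ((R.image fun t => Function.update b i₀ (u t) :
    Finset (Pts W Λ)) : Set (Pts W Λ))) ⊔ Wt W p I ρ (∑ i ∈ I, n i + 1) with hH
  have base : ∀ w ∈ pts (W i₀) (⊥ : IntermediateField K Λ), Form w → ‖zp w‖ ≤ ρ ^ n i₀ →
      Sy W ⊥ I (Function.update b i₀ w) ∈ H := by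
    intro w hw hf hz
    have hγ : zp w / π ^ n i₀ ∈ (⊥ : IntermediateField K Λ) :=
      div_mem ((hW i₀).zp_mem hw) (pow_mem hπb _)
    have hγ1 : ‖zp w / π ^ n i₀‖ ≤ 1 := by
      rw [norm_div, hπn]
      exact (div_le_one (pow_pos hρ.pos _)).2 hz
    obtain ⟨t, ht, htl⟩ := hR' _ hγ hγ1
    have h1 : ‖zp w / π ^ n i₀ - t‖ ≤ ρ ^ (0 + 1) :=
      hρ.le_succ unr_bot (sub_mem hγ (hR t ht).1) (by rwa [pow_zero])
    have h2 : ‖zp w - t * π ^ n i₀‖ ≤ ρ ^ (n i₀ + 1) := by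
      have e : zp w - t * π ^ n i₀ = π ^ n i₀ * (zp w / π ^ n i₀ - t) := by
        field_simp [hπ0]
      rw [e, norm_mul, hπn, pow_succ]
      rw [zero_add, pow_one] at h1
      exact mul_le_mul_of_nonneg_left h1 (pow_pos hρ.pos _).le
    have h3 := Sy_sub_mem hW hρ unr_bot hn (update_mem hbm hw) (update_mem hbm (hum t)) (by
      intro i hi
      by_cases h : i = i₀
      · subst h
        rw [Function.update_self, Function.update_self]
        exact ⟨hf, huf t, hz, g3_norm_sub_le h2 (huz t ht).2⟩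
      · rw [Function.update_of_ne h, Function.update_of_ne h, sub_self, norm_zero]
        exact ⟨hbf i, hbf i, (hbz i hi).1, (pow_pos hρ.pos _).le⟩)
    have h4 : Sy W ⊥ I (Function.update b i₀ (u t)) ∈ H :=
      AddSubgroup.mem_sup_left (AddSubgroup.subset_closure
        ⟨_, Finset.mem_coe.2 (Finset.mem_image_of_mem _ ht), rfl⟩)
    have h5 := add_mem (AddSubgroup.mem_sup_right h3 : _ ∈ H) h4
    rwa [sub_add_cancel] at h5
  refine TT_le fun L a hL hU ha hQ => ?_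
  have key : ∀ J : Finset ι, J ⊆ I.erase i₀ → ∀ a : Pts W Λ, (∀ k, a k ∈ pts (W k) L) →
      (∀ i ∈ I, Form (a i) ∧ ‖zp (a i)‖ ≤ ρ ^ n i) →
      (∀ k ∈ I, k ≠ i₀ → k ∉ J → a k = b k) → Sy W L I a ∈ H := by
    intro J
    induction J using Finset.induction_on with
    | empty =>
      intro _ a ha hQ hab
      obtain ⟨m, s, hs⟩ := exists_fam_bot L
      have e : Sy W L I a = Sy W L I (Function.update b i₀ (a i₀)) := by
        refine Sy_congr fun i hi => ?_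
        by_cases h : i = i₀
        · subst h
          rw [Function.update_self]
        · rw [Function.update_of_ne h]
          exact hab i hi h (Finset.notMem_empty i)
      rw [e, Sy_tr hS hs hi₀ hbm (ha i₀)]
      have hg : ∀ t ∈ (Finset.univ : Finset (Fin m)), Form (galP (W i₀) (s t) (a i₀)) ∧
          ‖zp (galP (W i₀) (s t) (a i₀))‖ ≤ ρ ^ n i₀ := fun t _ =>
        ⟨(hW i₀).form_gal (hQ i₀ hi₀).1 _, by
          rw [(hW i₀).zp_gal, Loc.norm_gal (p := p)]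
          exact (hQ i₀ hi₀).2⟩
      refine base _ (hs.tr_mem (ha i₀)) ?_
        ((hW i₀).zp_sum Finset.univ (pow_pos hρ.pos _).le hg).1
      exact (hW i₀).mem_form.1 (sum_mem fun t ht => (hW i₀).mem_form.2 (hg t ht).1)
    | insert j J hjJ ih =>
      intro hsub a ha hQ hab
      have hj' := Finset.mem_erase.1 (hsub (Finset.mem_insert_self j J))
      have hj : j ∈ I := hj'.2
      have hij : i₀ ≠ j := hj'.1.symm
      have hπL : π ∈ L := (bot_le : (⊥ : IntermediateField K Λ) ≤ L) hπb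
      have hγ : zp (a j) / π ^ n j ∈ L := div_mem ((hW j).zp_mem (ha j)) (pow_mem hπL _)
      have hγ1 : ‖zp (a j) / π ^ n j‖ ≤ 1 := by
        rw [norm_div, hπn]
        exact (div_le_one (pow_pos hρ.pos _)).2 (hQ j hj).2
      have hc : zp (a i₀) ∈ L := (hW i₀).zp_mem (ha i₀)
      have h0 : ‖zp (a j) / π ^ n j * zp (a i₀)‖ ≤ ρ ^ n i₀ := by
        rw [norm_mul]
        exact (mul_le_of_le_one_left (norm_nonneg _) hγ1).trans (hQ i₀ hi₀).2
      obtain ⟨v, hv, hvf, hv1, hv2⟩ := g3_exists_zp (hW i₀) hρ (hn i₀ hi₀) (mul_mem hγ hc) h0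
      have hbL : b j ∈ pts (W j) L := pts_mono bot_le (hbm j)
      have h1 := Sy_scalar hW hρ hU hn ha hi₀ hj hij (fun k hk _ _ => hQ k hk) hγ hγ1 hc
        (pow_mem hπL (n j)) (hQ i₀ hi₀).2 (hπn _).le hv (ha i₀) hbL (ha j) hvf (hQ i₀ hi₀).1
        (hbf j) (hQ j hj).1 hv2 (hbz j hj).2
        (by rw [sub_self, norm_zero]; exact (pow_pos hρ.pos _).le)
        (by rw [div_mul_cancel₀ _ (hπ0 _), sub_self, norm_zero]; exact (pow_pos hρ.pos _).le)
      rw [Function.update_eq_self, Function.update_eq_self] at h1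
      have h2 : Sy W L I (Function.update (Function.update a i₀ v) j (b j)) ∈ H := by
        refine ih ((Finset.subset_insert j J).trans hsub) _ (update_mem (update_mem ha hv) hbL)
          (fun i hi => ?_) fun k hk hk₀ hkJ => ?_
        · by_cases h : i = j
          · subst h
            rw [Function.update_self]
            exact ⟨hbf i, (hbz i hi).1⟩
          · rw [Function.update_of_ne h]
            by_cases h' : i = i₀
            · subst h'
              rw [Function.update_self]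
              exact ⟨hvf, hv1⟩
            · rw [Function.update_of_ne h']
              exact hQ i hi
        · by_cases h : k = j
          · subst h
            rw [Function.update_self]
          · rw [Function.update_of_ne h, Function.update_of_ne hk₀]
            exact hab k hk hk₀ fun hm => (Finset.mem_insert.1 hm).elim h hkJ
      have h3 := sub_mem h2 (AddSubgroup.mem_sup_right h1 : _ ∈ H)
      rwa [sub_sub_cancel] at h3
  exact key _ le_rfl a ha hQ fun k hk hk₀ h => (h (Finset.mem_erase.2 ⟨hk₀, hk⟩)).elim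

/-- one step of the weight filtration is finitely generated -/
theorem g3_step {ρ : ℝ} (hρ : Unif K Λ ρ) (hI : I.Nonempty) (m : ℕ) :
    ∃ s : Finset (Pts W Λ), (∀ a ∈ s, ∀ i, a i ∈ pts (W i) (⊥ : IntermediateField K Λ) ∧
      Form (a i)) ∧ Wt W p I ρ m ≤ AddSubgroup.closure (Sy W ⊥ I '' (s : Set (Pts W Λ))) ⊔
        Wt W p I ρ (m + 1) := by
  have h : ∀ n : ι → ℕ, ∃ s : Finset (Pts W Λ), (∀ a ∈ s, ∀ i,
      a i ∈ pts (W i) (⊥ : IntermediateField K Λ) ∧ Form (a i)) ∧ ((∀ i ∈ I, 1 ≤ n i) →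
      TW W I ρ n ≤ AddSubgroup.closure (Sy W ⊥ I '' (s : Set (Pts W Λ))) ⊔
        Wt W p I ρ (∑ i ∈ I, n i + 1)) := by
    intro n
    by_cases hn : ∀ i ∈ I, 1 ≤ n i
    · obtain ⟨s, h1, h2⟩ := TW_fin hW hρ hI hn
      exact ⟨s, h1, fun _ => h2⟩
    · exact ⟨∅, fun a ha => (Finset.notMem_empty a ha).elim, fun h => (hn h).elim⟩
  choose s hs hs' using h
  refine ⟨(Fintype.piFinset fun _ : ι => Finset.range (m + 1)).biUnion s, ?_, ?_⟩
  · intro a ha
    obtain ⟨n, -, hn⟩ := Finset.mem_biUnion.1 ha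
    exact hs n a hn
  refine sup_le (le_sup_of_le_right le_sup_left) (iSup_le fun n => iSup_le fun hn =>
    iSup_le fun hm => ?_)
  rcases hm.eq_or_lt with hm | hm
  · set n' : ι → ℕ := fun i => if i ∈ I then n i else 0 with hn'
    have e : ∀ i ∈ I, n' i = n i := fun i hi => if_pos hi
    have esum : ∑ i ∈ I, n' i = m := by rw [Finset.sum_congr rfl e, hm]
    have hmem : n' ∈ Fintype.piFinset fun _ : ι => Finset.range (m + 1) := by
      refine Fintype.mem_piFinset.2 fun i => Finset.mem_range.2 ?_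
      by_cases hi : i ∈ I
      · have := Finset.single_le_sum (f := n') (fun _ _ => Nat.zero_le _) hi
        omega
      · rw [hn']
        simp only [if_neg hi]
        omega
    have h1 : TW (Λ := Λ) W I ρ n ≤ TW W I ρ n' :=
      TT_mono (fun _ h => h) fun i hi a h => by rw [e i hi]; exact h
    have h2 := hs' n' fun i hi => by rw [e i hi]; exact hn i hi
    rw [esum] at h2
    refine h1.trans (h2.trans (sup_le_sup_right (AddSubgroup.closure_mono
      (Set.image_mono fun a ha => ?_)) _))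
    exact Finset.mem_coe.2 (Finset.mem_biUnion.2 ⟨n', hmem, ha⟩)
  · exact le_sup_of_le_right (g3_TW_le_Wt hW hn hm)

theorem g3_iter {ρ : ℝ} (hρ : Unif K Λ ρ) (hI : I.Nonempty) (m : ℕ) :
    ∃ s : Finset (Pts W Λ), (∀ a ∈ s, ∀ i, a i ∈ pts (W i) (⊥ : IntermediateField K Λ) ∧
      Form (a i)) ∧ Wt W p I ρ 0 ≤ AddSubgroup.closure (Sy W ⊥ I '' (s : Set (Pts W Λ))) ⊔
        Wt W p I ρ m := by
  induction m with
  | zero => exact ⟨∅, fun a ha => (Finset.notMem_empty a ha).elim, le_sup_right⟩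
  | succ m ih =>
    obtain ⟨s, hs, h⟩ := ih
    obtain ⟨s', hs', h'⟩ := g3_step hW hρ hI m
    refine ⟨s ∪ s', fun a ha => (Finset.mem_union.1 ha).elim (hs a) (hs' a), h.trans
      (sup_le (le_sup_of_le_left ?_) (h'.trans (sup_le_sup_right ?_ _)))⟩
    · exact AddSubgroup.closure_mono (Set.image_mono (Finset.coe_subset.2 Finset.subset_union_left))
    · exact AddSubgroup.closure_mono
        (Set.image_mono (Finset.coe_subset.2 Finset.subset_union_right))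

/-- symbols of large weight are divisible by `p` -/
theorem g3_large {ρ : ℝ} (hρ : Unif K Λ ρ) (hI : I.Nonempty) :
    ∃ m, Wt W p I ρ m ≤ mulS p (Tall Λ W I) := by
  have hp : 0 < ‖(p : Λ)‖ ^ 2 := pow_pos (norm_p_pos K) 2
  obtain ⟨N, hN⟩ := exists_pow_lt_of_lt_one hp hρ.lt
  refine ⟨∑ _i ∈ I, N, sup_le le_rfl (iSup_le fun n => iSup_le fun _ => iSup_le fun hm => ?_)⟩
  obtain ⟨i, hi, hNi⟩ := Finset.exists_le_of_sum_le hI hm
  refine TT_le fun L a hL _ ha hQ => ?_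
  have h1 : ‖zp (a i)‖ < ‖(p : Λ)‖ ^ 2 :=
    ((hQ i hi).2.trans (pow_le_pow_of_le_one hρ.pos.le hρ.lt.le hNi)).trans_lt hN
  obtain ⟨c, hc, -, hpc⟩ := (hW i).div_p (ha i) (hQ i hi).1 h1
  have h2 := Sy_nsmul (short_of_good hW) hi ha hc p
  rw [hpc, Function.update_eq_self] at h2
  exact mem_mulS.2 ⟨_, Sy_mem_TT trivial (update_mem ha hc) fun _ _ => trivial, h2.symm⟩

theorem G3 (hI : 2 ≤ I.card) :
    ∃ s : Finset (Pts W Λ), (∀ a ∈ s, ∀ i, a i ∈ pts (W i) (⊥ : IntermediateField K Λ) ∧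
      Form (a i)) ∧ Tall Λ W I ≤ AddSubgroup.closure (Sy W ⊥ I '' (s : Set (Pts W Λ))) ⊔
        mulS p (Tall Λ W I) := by
  have hne : I.Nonempty := Finset.card_pos.1 (by omega)
  obtain ⟨ρ, hρ⟩ := exists_unif (K := K) (Λ := Λ)
  obtain ⟨m, hm⟩ := g3_large hW hρ hne
  obtain ⟨s, hs, h⟩ := g3_iter hW hρ hne m
  have h1 : TT (Λ := Λ) W I Unr (fun _ a => Form a) ≤ Wt W p I ρ 0 := by
    refine le_trans (TT_le fun L a hL hU ha hQ => ?_)
      (g3_TW_le_Wt hW (n := fun _ => 1) (fun _ _ => le_rfl) (Nat.zero_le _))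
    refine Sy_mem_TT hU ha fun i hi => ⟨hQ i hi, ?_⟩
    exact hρ.le_succ (n := 0) hU ((hW i).zp_mem (ha i))
      (by rw [pow_zero]; exact (hW i).zp_lt (hQ i hi))
  exact ⟨s, hs, (G2 hW hI).trans (sup_le le_sup_right
    (h1.trans (h.trans (sup_le_sup_left hm _))))⟩

end Pool.Agent.Lib.MP_796ce4_ag
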