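import Pool.Agent.Lib.MP_796ce4_ag.GT1
import Pool.Agent.Lib.MP_796ce4_ag.GT2

/-! The group-theoretic criterion. -/

namespace Pool.Agent.Lib.MP_796ce4_ag

open WeierstrassCurve Polynomial Module
open scoped Classical IntermediateField

set_option linter.unusedSectionVars false

/-- elements divisible by every power of `p` -/
def gt_D (p : ℕ) (B : Type) [AddCommGroup B] : AddSubgroup B where
  carrier := {x | ∀ k : ℕ, ∃ y, p ^ k • y = x}
  zero_mem' := fun _ => ⟨0, smul_zero _⟩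
  add_mem' := fun {a b} ha hb k => by
    obtain ⟨y, hy⟩ := ha k
    obtain ⟨z, hz⟩ := hb k
    exact ⟨y + z, by rw [smul_add, hy, hz]⟩
  neg_mem' := fun {a} ha k => by
    obtain ⟨y, hy⟩ := ha k
    exact ⟨-y, by rw [smul_neg, hy]⟩

theorem gt_sep (p : ℕ) (B : Type) [AddCommGroup B] (x : B ⧸ gt_D p B)
    (h : ∀ k : ℕ, ∃ y, p ^ k • y = x) : x = 0 := by
  induction x using QuotientAddGroup.induction_on with
  | H x =>
    rw [QuotientAddGroup.eq_zero_iff]
    intro k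
    obtain ⟨y, hy⟩ := h k
    induction y using QuotientAddGroup.induction_on with
    | H y =>
      rw [← QuotientAddGroup.mk_nsmul, QuotientAddGroup.eq] at hy
      obtain ⟨z, hz⟩ := hy k
      exact ⟨y + z, by rw [smul_add, hz]; abel⟩

theorem gt_div {p : ℕ} [Fact p.Prime] {B : Type} [AddCommGroup B]
    (hdiv : ∀ m : ℕ, ¬p ∣ m → ∀ x : B, ∃ y, m • y = x) {n : ℕ} {F : Type} [AddCommGroup F]
    [Finite F] (e : (B ⧸ gt_D p B) ≃+ (Fin n → ℤ_[p]) × F) {m : ℕ} (hm : m ≠ 0) {x : B}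
    (hx : x ∈ gt_D p B) : ∃ y ∈ gt_D p B, m • y = x := by
  have hp : p.Prime := Fact.out
  have hN : Nat.card F ≠ 0 := Nat.card_pos.ne'
  have hmN : m * Nat.card F ≠ 0 := mul_ne_zero hm hN
  obtain ⟨k, m', hm', hk⟩ := Nat.exists_eq_pow_mul_and_not_dvd hmN p hp.ne_one
  obtain ⟨y, hy⟩ := hx k
  obtain ⟨z, hz⟩ := hdiv m' hm' y
  have h1 : (m * Nat.card F) • z = x := by rw [hk, mul_smul, hz, hy]
  refine ⟨Nat.card F • z, ?_, by rw [← mul_smul, h1]⟩
  have h2 : (m * Nat.card F) • e (z : B ⧸ gt_D p B) = 0 := by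
    rw [← map_nsmul, ← QuotientAddGroup.mk_nsmul, h1, (QuotientAddGroup.eq_zero_iff x).2 hx,
      map_zero]
  have h3 : (e (z : B ⧸ gt_D p B)).1 = 0 := by
    have := congrArg Prod.fst h2
    rw [Prod.smul_fst, Prod.fst_zero] at this
    funext i
    have h4 := congrFun this i
    rw [Pi.smul_apply, Pi.zero_apply, nsmul_eq_mul, mul_eq_zero] at h4
    exact h4.resolve_left (Nat.cast_ne_zero.2 hmN)
  rw [← QuotientAddGroup.eq_zero_iff, QuotientAddGroup.mk_nsmul]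
  apply e.injective
  rw [map_nsmul, map_zero]
  refine Prod.ext ?_ ?_
  · rw [Prod.smul_fst, h3, smul_zero, Prod.fst_zero]
  · rw [Prod.smul_snd, Prod.snd_zero, card_nsmul_eq_zero']

theorem gt_quot {p : ℕ} [Fact p.Prime] {V : Type} [AddCommGroup V] (B : AddSubgroup V)
    (s : Finset V) (hs : ∀ x ∈ s, x ∈ B)
    (hgen : B ≤ AddSubgroup.closure (s : Set V) ⊔ mulS p B)
    (hser : ∀ x ∈ s, ∀ c : ℕ → ℕ, ∃ y : ℕ → V, ∀ n, y n ∈ B ∧ y n = c n • x + p • y (n + 1)) :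
    ∃ (M : Type) (_ : AddCommGroup M) (_ : Module ℤ_[p] M) (_ : Module.Finite ℤ_[p] M),
      Nonempty ((B ⧸ gt_D p B) ≃+ M) := by
  refine GT1 (gt_sep p B)
    (s.attach.image fun x => ((⟨x.1, hs x.1 x.2⟩ : B) : B ⧸ gt_D p B)) ?_ ?_
  · intro x
    induction x using QuotientAddGroup.induction_on with
    | H x =>
      obtain ⟨z, hz, w, hw, hzw⟩ := AddSubgroup.mem_sup.1 (hgen x.2)
      obtain ⟨y, hy, rfl⟩ := hw
      have key : ∀ z ∈ AddSubgroup.closure (s : Set V), ∃ h : z ∈ B,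
          ((⟨z, h⟩ : B) : B ⧸ gt_D p B) ∈ AddSubgroup.closure
            ((s.attach.image fun x => ((⟨x.1, hs x.1 x.2⟩ : B) : B ⧸ gt_D p B) :
              Finset (B ⧸ gt_D p B)) : Set (B ⧸ gt_D p B)) := by
        intro z hz
        induction hz using AddSubgroup.closure_induction with
        | mem x hx =>
          refine ⟨hs x hx, AddSubgroup.subset_closure ?_⟩
          rw [Finset.mem_coe, Finset.mem_image]
          exact ⟨⟨x, hx⟩, Finset.mem_attach _ _, rfl⟩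
        | zero => exact ⟨zero_mem _, zero_mem _⟩
        | add a b _ _ ha hb =>
          obtain ⟨ha1, ha2⟩ := ha
          obtain ⟨hb1, hb2⟩ := hb
          exact ⟨add_mem ha1 hb1, add_mem ha2 hb2⟩
        | neg a _ ha =>
          obtain ⟨ha1, ha2⟩ := ha
          exact ⟨neg_mem ha1, neg_mem ha2⟩
      obtain ⟨h1, h2⟩ := key z hz
      refine ⟨_, h2, ((⟨y, hy⟩ : B) : B ⧸ gt_D p B), ?_⟩
      rw [← QuotientAddGroup.mk_nsmul, ← QuotientAddGroup.mk_add]
      congr 1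
      exact Subtype.ext hzw.symm
  · intro x hx c
    obtain ⟨⟨x, hx'⟩, -, rfl⟩ := Finset.mem_image.1 hx
    obtain ⟨y, hy⟩ := hser x hx' c
    refine ⟨fun n => ((⟨y n, (hy n).1⟩ : B) : B ⧸ gt_D p B), fun n => ?_⟩
    rw [← QuotientAddGroup.mk_nsmul, ← QuotientAddGroup.mk_nsmul, ← QuotientAddGroup.mk_add]
    exact congrArg (fun z : B => (z : B ⧸ gt_D p B)) (Subtype.ext (hy n).2)

theorem gt_index {V : Type} [AddCommGroup V] (A B : AddSubgroup V) (hBA : B ≤ A)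
    (hfin : ∃ t : Finset V, ∀ a ∈ A, ∃ x ∈ t, a - x ∈ B) : (B.addSubgroupOf A).index ≠ 0 := by
  obtain ⟨t, ht⟩ := hfin
  have : Finite (A ⧸ B.addSubgroupOf A) := by
    refine Finite.of_surjective
      (fun x : t => if h : x.1 ∈ A then ((⟨x.1, h⟩ : A) : A ⧸ B.addSubgroupOf A) else 0) ?_
    intro a
    induction a using QuotientAddGroup.induction_on with
    | H a =>
      obtain ⟨x, hx, hax⟩ := ht a a.2
      have hxA : x ∈ A := by
        have := A.sub_mem a.2 (hBA hax)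
        rwa [sub_sub_cancel] at this
      refine ⟨⟨x, hx⟩, ?_⟩
      simp only [hxA, dite_true]
      rw [QuotientAddGroup.eq, AddSubgroup.mem_addSubgroupOf]
      have : ((-(⟨x, hxA⟩ : A) + a : A) : V) = a - x := by
        push_cast
        abel
      rwa [this]
  exact AddSubgroup.index_ne_zero_of_finite

theorem GT {p : ℕ} [Fact p.Prime] {V : Type} [AddCommGroup V] (A B : AddSubgroup V) (hBA : B ≤ A)
    (hfin : ∃ t : Finset V, ∀ a ∈ A, ∃ x ∈ t, a - x ∈ B)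
    (hdiv : ∀ m : ℕ, ¬p ∣ m → B ≤ mulS m B) (s : Finset V) (hs : ∀ x ∈ s, x ∈ B)
    (hgen : B ≤ AddSubgroup.closure (s : Set V) ⊔ mulS p B)
    (hser : ∀ x ∈ s, ∀ c : ℕ → ℕ, ∃ y : ℕ → V, ∀ n, y n ∈ B ∧ y n = c n • x + p • y (n + 1)) :
    ∃ (n : ℕ) (F : Type) (_ : AddCommGroup F) (_ : Finite F),
      Nonempty ((A ⧸ maxDiv A) ≃+ (Fin n → ℤ_[p]) × F) := by
  have hp : p.Prime := Fact.out
  obtain ⟨M, i1, i2, i3, ⟨e⟩⟩ := gt_quot B s hs hgen hser
  have hidx := gt_index A B hBA hfin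
  have hdiv' : ∀ m : ℕ, ¬p ∣ m → ∀ x : B, ∃ y, m • y = x := by
    intro m hm x
    obtain ⟨y, hy, h⟩ := hdiv m hm x.2
    exact ⟨⟨y, hy⟩, Subtype.ext h⟩
  have : (AddMonoidHom.id M).range.FiniteIndex := by
    rw [AddMonoidHom.range_eq_top_of_surjective _ Function.surjective_id]
    infer_instance
  obtain ⟨n, F, j1, j2, ⟨e'⟩⟩ := GT2 (p := p) (AddMonoidHom.id M) Function.injective_id
  have h1 : (gt_D p B).map (AddSubgroup.inclusion hBA) ≤ maxDiv A := by
    refine le_sSup ?_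
    rintro m hm _ ⟨x, hx, rfl⟩
    obtain ⟨y, hy, h⟩ := gt_div hdiv' (e.trans e') hm hx
    exact ⟨_, ⟨y, hy, rfl⟩, by rw [← map_nsmul, h]⟩
  have h2 : maxDiv A ≤ (gt_D p B).map (AddSubgroup.inclusion hBA) := by
    refine sSup_le ?_
    intro H hH x hx
    have key : ∀ k : ℕ, ∃ y : B, p ^ k • AddSubgroup.inclusion hBA y = x := by
      intro k
      obtain ⟨y, -, hy⟩ := hH (p ^ k * (B.addSubgroupOf A).index)
        (mul_ne_zero (pow_ne_zero _ hp.ne_zero) hidx) x hx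
      have hm := (B.addSubgroupOf A).nsmul_index_mem y
      rw [AddSubgroup.mem_addSubgroupOf] at hm
      refine ⟨⟨_, hm⟩, ?_⟩
      rw [← hy, mul_smul]
      rfl
    obtain ⟨y, hy⟩ := key 0
    rw [pow_zero, one_smul] at hy
    refine ⟨y, fun k => ?_, hy⟩
    obtain ⟨z, hz⟩ := key k
    refine ⟨z, AddSubgroup.inclusion_injective hBA ?_⟩
    rw [map_nsmul, hz, hy]
  let g : (B ⧸ gt_D p B) →+ (A ⧸ maxDiv A) :=
    QuotientAddGroup.map _ _ (AddSubgroup.inclusion hBA) (AddSubgroup.map_le_iff_le_comap.1 h1)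
  have hg : Function.Injective g := by
    rw [injective_iff_map_eq_zero]
    intro x hx
    induction x using QuotientAddGroup.induction_on with
    | H x =>
      have hx' : ((AddSubgroup.inclusion hBA x : A) : A ⧸ maxDiv A) = 0 := hx
      rw [QuotientAddGroup.eq_zero_iff] at hx' ⊢
      obtain ⟨y, hy, h⟩ := h2 hx'
      rwa [← AddSubgroup.inclusion_injective hBA h]
  have : (g.comp e.symm.toAddMonoidHom).range.FiniteIndex := by
    have h3 : (B.addSubgroupOf A).map (QuotientAddGroup.mk' (maxDiv A)) ≤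
        (g.comp e.symm.toAddMonoidHom).range := by
      rintro _ ⟨x, hx, rfl⟩
      refine ⟨e ((⟨x.1, hx⟩ : B) : B ⧸ gt_D p B), ?_⟩
      simp only [AddMonoidHom.comp_apply, AddEquiv.toAddMonoidHom_eq_coe, AddMonoidHom.coe_coe,
        AddEquiv.symm_apply_apply]
      rfl
    have : ((B.addSubgroupOf A).map (QuotientAddGroup.mk' (maxDiv A))).FiniteIndex :=
      ⟨ne_zero_of_dvd_ne_zero hidx
        (AddSubgroup.index_map_dvd _ (QuotientAddGroup.mk'_surjective _))⟩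
    exact AddSubgroup.finiteIndex_of_le h3
  exact GT2 (g.comp e.symm.toAddMonoidHom) (hg.comp e.symm.injective)

theorem gt_map_maxDiv {A B : Type} [AddCommGroup A] [AddCommGroup B] (f : A →+ B) :
    (maxDiv A).map f ≤ maxDiv B := by
  rw [AddSubgroup.map_le_iff_le_comap]
  refine sSup_le ?_
  intro H hH
  rw [← AddSubgroup.map_le_iff_le_comap]
  refine le_sSup ?_
  rintro m hm _ ⟨x, hx, rfl⟩
  obtain ⟨y, hy, h⟩ := hH m hm x hx
  exact ⟨_, ⟨y, hy, rfl⟩, by rw [← map_nsmul, h]⟩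

theorem maxDiv_congr {A B : Type} [AddCommGroup A] [AddCommGroup B] (e : A ≃+ B) :
    Nonempty ((A ⧸ maxDiv A) ≃+ (B ⧸ maxDiv B)) := by
  refine ⟨QuotientAddGroup.congr _ _ e (le_antisymm (gt_map_maxDiv _) ?_)⟩
  intro x hx
  exact ⟨e.symm x, gt_map_maxDiv (e.symm : B →+ A) ⟨x, hx, rfl⟩, e.apply_symm_apply x⟩

end Pool.Agent.Lib.MP_796ce4_ag
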