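import Pool.Agent.Lib.MP_796ce4_ag.Base

/-! The group-theoretic criterion. -/

namespace Pool.Agent.Lib.MP_796ce4_ag

open WeierstrassCurve Polynomial Module
open scoped Classical IntermediateField

set_option linter.unusedSectionVars false

theorem gt1_dvd_int {p : ℕ} [Fact p.Prime] {k : ℕ} {n : ℤ}
    (h : (p : ℤ_[p]) ^ k ∣ (n : ℤ_[p])) : (p : ℤ) ^ k ∣ n := by
  rw [← PadicInt.norm_int_le_pow_iff_dvd]
  exact (PadicInt.norm_le_pow_iff_mem_span_pow _ k).2 (Ideal.mem_span_singleton.2 h)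

theorem gt1_appr {p : ℕ} [Fact p.Prime] (k : ℕ) (a : ℤ_[p]) :
    ∃ n : ℤ, (p : ℤ_[p]) ^ k ∣ a - n :=
  ⟨a.appr k, by simpa using Ideal.mem_span_singleton.1 (PadicInt.appr_spec k a)⟩

/-- `b` is the `p`-adic combination of the `x i` with coefficients `l i` -/
def gt1R {p : ℕ} [Fact p.Prime] {B ι : Type} [AddCommGroup B] [Fintype ι] (x : ι → B)
    (l : ι → ℤ_[p]) (b : B) : Prop :=
  ∀ (k : ℕ) (n : ι → ℤ), (∀ i, (p : ℤ_[p]) ^ k ∣ l i - n i) →
    ∃ y, b = ∑ i, n i • x i + p ^ k • y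

theorem gt1R_of {p : ℕ} [Fact p.Prime] {B ι : Type} [AddCommGroup B] [Fintype ι] {x : ι → B}
    {l : ι → ℤ_[p]} {b : B}
    (h : ∀ k : ℕ, ∃ n : ι → ℤ, (∀ i, (p : ℤ_[p]) ^ k ∣ l i - n i) ∧
      ∃ y, b = ∑ i, n i • x i + p ^ k • y) : gt1R x l b := by
  intro k n hn
  obtain ⟨m, hm, y, hy⟩ := h k
  have hd : ∀ i, (p : ℤ) ^ k ∣ m i - n i := fun i => by
    apply gt1_dvd_int
    have := dvd_sub (hn i) (hm i)
    simpa using this
  choose c hc using hd
  refine ⟨y + ∑ i, c i • x i, ?_⟩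
  have h1 : ∀ i, m i • x i = n i • x i + p ^ k • (c i • x i) := fun i => by
    have : m i = n i + (p : ℤ) ^ k * c i := by rw [← hc i]; ring
    rw [this, add_smul, mul_smul]
    congr 1
    rw [← natCast_zsmul]; simp
  rw [hy, Finset.sum_congr rfl fun i _ => h1 i, Finset.sum_add_distrib, smul_add,
    Finset.smul_sum]
  abel

theorem gt1_single {p : ℕ} [Fact p.Prime] {B : Type} [AddCommGroup B] {x : B}
    (hx : ∀ c : ℕ → ℕ, ∃ y : ℕ → B, ∀ n, y n = c n • x + p • y (n + 1)) (a : ℤ_[p]) :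
    ∃ b : B, ∀ k, ∃ y, b = (a.appr k : ℤ) • x + p ^ k • y := by
  have hd : ∀ n, ∃ c, a.appr (n + 1) = a.appr n + p ^ n * c := fun n => by
    obtain ⟨c, hc⟩ := a.dvd_appr_sub_appr n (n + 1) (Nat.le_succ n)
    have : a.appr n ≤ a.appr (n + 1) := a.appr_mono (Nat.le_succ n)
    exact ⟨c, by omega⟩
  choose c hc using hd
  obtain ⟨y, hy⟩ := hx c
  refine ⟨y 0, fun k => ⟨y k, ?_⟩⟩
  induction k with
  | zero =>
    have : a.appr 0 = 0 := by have := a.appr_lt 0; simpa using this
    simp [this]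
  | succ k ih =>
    rw [ih, hy k, hc k, natCast_zsmul, natCast_zsmul, add_smul, mul_smul, smul_add, pow_succ,
      mul_smul, add_assoc]

theorem gt1_lim {p : ℕ} [Fact p.Prime] (n : ℕ → ℤ) :
    ∃ a : ℤ_[p], ∀ k, (p : ℤ_[p]) ^ k ∣ a - ((∑ j ∈ Finset.range k, p ^ j * n j : ℤ) : ℤ_[p]) := by
  have hI : ∀ (k : ℕ) (u v : ℤ_[p]),
      u ≡ v [SMOD ((IsLocalRing.maximalIdeal ℤ_[p]) ^ k • ⊤ : Submodule ℤ_[p] ℤ_[p])] ↔
        (p : ℤ_[p]) ^ k ∣ u - v := fun k u v => by
    rw [SModEq.sub_mem, smul_eq_mul, Ideal.mul_top, PadicInt.maximalIdeal_eq_span_p,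
      Ideal.span_singleton_pow, Ideal.mem_span_singleton]
  obtain ⟨a, ha⟩ := IsPrecomplete.prec' (I := IsLocalRing.maximalIdeal ℤ_[p])
    (fun k => ((∑ j ∈ Finset.range k, p ^ j * n j : ℤ) : ℤ_[p])) (fun {m k} hmk => by
      rw [hI, ← dvd_neg, neg_sub]
      obtain ⟨d, rfl⟩ := Nat.exists_eq_add_of_le hmk
      rw [Finset.sum_range_add]
      push_cast
      rw [add_sub_cancel_left]
      exact Finset.dvd_sum fun j _ => ⟨p ^ j * n (m + j), by ring⟩)
  exact ⟨a, fun k => by rw [← dvd_neg, neg_sub]; exact (hI _ _ _).1 (ha k)⟩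

/-- a `p`-adically separated group, generated modulo `p` by finitely many elements whose
`p`-adic series converge, is a finitely generated `ℤ_[p]`-module -/
theorem GT1 {p : ℕ} [Fact p.Prime] {B : Type} [AddCommGroup B]
    (hsep : ∀ x : B, (∀ k : ℕ, ∃ y, p ^ k • y = x) → x = 0) (s : Finset B)
    (hgen : ∀ x : B, ∃ z ∈ AddSubgroup.closure (s : Set B), ∃ y, x = z + p • y)
    (hser : ∀ x ∈ s, ∀ c : ℕ → ℕ, ∃ y : ℕ → B, ∀ n, y n = c n • x + p • y (n + 1)) :
    ∃ (M : Type) (_ : AddCommGroup M) (_ : Module ℤ_[p] M) (_ : Module.Finite ℤ_[p] M),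
      Nonempty (B ≃+ M) := by
  set x : s → B := fun i => (i : B) with hx
  have hex : ∀ l : s → ℤ_[p], ∃ b, gt1R x l b := fun l => by
    choose b hb using fun i : s => gt1_single (hser i i.2) (l i)
    refine ⟨∑ i, b i, gt1R_of fun k => ⟨fun i => ((l i).appr k : ℤ), fun i => ?_, ?_⟩⟩
    · simpa using Ideal.mem_span_singleton.1 (PadicInt.appr_spec k (l i))
    · choose y hy using fun i => hb i k
      refine ⟨∑ i, y i, ?_⟩
      rw [Finset.sum_congr rfl fun i _ => hy i, Finset.sum_add_distrib, Finset.smul_sum]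
  have huniq : ∀ (l : s → ℤ_[p]) (b b' : B), gt1R x l b → gt1R x l b' → b = b' := by
    intro l b b' hb hb'
    rw [← sub_eq_zero]
    refine hsep _ fun k => ?_
    choose n hn using fun i => gt1_appr k (l i)
    obtain ⟨y, hy⟩ := hb k n hn
    obtain ⟨y', hy'⟩ := hb' k n hn
    exact ⟨y - y', by rw [hy, hy', smul_sub]; abel⟩
  choose Ψ hΨ using hex
  have hadd : ∀ l m, Ψ (l + m) = Ψ l + Ψ m := fun l m => by
    refine huniq _ _ _ (hΨ _) (gt1R_of fun k => ?_)
    choose n hn using fun i => gt1_appr k (l i)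
    choose n' hn' using fun i => gt1_appr k (m i)
    obtain ⟨y, hy⟩ := hΨ l k n hn
    obtain ⟨y', hy'⟩ := hΨ m k n' hn'
    refine ⟨n + n', fun i => ?_, y + y', ?_⟩
    · have := dvd_add (hn i) (hn' i)
      convert this using 1
      simp only [Pi.add_apply]
      push_cast
      ring
    · rw [hy, hy', smul_add]
      simp only [Pi.add_apply, add_smul, Finset.sum_add_distrib]
      abel
  let Φ : (s → ℤ_[p]) →+ B := AddMonoidHom.mk' Ψ hadd
  have hsurj : Function.Surjective Φ := by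
    intro b
    have h1 : ∀ b : B, ∃ (n : s → ℤ) (y : B), b = ∑ i, n i • x i + p • y := fun b => by
      obtain ⟨z, hz, y, hy⟩ := hgen b
      have hz' : z ∈ Submodule.span ℤ (Set.range x) := by
        have : Set.range x = (s : Set B) := by ext; simp [hx]
        rw [this, ← Submodule.mem_toAddSubgroup, Submodule.span_int_eq_addSubgroupClosure]
        exact hz
      obtain ⟨n, hn⟩ := (Submodule.mem_span_range_iff_exists_fun ℤ).1 hz'
      exact ⟨n, y, by rw [hn, hy]⟩
    choose n y hny using h1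
    choose a ha using fun i : s => gt1_lim (p := p) (fun j => n (y^[j] b) i)
    refine ⟨a, huniq _ _ _ (hΨ a) (gt1R_of fun k => ⟨_, fun i => ha i k, y^[k] b, ?_⟩)⟩
    induction k with
    | zero => simp
    | succ k ih =>
      rw [Function.iterate_succ_apply']
      conv_lhs => rw [ih, hny (y^[k] b)]
      simp only [Finset.sum_range_succ, add_smul, Finset.sum_add_distrib, smul_add,
        Finset.smul_sum, pow_succ, mul_smul, add_assoc]
      congr 2
      refine Finset.sum_congr rfl fun i _ => ?_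
      rw [← natCast_zsmul]; simp
  let N : Submodule ℤ_[p] (s → ℤ_[p]) :=
    { carrier := {l | Φ l = 0}
      add_mem' := fun {l m} hl hm => by
        simp only [Set.mem_ofPred_eq] at *
        rw [map_add, hl, hm, add_zero]
      zero_mem' := map_zero Φ
      smul_mem' := fun a l hl => by
        simp only [Set.mem_ofPred_eq] at *
        refine hsep _ fun k => ?_
        choose n hn using fun i => gt1_appr k (l i)
        obtain ⟨m, hm⟩ := gt1_appr k a
        obtain ⟨y, hy⟩ := hΨ l k n hn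
        obtain ⟨y', hy'⟩ := hΨ (a • l) k (fun i => m * n i) fun i => by
          have := dvd_add ((hm.mul_right (l i))) ((hn i).mul_left (m : ℤ_[p]))
          convert this using 1
          simp only [Pi.smul_apply, smul_eq_mul]
          push_cast
          ring
        have h0 : Ψ l = 0 := hl
        have h2 : ∑ i, n i • x i = -(p ^ k • y) := by
          rw [h0] at hy; exact eq_neg_of_add_eq_zero_left hy.symm
        refine ⟨y' - m • y, ?_⟩
        change _ = Ψ (a • l)
        rw [hy']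
        simp only [mul_smul]
        rw [← Finset.smul_sum, h2, smul_sub, smul_neg, smul_comm m]
        abel }
  refine ⟨(s → ℤ_[p]) ⧸ N, inferInstance, inferInstance, inferInstance, ⟨?_⟩⟩
  exact ((QuotientAddGroup.quotientAddEquivOfEq (M := N.toAddSubgroup) (N := Φ.ker)
    (by ext; rfl)).trans (QuotientAddGroup.quotientKerEquivOfSurjective Φ hsurj)).symm

end Pool.Agent.Lib.MP_796ce4_ag
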