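import Pool.Agent.Lib.MP_796ce4_ag.Base

/-! Galois descent, integral polynomials. -/

namespace Pool.Agent.Lib.MP_796ce4_ag

open WeierstrassCurve Polynomial Module
open scoped Classical IntermediateField

set_option linter.unusedSectionVars false
set_option linter.unusedVariables false

section sub
variable {Λ : Type} [Field Λ] {S : Subring Λ}

/-- coefficients in a subring -/
def gal1_In (S : Subring Λ) (f : Λ[X]) : Prop := ∀ n, f.coeff n ∈ S

theorem gal1_iff {f : Λ[X]} : gal1_In S f ↔ ∃ g : S[X], g.map S.subtype = f := by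
  rw [← Polynomial.mem_lifts, Polynomial.lifts_iff_coeff_lifts]
  refine forall_congr' fun n => ⟨fun h => ⟨⟨_, h⟩, rfl⟩, ?_⟩
  rintro ⟨y, hy⟩
  rw [← hy]
  exact y.2

theorem gal1_add {f g : Λ[X]} (hf : gal1_In S f) (hg : gal1_In S g) : gal1_In S (f + g) :=
  fun n => by rw [coeff_add]; exact S.add_mem (hf n) (hg n)

theorem gal1_neg {f : Λ[X]} (hf : gal1_In S f) : gal1_In S (-f) :=
  fun n => by rw [coeff_neg]; exact S.neg_mem (hf n)

theorem gal1_sub {f g : Λ[X]} (hf : gal1_In S f) (hg : gal1_In S g) : gal1_In S (f - g) :=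
  fun n => by rw [coeff_sub]; exact S.sub_mem (hf n) (hg n)

theorem gal1_mul {f g : Λ[X]} (hf : gal1_In S f) (hg : gal1_In S g) : gal1_In S (f * g) := by
  obtain ⟨a, rfl⟩ := gal1_iff.1 hf
  obtain ⟨b, rfl⟩ := gal1_iff.1 hg
  exact gal1_iff.2 ⟨a * b, Polynomial.map_mul _⟩

theorem gal1_pow {f : Λ[X]} (hf : gal1_In S f) (n : ℕ) : gal1_In S (f ^ n) := by
  obtain ⟨a, rfl⟩ := gal1_iff.1 hf
  exact gal1_iff.2 ⟨a ^ n, Polynomial.map_pow _ _⟩

theorem gal1_C {c : Λ} (h : c ∈ S) : gal1_In S (C c) := gal1_iff.2 ⟨C ⟨c, h⟩, map_C _⟩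

theorem gal1_X : gal1_In S (X : Λ[X]) := gal1_iff.2 ⟨X, map_X _⟩

theorem gal1_prod {T : Type} {s : Finset T} {f : T → Λ[X]} (hf : ∀ t ∈ s, gal1_In S (f t)) :
    gal1_In S (∏ t ∈ s, f t) :=
  Finset.prod_induction f (gal1_In S) (fun _ _ => gal1_mul) (by simpa using gal1_C S.one_mem) hf

theorem gal1_sum {T : Type} {s : Finset T} {f : T → Λ[X]} (hf : ∀ t ∈ s, gal1_In S (f t)) :
    gal1_In S (∑ t ∈ s, f t) :=
  Finset.sum_induction f (gal1_In S) (fun _ _ => gal1_add) (by simpa using gal1_C S.zero_mem) hf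

theorem gal1_comp {f g : Λ[X]} (hf : gal1_In S f) (hg : gal1_In S g) : gal1_In S (f.comp g) := by
  obtain ⟨a, rfl⟩ := gal1_iff.1 hf
  obtain ⟨b, rfl⟩ := gal1_iff.1 hg
  exact gal1_iff.2 ⟨a.comp b, Polynomial.map_comp _ _ _⟩

theorem gal1_derivative {f : Λ[X]} (hf : gal1_In S f) : gal1_In S (derivative f) := by
  obtain ⟨a, rfl⟩ := gal1_iff.1 hf
  exact gal1_iff.2 ⟨derivative a, (Polynomial.derivative_map _ _).symm⟩

theorem gal1_divByMonic {f g : Λ[X]} (hf : gal1_In S f) (hg : gal1_In S g) (hm : g.Monic) :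
    gal1_In S (f /ₘ g) := by
  obtain ⟨a, rfl⟩ := gal1_iff.1 hf
  obtain ⟨b, rfl⟩ := gal1_iff.1 hg
  exact gal1_iff.2 ⟨a /ₘ b, Polynomial.map_divByMonic _
    (Polynomial.monic_of_injective S.subtype_injective hm)⟩

theorem gal1_eval_map (g : S[X]) (x : S) : (g.map S.subtype).eval (x : Λ) = (g.eval x : S) := by
  rw [Polynomial.eval_map]
  exact Polynomial.eval₂_at_apply S.subtype x

theorem gal1_eval {f : Λ[X]} (hf : gal1_In S f) {x : Λ} (hx : x ∈ S) : f.eval x ∈ S := by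
  obtain ⟨a, rfl⟩ := gal1_iff.1 hf
  rw [gal1_eval_map a ⟨x, hx⟩]
  exact Subtype.mem _

end sub

section field
variable {K Λ : Type} [Field K] [Field Λ] [Algebra K Λ] {L : IntermediateField K Λ}

theorem Fix.one : Fix L 1 := fun _ _ => rfl
theorem Fix.mul {σ τ : Λ ≃ₐ[K] Λ} (h : Fix L σ) (h' : Fix L τ) : Fix L (σ * τ) :=
  fun x hx => by rw [AlgEquiv.mul_apply, h' x hx, h x hx]
theorem Fix.inv {σ : Λ ≃ₐ[K] Λ} (h : Fix L σ) : Fix L σ⁻¹ := fun x hx => by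
  conv_lhs => rw [← h x hx]
  exact σ.symm_apply_apply x
theorem Fix.pow {σ : Λ ≃ₐ[K] Λ} (h : Fix L σ) (n : ℕ) : Fix L (σ ^ n) := by
  induction n with
  | zero => rw [pow_zero]; exact Fix.one
  | succ n ih => rw [pow_succ]; exact ih.mul h
theorem Fix.mono {L' : IntermediateField K Λ} (hL : L ≤ L') {σ : Λ ≃ₐ[K] Λ} (h : Fix L' σ) :
    Fix L σ := fun x hx => h x (hL hx)
theorem Fix.bot (σ : Λ ≃ₐ[K] Λ) : Fix ⊥ σ := fun x hx => by
  obtain ⟨y, rfl⟩ := IntermediateField.mem_bot.1 hx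
  exact σ.commutes y

theorem mem_of_fixed [IsGalois K Λ] {x : Λ} (h : ∀ σ, Fix L σ → σ x = x) : x ∈ L := by
  rw [← InfiniteGalois.fixedField_fixingSubgroup L, IntermediateField.mem_fixedField_iff]
  intro σ hσ
  exact h σ fun y hy => (IntermediateField.mem_fixingSubgroup_iff L σ).1 hσ y hy

theorem Over.add {f g : Λ[X]} (hf : Over L f) (hg : Over L g) : Over L (f + g) :=
  gal1_add (S := L.toSubfield.toSubring) hf hg
theorem Over.neg {f : Λ[X]} (hf : Over L f) : Over L (-f) :=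
  gal1_neg (S := L.toSubfield.toSubring) hf
theorem Over.sub {f g : Λ[X]} (hf : Over L f) (hg : Over L g) : Over L (f - g) :=
  gal1_sub (S := L.toSubfield.toSubring) hf hg
theorem Over.mul {f g : Λ[X]} (hf : Over L f) (hg : Over L g) : Over L (f * g) :=
  gal1_mul (S := L.toSubfield.toSubring) hf hg
theorem Over.pow {f : Λ[X]} (hf : Over L f) (n : ℕ) : Over L (f ^ n) :=
  gal1_pow (S := L.toSubfield.toSubring) hf n
theorem Over.prod {T : Type} {s : Finset T} {f : T → Λ[X]} (hf : ∀ t ∈ s, Over L (f t)) :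
    Over L (∏ t ∈ s, f t) := gal1_prod (S := L.toSubfield.toSubring) hf
theorem Over.sum {T : Type} {s : Finset T} {f : T → Λ[X]} (hf : ∀ t ∈ s, Over L (f t)) :
    Over L (∑ t ∈ s, f t) := gal1_sum (S := L.toSubfield.toSubring) hf
theorem over_C {c : Λ} (h : c ∈ L) : Over L (C c) := gal1_C (S := L.toSubfield.toSubring) h
theorem over_X : Over L (X : Λ[X]) := gal1_X (S := L.toSubfield.toSubring)
theorem Over.comp {f g : Λ[X]} (hf : Over L f) (hg : Over L g) : Over L (f.comp g) :=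
  gal1_comp (S := L.toSubfield.toSubring) hf hg
theorem Over.derivative {f : Λ[X]} (hf : Over L f) : Over L (derivative f) :=
  gal1_derivative (S := L.toSubfield.toSubring) hf
theorem Over.divByMonic {f g : Λ[X]} (hf : Over L f) (hg : Over L g) (hm : g.Monic) :
    Over L (f /ₘ g) := gal1_divByMonic (S := L.toSubfield.toSubring) hf hg hm
theorem Over.eval {f : Λ[X]} (hf : Over L f) {x : Λ} (hx : x ∈ L) : f.eval x ∈ L :=
  gal1_eval (S := L.toSubfield.toSubring) hf hx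
theorem Over.mono {L' : IntermediateField K Λ} (hL : L ≤ L') {f : Λ[X]} (hf : Over L f) :
    Over L' f := fun n => hL (hf n)
theorem Over.map_eq {f : Λ[X]} (hf : Over L f) {σ : Λ ≃ₐ[K] Λ} (h : Fix L σ) :
    f.map (σ : Λ →+* Λ) = f := by
  ext n
  rw [coeff_map]
  exact h _ (hf n)
theorem Over.apply_eval {f : Λ[X]} (hf : Over L f) {σ : Λ ≃ₐ[K] Λ} (h : Fix L σ) (x : Λ) :
    σ (f.eval x) = f.eval (σ x) := by
  conv_rhs => rw [← hf.map_eq h, Polynomial.eval_map]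
  exact (Polynomial.eval₂_at_apply (σ : Λ →+* Λ) x).symm
theorem Over.exists_map {f : Λ[X]} (hf : Over L f) : ∃ g : L[X], g.map (algebraMap L Λ) = f := by
  rw [← Polynomial.mem_lifts, Polynomial.lifts_iff_coeff_lifts]
  exact fun n => ⟨⟨_, hf n⟩, rfl⟩
theorem over_cub (E : WeierstrassCurve K) : Over L (cub (E.baseChange Λ)) :=
  (((over_X.pow 3).add ((over_C (L.algebraMap_mem E.a₂)).mul (over_X.pow 2))).add
    ((over_C (L.algebraMap_mem E.a₄)).mul over_X)).add (over_C (L.algebraMap_mem E.a₆))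

theorem gal1_extend [IsGalois K Λ] (ψ : L →ₐ[K] Λ) : ∃ s : Λ ≃ₐ[K] Λ, ∀ x : L, s x = ψ x := by
  refine ⟨AlgEquiv.ofBijective (ψ.liftNormal Λ) (AlgHom.normal_bijective K Λ Λ _), fun x => ?_⟩
  exact ψ.liftNormal_commutes Λ x

/-- the embeddings of a finite extension, extended to automorphisms -/
theorem exists_fam_bot [IsGalois K Λ] [IsAlgClosed Λ] (L : IntermediateField K Λ)
    [FiniteDimensional K L] : ∃ (n : ℕ) (s : Fin n → Λ ≃ₐ[K] Λ), Fam ⊥ L s := by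
  choose s hs using fun ψ : L →ₐ[K] Λ => gal1_extend ψ
  let e := Fintype.equivFin (L →ₐ[K] Λ)
  refine ⟨_, fun i => s (e.symm i), bot_le, fun _ => Fix.bot _, ?_, fun σ _ => ?_⟩
  · rw [Fintype.card_fin, AlgHom.card, IntermediateField.finrank_bot, mul_one]
  · let ρ : Equiv.Perm (L →ₐ[K] Λ) :=
      { toFun := fun ψ => (σ : Λ →ₐ[K] Λ).comp ψ
        invFun := fun ψ => (σ.symm : Λ →ₐ[K] Λ).comp ψ
        left_inv := fun ψ => by ext x; simp
        right_inv := fun ψ => by ext x; simp }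
    refine ⟨(e.symm.trans ρ).trans e, fun t x hx => ?_⟩
    have h1 := hs (e.symm t) ⟨x, hx⟩
    have h2 := hs (ρ (e.symm t)) ⟨x, hx⟩
    simp only [Equiv.trans_apply, Equiv.symm_apply_apply]
    rw [h1, h2]
    rfl

theorem Fam.sum_mem [IsGalois K Λ] {L' : IntermediateField K Λ} {T : Type} [Fintype T]
    {s : T → Λ ≃ₐ[K] Λ} (h : Fam L L' s) {x : Λ} (hx : x ∈ L') : ∑ t, s t x ∈ L := by
  refine mem_of_fixed fun σ hσ => ?_
  obtain ⟨ρ, hρ⟩ := h.perm σ hσ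
  rw [map_sum, Finset.sum_congr rfl fun t _ => hρ t x hx]
  exact Equiv.sum_comp ρ fun t => s t x

end field

section intg
variable {Λ : Type} [NormedField Λ] [IsUltrametricDist Λ]

variable (Λ) in
/-- the valuation ring -/
def gal1_O : Subring Λ where
  carrier := {x | ‖x‖ ≤ 1}
  mul_mem' := fun {a b} ha hb => by
    simp only [Set.mem_ofPred_eq, norm_mul] at ha hb ⊢
    exact mul_le_one₀ ha (norm_nonneg _) hb
  one_mem' := by simp
  add_mem' := fun {a b} ha hb => (IsUltrametricDist.norm_add_le_max a b).trans (max_le ha hb)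
  zero_mem' := by simp
  neg_mem' := fun {a} ha => by simpa using ha

theorem gal1_add_lt {x y : Λ} {c : ℝ} (hx : ‖x‖ < c) (hy : ‖y‖ < c) : ‖x + y‖ < c :=
  (IsUltrametricDist.norm_add_le_max x y).trans_lt (max_lt hx hy)

theorem gal1_sub_lt {x y : Λ} {c : ℝ} (hx : ‖x‖ < c) (hy : ‖y‖ < c) : ‖x - y‖ < c := by
  rw [sub_eq_add_neg]
  exact gal1_add_lt hx (by rwa [norm_neg])

theorem gal1_trans_lt {x y z : Λ} {c : ℝ} (h : ‖x - y‖ < c) (h' : ‖y - z‖ < c) : ‖x - z‖ < c := by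
  simpa using gal1_add_lt h h'

theorem gal1_le_one {x y : Λ} (hx : ‖x‖ ≤ 1) (h : ‖x - y‖ < 1) : ‖y‖ ≤ 1 := by
  have := (gal1_O Λ).sub_mem (show x ∈ gal1_O Λ from hx) (show x - y ∈ gal1_O Λ from h.le)
  rwa [sub_sub_cancel] at this

theorem gal1_sum_lt {T : Type} {s : Finset T} {f : T → Λ} (h : ∀ t ∈ s, ‖f t‖ < 1) :
    ‖∑ t ∈ s, f t‖ < 1 :=
  Finset.sum_induction f (fun x => ‖x‖ < 1) (fun _ _ => gal1_add_lt) (by simp) h

theorem Intg.add {f g : Λ[X]} (hf : Intg f) (hg : Intg g) : Intg (f + g) :=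
  gal1_add (S := gal1_O Λ) hf hg
theorem Intg.neg {f : Λ[X]} (hf : Intg f) : Intg (-f) := gal1_neg (S := gal1_O Λ) hf
theorem Intg.sub {f g : Λ[X]} (hf : Intg f) (hg : Intg g) : Intg (f - g) :=
  gal1_sub (S := gal1_O Λ) hf hg
theorem Intg.mul {f g : Λ[X]} (hf : Intg f) (hg : Intg g) : Intg (f * g) :=
  gal1_mul (S := gal1_O Λ) hf hg
theorem Intg.pow {f : Λ[X]} (hf : Intg f) (n : ℕ) : Intg (f ^ n) := gal1_pow (S := gal1_O Λ) hf n
theorem Intg.prod {T : Type} {s : Finset T} {f : T → Λ[X]} (hf : ∀ t ∈ s, Intg (f t)) :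
    Intg (∏ t ∈ s, f t) := gal1_prod (S := gal1_O Λ) hf
theorem Intg.sum {T : Type} {s : Finset T} {f : T → Λ[X]} (hf : ∀ t ∈ s, Intg (f t)) :
    Intg (∑ t ∈ s, f t) := gal1_sum (S := gal1_O Λ) hf
theorem intg_C {c : Λ} (h : ‖c‖ ≤ 1) : Intg (C c) := gal1_C (S := gal1_O Λ) h
theorem intg_X : Intg (X : Λ[X]) := gal1_X (S := gal1_O Λ)
theorem Intg.comp {f g : Λ[X]} (hf : Intg f) (hg : Intg g) : Intg (f.comp g) :=
  gal1_comp (S := gal1_O Λ) hf hg
theorem Intg.derivative {f : Λ[X]} (hf : Intg f) : Intg (derivative f) :=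
  gal1_derivative (S := gal1_O Λ) hf
theorem Intg.divByMonic {f g : Λ[X]} (hf : Intg f) (hg : Intg g) (hm : g.Monic) :
    Intg (f /ₘ g) := gal1_divByMonic (S := gal1_O Λ) hf hg hm
theorem Intg.eval_le {f : Λ[X]} (hf : Intg f) {x : Λ} (hx : ‖x‖ ≤ 1) : ‖f.eval x‖ ≤ 1 :=
  gal1_eval (S := gal1_O Λ) hf hx
theorem Intg.eval_sub_le {f : Λ[X]} (hf : Intg f) {x y : Λ} (hx : ‖x‖ ≤ 1) (hy : ‖y‖ ≤ 1) :
    ‖f.eval x - f.eval y‖ ≤ ‖x - y‖ := by
  obtain ⟨a, rfl⟩ := (gal1_iff (S := gal1_O Λ)).1 hf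
  obtain ⟨z, hz⟩ := a.evalSubFactor ⟨x, hx⟩ ⟨y, hy⟩
  rw [gal1_eval_map a ⟨x, hx⟩, gal1_eval_map a ⟨y, hy⟩, ← AddSubgroupClass.coe_sub, hz,
    MulMemClass.coe_mul, norm_mul]
  exact mul_le_of_le_one_left (norm_nonneg _) z.2
theorem Intg.taylor_le {f : Λ[X]} (hf : Intg f) {x y : Λ} (hx : ‖x‖ ≤ 1) (hy : ‖y‖ ≤ 1) :
    ‖f.eval y - f.eval x - (y - x) * f.derivative.eval x‖ ≤ ‖y - x‖ ^ 2 := by
  obtain ⟨a, rfl⟩ := (gal1_iff (S := gal1_O Λ)).1 hf
  obtain ⟨z, hz⟩ := a.binomExpansion ⟨x, hx⟩ (⟨y, hy⟩ - ⟨x, hx⟩)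
  rw [add_sub_cancel] at hz
  have h := congrArg (fun w : gal1_O Λ => (w : Λ)) hz
  simp only [Subring.coe_add, Subring.coe_mul, Subring.coe_pow, AddSubgroupClass.coe_sub] at h
  rw [Polynomial.derivative_map, gal1_eval_map a ⟨x, hx⟩, gal1_eval_map a ⟨y, hy⟩,
    gal1_eval_map _ ⟨x, hx⟩, h]
  have e : ∀ u v w : Λ, u + v * (y - x) + w * (y - x) ^ 2 - u - (y - x) * v = w * (y - x) ^ 2 :=
    fun u v w => by ring
  rw [e, norm_mul, norm_pow]
  exact mul_le_of_le_one_left (by positivity) z.2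
theorem Intg.root_le {f : Λ[X]} (hf : Intg f) (hm : f.Monic) {x : Λ} (hx : f.eval x = 0) :
    ‖x‖ ≤ 1 := by
  by_contra hc
  push Not at hc
  rw [hm.as_sum, eval_add, eval_pow, eval_X, eval_finsetSum, add_eq_zero_iff_eq_neg] at hx
  have h0 : 0 < ‖x‖ ^ f.natDegree := by positivity
  have : ‖∑ i ∈ Finset.range f.natDegree, eval x (C (f.coeff i) * X ^ i)‖ < ‖x‖ ^ f.natDegree := by
    refine Finset.sum_induction _ (fun y => ‖y‖ < ‖x‖ ^ f.natDegree) (fun _ _ => gal1_add_lt)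
      (by simpa using h0) fun i hi => ?_
    rw [eval_mul, eval_C, eval_pow, eval_X, norm_mul, norm_pow]
    exact (mul_le_of_le_one_left (by positivity) (hf i)).trans_lt
      (pow_lt_pow_right₀ hc (Finset.mem_range.1 hi))
  rw [← norm_neg, ← hx, norm_pow] at this
  exact lt_irrefl _ this
theorem Intg.exists_root_near [IsAlgClosed Λ] {f : Λ[X]} (hf : Intg f) (hm : f.Monic) {t : Λ}
    (ht : ‖f.eval t‖ < 1) : ∃ x, f.eval x = 0 ∧ ‖x - t‖ < 1 := by
  by_contra hc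
  push Not at hc
  rw [(IsAlgClosed.splits f).eval_eq_prod_roots_of_monic hm] at ht
  refine absurd ht (not_lt.2 ?_)
  refine Multiset.prod_induction (fun y : Λ => 1 ≤ ‖y‖) _ (fun a b ha hb => ?_) (by simp)
    fun a ha => ?_
  · rw [norm_mul]
    exact one_le_mul_of_one_le_of_one_le ha hb
  · obtain ⟨x, hx, rfl⟩ := Multiset.mem_map.1 ha
    rw [norm_sub_rev]
    exact hc x ((mem_roots hm.ne_zero).1 hx)
/-- two roots congruent to each other coincide if the derivative is a unit -/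
theorem Intg.root_unique {f : Λ[X]} (hf : Intg f) {x y : Λ} (hx : ‖x‖ ≤ 1) (h0 : f.eval x = 0)
    (h1 : f.eval y = 0) (hd : ‖f.derivative.eval x‖ = 1) (hxy : ‖x - y‖ < 1) : x = y := by
  have h := hf.taylor_le hx (gal1_le_one hx hxy)
  rw [h0, h1, sub_zero, zero_sub, norm_neg, norm_mul, hd, mul_one, norm_sub_rev] at h
  have h2 : ‖x - y‖ = 0 := by nlinarith [norm_nonneg (x - y)]
  exact sub_eq_zero.1 (norm_eq_zero.1 h2)
theorem norm_pow_sub_pow_lt {x y : Λ} (hx : ‖x‖ ≤ 1) (h : ‖x - y‖ < 1) (n : ℕ) :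
    ‖x ^ n - y ^ n‖ < 1 := by
  simpa using ((intg_X.pow n).eval_sub_le hx (gal1_le_one hx h)).trans_lt h
theorem norm_eq_of_sub_lt {x y : Λ} (h : ‖x - y‖ < ‖x‖) : ‖y‖ = ‖x‖ := by
  refine (IsUltrametricDist.norm_eq_of_add_norm_lt_max (x := x) (y := -y) ?_).symm ▸
    (norm_neg y).symm
  rw [← sub_eq_add_neg]
  exact h.trans_le (le_max_left _ _)

end intg

end Pool.Agent.Lib.MP_796ce4_ag
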