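import Pool.Agent.Lib.MP_796ce4_ag.G3
import Pool.Agent.Lib.MP_796ce4_ag.G0
import Pool.Agent.Lib.MP_796ce4_ag.GT

/-! The structure theorem for equations y ^ 2 = cubic. -/

namespace Pool.Agent.Lib.MP_796ce4_ag

open WeierstrassCurve Polynomial Module
open scoped Classical IntermediateField

set_option linter.unusedSectionVars false

theorem main_mulS_mono {A : Type} [AddCommGroup A] (m : ℕ) {H H' : AddSubgroup A} (h : H ≤ H') :
    mulS m H ≤ mulS m H' := AddSubgroup.map_mono h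

variable {p : ℕ} {K Λ : Type} [Field K] [CharZero K] [NormedField Λ] [IsUltrametricDist Λ]
  [IsAlgClosed Λ] [Algebra K Λ] [IsGalois K Λ] [Loc p K Λ]

include p

theorem main_short [Fact p.Prime] {ι : Type} [Fintype ι] {W : ι → WeierstrassCurve K}
    (hW : ∀ i, Good Λ (W i)) :
    ∃ (n : ℕ) (F : Type) (_ : AddCommGroup F) (_ : Finite F),
      Nonempty ((A0 W Λ ⧸ maxDiv (A0 W Λ)) ≃+ (Fin n → ℤ_[p]) × F) := by
  have hS : Short W := short_of_good hW
  have h0 : ∀ k, (0 : Pts W Λ) k ∈ pts (W k) (⊥ : IntermediateField K Λ) :=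
    fun k => (pts (W k) (⊥ : IntermediateField K Λ)).zero_mem
  have hh : ∀ i : ι, ∃ h : pts (W i) (⊥ : IntermediateField K Λ) →+ VV Λ W,
      ∀ u : pts (W i) (⊥ : IntermediateField K Λ),
        h u = Sy W ⊥ {i} (Function.update (0 : Pts W Λ) i u) :=
    fun i => exists_SyHom hS (Finset.mem_singleton_self i) h0
  choose h hh using hh
  -- the sum of the one-entry symbols
  let H : (∀ i, pts (W i) (⊥ : IntermediateField K Λ)) →+ VV Λ W :=
    ∑ i, (h i).comp (Pi.evalAddMonoidHom (fun i => pts (W i) (⊥ : IntermediateField K Λ)) i)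
  have hH : ∀ u, H u = ∑ i, h i (u i) := fun u => by
    simp only [H, AddMonoidHom.finsetSum_apply, AddMonoidHom.comp_apply,
      Pi.evalAddMonoidHom_apply]
  have hHs : ∀ (i : ι) (a : pts (W i) (⊥ : IntermediateField K Λ)), H (Pi.single i a) = h i a := by
    intro i a
    rw [hH, Finset.sum_eq_single i]
    · rw [Pi.single_eq_same]
    · intro j _ hj
      rw [Pi.single_eq_of_ne hj, map_zero]
    · intro hi
      exact absurd (Finset.mem_univ i) hi
  let Φ : AddSubgroup (∀ i, pts (W i) (⊥ : IntermediateField K Λ)) :=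
    AddSubgroup.pi Set.univ fun i => (hW i).form.addSubgroupOf _
  have hΦ : ∀ u, u ∈ Φ ↔ ∀ i, Form (u i : Pt (W i) Λ) := fun u => by
    simp only [Φ, AddSubgroup.mem_pi, Set.mem_univ, true_imp_iff, AddSubgroup.mem_addSubgroupOf,
      Good.mem_form]
  let A : AddSubgroup (VV Λ W) := ⨆ (I : Finset ι) (_ : I.Nonempty), Tall Λ W I
  let B₀ : AddSubgroup (VV Λ W) := ⨆ (I : Finset ι) (_ : 2 ≤ I.card), Tall Λ W I
  let B : AddSubgroup (VV Λ W) := B₀ ⊔ Φ.map H
  have hTB : ∀ I : Finset ι, 2 ≤ I.card → Tall Λ W I ≤ B := fun I hI =>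
    (le_iSup₂_of_le (f := fun (I : Finset ι) (_ : 2 ≤ I.card) => Tall Λ W I) I hI le_rfl).trans
      le_sup_left
  have hΦB : ∀ u ∈ Φ, H u ∈ B := fun u hu =>
    (le_sup_right : Φ.map H ≤ B) (AddSubgroup.mem_map_of_mem H hu)
  have hTA : ∀ I : Finset ι, I.Nonempty → Tall Λ W I ≤ A := fun I hI =>
    le_iSup₂_of_le (f := fun (I : Finset ι) (_ : I.Nonempty) => Tall Λ W I) I hI le_rfl
  have hHA : ∀ u, H u ∈ A := fun u => by
    rw [hH]
    refine AddSubgroup.sum_mem _ fun i _ => hTA {i} (Finset.singleton_nonempty i) ?_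
    rw [hh]
    exact Sy_mem_TT trivial (update_mem h0 (u i).2) fun _ _ => trivial
  have hBA : B ≤ A := by
    refine sup_le (iSup₂_le fun I hI => hTA I (Finset.card_pos.1 (by omega))) ?_
    rintro _ ⟨u, -, rfl⟩
    exact hHA u
  have hAB : A ≤ B₀ ⊔ H.range := by
    refine iSup₂_le fun I hI => ?_
    by_cases h2 : 2 ≤ I.card
    · exact (le_iSup₂_of_le (f := fun (I : Finset ι) (_ : 2 ≤ I.card) => Tall Λ W I) I h2
        le_rfl).trans le_sup_left
    · have h1 : I.card = 1 := by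
        have := Finset.card_pos.2 hI
        omega
      obtain ⟨i, rfl⟩ := Finset.card_eq_one.1 h1
      intro v hv
      obtain ⟨a, ha, rfl⟩ := Tall_single hS hv
      refine (le_sup_right : H.range ≤ B₀ ⊔ H.range) ⟨Pi.single i ⟨a, ha⟩, ?_⟩
      rw [hHs, hh]
      rfl
  -- finite index
  have hfin : ∃ t : Finset (VV Λ W), ∀ a ∈ A, ∃ x ∈ t, a - x ∈ B := by
    choose s hs hs' using fun i => (hW i).red_fin (L := (⊥ : IntermediateField K Λ))
    refine ⟨(Fintype.piFinset fun i => (s i).subtype (· ∈ pts (W i) ⊥)).image H, fun a ha => ?_⟩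
    obtain ⟨b, hb, _, ⟨u, rfl⟩, rfl⟩ := AddSubgroup.mem_sup.1 (hAB ha)
    choose t ht ht' using fun i => hs' i (u i) (u i).2
    refine ⟨H fun i => ⟨t i, hs i _ (ht i)⟩, Finset.mem_image_of_mem _ ?_, ?_⟩
    · exact Fintype.mem_piFinset.2 fun i => Finset.mem_subtype.2 (ht i)
    · rw [add_sub_assoc, ← map_sub]
      exact B.add_mem ((le_sup_left : B₀ ≤ B) hb) (hΦB _ ((hΦ _).2 ht'))
  have hdiv : ∀ m : ℕ, ¬p ∣ m → B ≤ mulS m B := by
    intro m hm
    refine sup_le (iSup₂_le fun I hI => (Tall_div hW hI hm).trans (main_mulS_mono m (hTB I hI))) ?_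
    rintro _ ⟨u, hu, rfl⟩
    choose b hb hb' hb'' using fun i => (hW i).div_prime_to hm (u i).2 ((hΦ u).1 hu i)
    refine mem_mulS.2 ⟨H fun i => ⟨b i, hb i⟩, hΦB _ ((hΦ _).2 hb'), ?_⟩
    rw [← map_nsmul]
    congr 1
    funext i
    exact Subtype.ext (hb'' i)
  -- generators modulo `p`
  have hG : ∀ I : Finset ι, ∃ s : Finset (Pts W Λ),
      (∀ a ∈ s, 2 ≤ I.card ∧ ∀ i, a i ∈ pts (W i) (⊥ : IntermediateField K Λ) ∧ Form (a i)) ∧
      (2 ≤ I.card → Tall Λ W I ≤ AddSubgroup.closure (Sy W ⊥ I '' (s : Set (Pts W Λ))) ⊔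
        mulS p (Tall Λ W I)) := by
    intro I
    by_cases hI : 2 ≤ I.card
    · obtain ⟨s, hs, hs'⟩ := G3 hW hI
      exact ⟨s, fun a ha => ⟨hI, hs a ha⟩, fun _ => hs'⟩
    · exact ⟨∅, fun a ha => absurd ha (Finset.notMem_empty a), fun h => absurd h hI⟩
  choose sG hsG hsG' using hG
  choose sF hsF hsF' using fun i => (hW i).form_fin (L := (⊥ : IntermediateField K Λ))
  let s₁ : Finset (VV Λ W) := Finset.univ.biUnion fun I : Finset ι => (sG I).image (Sy W ⊥ I)
  let s₂ : Finset (VV Λ W) :=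
    (Fintype.piFinset fun i => (sF i).subtype (· ∈ pts (W i) ⊥)).image H
  have hser : ∀ x ∈ s₁ ∪ s₂, x ∈ B ∧ ∀ c : ℕ → ℕ, ∃ y : ℕ → VV Λ W,
      ∀ n, y n ∈ B ∧ y n = c n • x + p • y (n + 1) := by
    intro x hx
    rcases Finset.mem_union.1 hx with hx | hx
    · obtain ⟨I, -, hx⟩ := Finset.mem_biUnion.1 hx
      obtain ⟨a, ha, rfl⟩ := Finset.mem_image.1 hx
      obtain ⟨hI, ha⟩ := hsG I a ha
      have ha1 : ∀ k, a k ∈ pts (W k) (⊥ : IntermediateField K Λ) := fun k => (ha k).1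
      refine ⟨hTB I hI (Sy_mem_TT trivial ha1 fun _ _ => trivial), fun c => ?_⟩
      obtain ⟨i, hi⟩ := Finset.card_pos.1 (show 0 < I.card by omega)
      obtain ⟨g, hg⟩ := exists_SyHom hS hi ha1
      obtain ⟨y, hy⟩ := (hW i).pser (L := (⊥ : IntermediateField K Λ)) (x := fun j => c j • a i)
        fun j => ⟨nsmul_mem (ha i).1 _, (hW i).form.nsmul_mem (ha i).2 _⟩
      refine ⟨fun n => g ⟨y n, (hy n).1⟩, fun n => ⟨?_, ?_⟩⟩
      · beta_reduce
        rw [hg]
        exact hTB I hI (Sy_mem_TT trivial (update_mem ha1 (hy n).1) fun _ _ => trivial)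
      · have e : Sy W ⊥ I a = g ⟨a i, ha1 i⟩ := by
          rw [hg]
          exact congrArg _ (Function.update_eq_self i a).symm
        beta_reduce
        rw [e, ← map_nsmul, ← map_nsmul, ← map_add]
        exact congrArg g (Subtype.ext (hy n).2.2)
    · obtain ⟨u, hu, rfl⟩ := Finset.mem_image.1 hx
      have hu' : ∀ i, Form (u i : Pt (W i) Λ) := fun i =>
        (hsF i _ (Finset.mem_subtype.1 (Fintype.mem_piFinset.1 hu i))).2
      refine ⟨hΦB u ((hΦ u).2 hu'), fun c => ?_⟩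
      choose y hy using fun i => (hW i).pser (L := (⊥ : IntermediateField K Λ))
        (x := fun j => c j • (u i : Pt (W i) Λ))
        fun j => ⟨nsmul_mem (u i).2 _, (hW i).form.nsmul_mem (hu' i) _⟩
      refine ⟨fun n => H fun i => ⟨y i n, (hy i n).1⟩, fun n =>
        ⟨hΦB _ ((hΦ _).2 fun i => (hy i n).2.1), ?_⟩⟩
      beta_reduce
      rw [← map_nsmul, ← map_nsmul, ← map_add]
      exact congrArg H (funext fun i => Subtype.ext (hy i n).2.2)
  have hgen : B ≤ AddSubgroup.closure ((s₁ ∪ s₂ : Finset (VV Λ W)) : Set (VV Λ W)) ⊔ mulS p B := by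
    refine sup_le (iSup₂_le fun I hI => (hsG' I hI).trans
      (sup_le_sup (AddSubgroup.closure_mono ?_) (main_mulS_mono p (hTB I hI)))) ?_
    · rintro _ ⟨a, ha, rfl⟩
      exact Finset.mem_coe.2 (Finset.mem_union_left _
        (Finset.mem_biUnion.2 ⟨I, Finset.mem_univ I, Finset.mem_image_of_mem _ ha⟩))
    · rintro _ ⟨u, hu, rfl⟩
      choose t ht b hb hb' e using fun i => hsF' i (u i) (u i).2 ((hΦ u).1 hu i)
      have e' : u = (fun i => ⟨t i, (hsF i _ (ht i)).1⟩) + p • fun i => ⟨b i, hb i⟩ := by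
        funext i
        exact Subtype.ext (e i)
      rw [e', map_add, map_nsmul]
      refine AddSubgroup.add_mem_sup (AddSubgroup.subset_closure ?_)
        (mem_mulS.2 ⟨_, hΦB _ ((hΦ _).2 hb'), rfl⟩)
      exact Finset.mem_coe.2 (Finset.mem_union_right _ (Finset.mem_image_of_mem _
        (Fintype.mem_piFinset.2 fun i => Finset.mem_subtype.2 (ht i))))
  obtain ⟨n, F, iF, fF, ⟨e⟩⟩ := GT (p := p) A B hBA hfin hdiv (s₁ ∪ s₂) (fun x hx => (hser x hx).1)
    hgen fun x hx => (hser x hx).2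
  obtain ⟨e₀⟩ := A0_equiv (W := W) (Λ := Λ)
  obtain ⟨e₁⟩ := maxDiv_congr e₀
  exact ⟨n, F, iF, fF, ⟨e₁.trans e⟩⟩

end Pool.Agent.Lib.MP_796ce4_ag
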