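import Pool.Agent.Lib.MP_796ce4_ag.PlaceA

/-! The place above a point at which a coordinate is an etale parameter. -/

namespace Pool.Agent.Lib.MP_796ce4_ag

open WeierstrassCurve Polynomial Module
open scoped Classical IntermediateField

set_option linter.unusedSectionVars false

variable {K F Λ : Type} [Field K] [CharZero K] [Field F] [Field Λ] [Algebra K F] [Algebra K Λ]
  [Algebra.IsAlgebraic K Λ]

/-- `S ⊆ F` is generated by `t` and `Y`, has fraction field `F`, and is unramified over `K[t]`
at the point `s` -/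
structure Etale (S : Subalgebra K F) (s : S →ₐ[K] Λ) (t : S) (Y : Finset S) : Prop where
  gen : Algebra.adjoin K (insert t (Y : Set S)) = ⊤
  frac : ∀ f : F, ∃ a ∈ S, ∃ b ∈ S, b ≠ 0 ∧ f = a / b
  tr : Transcendental K t
  unr : ∀ y ∈ Y, ∃ g : K[X][X], (g.map (aeval t : K[X] →ₐ[K] S).toRingHom).eval y = 0 ∧
    s ((g.map (aeval t : K[X] →ₐ[K] S).toRingHom).derivative.eval y) ≠ 0

variable {S : Subalgebra K F} {s : S →ₐ[K] Λ} {t : S} {Y : Finset S}

theorem placeb_int (c : Λ) : IsIntegral K c := (Algebra.IsAlgebraic.isAlgebraic c).isIntegral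

theorem placeb_pi_ne (h : Etale S s t Y) : aeval t (minpoly K (s t)) ≠ 0 := fun e =>
  h.tr ⟨_, minpoly.ne_zero (placeb_int (s t)), e⟩

theorem placeb_s_pi : s (aeval t (minpoly K (s t))) = 0 := by
  rw [← aeval_algHom_apply, minpoly.aeval]

theorem placeb_fin (h : Etale S s t Y) : Algebra.FiniteType K S :=
  ⟨⟨insert t Y, by rw [Finset.coe_insert]; exact h.gen⟩⟩

theorem placeb_prime (s : S →ₐ[K] Λ) : (RingHom.ker s).IsPrime := RingHom.ker_isPrime s

/-- the kernel of `s` is locally generated by one element -/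
theorem placeb_div (h : Etale S s t Y) {a : S} (ha : s a = 0) :
    ∃ u b : S, s u ≠ 0 ∧ a * u = aeval t (minpoly K (s t)) * b := by
  let : Algebra K[X] S := (aeval t : K[X] →ₐ[K] S).toRingHom.toAlgebra
  have hal : ∀ g : K[X], algebraMap K[X] S g = aeval t g := fun _ => rfl
  have : IsScalarTower K K[X] S := IsScalarTower.of_algebraMap_eq fun c => by
    rw [hal]; simp
  have := placeb_fin h
  have : Algebra.FiniteType K[X] S := Algebra.FiniteType.of_restrictScalars_finiteType K K[X] S
  have := placeb_prime s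
  set q : Ideal S := RingHom.ker s with hq
  have hunr : Algebra.IsUnramifiedAt K[X] q := by
    have : (⟨q, inferInstance⟩ : PrimeSpectrum S) ∈ Algebra.unramifiedLocus K[X] S := by
      rw [Algebra.unramifiedLocus_eq_compl_support, Set.mem_compl_iff,
        Module.notMem_support_iff']
      choose! g hg0 hg1 using h.unr
      set D := KaehlerDifferential.D K[X] S
      set d : S → S := fun y =>
        ((g y).map (aeval t : K[X] →ₐ[K] S).toRingHom).derivative.eval y with hd
      have hD : ∀ y ∈ Y, d y • D y = 0 := by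
        intro y hy
        have e1 := D.map_aeval (g y) y
        have e2 : aeval y (g y) = 0 := by
          rw [aeval_def, eval₂_eq_eval_map]; exact hg0 y hy
        have e3 : aeval y (derivative (g y)) = d y := by
          rw [aeval_def, eval₂_eq_eval_map, ← derivative_map]; rfl
        rw [e2, map_zero, e3] at e1
        exact e1.symm
      have hδ : (∏ y ∈ Y, d y) ∉ q := by
        rw [hq, RingHom.mem_ker, map_prod]
        exact Finset.prod_ne_zero_iff.2 hg1
      have hall : ∀ x : S, (∏ y ∈ Y, d y) • D x = 0 := by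
        intro x
        have hx : x ∈ Algebra.adjoin K (insert t (Y : Set S)) := by rw [h.gen]; trivial
        induction hx using Algebra.adjoin_induction with
        | mem x hx =>
          rcases hx with rfl | hx
          · have : x = algebraMap K[X] S X := by rw [hal]; simp
            rw [this, D.map_algebraMap, smul_zero]
          · rw [← Finset.prod_erase_mul Y d hx, mul_smul, hD x hx, smul_zero]
        | algebraMap c =>
          rw [IsScalarTower.algebraMap_apply K K[X] S, D.map_algebraMap, smul_zero]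
        | add x y _ _ hx hy => rw [map_add, smul_add, hx, hy, add_zero]
        | mul x y _ _ hx hy =>
          rw [D.leibniz, smul_add, smul_comm _ x, smul_comm _ y, hx, hy, smul_zero, smul_zero,
            add_zero]
      intro m
      refine ⟨_, hδ, ?_⟩
      have hm : m ∈ Submodule.span S (Set.range D) := by
        rw [KaehlerDifferential.span_range_derivation]; trivial
      induction hm using Submodule.span_induction with
      | mem x hx => obtain ⟨x, rfl⟩ := hx; exact hall x
      | zero => exact smul_zero _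
      | add x y _ _ hx hy => rw [smul_add, hx, hy, add_zero]
      | smul c x _ hx => rw [smul_comm, hx, smul_zero]
    exact this
  set p : Ideal K[X] := q.under K[X] with hp
  have hp' : p = Ideal.span {minpoly K (s t)} := by
    ext g
    rw [hp, Ideal.under_def, Ideal.mem_comap, hq, RingHom.mem_ker, hal, ← aeval_algHom_apply,
      Ideal.mem_span_singleton, minpoly.dvd_iff]
  let := Localization.AtPrime.algebraOfLiesOver p q
  have key := ((Algebra.isUnramifiedAt_iff_map_eq K[X] p q).1 hunr).2
  have h1 : algebraMap S (Localization.AtPrime q) a ∈ IsLocalRing.maximalIdeal _ :=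
    (IsLocalization.AtPrime.to_map_mem_maximal_iff _ q a).2 ha
  rw [← key, hp', Ideal.map_span, Set.image_singleton, Ideal.mem_span_singleton] at h1
  obtain ⟨c, hc⟩ := h1
  obtain ⟨b, u, rfl⟩ := IsLocalization.exists_mk'_eq q.primeCompl c
  refine ⟨u, b, u.2, ?_⟩
  apply IsLocalization.injective (Localization.AtPrime q) q.primeCompl_le_nonZeroDivisors
  rw [map_mul, hc, mul_assoc, IsLocalization.mk'_spec, map_mul, ← hal,
    ← IsScalarTower.algebraMap_apply]

/-- the local ring at `s` is a discrete valuation ring with uniformiser from `K[t]` -/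
theorem placeb_dvr (h : Etale S s t Y) [(RingHom.ker s).IsPrime] :
    ∃ _ : IsDiscreteValuationRing (Localization.AtPrime (RingHom.ker s)),
      Irreducible (algebraMap S (Localization.AtPrime (RingHom.ker s))
        (aeval t (minpoly K (s t)))) := by
  have := placeb_fin h
  have : IsNoetherianRing S := Algebra.FiniteType.isNoetherianRing K S
  set R := Localization.AtPrime (RingHom.ker s)
  have : IsNoetherianRing R := IsLocalization.isNoetherianRing (RingHom.ker s).primeCompl R ‹_›
  have hinj := IsLocalization.injective R (RingHom.ker s).primeCompl_le_nonZeroDivisors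
  have hm : IsLocalRing.maximalIdeal R =
      Ideal.span {algebraMap S R (aeval t (minpoly K (s t)))} := by
    apply le_antisymm
    · intro x hx
      obtain ⟨a, w, rfl⟩ := IsLocalization.exists_mk'_eq (RingHom.ker s).primeCompl x
      have ha : s a = 0 := (IsLocalization.AtPrime.mk'_mem_maximal_iff R _ a w).1 hx
      obtain ⟨u, b, hu, e⟩ := placeb_div h ha
      have hu' := IsLocalization.map_units R (⟨u, hu⟩ : (RingHom.ker s).primeCompl)
      rw [← Ideal.mul_unit_mem_iff_mem _ hu', ← Ideal.mul_unit_mem_iff_mem _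
        (IsLocalization.map_units R w), mul_right_comm, IsLocalization.mk'_spec, ← map_mul, e,
        map_mul]
      exact Ideal.mul_mem_right _ _ (Ideal.mem_span_singleton_self _)
    · rw [Ideal.span_singleton_le_iff_mem]
      exact (IsLocalization.AtPrime.to_map_mem_maximal_iff R (RingHom.ker s) _).2 placeb_s_pi
  have hne : algebraMap S R (aeval t (minpoly K (s t))) ≠ 0 := fun e =>
    placeb_pi_ne h (hinj (e.trans (map_zero _).symm))
  have hnf : ¬ IsField R := by
    rw [IsLocalRing.isField_iff_maximalIdeal_eq, hm, Ideal.span_singleton_eq_bot]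
    exact hne
  have hd : IsDiscreteValuationRing R :=
    ((IsDiscreteValuationRing.TFAE R hnf).out 0 4).2 (show (IsLocalRing.maximalIdeal R).IsPrincipal
      from ⟨⟨_, hm⟩⟩)
  exact ⟨hd, (IsDiscreteValuationRing.irreducible_iff_uniformizer _).2 hm⟩

theorem placeb_fac (h : Etale S s t Y) {a : S} (ha : a ≠ 0) :
    ∃ (j : ℕ) (u b : S), s u ≠ 0 ∧ s b ≠ 0 ∧ a * u = aeval t (minpoly K (s t)) ^ j * b := by
  have := placeb_prime s
  obtain ⟨_, hirr⟩ := placeb_dvr h
  set R := Localization.AtPrime (RingHom.ker s)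
  have hinj := IsLocalization.injective R (RingHom.ker s).primeCompl_le_nonZeroDivisors
  have ha' : algebraMap S R a ≠ 0 := fun e => ha (hinj (e.trans (map_zero _).symm))
  obtain ⟨j, w, hw⟩ := IsDiscreteValuationRing.eq_unit_mul_pow_irreducible ha' hirr
  obtain ⟨b, u, e⟩ := IsLocalization.exists_mk'_eq (RingHom.ker s).primeCompl (w : R)
  refine ⟨j, u, b, u.2, ?_, hinj ?_⟩
  · exact (IsLocalization.AtPrime.isUnit_mk'_iff R _ b u).1 (e ▸ w.isUnit)
  · rw [map_mul, hw, ← e, mul_right_comm, IsLocalization.mk'_spec, map_mul, map_pow, mul_comm]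

theorem placeb_exists (h : Etale S s t Y) : ∃ P : Place K F Λ, ∀ a : S, P.Val a (s a) := by
  have := placeb_prime s
  obtain ⟨_, -⟩ := placeb_dvr h
  set R := Localization.AtPrime (RingHom.ker s)
  have hF : ∀ y : (RingHom.ker s).primeCompl, IsUnit (algebraMap S F y) := fun y =>
    IsUnit.mk0 _ fun e => y.2 (by
      have : (y : S) = 0 := Subtype.ext e
      rw [this]; exact zero_mem _)
  have hΛ : ∀ y : (RingHom.ker s).primeCompl, IsUnit ((s : S →+* Λ) y) := fun y =>
    IsUnit.mk0 _ y.2
  let : Algebra R F := (IsLocalization.lift hF).toAlgebra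
  have : IsScalarTower S R F := IsScalarTower.of_algebraMap_eq fun x =>
    (IsLocalization.lift_eq hF x).symm
  have : IsFractionRing S F := IsFractionRing.of_field S F fun z => by
    obtain ⟨a, ha, b, hb, -, e⟩ := h.frac z
    exact ⟨⟨a, ha⟩, ⟨b, hb⟩, e⟩
  have : IsFractionRing R F :=
    IsFractionRing.isFractionRing_of_isDomain_of_isLocalization (RingHom.ker s).primeCompl R F
  set v := (IsDiscreteValuationRing.maximalIdeal R).valuation F
  have hle : ∀ r : R, algebraMap R F r ∈ v.integer := fun r =>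
    (IsDiscreteValuationRing.maximalIdeal R).valuation_le_one r
  let i : R →+* v.integer := (algebraMap R F).codRestrict v.integer hle
  have hi : Function.Bijective i := by
    refine ⟨fun x y e => IsFractionRing.injective R F (congrArg Subtype.val e), fun x => ?_⟩
    obtain ⟨a, ha⟩ := IsDiscreteValuationRing.exists_lift_of_le_one (A := R) x.2
    exact ⟨a, Subtype.ext ha⟩
  let e := RingEquiv.ofBijective i hi
  let ev : v.integer →+* Λ := (IsLocalization.lift (S := R) hΛ).comp e.symm.toRingHom
  have hval : ∀ a : S, ∃ hm : (a : F) ∈ v.integer, ev ⟨a, hm⟩ = s a := by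
    intro a
    have e1 : algebraMap R F (algebraMap S R a) = a := (IsScalarTower.algebraMap_apply S R F a).symm
    refine ⟨e1 ▸ hle _, ?_⟩
    have e2 : e.symm ⟨a, e1 ▸ hle _⟩ = algebraMap S R a := by
      rw [RingEquiv.symm_apply_eq]
      exact Subtype.ext e1.symm
    show IsLocalization.lift (S := R) hΛ (e.symm ⟨a, _⟩) = s a
    rw [e2, IsLocalization.lift_eq]
    rfl
  refine ⟨⟨v, (IsDiscreteValuationRing.maximalIdeal R).valuation_surjective F, ev, fun c => ?_⟩,
    hval⟩
  obtain ⟨hm, e3⟩ := hval (algebraMap K S c)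
  exact ⟨hm, e3.trans (s.commutes c)⟩

theorem placeb_coe_ne {a : S} (ha : s a ≠ 0) : (a : F) ≠ 0 := fun e => ha (by
  have : a = 0 := Subtype.ext e
  rw [this, map_zero])

theorem placeb_pi_ne' (h : Etale S s t Y) : ((aeval t (minpoly K (s t)) : S) : F) ≠ 0 :=
  fun e => placeb_pi_ne h (Subtype.ext e)

theorem placeb_ord {P : Place K F Λ} (h : Etale S s t Y) (hP : ∀ a : S, P.Val a (s a))
    {a u b : S} {j : ℕ} (hu : s u ≠ 0) (hb : s b ≠ 0) (ha : a ≠ 0)
    (e : a * u = aeval t (minpoly K (s t)) ^ j * b) :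
    P.ord a = j * P.ord ((aeval t (minpoly K (s t)) : S) : F) := by
  have e' : (a : F) * u = ((aeval t (minpoly K (s t)) : S) : F) ^ j * b := by
    simpa using congrArg Subtype.val e
  have ha' : (a : F) ≠ 0 := fun e => ha (Subtype.ext e)
  have := congrArg P.ord e'
  rw [P.ord_mul ha' (placeb_coe_ne hu), P.ord_mul (pow_ne_zero _ (placeb_pi_ne' h))
    (placeb_coe_ne hb), (hP u).ord_eq_zero hu, (hP b).ord_eq_zero hb, P.ord_pow] at this
  simpa using this

/-- every nonzero element of the field is a power of the uniformiser times a unit -/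
theorem placeb_frac (h : Etale S s t Y) {f : F} (hf : f ≠ 0) :
    ∃ (j k : ℕ) (u b : S), s u ≠ 0 ∧ s b ≠ 0 ∧
      f * ((aeval t (minpoly K (s t)) : S) : F) ^ k * u =
        ((aeval t (minpoly K (s t)) : S) : F) ^ j * b := by
  obtain ⟨a, ha, c, hc, hc0, rfl⟩ := h.frac f
  have ha0 : (⟨a, ha⟩ : S) ≠ 0 := fun e => hf (by
    have : a = 0 := congrArg Subtype.val e
    rw [this, zero_div])
  have hc1 : (⟨c, hc⟩ : S) ≠ 0 := fun e => hc0 (congrArg Subtype.val e)
  obtain ⟨j, u, b, hu, hb, e⟩ := placeb_fac h ha0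
  obtain ⟨k, u', b', hu', hb', e'⟩ := placeb_fac h hc1
  have e1 : a * u = ((aeval t (minpoly K (s t)) : S) : F) ^ j * b := by
    simpa using congrArg Subtype.val e
  have e2 : c * u' = ((aeval t (minpoly K (s t)) : S) : F) ^ k * b' := by
    simpa using congrArg Subtype.val e'
  refine ⟨j, k, u * b', b * u', by rw [map_mul]; exact mul_ne_zero hu hb',
    by rw [map_mul]; exact mul_ne_zero hb hu', ?_⟩
  rw [MulMemClass.coe_mul, MulMemClass.coe_mul]
  field_simp
  linear_combination (c * u') * e1 - (a * u) * e2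

theorem placeb_ord_frac {P : Place K F Λ} (h : Etale S s t Y) (hP : ∀ a : S, P.Val a (s a))
    {f : F} (hf : f ≠ 0) {j k : ℕ} {u b : S} (hu : s u ≠ 0) (hb : s b ≠ 0)
    (e : f * ((aeval t (minpoly K (s t)) : S) : F) ^ k * u =
        ((aeval t (minpoly K (s t)) : S) : F) ^ j * b) :
    P.ord f = (j - k) * P.ord ((aeval t (minpoly K (s t)) : S) : F) := by
  have hπ := placeb_pi_ne' h
  have := congrArg P.ord e
  rw [P.ord_mul (mul_ne_zero hf (pow_ne_zero _ hπ)) (placeb_coe_ne hu),
    P.ord_mul hf (pow_ne_zero _ hπ), P.ord_mul (pow_ne_zero _ hπ) (placeb_coe_ne hb),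
    (hP u).ord_eq_zero hu, (hP b).ord_eq_zero hb, P.ord_pow, P.ord_pow] at this
  linear_combination this

theorem placeb_ord_pi {P : Place K F Λ} (h : Etale S s t Y) (hP : ∀ a : S, P.Val a (s a)) :
    P.ord ((aeval t (minpoly K (s t)) : S) : F) = 1 := by
  have h0 : 0 < P.ord ((aeval t (minpoly K (s t)) : S) : F) := by
    have := hP (aeval t (minpoly K (s t)))
    rw [placeb_s_pi] at this
    exact this.ord_pos (placeb_pi_ne' h)
  obtain ⟨f, hf⟩ := P.surj (WithZero.exp (-1 : ℤ))
  have hf0 : f ≠ 0 := by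
    rintro rfl
    rw [map_zero] at hf
    exact WithZero.exp_ne_zero hf.symm
  have h1 : P.ord f = 1 := by
    rw [Place.ord, hf, WithZero.log_exp, neg_neg]
  obtain ⟨j, k, u, b, hu, hb, e⟩ := placeb_frac h hf0
  rw [placeb_ord_frac h hP hf0 hu hb e] at h1
  exact Int.eq_one_of_mul_eq_one_left h0.le h1

theorem placeb_v {P : Place K F Λ} {f : F} (hf : f ≠ 0) : P.v f = WithZero.exp (-P.ord f) := by
  rw [Place.ord, neg_neg, WithZero.exp_log ((Valuation.ne_zero_iff _).2 hf)]

theorem Etale.existsUnique (h : Etale S s t Y) :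
    ∃! P : Place K F Λ, ∀ a : S, P.Val a (s a) := by
  obtain ⟨P, hP⟩ := placeb_exists h
  refine ⟨P, hP, fun Q hQ => ?_⟩
  have hπ := placeb_pi_ne' h
  refine Place.ext' ?_ ?_
  · ext f
    rcases eq_or_ne f 0 with rfl | hf
    · rw [map_zero, map_zero]
    · obtain ⟨j, k, u, b, hu, hb, e⟩ := placeb_frac h hf
      rw [placeb_v hf, placeb_v hf, placeb_ord_frac h hP hf hu hb e,
        placeb_ord_frac h hQ hf hu hb e, placeb_ord_pi h hP, placeb_ord_pi h hQ]
  · intro f c hc
    rcases eq_or_ne f 0 with rfl | hf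
    · have h1 := hQ 0
      have h2 := hP 0
      rw [ZeroMemClass.coe_zero] at h1 h2
      rw [hc.unique h1]
      exact h2
    · obtain ⟨j, k, u, b, hu, hb, e⟩ := placeb_frac h hf
      have h1 := (Q.mem_iff hf).1 hc.1
      rw [placeb_ord_frac h hQ hf hu hb e, placeb_ord_pi h hQ] at h1
      obtain ⟨n, rfl⟩ : ∃ n, j = k + n := ⟨j - k, by omega⟩
      have e2 : f = ((aeval t (minpoly K (s t)) ^ n * b : S) : F) * (u : F)⁻¹ := by
        have hu' := placeb_coe_ne hu
        rw [MulMemClass.coe_mul, SubmonoidClass.coe_pow, eq_mul_inv_iff_mul_eq₀ hu']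
        apply mul_left_cancel₀ (pow_ne_zero k hπ)
        linear_combination e
      have h2 := (hQ (aeval t (minpoly K (s t)) ^ n * b)).mul ((hQ u).inv hu)
      have h3 := (hP (aeval t (minpoly K (s t)) ^ n * b)).mul ((hP u).inv hu)
      rw [← e2] at h2 h3
      rw [hc.unique h2]
      exact h3

theorem Etale.ord_aeval (h : Etale S s t Y) {P : Place K F Λ} (hP : ∀ a : S, P.Val a (s a))
    {μ : K[X]} (hμ : μ ≠ 0) :
    P.ord (aeval (t : F) μ) = (μ.map (algebraMap K Λ)).rootMultiplicity (s t) := by
  have hirr := minpoly.irreducible (placeb_int (K := K) (s t))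
  obtain ⟨j, ν, hν, rfl⟩ := WfDvdMonoid.max_power_factor hμ hirr
  have hν1 : aeval (s t) ν ≠ 0 := fun e => hν (minpoly.dvd K _ e)
  have hν2 : s (aeval t ν) ≠ 0 := by rwa [← aeval_algHom_apply]
  have hc : ∀ g : K[X], aeval (t : F) g = ((aeval t g : S) : F) := fun g =>
    aeval_algHom_apply S.val t g
  have hinj := (algebraMap K Λ).injective
  have hm0 : (minpoly K (s t)).map (algebraMap K Λ) ≠ 0 :=
    (Polynomial.map_ne_zero_iff hinj).2 hirr.ne_zero
  have h1 : ((minpoly K (s t)).map (algebraMap K Λ)).rootMultiplicity (s t) = 1 := by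
    apply le_antisymm (rootMultiplicity_le_one_of_separable hirr.separable.map _)
    refine (rootMultiplicity_pos hm0).2 ?_
    rw [IsRoot.def, eval_map_algebraMap, minpoly.aeval]
  have h2 : (ν.map (algebraMap K Λ)).rootMultiplicity (s t) = 0 :=
    rootMultiplicity_eq_zero (by rwa [IsRoot.def, eval_map_algebraMap])
  have h3 : (((minpoly K (s t)).map (algebraMap K Λ)) ^ j).rootMultiplicity (s t) = j := by
    rw [← count_roots, roots_pow, Multiset.count_nsmul, count_roots, h1, mul_one]
  have h4 := (Polynomial.map_ne_zero_iff hinj).2 hμ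
  rw [Polynomial.map_mul, Polynomial.map_pow] at h4 ⊢
  rw [rootMultiplicity_mul h4, h2, h3, map_mul, map_pow, hc, hc,
    P.ord_mul (pow_ne_zero _ (placeb_pi_ne' h)) (placeb_coe_ne hν2), P.ord_pow,
    placeb_ord_pi h hP, (hP _).ord_eq_zero hν2]
  simp

/-- every element is a unit times a power of a uniformiser taken from `K[t]` -/
theorem Etale.exists_factor (h : Etale S s t Y) {P : Place K F Λ} (hP : ∀ a : S, P.Val a (s a))
    {a : S} (ha : a ≠ 0) : ∃ (j : ℕ) (u b : S), s u ≠ 0 ∧ s b ≠ 0 ∧ P.ord a = j ∧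
      a * u = aeval t (minpoly K (s t)) ^ j * b := by
  obtain ⟨j, u, b, hu, hb, e⟩ := placeb_fac h ha
  refine ⟨j, u, b, hu, hb, ?_, e⟩
  rw [placeb_ord h hP hu hb ha e, placeb_ord_pi h hP, mul_one]

end Pool.Agent.Lib.MP_796ce4_ag
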