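import Pool.Agent.Lib.MP_796ce4_ag.PlaceA

/-! Finiteness of the places at infinity. -/

namespace Pool.Agent.Lib.MP_796ce4_ag

open WeierstrassCurve Polynomial Module
open scoped Classical IntermediateField

set_option linter.unusedSectionVars false

variable {K F Λ : Type} [Field K] [Field F] [Field Λ] [Algebra K F] [Algebra K Λ]
  [Algebra.IsAlgebraic K Λ]

/-- two surjective discrete valuations with the same ring agree -/
theorem placef_v_eq {v w : Valuation F (WithZero (Multiplicative ℤ))}
    (hv : Function.Surjective v) (hw : Function.Surjective w)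
    (h : ∀ f, v f ≤ 1 ↔ w f ≤ 1) : v = w := by
  have he : v.IsEquiv w := Valuation.isEquiv_iff_val_le_one.2 (fun {f} => h f)
  obtain ⟨π, hπ⟩ := hv (WithZero.exp (-1))
  have hπ0 : π ≠ 0 := by
    rintro rfl
    rw [map_zero] at hπ
    exact WithZero.exp_ne_zero hπ.symm
  have hwπ : w π ≠ 0 := by simpa using hπ0
  have key : ∀ f : F, f ≠ 0 →
      WithZero.log (w f) = -(WithZero.log (v f) * WithZero.log (w π)) := by
    intro f hf
    have hvf : v f ≠ 0 := by simpa using hf
    have hwf : w f ≠ 0 := by simpa using hf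
    have h1 : v (f * π ^ (WithZero.log (v f))) = 1 := by
      rw [map_mul, map_zpow₀, hπ, ← WithZero.exp_zsmul]
      conv_lhs => rw [← WithZero.exp_log hvf]
      rw [← WithZero.exp_add]
      simp
    have h2 := he.eq_one_iff_eq_one.1 h1
    rw [map_mul, map_zpow₀] at h2
    have h3 := congrArg WithZero.log h2
    rw [WithZero.log_mul hwf (zpow_ne_zero _ hwπ), WithZero.log_zpow, WithZero.log_one,
      smul_eq_mul] at h3
    linarith
  have hm : WithZero.log (w π) = -1 := by
    obtain ⟨g, hg⟩ := hw (WithZero.exp 1)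
    have hg0 : g ≠ 0 := by
      rintro rfl
      rw [map_zero] at hg
      exact WithZero.exp_ne_zero hg.symm
    have h1 := key g hg0
    rw [hg, WithZero.log_exp] at h1
    have h2 : w π < 1 := he.lt_one_iff_lt_one.1 (by
      rw [hπ, ← WithZero.exp_zero, WithZero.exp_lt_exp]; norm_num)
    have h3 : WithZero.log (w π) < 0 := by
      rw [WithZero.log_lt_iff_lt_exp hwπ, WithZero.exp_zero]; exact h2
    have h4 : WithZero.log (w π) * (-WithZero.log (v g)) = 1 := by linarith
    rcases Int.eq_one_or_neg_one_of_mul_eq_one h4 with h5 | h5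
    · omega
    · exact h5
  ext f
  by_cases hf : f = 0
  · simp [hf]
  have hvf : v f ≠ 0 := by simpa using hf
  have hwf : w f ≠ 0 := by simpa using hf
  have h1 := key f hf
  rw [hm] at h1
  rw [← WithZero.exp_log hvf, ← WithZero.exp_log hwf, h1]
  simp

section Ded

variable {B : Type} [CommRing B] [IsDedekindDomain B] [Algebra B F] [IsFractionRing B F]

/-- the localisation of a Dedekind domain at a nonzero prime is a valuation ring -/
theorem placef_frac {p : Ideal B} [p.IsPrime] (hp : p ≠ ⊥) (f : F) :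
    (∃ r s : B, s ∉ p ∧ f * algebraMap B F s = algebraMap B F r) ∨
    (f ≠ 0 ∧ ∃ r s : B, s ∉ p ∧ r ∈ p ∧ f⁻¹ * algebraMap B F s = algebraMap B F r) := by
  have hd : IsDiscreteValuationRing (Localization.AtPrime p) :=
    IsLocalization.AtPrime.isDiscreteValuationRing_of_dedekind_domain B hp _
  have hinj : Function.Injective (algebraMap B (Localization.AtPrime p)) :=
    IsLocalization.injective _ p.primeCompl_le_nonZeroDivisors
  by_cases hf : f = 0
  · exact Or.inl ⟨0, 1, (Ideal.ne_top_iff_one p).1 (Ideal.IsPrime.ne_top ‹_›), by simp [hf]⟩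
  obtain ⟨a, b, hb, rfl⟩ := IsFractionRing.div_surjective (A := B) f
  have hb' : algebraMap B F b ≠ 0 := IsFractionRing.to_map_ne_zero_of_mem_nonZeroDivisors hb
  have ha' : algebraMap B F a ≠ 0 := by
    intro h0
    exact hf (by rw [h0, zero_div])
  obtain ⟨c, hc⟩ := ValuationRing.cond (algebraMap B (Localization.AtPrime p) a)
    (algebraMap B (Localization.AtPrime p) b)
  obtain ⟨r, s, rfl⟩ := IsLocalization.exists_mk'_eq p.primeCompl c
  have hs : (s : B) ∉ p := s.2
  rcases hc with hc | hc
  · have h1 : a * r = b * s := by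
      apply hinj
      rw [map_mul, map_mul, ← hc, mul_assoc, IsLocalization.mk'_spec]
    have h2 := congrArg (algebraMap B F) h1
    rw [map_mul, map_mul] at h2
    by_cases hr : r ∈ p
    · refine Or.inr ⟨hf, r, s, hs, hr, ?_⟩
      rw [inv_div, div_mul_eq_mul_div, ← h2]
      field_simp
    · refine Or.inl ⟨s, r, hr, ?_⟩
      rw [div_mul_eq_mul_div, h2]
      field_simp
  · have h1 : b * r = a * s := by
      apply hinj
      rw [map_mul, map_mul, ← hc, mul_assoc, IsLocalization.mk'_spec]
    have h2 := congrArg (algebraMap B F) h1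
    rw [map_mul, map_mul] at h2
    refine Or.inl ⟨r, s, hs, ?_⟩
    rw [div_mul_eq_mul_div, ← h2]
    field_simp

theorem placef_val_frac {P : Place K F Λ} {φ : B →+* Λ}
    (hP : ∀ b, P.Val (algebraMap B F b) (φ b)) {f : F} {r s : B} (hs : φ s ≠ 0)
    (h : f * algebraMap B F s = algebraMap B F r) : P.Val f (φ r * (φ s)⁻¹) := by
  have hs0 : algebraMap B F s ≠ 0 := by
    intro h0
    have : s = 0 := (IsFractionRing.injective B F) (by rw [h0, map_zero])
    exact hs (by rw [this, map_zero])
  have : f = algebraMap B F r * (algebraMap B F s)⁻¹ := by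
    rw [← h]; field_simp
  rw [this]
  exact (hP r).mul ((hP s).inv hs)

theorem placef_val {P Q : Place K F Λ} {φ : B →+* Λ} (hφ : RingHom.ker φ ≠ ⊥)
    (hP : ∀ b, P.Val (algebraMap B F b) (φ b)) (hQ : ∀ b, Q.Val (algebraMap B F b) (φ b))
    (f : F) (c : Λ) (h : P.Val f c) : Q.Val f c := by
  have _ : (RingHom.ker φ).IsPrime := RingHom.ker_isPrime φ
  rcases placef_frac hφ f with ⟨r, s, hs, h1⟩ | ⟨hf, r, s, hs, hr, h1⟩
  · rw [RingHom.mem_ker] at hs
    rw [h.unique (placef_val_frac hP hs h1)]
    exact placef_val_frac hQ hs h1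
  · exfalso
    rw [RingHom.mem_ker] at hs hr
    have h2 := h.mul (placef_val_frac hP hs h1)
    rw [hr, mul_inv_cancel₀ hf, zero_mul, mul_zero] at h2
    have h3 := P.val_alg 1
    rw [map_one, map_one] at h3
    exact one_ne_zero (h3.unique h2)

theorem placef_ext {P Q : Place K F Λ} {φ : B →+* Λ} (hφ : RingHom.ker φ ≠ ⊥)
    (hP : ∀ b, P.Val (algebraMap B F b) (φ b)) (hQ : ∀ b, Q.Val (algebraMap B F b) (φ b)) :
    P = Q := by
  refine Place.ext' (placef_v_eq P.surj Q.surj fun f => ⟨fun h => ?_, fun h => ?_⟩)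
    (placef_val hφ hP hQ)
  · obtain ⟨c, hc⟩ := Place.exists_val (P := P) (f := f) h
    exact (placef_val hφ hP hQ f c hc).1
  · obtain ⟨c, hc⟩ := Place.exists_val (P := Q) (f := f) h
    exact (placef_val hφ hQ hP f c hc).1

theorem placef_finite {A : Type} [CommRing A] [Algebra A B] [Algebra A F] [IsScalarTower A B F]
    [Module.Finite A B] (ψ : A →+* Λ) {t : A} (ht : algebraMap A F t ≠ 0) (hψ : ψ t = 0) :
    {P : Place K F Λ | ∀ a, P.Val (algebraMap A F a) (ψ a)}.Finite := by
  let _ : Algebra A Λ := ψ.toAlgebra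
  have hex : ∀ P : {P : Place K F Λ | ∀ a, P.Val (algebraMap A F a) (ψ a)},
      ∃ φ : B →ₐ[A] Λ, ∀ b, P.1.Val (algebraMap B F b) (φ b) := by
    rintro ⟨P, hP⟩
    have hmem : ∀ b : B, algebraMap B F b ∈ P.v.integer := by
      intro b
      refine (Valuation.integer.integers P.v).mem_of_integral ?_
      refine IsIntegral.map_of_comp_eq
        ((algebraMap A F).codRestrict P.v.integer fun a => (hP a).1) (algebraMap B F) ?_
        (Algebra.IsIntegral.isIntegral b)
      ext a
      exact IsScalarTower.algebraMap_apply A B F a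
    refine ⟨{ P.ev.comp ((algebraMap B F).codRestrict P.v.integer hmem) with
      commutes' := fun a => ?_ }, fun b => ⟨hmem b, rfl⟩⟩
    have h1 : P.Val (algebraMap B F (algebraMap A B a))
        (P.ev ⟨algebraMap B F (algebraMap A B a), hmem _⟩) := ⟨hmem _, rfl⟩
    have h2 := hP a
    rw [IsScalarTower.algebraMap_apply A B F a] at h2
    exact h1.unique h2
  choose φ hφ using hex
  refine Set.finite_coe_iff.1 (Finite.of_injective φ fun P Q hPQ => Subtype.ext ?_)
  refine placef_ext (B := B) (φ := (φ P : B →+* Λ)) ?_ (hφ P) (by rw [hPQ]; exact hφ Q)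
  intro h0
  have h1 : algebraMap A B t ∈ RingHom.ker (φ P : B →+* Λ) := by
    rw [RingHom.mem_ker]
    exact ((φ P).commutes t).trans hψ
  rw [h0, Ideal.mem_bot] at h1
  exact ht (by rw [IsScalarTower.algebraMap_apply A B F, h1, map_zero])

end Ded

open scoped IntermediateField.algebraAdjoinAdjoin in
theorem placef_zero [CharZero K] {t : F} (ht : Transcendental K t)
    (hF : FiniteDimensional K⟮t⟯ F) : {P : Place K F Λ | P.Val t 0}.Finite := by
  let e := Polynomial.algEquivOfTranscendental K t ht
  have _ : IsPrincipalIdealRing (Algebra.adjoin K ({t} : Set F)) :=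
    IsPrincipalIdealRing.of_surjective (e : K[X] →+* Algebra.adjoin K ({t} : Set F)) e.surjective
  have _ : CharZero K⟮t⟯ := algebraRat.charZero _
  have _ : IsDedekindDomain (integralClosure (Algebra.adjoin K ({t} : Set F)) F) :=
    integralClosure.isDedekindDomain (Algebra.adjoin K ({t} : Set F)) K⟮t⟯ F
  have _ : Module.Finite (Algebra.adjoin K ({t} : Set F))
      (integralClosure (Algebra.adjoin K ({t} : Set F)) F) :=
    IsIntegralClosure.finite (Algebra.adjoin K ({t} : Set F)) K⟮t⟯ F _
  have _ : IsFractionRing (integralClosure (Algebra.adjoin K ({t} : Set F)) F) F :=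
    integralClosure.isFractionRing_of_finite_extension K⟮t⟯ F
  have ht0 : t ≠ 0 := by
    rintro rfl
    exact ht isAlgebraic_zero
  refine (placef_finite (B := integralClosure (Algebra.adjoin K ({t} : Set F)) F)
    ((aeval (0 : Λ) : K[X] →ₐ[K] Λ).comp e.symm.toAlgHom).toRingHom
    (t := e X) ?_ ?_).subset ?_
  · rw [Polynomial.algEquivOfTranscendental_apply_X]
    exact ht0
  · simp
  · intro P hP a
    obtain ⟨g, rfl⟩ := e.surjective a
    have h1 : algebraMap (Algebra.adjoin K ({t} : Set F)) F (e g) = aeval t g := by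
      rw [Polynomial.algEquivOfTranscendental_apply, ← aeval_algebraMap_apply]
      rfl
    rw [h1]
    simpa using Place.Val.aeval hP g

/-- finitely many places at infinity -/
theorem Place.finite_pole [CharZero K] {x : F} (hx : Transcendental K x)
    (hF : FiniteDimensional K⟮x⟯ F) : {P : Place K F Λ | x ∉ P.v.integer}.Finite := by
  have hx' : Transcendental K x⁻¹ := fun h => hx (IsAlgebraic.inv_iff.1 h)
  have he : K⟮x⁻¹⟯ = K⟮x⟯ := by
    apply le_antisymm
    · rw [IntermediateField.adjoin_simple_le_iff]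
      exact inv_mem (IntermediateField.mem_adjoin_simple_self K x)
    · rw [IntermediateField.adjoin_simple_le_iff]
      have := inv_mem (IntermediateField.mem_adjoin_simple_self K x⁻¹)
      rwa [inv_inv] at this
  refine (placef_zero (Λ := Λ) hx' (he ▸ hF)).subset fun P hP => ?_
  have h1 : 1 < P.v x := not_le.1 hP
  have h2 : P.v x⁻¹ < 1 := by
    rw [map_inv₀]
    exact inv_lt_one_of_one_lt₀ h1
  obtain ⟨c, hc⟩ := Place.exists_val (P := P) (f := x⁻¹) h2.le
  have h3 := hc.eq_zero_iff.2 h2
  rw [h3] at hc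
  exact hc

end Pool.Agent.Lib.MP_796ce4_ag
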