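import Pool.Agent.Lib.MP_796ce4_ag.R0a
import Pool.Agent.Lib.MP_796ce4_ag.PlaceA

/-! The class map, and relations given by curves over finite extensions. -/

namespace Pool.Agent.Lib.MP_796ce4_ag

open WeierstrassCurve Polynomial Module
open scoped Classical IntermediateField

set_option linter.unusedSectionVars false

variable {K Λ ι : Type} [Field K] [CharZero K] [Field Λ] [IsAlgClosed Λ] [Algebra K Λ]
  [IsGalois K Λ] [Fintype ι] {W : ι → WeierstrassCurve K} {L L' : IntermediateField K Λ}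

theorem r0_spec_gal {F : Type} [Field F] (O : Subring F) (ev : O →+* Λ) (W₁ : Affine F)
    (E : WeierstrassCurve K) (σ : Λ ≃ₐ[K] Λ) (P : W₁.Point) :
    spec O ((σ : Λ →+* Λ).comp ev) W₁ (Affine.baseChange E Λ) P =
      galP E σ (spec O ev W₁ (Affine.baseChange E Λ) P) := by
  cases P with
  | zero => exact (map_zero (galP E σ)).symm
  | some x y h =>
    have key : ∀ a b : Λ, (Affine.baseChange E Λ).Nonsingular (σ a) (σ b) ↔
        (Affine.baseChange E Λ).Nonsingular a b := fun a b =>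
      Affine.baseChange_nonsingular (W := E) (f := (σ : Λ →ₐ[K] Λ)) σ.injective a b
    unfold spec
    by_cases h1 : ∃ hx : x ∈ O, ∃ hy : y ∈ O,
        (Affine.baseChange E Λ).Nonsingular (ev ⟨x, hx⟩) (ev ⟨y, hy⟩)
    · have h2 : ∃ hx : x ∈ O, ∃ hy : y ∈ O, (Affine.baseChange E Λ).Nonsingular
          (((σ : Λ →+* Λ).comp ev) ⟨x, hx⟩) (((σ : Λ →+* Λ).comp ev) ⟨y, hy⟩) := by
        obtain ⟨hx, hy, h3⟩ := h1
        exact ⟨hx, hy, (key _ _).2 h3⟩
      simp only [dif_pos h1, dif_pos h2]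
      rfl
    · have h2 : ¬∃ hx : x ∈ O, ∃ hy : y ∈ O, (Affine.baseChange E Λ).Nonsingular
          (((σ : Λ →+* Λ).comp ev) ⟨x, hx⟩) (((σ : Λ →+* Λ).comp ev) ⟨y, hy⟩) := by
        rintro ⟨hx, hy, h3⟩
        exact h1 ⟨hx, hy, (key _ _).1 h3⟩
      simp only [dif_neg h1, dif_neg h2]
      exact (map_zero (galP E σ)).symm

section
variable {F : Type} [Field F] [Algebra K F]

/-- twist of a place by an automorphism -/
noncomputable def r0_tw (σ : Λ ≃ₐ[K] Λ) (P : Place K F Λ) : Place K F Λ where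
  v := P.v
  surj := P.surj
  ev := (σ : Λ →+* Λ).comp P.ev
  ev_alg c := by
    obtain ⟨h, e⟩ := P.ev_alg c
    exact ⟨h, by rw [RingHom.comp_apply, e]; exact σ.commutes c⟩

theorem r0_tw_tw (σ : Λ ≃ₐ[K] Λ) (P : Place K F Λ) : r0_tw σ⁻¹ (r0_tw σ P) = P := by
  refine Place.ext' rfl ?_
  rintro f c ⟨h, rfl⟩
  exact ⟨h, (σ.symm_apply_apply _).symm⟩

theorem r0_base {t : F} (ht : Transcendental K t) (hF : FiniteDimensional K⟮t⟯ F)
    {f : F} (hf : f ≠ 0) {s : Finset (Place K F Λ)} (hs : ∀ P : Place K F Λ, P.ord f ≠ 0 → P ∈ s)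
    (g : Pts W F) :
    cls W (∑ P ∈ s, P.ord f •
      AddMonoidAlgebra.single (fun i => spec P.v.integer P.ev _ _ (g i)) 1) = 0 := by
  set D : GR Λ W := ∑ P ∈ s, P.ord f •
      AddMonoidAlgebra.single (fun i => spec P.v.integer P.ev _ _ (g i)) 1 with hD
  have hD' : D = ∑ P ∈ s.filter (fun P => P.ord f ≠ 0), P.ord f •
      AddMonoidAlgebra.single (fun i => spec P.v.integer P.ev _ _ (g i)) 1 := by
    rw [hD, Finset.sum_filter_of_ne]
    intro P _ h h0
    exact h (by rw [h0, zero_smul])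
  have hinv : ∀ σ, galR W σ D = D := by
    intro σ
    rw [hD', map_sum]
    refine Finset.sum_nbij' (r0_tw σ) (r0_tw σ⁻¹) ?_ ?_ ?_ ?_ ?_
    · intro P hP
      have h := (Finset.mem_filter.1 hP).2
      exact Finset.mem_filter.2 ⟨hs _ h, h⟩
    · intro P hP
      have h := (Finset.mem_filter.1 hP).2
      exact Finset.mem_filter.2 ⟨hs _ h, h⟩
    · intro P _
      exact r0_tw_tw σ P
    · intro P _
      have := r0_tw_tw σ⁻¹ P
      rwa [inv_inv] at this
    · intro P _
      rw [map_zsmul, galR_single]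
      exact congrArg (fun y => P.ord f • AddMonoidAlgebra.single y (1 : ℚ))
        (funext fun i => (r0_spec_gal P.v.integer P.ev _ (W i) σ (g i)).symm)
  have hp : pushDiv W Λ g f = ∑ P ∈ s, Finsupp.single
      (fun i => spec P.v.integer P.ev _ _ (g i)) (P.ord f) := by
    unfold pushDiv
    refine finsum_eq_sum_of_support_subset _ ?_
    intro P hP
    refine hs P fun h0 => hP ?_
    change Finsupp.single _ (P.ord f) = 0
    rw [h0, Finsupp.single_zero]
  have hc : D.coeff = incl Λ W (pushDiv W Λ g f) := by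
    rw [hp, map_sum, hD]
    change (AddMonoidAlgebra.coeffLinearEquiv ℚ) _ = _
    rw [map_sum]
    refine Finset.sum_congr rfl fun P _ => ?_
    rw [map_zsmul]
    simp [incl]
  change QuotientAddGroup.mk' _ (avg W D) = 0
  rw [avg_of_inv hinv, hc, QuotientAddGroup.mk'_apply, QuotientAddGroup.eq_zero_iff]
  exact AddSubgroup.mem_map_of_mem _
    (AddSubgroup.subset_closure ⟨F, inferInstance, inferInstance, t, ht, hF, g, f, hf, rfl⟩)

theorem r0_ext (τ : L →ₐ[K] Λ) : ∃ σ : Λ ≃ₐ[K] Λ, ∀ x : L, σ x = τ x :=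
  ⟨AlgEquiv.ofBijective (τ.liftNormal Λ) (Algebra.IsAlgebraic.algHom_bijective _), fun x => by
    simpa using τ.liftNormal_commutes Λ x⟩

variable [Algebra L F] [IsScalarTower K L F]

theorem r0_fin [FiniteDimensional K L] {t : F} (hF : FiniteDimensional L⟮t⟯ F) :
    FiniteDimensional K⟮t⟯ F := by
  obtain ⟨α, hα⟩ := Field.exists_primitive_element K L
  have hi : IsIntegral K⟮t⟯ (algebraMap L F α) :=
    ((Algebra.IsIntegral.isIntegral (R := K) α).algebraMap (B := F)).tower_top
  set E : IntermediateField K⟮t⟯ F := K⟮t⟯⟮algebraMap L F α⟯ with hE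
  have : FiniteDimensional K⟮t⟯ E := IntermediateField.adjoin.finiteDimensional hi
  have h1 : ∀ c : L, algebraMap L F c ∈ E.toSubfield := by
    intro c
    have h2 : c ∈ K⟮α⟯ := hα ▸ IntermediateField.mem_top
    have h3 : K⟮α⟯ ≤ (E.restrictScalars K).comap (IsScalarTower.toAlgHom K L F) :=
      IntermediateField.adjoin_simple_le_iff.2 (IntermediateField.mem_adjoin_simple_self _ _)
    exact h3 h2
  have h4 : L⟮t⟯ ≤ E.toSubfield.toIntermediateField h1 :=
    IntermediateField.adjoin_simple_le_iff.2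
      (E.algebraMap_mem (⟨t, IntermediateField.mem_adjoin_simple_self _ _⟩ : K⟮t⟯))
  let : Algebra L⟮t⟯ E :=
    (Subfield.inclusion (S := L⟮t⟯.toSubfield) (T := E.toSubfield) h4).toAlgebra
  have : IsScalarTower L⟮t⟯ E F := IsScalarTower.of_algebraMap_eq fun _ => rfl
  have : Module.Finite E F := Module.Finite.of_restrictScalars_finite L⟮t⟯ E F
  exact Module.Finite.trans E F

/-- a place over `L` and an automorphism give a place over `K` -/
noncomputable def r0_pl (σ : Λ ≃ₐ[K] Λ) (P : Place L F Λ) : Place K F Λ where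
  v := P.v
  surj := P.surj
  ev := (σ : Λ →+* Λ).comp P.ev
  ev_alg c := by
    obtain ⟨h, e⟩ := P.ev_alg (algebraMap K L c)
    refine ⟨by rwa [IsScalarTower.algebraMap_apply K L F], ?_⟩
    rw [RingHom.comp_apply]
    simp only [IsScalarTower.algebraMap_apply K L F]
    rw [e]
    exact σ.commutes c

end

/-- a curve over a finite extension `L` -/
theorem R0 [FiniteDimensional K L] {F : Type} [Field F] [Algebra K F] [Algebra L F]
    [IsScalarTower K L F] {t : F} (ht : Transcendental L t) (hF : FiniteDimensional L⟮t⟯ F)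
    {f : F} (hf : f ≠ 0) {s : Finset (Place L F Λ)} (hs : ∀ P : Place L F Λ, P.ord f ≠ 0 → P ∈ s)
    (g : Pts W F) :
    clL W L (∑ P ∈ s, P.ord f •
      AddMonoidAlgebra.single (fun i => spec P.v.integer P.ev _ _ (g i)) 1) = 0 := by
  choose e he using r0_ext (K := K) (Λ := Λ) (L := L)
  set D : GR Λ W := ∑ P ∈ s, P.ord f •
      AddMonoidAlgebra.single (fun i => spec P.v.integer P.ev _ _ (g i)) 1 with hD
  let Φ : (L →ₐ[K] Λ) × Place L F Λ → Place K F Λ := fun a => r0_pl (e a.1) a.2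
  have hinj : Function.Injective Φ := by
    rintro ⟨τ, P⟩ ⟨τ', P'⟩ h
    have hv0 := congrArg Place.v h
    have hv : P.v = P'.v := hv0
    have hval : ∀ x c, P.Val x c → ∃ c', P'.Val x c' ∧ e τ' c' = e τ c := by
      rintro x c ⟨hx, rfl⟩
      have h1 : (Φ (τ, P)).Val x (e τ (P.ev ⟨x, hx⟩)) := ⟨hx, rfl⟩
      rw [h] at h1
      obtain ⟨hx', h2⟩ := h1
      exact ⟨_, ⟨hx', rfl⟩, h2⟩
    have hτ : τ = τ' := by
      ext1 c
      obtain ⟨c', h1, h2⟩ := hval _ _ (P.val_alg c)
      rw [h1.unique (P'.val_alg c)] at h2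
      exact (he τ c).symm.trans (h2.symm.trans (he τ' c))
    subst hτ
    refine Prod.ext rfl (Place.ext' hv fun x c h1 => ?_)
    obtain ⟨c', h2, h3⟩ := hval x c h1
    rwa [← (e τ).injective h3]
  have hsurj : Function.Surjective Φ := by
    intro P
    have hm : ∀ c : L, algebraMap L F c ∈ P.v.integer := fun c =>
      Place.mem_of_isIntegral ((Algebra.IsIntegral.isIntegral (R := K) c).algebraMap (B := F))
    let τ : L →ₐ[K] Λ :=
      { P.ev.comp ((algebraMap L F).codRestrict P.v.integer hm) with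
        commutes' := fun c => by
          obtain ⟨h, e⟩ := P.ev_alg c
          rw [← e]
          exact congrArg P.ev (Subtype.ext (IsScalarTower.algebraMap_apply K L F c).symm) }
    refine ⟨(τ, ⟨P.v, P.surj, ((e τ).symm : Λ →+* Λ).comp P.ev, fun c => ⟨hm c, ?_⟩⟩), ?_⟩
    · exact (e τ).symm_apply_eq.2 (he τ c).symm
    · refine Place.ext' rfl ?_
      rintro x c ⟨h, rfl⟩
      exact ⟨h, ((e τ).apply_symm_apply _).symm⟩
  have h0 := r0_base (W := W) (ht.of_tower_top K) (r0_fin hF) hf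
    (s := (Finset.univ ×ˢ s).map ⟨Φ, hinj⟩) (fun P hP => by
      obtain ⟨⟨τ, Q⟩, rfl⟩ := hsurj P
      exact Finset.mem_map.2 ⟨(τ, Q), Finset.mem_product.2 ⟨Finset.mem_univ _, hs Q hP⟩, rfl⟩) g
  rw [Finset.sum_map, Finset.sum_product] at h0
  have h1 : clL W L D = ∑ τ : L →ₐ[K] Λ, cls W (galR W (e τ) D) := by
    have h2 : ∀ τ, cls W (galR W (e τ) D) = cls W D := fun τ => by
      rw [← clL_bot, clL_gal, clL_bot]
    simp only [h2]
    rw [Finset.sum_const, Finset.card_univ, AlgHom.card, ← map_nsmul,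
      ← Nat.cast_smul_eq_nsmul ℚ]
    rfl
  rw [h1, ← map_sum, ← h0]
  congr 1
  refine Finset.sum_congr rfl fun τ _ => ?_
  rw [hD, map_sum]
  refine Finset.sum_congr rfl fun P _ => ?_
  rw [map_zsmul, galR_single]
  congr 2
  funext i
  exact (r0_spec_gal P.v.integer P.ev _ (W i) (e τ) (g i)).symm

theorem r0_aux [FiniteDimensional K L] (h₁ : ∀ i, (W i).a₁ = 0) (h₃ : ∀ i, (W i).a₃ = 0)
    (hΔ : ∀ i, (W i).Δ ≠ 0) {F : Type} [Field F] [Algebra K F] [Algebra L F]
    [IsScalarTower K L F] {t : F} (ht : Transcendental L t) (hF : FiniteDimensional L⟮t⟯ F)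
    {f : F} (hf : f ≠ 0) {s : Finset (Place L F Λ)} (hs : ∀ P : Place L F Λ, P.ord f ≠ 0 → P ∈ s)
    (g : Pts W F) (I : Finset ι) (h : Pts W F) :
    clL W L (∑ P ∈ s, P.ord f •
      (AddMonoidAlgebra.single (fun i => spec P.v.integer P.ev _ _ (h i)) 1 *
        ∏ i ∈ I, dl W i (spec P.v.integer P.ev _ _ (g i)))) = 0 := by
  induction I using Finset.induction_on generalizing h with
  | empty =>
    simp only [Finset.prod_empty, mul_one]
    exact R0 ht hF hf hs h
  | insert j I hj ih =>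
    have h1 := ih (h + Pi.single j (g j))
    have h2 := ih h
    refine Eq.trans ?_ ((congrArg₂ (· - ·) h1 h2).trans (sub_zero 0))
    rw [← map_sub, ← Finset.sum_sub_distrib]
    congr 1
    refine Finset.sum_congr rfl fun P _ => ?_
    have h3 : (fun i => spec P.v.integer P.ev _ _ ((h + Pi.single j (g j) : Pts W F) i) : Pts W Λ) =
        (fun i => spec P.v.integer P.ev _ _ (h i)) +
          Pi.single j (spec P.v.integer P.ev _ _ (g j)) := by
      funext i
      by_cases hi : i = j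
      · subst hi
        rw [Pi.add_apply, Pi.add_apply, Pi.single_eq_same, Pi.single_eq_same]
        exact (P.specData (h₁ i) (h₃ i) (hΔ i)).spec_add _ _
      · rw [Pi.add_apply, Pi.add_apply, Pi.single_eq_of_ne hi, Pi.single_eq_of_ne hi, add_zero,
          add_zero]
    rw [← smul_sub, Finset.prod_insert hj, h3, ← mul_assoc, ← sub_mul]
    congr 2
    rw [dl, mul_sub, mul_one, AddMonoidAlgebra.single_mul_single, mul_one]

/-- the same for symbols, translated by `L`-rational cycles -/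
theorem R0_sym [FiniteDimensional K L] (h₁ : ∀ i, (W i).a₁ = 0) (h₃ : ∀ i, (W i).a₃ = 0)
    (hΔ : ∀ i, (W i).Δ ≠ 0) {F : Type} [Field F] [Algebra K F] [Algebra L F]
    [IsScalarTower K L F] {t : F} (ht : Transcendental L t) (hF : FiniteDimensional L⟮t⟯ F)
    {f : F} (hf : f ≠ 0) {s : Finset (Place L F Λ)} (hs : ∀ P : Place L F Λ, P.ord f ≠ 0 → P ∈ s)
    (g : Pts W F) (I : Finset ι) {z : GR Λ W} (hz : z ∈ ZL W L) :
    clL W L (z * ∑ P ∈ s, P.ord f •
      ∏ i ∈ I, dl W i (spec P.v.integer P.ev _ _ (g i))) = 0 := by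
  refine ZL_induction (C := fun z => clL W L (z * ∑ P ∈ s, P.ord f •
      ∏ i ∈ I, dl W i (spec P.v.integer P.ev _ _ (g i))) = 0) ?_ ?_ ?_ ?_ hz
  · rw [zero_mul, map_zero]
  · intro a b ha hb
    rw [add_mul, map_add, ha, hb, add_zero]
  · intro a ha
    rw [neg_mul, map_neg, ha, neg_zero]
  · intro c hc
    choose Q hQ using fun i => exists_pt_over (hc i)
    rw [← r0_aux h₁ h₃ hΔ ht hF hf hs g I
      fun i => Affine.Point.map (IsScalarTower.toAlgHom K L F) (Q i), Finset.mul_sum]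
    congr 1
    refine Finset.sum_congr rfl fun P _ => ?_
    rw [mul_smul_comm]
    congr 3
    funext i
    exact (hQ i).symm.trans (P.spec_const (K₀ := K) (Q i)).symm

end Pool.Agent.Lib.MP_796ce4_ag
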