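import Pool.Agent.Lib.MP_796ce4_ag.Curve0

/-! The class map, and relations given by curves over finite extensions. -/

namespace Pool.Agent.Lib.MP_796ce4_ag

open WeierstrassCurve Polynomial Module
open scoped Classical IntermediateField

set_option linter.unusedSectionVars false

variable {K Λ ι : Type} [Field K] [CharZero K] [Field Λ] [IsAlgClosed Λ] [Algebra K Λ]
  [IsGalois K Λ] [Fintype ι] {W : ι → WeierstrassCurve K} {L L' : IntermediateField K Λ}

theorem gal_apply (σ : Λ ≃ₐ[K] Λ) (y : Pts W Λ) (i : ι) : gal W σ y i = galP (W i) σ (y i) := rfl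
theorem gal_one (y : Pts W Λ) : gal W 1 y = y := by
  funext i
  rw [gal_apply, galP_one]
theorem gal_mul (σ τ : Λ ≃ₐ[K] Λ) (y : Pts W Λ) : gal W (σ * τ) y = gal W σ (gal W τ y) := by
  funext i
  rw [gal_apply, gal_apply, gal_apply, galP_mul]
theorem galR_single (σ : Λ ≃ₐ[K] Λ) (y : Pts W Λ) (c : ℚ) :
    galR W σ (AddMonoidAlgebra.single y c) = AddMonoidAlgebra.single (gal W σ y) c :=
  AddMonoidAlgebra.mapDomain_single
theorem r0a_gal_single (σ : Λ ≃ₐ[K] Λ) (i : ι) (a : Pt (W i) Λ) :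
    gal W σ (Pi.single i a) = Pi.single i (galP (W i) σ a) := by
  funext j
  rw [gal_apply]
  by_cases h : j = i
  · subst h
    rw [Pi.single_eq_same, Pi.single_eq_same]
  · rw [Pi.single_eq_of_ne h, Pi.single_eq_of_ne h, map_zero]
theorem galR_dl (σ : Λ ≃ₐ[K] Λ) (i : ι) (a : Pt (W i) Λ) :
    galR W σ (dl W i a) = dl W i (galP (W i) σ a) := by
  rw [dl, dl, map_sub, map_one, galR_single, r0a_gal_single]
theorem dl_zero (i : ι) : dl W i (0 : Pt (W i) Λ) = 0 := by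
  rw [dl, Pi.single_zero, ← AddMonoidAlgebra.one_def, sub_self]
theorem dl_mem_ZL {i : ι} {a : Pt (W i) Λ} (h : a ∈ pts (W i) L) : dl W i a ∈ ZL W L := by
  refine sub_mem (Subring.subset_closure ⟨_, fun j => ?_, rfl⟩) (one_mem _)
  by_cases hj : j = i
  · subst hj
    rwa [Pi.single_eq_same]
  · rw [Pi.single_eq_of_ne hj]
    exact zero_mem _
theorem ZL_mono (h : L ≤ L') : ZL W L ≤ ZL W L' :=
  Subring.closure_mono fun _ ⟨c, hc, hz⟩ => ⟨c, fun i => pts_mono h (hc i), hz⟩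
theorem ZL_induction {C : GR Λ W → Prop} (h0 : C 0) (hadd : ∀ a b, C a → C b → C (a + b))
    (hneg : ∀ a, C a → C (-a))
    (h : ∀ c : Pts W Λ, (∀ i, c i ∈ pts (W i) L) → C (AddMonoidAlgebra.single c 1))
    {z : GR Λ W} (hz : z ∈ ZL W L) : C z := by
  let M : Submonoid (GR Λ W) :=
    { carrier := {z | ∃ c : Pts W Λ, (∀ i, c i ∈ pts (W i) L) ∧ z = AddMonoidAlgebra.single c 1}
      one_mem' := ⟨0, fun _ => zero_mem _, rfl⟩
      mul_mem' := by
        rintro _ _ ⟨c, hc, rfl⟩ ⟨d, hd, rfl⟩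
        exact ⟨c + d, fun i => add_mem (hc i) (hd i), by
          rw [AddMonoidAlgebra.single_mul_single, one_mul]⟩ }
  have hz' : z ∈ AddSubgroup.closure (M : Set (GR Λ W)) := by
    have := (Subring.mem_closure_iff (s := (M : Set (GR Λ W)))).1 hz
    rwa [Submonoid.closure_eq] at this
  clear hz
  induction hz' using AddSubgroup.closure_induction with
  | mem x hx =>
    obtain ⟨c, hc, rfl⟩ := hx
    exact h c hc
  | zero => exact h0
  | add x y _ _ hx hy => exact hadd _ _ hx hy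
  | neg x _ hx => exact hneg _ hx
theorem galR_ZL {z : GR Λ W} (hz : z ∈ ZL W L) {σ : Λ ≃ₐ[K] Λ} (h : Fix L σ) : galR W σ z = z := by
  refine ZL_induction (C := fun z => galR W σ z = z) (map_zero _) (fun a b ha hb => ?_)
    (fun a ha => ?_) (fun c hc => ?_) hz
  · rw [map_add, ha, hb]
  · rw [map_neg, ha]
  · rw [galR_single]
    congr 1
    funext i
    exact hc i σ h

theorem r0a_conj_finite (x : Λ) : (Set.range fun σ : Λ ≃ₐ[K] Λ => σ x).Finite := by
  refine ((minpoly K x).rootSet_finite Λ).subset ?_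
  rintro _ ⟨σ, rfl⟩
  have hx : IsIntegral K x := Algebra.IsIntegral.isIntegral x
  rw [mem_rootSet_of_ne (minpoly.ne_zero hx), aeval_algEquiv, AlgHom.comp_apply, minpoly.aeval,
    map_zero]
theorem r0a_orbP_finite {E : WeierstrassCurve K} (P : Pt E Λ) :
    (Set.range fun σ : Λ ≃ₐ[K] Λ => galP E σ P).Finite := by
  by_cases hP : P = 0
  · subst hP
    refine (Set.finite_singleton 0).subset ?_
    rintro _ ⟨σ, rfl⟩
    exact map_zero _
  refine Set.Finite.of_finite_image (f := fun Q => (xc Q, yc Q))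
    (((r0a_conj_finite (K := K) (xc P)).prod (r0a_conj_finite (K := K) (yc P))).subset ?_) ?_
  · rintro _ ⟨_, ⟨σ, rfl⟩, rfl⟩
    exact ⟨⟨σ, (xc_galP σ P).symm⟩, ⟨σ, (yc_galP σ P).symm⟩⟩
  · rintro _ ⟨σ, rfl⟩ _ ⟨τ, rfl⟩ h
    exact pt_ext (mt (galP_eq_zero σ P).1 hP) (mt (galP_eq_zero τ P).1 hP) (congrArg Prod.fst h)
      (congrArg Prod.snd h)
theorem orb_finite (y : Pts W Λ) : (orb W y).Finite := by
  refine (Set.Finite.pi' fun i => r0a_orbP_finite (y i)).subset ?_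
  rintro _ ⟨σ, rfl⟩ i
  exact ⟨σ, rfl⟩
theorem r0a_orb_gal (σ : Λ ≃ₐ[K] Λ) (y : Pts W Λ) : orb W (gal W σ y) = orb W y := by
  ext z
  constructor
  · rintro ⟨τ, rfl⟩
    exact ⟨τ * σ, gal_mul τ σ y⟩
  · rintro ⟨τ, rfl⟩
    refine ⟨τ * σ⁻¹, ?_⟩
    show gal W (τ * σ⁻¹) (gal W σ y) = gal W τ y
    rw [← gal_mul, inv_mul_cancel_right]
theorem r0a_self_mem_orb (y : Pts W Λ) : y ∈ orb W y := ⟨1, gal_one y⟩
theorem r0a_mem_orb_comm {y z : Pts W Λ} (h : z ∈ orb W y) : y ∈ orb W z := by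
  obtain ⟨σ, rfl⟩ := h
  rw [r0a_orb_gal]
  exact r0a_self_mem_orb y
theorem r0a_avg_single (y : Pts W Λ) (c : ℚ) : avg W (AddMonoidAlgebra.single y c) =
    c • ((orb W y).ncard : ℚ)⁻¹ • ∑ᶠ y' ∈ orb W y, Finsupp.single y' (1 : ℚ) :=
  Finsupp.linearCombination_single _ _ _
theorem avg_galR (σ : Λ ≃ₐ[K] Λ) (D : GR Λ W) : avg W (galR W σ D) = avg W D := by
  induction D using AddMonoidAlgebra.induction_linear with
  | zero => rw [map_zero]
  | add a b ha hb => rw [map_add, map_add, map_add, ha, hb]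
  | single y c => rw [galR_single, r0a_avg_single, r0a_avg_single, r0a_orb_gal]
theorem r0a_orb_apply (y z : Pts W Λ) :
    (∑ᶠ y' ∈ orb W y, Finsupp.single y' (1 : ℚ)) z = if z ∈ orb W y then 1 else 0 := by
  rw [finsum_mem_eq_finite_toFinset_sum _ (orb_finite y), Finsupp.finsetSum_apply]
  simp only [Finsupp.single_apply]
  rw [Finset.sum_ite_eq']
  simp only [Set.Finite.mem_toFinset]
theorem r0a_gal_inj (σ : Λ ≃ₐ[K] Λ) : Function.Injective (gal W σ) := fun a b h => by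
  rw [← gal_one a, ← gal_one b, ← inv_mul_cancel σ, gal_mul, gal_mul, h]
theorem r0a_coeff_galR (σ : Λ ≃ₐ[K] Λ) (D : GR Λ W) (y : Pts W Λ) :
    (galR W σ D).coeff (gal W σ y) = D.coeff y :=
  Finsupp.mapDomain_apply (r0a_gal_inj σ) _ _
theorem avg_of_inv {D : GR Λ W} (h : ∀ σ, galR W σ D = D) : avg W D = D.coeff := by
  have hc : ∀ {y z : Pts W Λ}, y ∈ orb W z → D.coeff y = D.coeff z := by
    rintro _ z ⟨σ, rfl⟩
    rw [← r0a_coeff_galR σ D z, h]
  ext z
  have e : avg W D = ∑ y ∈ D.coeff.support, D.coeff y •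
      ((orb W y).ncard : ℚ)⁻¹ • ∑ᶠ y' ∈ orb W y, Finsupp.single y' (1 : ℚ) := rfl
  rw [e, Finsupp.finsetSum_apply]
  have e2 : ∀ y ∈ D.coeff.support, (D.coeff y • ((orb W y).ncard : ℚ)⁻¹ •
      ∑ᶠ y' ∈ orb W y, Finsupp.single y' (1 : ℚ)) z =
      if y ∈ orb W z then D.coeff z * ((orb W z).ncard : ℚ)⁻¹ else 0 := by
    intro y _
    rw [Finsupp.smul_apply, Finsupp.smul_apply, r0a_orb_apply]
    by_cases hy : y ∈ orb W z
    · rw [if_pos hy, if_pos (r0a_mem_orb_comm hy), hc hy, smul_eq_mul, smul_eq_mul, mul_one]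
      obtain ⟨σ, rfl⟩ := hy
      rw [r0a_orb_gal]
    · rw [if_neg hy, if_neg (mt r0a_mem_orb_comm hy), smul_zero, smul_zero]
  rw [Finset.sum_congr rfl e2, ← Finset.sum_filter, Finset.sum_const, nsmul_eq_mul]
  by_cases hz : D.coeff z = 0
  · rw [hz, zero_mul, mul_zero]
  have e3 : D.coeff.support.filter (· ∈ orb W z) = (orb_finite z).toFinset := by
    ext y
    rw [Finset.mem_filter, Set.Finite.mem_toFinset, Finsupp.mem_support_iff]
    exact ⟨fun h => h.2, fun hy => ⟨by rwa [hc hy], hy⟩⟩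
  have hpos : ((orb W z).ncard : ℚ) ≠ 0 :=
    Nat.cast_ne_zero.2 ((Set.ncard_pos (orb_finite z)).2 ⟨z, r0a_self_mem_orb z⟩).ne'
  rw [e3, ← Set.ncard_eq_toFinset_card _ (orb_finite z)]
  field_simp
theorem r0a_clL_apply (D : GR Λ W) :
    clL W L D = QuotientAddGroup.mk ((finrank K L : ℚ) • avg W D) := by
  rw [← map_smul]
  rfl
theorem clL_gal (σ : Λ ≃ₐ[K] Λ) (D : GR Λ W) : clL W L (galR W σ D) = clL W L D := by
  rw [r0a_clL_apply, r0a_clL_apply, avg_galR]
theorem clL_eq_nsmul {n : ℕ} (h : n * finrank K L = finrank K L') (D : GR Λ W) :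
    clL W L' D = n • clL W L D := by
  rw [r0a_clL_apply, r0a_clL_apply, ← QuotientAddGroup.mk_nsmul, ← h, Nat.cast_mul, mul_smul,
    Nat.cast_smul_eq_nsmul]
theorem clL_bot (D : GR Λ W) : clL W ⊥ D = cls W D := by
  rw [r0a_clL_apply, IntermediateField.finrank_bot, Nat.cast_one, one_smul]
  rfl

end Pool.Agent.Lib.MP_796ce4_ag
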