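import Pool.Agent.Lib.MP_796ce4_ag.Curve0

/-! An invariant effective divisor of sum zero is cut out by a function over `L`. -/

namespace Pool.Agent.Lib.MP_796ce4_ag

open WeierstrassCurve Polynomial Module
open scoped Classical IntermediateField

set_option linter.unusedSectionVars false

section aux
open Affine.CoordinateRing

/-- the product of the maximal ideals of the affine points of a multiset -/
noncomputable def r1a_J {F : Type} [Field F] (W : Affine F) (m : Multiset W.Point) :
    Ideal W.CoordinateRing :=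
  ((m.filter (· ≠ 0)).map fun P => XYIdeal W (xc P) (C (yc P))).prod

theorem r1a_class {F : Type} [Field F] (W : Affine F) (m : Multiset W.Point) :
    ∃ U : (FractionalIdeal (nonZeroDivisors W.CoordinateRing) W.FunctionField)ˣ,
      (U : FractionalIdeal (nonZeroDivisors W.CoordinateRing) W.FunctionField) =
        (r1a_J W m : Ideal W.CoordinateRing) ∧
      ClassGroup.mk W.FunctionField U = Additive.toMul (Affine.Point.toClass m.sum) := by
  induction m using Multiset.induction_on with
  | empty =>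
    refine ⟨1, ?_, ?_⟩
    · simp [r1a_J]
    · simp
  | cons P m ih =>
    obtain ⟨U, hU, hc⟩ := ih
    rcases P with _ | ⟨x, y, h⟩
    · refine ⟨U, ?_, ?_⟩
      · rw [hU, r1a_J, r1a_J, Multiset.filter_cons_of_neg]
        exact fun h => h rfl
      · rw [hc, Multiset.sum_cons, ← Affine.Point.zero_def, zero_add]
    · refine ⟨XYIdeal' (W := W) h * U, ?_, ?_⟩
      · rw [Units.val_mul, hU, XYIdeal'_eq, r1a_J, r1a_J, Multiset.filter_cons_of_pos,
          Multiset.map_cons, Multiset.prod_cons, FractionalIdeal.coeIdeal_mul]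
        · rfl
        · exact Affine.Point.some_ne_zero h
      · rw [map_mul, hc, Multiset.sum_cons, map_add, toMul_add]
        rfl

theorem r1a_gen {F : Type} [Field F] (W : Affine F) (m : Multiset W.Point) (hsum : m.sum = 0) :
    ∃ h : W.CoordinateRing, h ≠ 0 ∧ r1a_J W m = Ideal.span {h} := by
  obtain ⟨U, hU, hc⟩ := r1a_class W m
  rw [hsum, map_zero, toMul_zero] at hc
  exact (ClassGroup.mk_eq_one_of_coe_ideal hU).mp hc

/-- units of the coordinate ring are constants -/
theorem r1a_unit {F : Type} [Field F] (W : Affine F) {u : W.CoordinateRing} (hu : IsUnit u) :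
    ∃ c : F, u = (C c : F[X]) • (1 : W.CoordinateRing) := by
  obtain ⟨p, q, rfl⟩ := exists_smul_basis_eq u
  have h1 := degree_eq_zero_of_isUnit (hu.map (Algebra.norm F[X]))
  rw [degree_norm_smul_basis] at h1
  have hq : q = 0 := by
    by_contra hq
    have h2 : 2 • q.degree + 3 ≤ 0 := h1 ▸ le_max_right _ _
    rw [degree_eq_natDegree hq] at h2
    have h3 : ((2 * q.natDegree + 3 : ℕ) : WithBot ℕ) ≤ ((0 : ℕ) : WithBot ℕ) := by
      simpa [two_nsmul, two_mul] using h2
    have h4 : 2 * q.natDegree + 3 ≤ 0 := by exact_mod_cast h3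
    omega
  have hp : p.natDegree = 0 := by
    by_cases hp : p = 0
    · simp [hp]
    have h2 : 2 • p.degree ≤ 0 := h1 ▸ le_max_left _ _
    rw [degree_eq_natDegree hp] at h2
    have h3 : ((2 * p.natDegree : ℕ) : WithBot ℕ) ≤ ((0 : ℕ) : WithBot ℕ) := by
      simpa [two_nsmul, two_mul] using h2
    have h4 : 2 * p.natDegree ≤ 0 := by exact_mod_cast h3
    omega
  refine ⟨p.coeff 0, ?_⟩
  rw [hq, zero_smul, add_zero, ← eq_C_of_natDegree_eq_zero hp]

variable {K Λ : Type} [Field K] [Field Λ] [Algebra K Λ] (E : WeierstrassCurve K)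

theorem r1a_poly (σ : Λ ≃ₐ[K] Λ) :
    (Affine.baseChange E Λ).polynomial.map (mapRingHom (σ : Λ →+* Λ)) =
      (Affine.baseChange E Λ).polynomial := by
  rw [← Affine.map_polynomial]
  congr 1
  exact E.map_baseChange (σ : Λ →ₐ[K] Λ)

/-- the action of an automorphism on the coordinate ring -/
noncomputable def r1a_act (σ : Λ ≃ₐ[K] Λ) :
    (Affine.baseChange E Λ).CoordinateRing →+* (Affine.baseChange E Λ).CoordinateRing :=
  AdjoinRoot.lift ((AdjoinRoot.of _).comp <| mapRingHom (σ : Λ →+* Λ))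
    (AdjoinRoot.root (Affine.baseChange E Λ).polynomial)
    (by rw [← eval₂_map, r1a_poly, AdjoinRoot.eval₂_root])

theorem r1a_act_mk (σ : Λ ≃ₐ[K] Λ) (x : Λ[X][X]) :
    r1a_act E σ (mk (Affine.baseChange E Λ) x) =
      mk (Affine.baseChange E Λ) (x.map <| mapRingHom (σ : Λ →+* Λ)) := by
  rw [r1a_act, AdjoinRoot.lift_mk, ← eval₂_map]
  exact AdjoinRoot.aeval_eq <| x.map <| mapRingHom (σ : Λ →+* Λ)

theorem r1a_act_basis (σ : Λ ≃ₐ[K] Λ) (a b : Λ[X]) :
    r1a_act E σ (a • (1 : (Affine.baseChange E Λ).CoordinateRing) +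
        b • mk (Affine.baseChange E Λ) X) =
      a.map (σ : Λ →+* Λ) • (1 : (Affine.baseChange E Λ).CoordinateRing) +
        b.map (σ : Λ →+* Λ) • mk (Affine.baseChange E Λ) X := by
  simp only [smul, map_add, map_mul, map_one, r1a_act_mk, map_C, map_X, coe_mapRingHom]

theorem r1a_act_XY (σ : Λ ≃ₐ[K] Λ) (x y : Λ) :
    (XYIdeal (Affine.baseChange E Λ) x (C y)).map (r1a_act E σ) =
      XYIdeal (Affine.baseChange E Λ) (σ x) (C (σ y)) := by
  rw [XYIdeal, XYIdeal, Ideal.map_span, Set.image_pair, XClass, YClass, XClass, YClass,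
    r1a_act_mk, r1a_act_mk]
  simp

theorem r1a_act_J (σ : Λ ≃ₐ[K] Λ) (m : Multiset (Pt E Λ)) :
    (r1a_J (Affine.baseChange E Λ) m).map (r1a_act E σ) =
      r1a_J (Affine.baseChange E Λ) (m.map (galP E σ)) := by
  induction m using Multiset.induction_on with
  | empty => simp [r1a_J, Ideal.map_top]
  | cons P m ih =>
    rw [Multiset.map_cons]
    by_cases hP : P = 0
    · rw [r1a_J, r1a_J, Multiset.filter_cons_of_neg, Multiset.filter_cons_of_neg]
      · exact ih
      · simp [hP]
      · simp [hP]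
    · rw [r1a_J, r1a_J, Multiset.filter_cons_of_pos, Multiset.filter_cons_of_pos,
        Multiset.map_cons, Multiset.prod_cons, Multiset.map_cons, Multiset.prod_cons,
        Ideal.map_mul, r1a_act_XY, xc_galP, yc_galP]
      · congr 1
      · simpa using hP
      · exact hP

theorem r1a_scale {F : Type} [Field F] (W : Affine F) (c : F) (a b : F[X]) :
    (a • (1 : W.CoordinateRing) + b • mk W X) * ((C c : F[X]) • (1 : W.CoordinateRing)) =
      (C c * a) • (1 : W.CoordinateRing) + (C c * b) • mk W X := by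
  simp only [smul, map_mul]
  ring

end aux

variable {K Λ : Type} [Field K] [CharZero K] [Field Λ] [IsAlgClosed Λ] [Algebra K Λ]
  [IsGalois K Λ] {L : IntermediateField K Λ}

open Affine.CoordinateRing in
theorem r1a_over {E : WeierstrassCurve K} (m : Multiset (Pt E Λ))
    (hinv : ∀ σ, Fix L σ → m.map (galP E σ) = m) {a b : Λ[X]} {n : ℕ}
    (h1 : a.coeff n = 1 ∨ b.coeff n = 1)
    (hJ : r1a_J (Affine.baseChange E Λ) m =
      Ideal.span {a • (1 : (Affine.baseChange E Λ).CoordinateRing) +
        b • mk (Affine.baseChange E Λ) X}) : Over L a ∧ Over L b := by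
  have key : ∀ σ, Fix L σ → a.map (σ : Λ →+* Λ) = a ∧ b.map (σ : Λ →+* Λ) = b := by
    intro σ hσ
    have h2 := r1a_act_J E σ m
    rw [hinv σ hσ, hJ, Ideal.map_span, Set.image_singleton, r1a_act_basis,
      Ideal.span_singleton_eq_span_singleton] at h2
    obtain ⟨u, hu⟩ := h2.symm
    obtain ⟨c, hc⟩ := r1a_unit _ u.isUnit
    rw [hc, r1a_scale] at hu
    have h3 : (C c * a - a.map (σ : Λ →+* Λ)) • (1 : (Affine.baseChange E Λ).CoordinateRing) +
        (C c * b - b.map (σ : Λ →+* Λ)) • mk (Affine.baseChange E Λ) X = 0 := by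
      rw [sub_smul, sub_smul, sub_add_sub_comm, hu, sub_self]
    obtain ⟨ha, hb⟩ := smul_basis_eq_zero h3
    rw [sub_eq_zero] at ha hb
    have hc1 : c = 1 := by
      rcases h1 with h1 | h1
      · have := congrArg (fun g => g.coeff n) ha
        simpa [h1] using this
      · have := congrArg (fun g => g.coeff n) hb
        simpa [h1] using this
    rw [hc1, C_1, one_mul] at ha hb
    exact ⟨ha.symm, hb.symm⟩
  refine ⟨fun k => mem_of_fixed fun σ hσ => ?_, fun k => mem_of_fixed fun σ hσ => ?_⟩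
  · have := congrArg (fun g => g.coeff k) (key σ hσ).1
    simpa using this
  · have := congrArg (fun g => g.coeff k) (key σ hσ).2
    simpa using this

open Affine.CoordinateRing in
theorem exists_ab {E : WeierstrassCurve K} (m : Multiset (Pt E Λ))
    (hinv : ∀ σ, Fix L σ → m.map (galP E σ) = m) (hsum : m.sum = 0) :
    ∃ a b : Λ[X], Over L a ∧ Over L b ∧
      a • (1 : (Affine.baseChange E Λ).CoordinateRing) + b • mk (Affine.baseChange E Λ) X ≠ 0 ∧
      Ideal.span {a • (1 : (Affine.baseChange E Λ).CoordinateRing) +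
        b • mk (Affine.baseChange E Λ) X} =
        ((m.filter (· ≠ 0)).map fun P =>
          XYIdeal (Affine.baseChange E Λ) (xc P) (C (yc P))).prod := by
  obtain ⟨h, h0, hJ⟩ := r1a_gen (Affine.baseChange E Λ) m hsum
  obtain ⟨a, b, rfl⟩ := exists_smul_basis_eq h
  have hex : ∃ (n : ℕ) (c : Λ), c ≠ 0 ∧ ((C c * a).coeff n = 1 ∨ (C c * b).coeff n = 1) := by
    by_cases ha : a = 0
    · have hb : b ≠ 0 := by
        rintro rfl
        exact h0 (by rw [ha, zero_smul, zero_smul, add_zero])
      have hl : b.coeff b.natDegree ≠ 0 := leadingCoeff_ne_zero.mpr hb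
      exact ⟨b.natDegree, (b.coeff b.natDegree)⁻¹, inv_ne_zero hl,
        Or.inr (by rw [coeff_C_mul, inv_mul_cancel₀ hl])⟩
    · have hl : a.coeff a.natDegree ≠ 0 := leadingCoeff_ne_zero.mpr ha
      exact ⟨a.natDegree, (a.coeff a.natDegree)⁻¹, inv_ne_zero hl,
        Or.inl (by rw [coeff_C_mul, inv_mul_cancel₀ hl])⟩
  obtain ⟨n, c, hc, h1⟩ := hex
  have hu : IsUnit ((C c : Λ[X]) • (1 : (Affine.baseChange E Λ).CoordinateRing)) := by
    rw [smul, mul_one]
    exact ((isUnit_C.mpr (isUnit_C.mpr hc.isUnit))).map _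
  have hJ' : r1a_J (Affine.baseChange E Λ) m =
      Ideal.span {(C c * a) • (1 : (Affine.baseChange E Λ).CoordinateRing) +
        (C c * b) • mk (Affine.baseChange E Λ) X} := by
    rw [hJ, ← r1a_scale, Ideal.span_singleton_mul_right_unit hu]
  obtain ⟨ha, hb⟩ := r1a_over m hinv h1 hJ'
  refine ⟨C c * a, C c * b, ha, hb, ?_, hJ'.symm⟩
  rw [← r1a_scale]
  exact mul_ne_zero h0 hu.ne_zero

end Pool.Agent.Lib.MP_796ce4_ag
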