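import Pool.Agent.Lib.MP_796ce4_ag.R0
import Pool.Agent.Lib.MP_796ce4_ag.R1a
import Pool.Agent.Lib.MP_796ce4_ag.PlaceB
import Pool.Agent.Lib.MP_796ce4_ag.PlaceF

/-! Relations on one factor: an invariant divisor of sum zero is principal. -/

namespace Pool.Agent.Lib.MP_796ce4_ag

open WeierstrassCurve Polynomial Module
open scoped Classical IntermediateField

set_option linter.unusedSectionVars false

section coord
open Affine.CoordinateRing
variable {k : Type} [Field k] {E : Affine k}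

theorem r1_aeval (p : k[X]) : aeval (mk E (C X)) p = mk E (C p) := by
  have h : aeval (mk E (C X)) = IsScalarTower.toAlgHom k k[X] E.CoordinateRing := by
    apply Polynomial.algHom_ext
    rw [aeval_X]; rfl
  rw [h]; rfl

theorem r1_poly (h₁ : E.a₁ = 0) (h₃ : E.a₃ = 0) : E.polynomial = X ^ 2 - C (cub E) := by
  rw [Affine.polynomial, h₁, h₃, cub]; simp

theorem r1_eqn (h₁ : E.a₁ = 0) (h₃ : E.a₃ = 0) :
    mk E X ^ 2 = aeval (mk E (C X)) (cub E) := by
  rw [r1_aeval, ← map_pow, ← sub_eq_zero, ← map_sub, ← r1_poly h₁ h₃]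
  exact AdjoinRoot.mk_self

theorem r1_lift (h₁ : E.a₁ = 0) (h₃ : E.a₃ = 0) {A : Type} [CommRing A] [Algebra k A] {x y : A}
    (h : y ^ 2 = aeval x (cub E)) :
    ∃ φ : E.CoordinateRing →ₐ[k] A, φ (mk E (C X)) = x ∧ φ (mk E X) = y := by
  have h0 : E.polynomial.eval₂ (aeval x : k[X] →ₐ[k] A) y = 0 := by
    rw [r1_poly h₁ h₃, eval₂_sub, eval₂_X_pow, eval₂_C, h]; exact sub_self _
  refine ⟨AdjoinRoot.liftAlgHom E.polynomial (aeval x) y h0, ?_, ?_⟩
  · rw [AdjoinRoot.liftAlgHom_mk, eval₂_C]; exact aeval_X x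
  · rw [AdjoinRoot.liftAlgHom_mk, eval₂_X]

theorem r1_basis (a b : k[X]) : a • (1 : E.CoordinateRing) + b • mk E X =
    aeval (mk E (C X)) a + aeval (mk E (C X)) b * mk E X := by
  rw [smul, smul, mul_one, r1_aeval, r1_aeval]

theorem r1_gen : Algebra.adjoin k {mk E (C X), mk E X} = ⊤ := by
  rw [eq_top_iff]
  intro z _
  obtain ⟨a, b, rfl⟩ := exists_smul_basis_eq z
  rw [r1_basis]
  have hx : ∀ p : k[X], aeval (mk E (C X)) p ∈ Algebra.adjoin k {mk E (C X), mk E X} := fun p =>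
    Algebra.adjoin_mono (Set.singleton_subset_iff.2 (Set.mem_insert _ _))
      (aeval_mem_adjoin_singleton k _)
  exact add_mem (hx a) (mul_mem (hx b) (Algebra.subset_adjoin (by simp)))

theorem r1_tr : Transcendental k (mk E (C X)) := by
  rw [transcendental_iff]
  intro p hp
  have h : p • (1 : E.CoordinateRing) + (0 : k[X]) • mk E X = 0 := by
    rw [r1_basis, hp]; simp
  exact (smul_basis_eq_zero h).1

theorem r1_XClass (x : k) : XClass E x = mk E (C X) - algebraMap k _ x := by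
  rw [XClass, C_sub, map_sub]; rfl

theorem r1_YClass (y : k) : YClass E (C y) = mk E X - algebraMap k _ y := by
  rw [YClass, map_sub]; rfl

/-- cancellation of an invertible ideal -/
theorem r1_cancel {A : Type} [CommRing A] [IsDomain A] {P M M' I J : Ideal A} [P.IsPrime]
    {π : A} (hπ : π ≠ 0) (hM : M' * M = Ideal.span {π}) (hP : M ≤ P) (hI : ¬I ≤ P) (hJ : ¬J ≤ P)
    {c j : ℕ} (h : M ^ c * I = M ^ j * J) : c = j := by
  induction c generalizing j with
  | zero =>
    cases j with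
    | zero => rfl
    | succ j =>
      refine absurd ?_ hI
      rw [pow_zero, one_mul] at h
      rw [h, pow_succ', mul_assoc]
      exact Ideal.mul_le_left.trans hP
  | succ c ih =>
    cases j with
    | zero =>
      refine absurd ?_ hJ
      rw [pow_zero, one_mul] at h
      rw [← h, pow_succ', mul_assoc]
      exact Ideal.mul_le_left.trans hP
    | succ j =>
      congr 1
      apply ih
      have h2 := congrArg (M' * ·) h
      simp only [pow_succ', ← mul_assoc, hM] at h2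
      simp only [mul_assoc] at h2
      exact Ideal.span_singleton_mul_right_injective hπ h2

/-- the ideal of an affine point -/
noncomputable abbrev r1_m (P : E.Point) : Ideal E.CoordinateRing := XYIdeal E (xc P) (C (yc P))

theorem r1_le_iff {P Q : E.Point} (hP : P ≠ 0) (hQ : Q ≠ 0) {ev : E.CoordinateRing →ₐ[k] k}
    (hx : ev (mk E (C X)) = xc Q) (hy : ev (mk E X) = yc Q) :
    r1_m P ≤ RingHom.ker ev ↔ P = Q := by
  rw [r1_m, XYIdeal, Ideal.span_le, Set.insert_subset_iff, Set.singleton_subset_iff,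
    SetLike.mem_coe, SetLike.mem_coe, RingHom.mem_ker, RingHom.mem_ker, r1_XClass, r1_YClass,
    map_sub, map_sub, hx, hy, AlgHom.commutes, AlgHom.commutes, sub_eq_zero, sub_eq_zero]
  exact ⟨fun h => pt_ext hP hQ h.1.symm h.2.symm, fun h => by subst h; exact ⟨rfl, rfl⟩⟩

theorem r1_neg_mul {Q : E.Point} (hQ : Q ≠ 0) :
    r1_m (-Q) * r1_m Q = Ideal.span {XClass E (xc Q)} := by
  cases Q with
  | zero => exact absurd rfl hQ
  | some x y h => exact XYIdeal_neg_mul h

/-- a local parameter at an affine point -/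
theorem r1_param (h₁ : E.a₁ = 0) (h₃ : E.a₃ = 0) (hΔ : E.Δ ≠ 0) (h2 : (2 : k) ≠ 0) {Q : E.Point}
    (hQ : Q ≠ 0) {ev : E.CoordinateRing →ₐ[k] k} (hx : ev (mk E (C X)) = xc Q)
    (hy : ev (mk E X) = yc Q) {t : E.CoordinateRing}
    (ht : t = mk E (C X) ∧ yc Q ≠ 0 ∨ t = mk E X ∧ yc Q = 0) :
    ∃ J, ¬J ≤ RingHom.ker ev ∧ Ideal.span {t - algebraMap k _ (ev t)} = r1_m Q * J := by
  rcases ht with ⟨rfl, h0⟩ | ⟨rfl, h0⟩
  · refine ⟨r1_m (-Q), ?_, ?_⟩
    · rw [r1_le_iff (neg_ne_zero.2 hQ) hQ hx hy]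
      intro h
      have h3 := yc_neg h₁ h₃ Q
      rw [h] at h3
      exact h0 ((mul_eq_zero.1 (by linear_combination h3 : 2 * yc Q = 0)).resolve_left h2)
    · rw [mul_comm, r1_neg_mul hQ, hx, r1_XClass]
  · have hr : (cub E).IsRoot (xc Q) := by
      rw [IsRoot.def, ← yc_sq h₁ h₃ hQ, h0]; simp
    obtain ⟨G, hG⟩ := dvd_iff_isRoot.2 hr
    have hG0 : G.eval (xc Q) ≠ 0 := by
      intro h
      obtain ⟨G', hG'⟩ := dvd_iff_isRoot.2 h
      have hs := (separable_cub h₁ h₃ hΔ).squarefree (X - C (xc Q))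
        ⟨G', by rw [hG, hG', mul_assoc]⟩
      exact not_isUnit_X_sub_C _ hs
    obtain ⟨G', hG'⟩ := X_sub_C_dvd_sub_C_eval (p := G) (a := xc Q)
    have e1 : mk E X ^ 2 = XClass E (xc Q) * aeval (mk E (C X)) G := by
      rw [r1_eqn h₁ h₃, hG, map_mul, r1_XClass, map_sub, aeval_X, aeval_C]
    have e2 : aeval (mk E (C X)) G - algebraMap k _ (G.eval (xc Q)) =
        XClass E (xc Q) * aeval (mk E (C X)) G' := by
      rw [← aeval_C (mk E (C X)), ← map_sub, hG', map_mul, r1_XClass, map_sub, aeval_X, aeval_C]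
    refine ⟨Ideal.span {mk E X, aeval (mk E (C X)) G}, fun h => hG0 ?_, ?_⟩
    · have h3 := h (Ideal.subset_span (Set.mem_insert_of_mem _ (Set.mem_singleton _)))
      rwa [RingHom.mem_ker, ← aeval_algHom_apply, hx, coe_aeval_eq_eval] at h3
    · rw [hy, h0, map_zero, sub_zero, r1_m, XYIdeal, r1_YClass, h0, map_zero, sub_zero,
        Ideal.span_pair_mul_span_pair]
      apply le_antisymm
      · rw [Ideal.span_singleton_le_iff_mem]
        have e3 : mk E X = algebraMap k _ (G.eval (xc Q))⁻¹ * (mk E X * aeval (mk E (C X)) G -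
            aeval (mk E (C X)) G' * (XClass E (xc Q) * mk E X)) := by
          have e4 : algebraMap k E.CoordinateRing (G.eval (xc Q))⁻¹ *
              algebraMap k _ (G.eval (xc Q)) = 1 := by
            rw [← map_mul, inv_mul_cancel₀ hG0, map_one]
          linear_combination (-mk E X) * e4 -
            algebraMap k E.CoordinateRing (G.eval (xc Q))⁻¹ * mk E X * e2
        rw [e3]
        refine Ideal.mul_mem_left _ _ (sub_mem ?_ (Ideal.mul_mem_left _ _ ?_))
        · rw [← e3]; exact Ideal.subset_span (by simp)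
        · rw [← e3]; exact Ideal.subset_span (by simp)
      · rw [Ideal.span_le]
        simp only [Set.insert_subset_iff, Set.singleton_subset_iff, SetLike.mem_coe,
          Ideal.mem_span_singleton]
        exact ⟨dvd_mul_left _ _, by rw [← e1]; exact dvd_pow_self _ two_ne_zero,
          dvd_mul_left _ _, dvd_mul_right _ _⟩

theorem r1_prod (m : Multiset E.Point) {Q : E.Point} (hQ : Q ≠ 0)
    {ev : E.CoordinateRing →ₐ[k] k} (hx : ev (mk E (C X)) = xc Q) (hy : ev (mk E X) = yc Q) :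
    ∃ I, ¬I ≤ RingHom.ker ev ∧
      ((m.filter (· ≠ 0)).map fun P => r1_m P).prod = r1_m Q ^ m.count Q * I := by
  have hp : (RingHom.ker ev).IsPrime := RingHom.ker_isPrime ev
  induction m using Multiset.induction_on with
  | empty => exact ⟨⊤, fun h => hp.ne_top (top_le_iff.1 h), by simp⟩
  | cons P m ih =>
    obtain ⟨I, hI, h⟩ := ih
    by_cases hP : P = 0
    · refine ⟨I, hI, ?_⟩
      rw [Multiset.filter_cons_of_neg _ (by simp [hP]), h,
        Multiset.count_cons_of_ne (by rw [hP]; exact hQ)]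
    · rw [Multiset.filter_cons_of_pos _ (by exact hP), Multiset.map_cons, Multiset.prod_cons, h]
      by_cases hPQ : P = Q
      · subst hPQ
        exact ⟨I, hI, by rw [Multiset.count_cons_self, pow_succ', mul_assoc]⟩
      · refine ⟨r1_m P * I, fun h' => ?_, ?_⟩
        · rcases hp.mul_le.1 h' with h' | h'
          · exact hPQ ((r1_le_iff hP hQ hx hy).1 h')
          · exact hI h'
        · rw [Multiset.count_cons_of_ne (Ne.symm hPQ), mul_left_comm]

/-- the multiplicity of a point in the divisor of `h` -/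
theorem r1_count (h₁ : E.a₁ = 0) (h₃ : E.a₃ = 0) (hΔ : E.Δ ≠ 0) (h2 : (2 : k) ≠ 0)
    {m : Multiset E.Point} {h : E.CoordinateRing}
    (hh : Ideal.span {h} = ((m.filter (· ≠ 0)).map fun P => r1_m P).prod) {Q : E.Point}
    (hQ : Q ≠ 0) {ev : E.CoordinateRing →ₐ[k] k} (hx : ev (mk E (C X)) = xc Q)
    (hy : ev (mk E X) = yc Q) {t : E.CoordinateRing}
    (ht : t = mk E (C X) ∧ yc Q ≠ 0 ∨ t = mk E X ∧ yc Q = 0) {u b : E.CoordinateRing}
    (hu : ev u ≠ 0) (hb : ev b ≠ 0) {j : ℕ} (e : h * u = (t - algebraMap k _ (ev t)) ^ j * b) :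
    m.count Q = j := by
  have hp : (RingHom.ker ev).IsPrime := RingHom.ker_isPrime ev
  obtain ⟨J, hJ, eJ⟩ := r1_param h₁ h₃ hΔ h2 hQ hx hy ht
  obtain ⟨I, hI, eI⟩ := r1_prod m hQ hx hy
  have hs : ∀ a, ev a ≠ 0 → ¬Ideal.span {a} ≤ RingHom.ker ev := fun a ha h' =>
    ha ((Ideal.span_singleton_le_iff_mem _).1 h')
  refine r1_cancel (P := RingHom.ker ev) (XClass_ne_zero _) (r1_neg_mul hQ)
    ((r1_le_iff hQ hQ hx hy).2 rfl) (I := I * Ideal.span {u}) (J := J ^ j * Ideal.span {b})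
    (fun h' => (hp.mul_le.1 h').elim hI (hs u hu))
    (fun h' => (hp.mul_le.1 h').elim (fun h'' => hJ (hp.le_of_pow_le h'')) (hs b hb)) ?_
  rw [← mul_assoc, ← eI, ← hh, ← mul_assoc, ← mul_pow, ← eJ, Ideal.span_singleton_pow,
    Ideal.span_singleton_mul_span_singleton, Ideal.span_singleton_mul_span_singleton, e]

end coord

section model
open Affine.CoordinateRing

/-- the function field of the curve with its affine coordinate ring -/
theorem r1_exists_F (K : Type) {k : Type} [Field K] [Field k] [Algebra K k] {E : Affine k}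
    (h₁ : E.a₁ = 0) (h₃ : E.a₃ = 0) :
    ∃ (F : Type) (_ : Field F) (_ : Algebra K F) (_ : Algebra k F) (_ : IsScalarTower K k F)
      (S : Subalgebra k F) (x y : S), Algebra.adjoin k {x, y} = ⊤ ∧
      (∀ f : F, ∃ a ∈ S, ∃ b ∈ S, b ≠ 0 ∧ f = a / b) ∧ Transcendental k x ∧
      y ^ 2 = aeval x (cub E) ∧ ∀ (A : Type) [CommRing A] [Algebra k A] (x' y' : A),
        y' ^ 2 = aeval x' (cub E) → ∃ φ : S →ₐ[k] A, φ x = x' ∧ φ y = y' := by
  let ρ := IsScalarTower.toAlgHom k E.CoordinateRing E.FunctionField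
  have hρ : Function.Injective ρ := IsFractionRing.injective E.CoordinateRing E.FunctionField
  let e := AlgEquiv.ofInjective ρ hρ
  refine ⟨E.FunctionField, inferInstance, inferInstance, inferInstance, inferInstance, ρ.range,
    e (mk E (C X)), e (mk E X), ?_, ?_, ?_, ?_, ?_⟩
  · have h := AlgHom.map_adjoin (e : E.CoordinateRing →ₐ[k] ρ.range) {mk E (C X), mk E X}
    rw [r1_gen, Algebra.map_top, (AlgHom.range_eq_top (e : E.CoordinateRing →ₐ[k] ρ.range)).2
      e.surjective, Set.image_pair] at h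
    exact h.symm
  · intro f
    obtain ⟨a, b, hb, rfl⟩ := IsFractionRing.div_surjective (A := E.CoordinateRing) f
    exact ⟨_, ⟨a, rfl⟩, _, ⟨b, rfl⟩,
      (map_ne_zero_iff _ hρ).2 (nonZeroDivisors.ne_zero hb), rfl⟩
  · rw [transcendental_iff]
    intro p hp
    rw [aeval_algHom_apply, map_eq_zero_iff _ e.injective] at hp
    exact transcendental_iff.1 r1_tr p hp
  · rw [← map_pow, r1_eqn h₁ h₃]
    exact (aeval_algHom_apply e _ _).symm
  · intro A _ _ x' y' h
    obtain ⟨φ, hx, hy⟩ := r1_lift h₁ h₃ h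
    refine ⟨φ.comp (e.symm : ρ.range →ₐ[k] E.CoordinateRing), ?_, ?_⟩
    · simpa using hx
    · simpa using hy

variable {k F Λ : Type} [Field k] [CharZero k] [Field F] [Field Λ] [Algebra k F] [Algebra k Λ]
  {S : Subalgebra k F} {x y : S} {c : k[X]}

theorem r1_mem (hg : Algebra.adjoin k {x, y} = ⊤) {T : Subalgebra k F} (hx : (x : F) ∈ T)
    (hy : (y : F) ∈ T) : S ≤ T := by
  intro a ha
  have h : Algebra.adjoin k {x, y} ≤ T.comap S.val := by
    rw [Algebra.adjoin_le_iff, Set.insert_subset_iff, Set.singleton_subset_iff]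
    exact ⟨hx, hy⟩
  rw [hg] at h
  exact h (Algebra.mem_top (x := ⟨a, ha⟩))

theorem r1_eqn_coe (he : y ^ 2 = aeval x c) : (y : F) ^ 2 = aeval (x : F) c := by
  have h := congrArg S.val he
  rwa [map_pow, ← aeval_algHom_apply] at h

theorem r1_finite (hg : Algebra.adjoin k {x, y} = ⊤)
    (hf : ∀ f : F, ∃ a ∈ S, ∃ b ∈ S, b ≠ 0 ∧ f = a / b) (he : y ^ 2 = aeval x c) :
    FiniteDimensional k⟮(x : F)⟯ F := by
  have hi : IsIntegral k⟮(x : F)⟯ (y : F) := by
    refine IsIntegral.of_pow two_pos ?_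
    rw [r1_eqn_coe he]
    have hm : aeval (x : F) c ∈ k⟮(x : F)⟯ :=
      IntermediateField.algebra_adjoin_le_adjoin k _ (aeval_mem_adjoin_singleton k _)
    exact isIntegral_algebraMap (x := (⟨_, hm⟩ : k⟮(x : F)⟯))
  have hT : k⟮(x : F)⟯⟮(y : F)⟯ = ⊤ := by
    rw [eq_top_iff]
    intro f _
    obtain ⟨a, ha, b, hb, -, rfl⟩ := hf f
    have h : S ≤ k⟮(x : F), (y : F)⟯.toSubalgebra :=
      r1_mem hg (IntermediateField.subset_adjoin k _ (Set.mem_insert _ _))
        (IntermediateField.subset_adjoin k _ (Set.mem_insert_of_mem _ (Set.mem_singleton _)))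
    have h' : a / b ∈ k⟮(x : F), (y : F)⟯ := div_mem (h ha) (h hb)
    rw [← IntermediateField.adjoin_simple_adjoin_simple] at h'
    exact h'
  have h := IntermediateField.adjoin.finiteDimensional hi
  rw [hT] at h
  exact IntermediateField.topEquiv.toLinearEquiv.finiteDimensional

theorem r1_etale_x (hg : Algebra.adjoin k {x, y} = ⊤)
    (hf : ∀ f : F, ∃ a ∈ S, ∃ b ∈ S, b ≠ 0 ∧ f = a / b) (ht : Transcendental k x)
    (he : y ^ 2 = aeval x c) {s : S →ₐ[k] Λ} (hs : s y ≠ 0) : Etale S s x {y} := by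
  have : CharZero Λ := charZero_of_injective_algebraMap (algebraMap k Λ).injective
  refine ⟨by rw [Finset.coe_singleton]; exact hg, hf, ht, fun w hw => ?_⟩
  rw [Finset.mem_singleton.1 hw]
  refine ⟨X ^ 2 - C c, ?_, ?_⟩
  · simp [he]
  · simp [hs]

theorem r1_etale_y (hg : Algebra.adjoin k {x, y} = ⊤)
    (hf : ∀ f : F, ∃ a ∈ S, ∃ b ∈ S, b ≠ 0 ∧ f = a / b) (ht : Transcendental k x)
    (he : y ^ 2 = aeval x c) (hc : c.Separable) (hd : c.natDegree ≠ 0) {s : S →ₐ[k] Λ}
    (hs : s y = 0) : Etale S s y {x} := by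
  have hc0 : c ≠ 0 := fun h => hd (by rw [h, natDegree_zero])
  refine ⟨by rw [Finset.coe_singleton, Set.pair_comm]; exact hg, hf, ?_, fun w hw => ?_⟩
  · have h := ht.aeval c hd (mem_nonZeroDivisors_of_ne_zero (leadingCoeff_ne_zero.2 hc0))
    rw [← he] at h
    exact fun h' => h (h'.pow 2)
  · rw [Finset.mem_singleton.1 hw]
    have hm : (c.map C - C (X ^ 2) : k[X][X]).map (aeval y : k[X] →ₐ[k] S).toRingHom =
        c.map (algebraMap k S) - C (y ^ 2) := by
      rw [Polynomial.map_sub, Polynomial.map_map, map_C]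
      congr 2
      · ext a; simp
      · simp
    refine ⟨c.map C - C (X ^ 2), ?_, ?_⟩
    · rw [hm, eval_sub, eval_C, eval_map_algebraMap, he, sub_self]
    · rw [hm, derivative_sub, derivative_C, sub_zero, derivative_map, eval_map_algebraMap,
        ← aeval_algHom_apply]
      refine hc.aeval_derivative_ne_zero ?_
      rw [aeval_algHom_apply, ← he, map_pow, hs]; simp

theorem r1_val (hg : Algebra.adjoin k {x, y} = ⊤) {s : S →ₐ[k] Λ} {P : Place k F Λ}
    (hx : P.Val x (s x)) (hy : P.Val y (s y)) (a : S) : P.Val a (s a) := by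
  have ha : a ∈ Algebra.adjoin k {x, y} := by rw [hg]; exact Algebra.mem_top
  induction ha using Algebra.adjoin_induction with
  | mem w hw => rcases hw with rfl | rfl; exacts [hx, hy]
  | algebraMap r => rw [AlgHom.commutes]; exact P.val_alg r
  | add a b _ _ ha hb => rw [map_add]; exact ha.add hb
  | mul a b _ _ ha hb => rw [map_mul]; exact ha.mul hb

end model

section ord
open Affine.CoordinateRing

variable {k F Λ : Type} [Field k] [CharZero k] [Field F] [Field Λ] [Algebra k F] [Algebra k Λ]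
  [Algebra.IsAlgebraic k Λ] {S : Subalgebra k F} {x y : S} {c : k[X]}

theorem r1_split (τ : Λ) : ∃ ν : Λ[X], ν.eval τ ≠ 0 ∧
    (minpoly k τ).map (algebraMap k Λ) = (X - C τ) * ν := by
  have hs : ((minpoly k τ).map (algebraMap k Λ)).Separable :=
    (minpoly.irreducible (Algebra.IsIntegral.isIntegral τ)).separable.map
  have hr : ((minpoly k τ).map (algebraMap k Λ)).IsRoot τ := by
    rw [IsRoot.def, eval_map_algebraMap, minpoly.aeval]
  obtain ⟨ν, hν⟩ := dvd_iff_isRoot.2 hr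
  refine ⟨ν, fun h => ?_, hν⟩
  obtain ⟨ν', h'⟩ := dvd_iff_isRoot.2 h
  exact not_isUnit_X_sub_C _ (hs.squarefree (X - C τ) ⟨ν', by rw [hν, h', mul_assoc]⟩)

/-- the place above an affine point, and the order of `f` there -/
theorem r1_ord (hg : Algebra.adjoin k {x, y} = ⊤)
    (hf : ∀ f : F, ∃ a ∈ S, ∃ b ∈ S, b ≠ 0 ∧ f = a / b) (ht : Transcendental k x)
    (he : y ^ 2 = aeval x c) {E : Affine Λ} (h₁ : E.a₁ = 0) (h₃ : E.a₃ = 0) (hΔ : E.Δ ≠ 0)
    (hc : c.map (algebraMap k Λ) = cub E) {ψ : S →ₐ[k] E.CoordinateRing}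
    (hx : ψ x = mk E (C X)) (hy : ψ y = mk E X) {m : Multiset E.Point} {f : S} (hf0 : f ≠ 0)
    (hh : Ideal.span {ψ f} = ((m.filter (· ≠ 0)).map fun P => r1_m P).prod) {Q : E.Point}
    (hQ : Q ≠ 0) : (∃! P : Place k F Λ, P.Val x (xc Q) ∧ P.Val y (yc Q)) ∧
      ∀ P : Place k F Λ, P.Val x (xc Q) → P.Val y (yc Q) → P.ord f = m.count Q := by
  have : CharZero Λ := charZero_of_injective_algebraMap (algebraMap k Λ).injective
  obtain ⟨ev, ex, ey⟩ := r1_lift h₁ h₃ (A := Λ) (x := xc Q) (y := yc Q)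
    (by rw [yc_sq h₁ h₃ hQ, coe_aeval_eq_eval])
  let s : S →ₐ[k] Λ := (ev.restrictScalars k).comp ψ
  have hs : ∀ a, s a = ev (ψ a) := fun _ => rfl
  have sx : s x = xc Q := by rw [hs, hx, ex]
  have sy : s y = yc Q := by rw [hs, hy, ey]
  obtain ⟨t, Y, hE, htt⟩ : ∃ t Y, Etale S s t Y ∧
      (ψ t = mk E (C X) ∧ yc Q ≠ 0 ∨ ψ t = mk E X ∧ yc Q = 0) := by
    by_cases h0 : yc Q = 0
    · refine ⟨y, {x}, r1_etale_y hg hf ht he ?_ ?_ (sy.trans h0), Or.inr ⟨hy, h0⟩⟩
      · rw [← separable_map (algebraMap k Λ), hc]; exact separable_cub h₁ h₃ hΔ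
      · rw [← natDegree_map (algebraMap k Λ), hc, natDegree_cub]; norm_num
    · exact ⟨x, {y}, r1_etale_x hg hf ht he (by rwa [sy]), Or.inl ⟨hx, h0⟩⟩
  have hv : ∀ P : Place k F Λ, P.Val x (xc Q) ∧ P.Val y (yc Q) ↔ ∀ a : S, P.Val a (s a) :=
    fun P => ⟨fun h => r1_val hg (sx ▸ h.1) (sy ▸ h.2), fun h => ⟨sx ▸ h x, sy ▸ h y⟩⟩
  refine ⟨by simp only [hv]; exact hE.existsUnique, fun P px py => ?_⟩
  obtain ⟨j, u, b, hu, hb, hj, e⟩ := hE.exists_factor ((hv P).1 ⟨px, py⟩) hf0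
  obtain ⟨ν, hν, eν⟩ := r1_split (k := k) (s t)
  have e1 : ψ (aeval t (minpoly k (s t))) =
      (ψ t - algebraMap Λ _ (ev (ψ t))) * aeval (ψ t) ν := by
    rw [← aeval_algHom_apply, ← aeval_map_algebraMap Λ, eν, map_mul, map_sub, aeval_X, aeval_C, hs]
  have e2 := congrArg ψ e
  rw [map_mul, map_mul, map_pow, e1, mul_pow, mul_assoc] at e2
  rw [hj, r1_count h₁ h₃ hΔ two_ne_zero hh hQ ex ey htt hu ?_ e2]
  rw [map_mul, map_pow, ← aeval_algHom_apply, coe_aeval_eq_eval]
  exact mul_ne_zero (pow_ne_zero _ hν) hb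

end ord

variable {K Λ ι : Type} [Field K] [CharZero K] [Field Λ] [IsAlgClosed Λ] [Algebra K Λ]
  [IsGalois K Λ] [Fintype ι] {W : ι → WeierstrassCurve K} {L : IntermediateField K Λ}

theorem R1 [FiniteDimensional K L] (h₁ : ∀ i, (W i).a₁ = 0) (h₃ : ∀ i, (W i).a₃ = 0)
    (hΔ : ∀ i, (W i).Δ ≠ 0) (i : ι) {z : GR Λ W} (hz : z ∈ ZL W L) (m : Multiset (Pt (W i) Λ))
    (hinv : ∀ σ, Fix L σ → m.map (galP (W i) σ) = m) (hsum : m.sum = 0) :
    clL W L (z * (m.map (dl W i)).sum) = 0 := by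
  have b₁ : ∀ (A : Type) [Field A] [Algebra K A], (Affine.baseChange (W i) A).a₁ = 0 :=
    fun A _ _ => by simp [Affine.baseChange, WeierstrassCurve.baseChange, h₁ i]
  have b₃ : ∀ (A : Type) [Field A] [Algebra K A], (Affine.baseChange (W i) A).a₃ = 0 :=
    fun A _ _ => by simp [Affine.baseChange, WeierstrassCurve.baseChange, h₃ i]
  have bΔ : ∀ (A : Type) [Field A] [Algebra K A], (Affine.baseChange (W i) A).Δ ≠ 0 :=
    fun A _ _ => by
      rw [Affine.baseChange, WeierstrassCurve.baseChange, map_Δ]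
      exact (_root_.map_ne_zero _).2 (hΔ i)
  have bc : ∀ (A : Type) [Field A] [Algebra K A] [Algebra L A] [IsScalarTower K L A],
      (cub (Affine.baseChange (W i) L)).map (algebraMap L A) = cub (Affine.baseChange (W i) A) :=
    fun A _ _ _ _ => by
      rw [Affine.baseChange, Affine.baseChange, cub_baseChange, cub_baseChange, Polynomial.map_map,
        ← IsScalarTower.algebraMap_eq]
  obtain ⟨F, _, _, _, _, S, x, y, hg, hf, ht, he, hu⟩ := r1_exists_F K (b₁ L) (b₃ L)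
  obtain ⟨a, b, ha, hb, hne, hh⟩ := exists_ab m hinv hsum
  obtain ⟨a, rfl⟩ := ha.exists_map
  obtain ⟨b, rfl⟩ := hb.exists_map
  obtain ⟨ψ, ψx, ψy⟩ := hu (Affine.baseChange (W i) Λ).CoordinateRing _ _
    (by rw [r1_eqn (b₁ Λ) (b₃ Λ), ← bc Λ, aeval_map_algebraMap])
  obtain ⟨f, ef⟩ : ∃ f : S, ψ f = a.map (algebraMap L Λ) •
      (1 : (Affine.baseChange (W i) Λ).CoordinateRing) + b.map (algebraMap L Λ) •
        Affine.CoordinateRing.mk (Affine.baseChange (W i) Λ) X :=
    ⟨aeval x a + aeval x b * y, by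
      rw [r1_basis, aeval_map_algebraMap, aeval_map_algebraMap, map_add, map_mul,
        ← aeval_algHom_apply, ← aeval_algHom_apply, ψx, ψy]⟩
  rw [← ef] at hne hh
  have hf0 : f ≠ 0 := fun h => hne (by rw [h, map_zero])
  have key := fun (Q : Pt (W i) Λ) (hQ : Q ≠ 0) =>
    r1_ord hg hf ht he (b₁ Λ) (b₃ Λ) (bΔ Λ) (bc Λ) ψx ψy hf0 hh hQ
  obtain ⟨γ, γ0, γx, γy⟩ := exists_pt (b₁ F) (b₃ F) (bΔ F) (x := x) (y := y)
    (by rw [r1_eqn_coe he, ← bc F, eval_map_algebraMap])
  have htF : Transcendental L (x : F) := Subalgebra.transcendental_iff_transcendental_val.1 ht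
  have hF := r1_finite hg hf he
  let sp : Place L F Λ → Pt (W i) Λ := fun P => spec P.v.integer P.ev _ _ γ
  have D := fun P : Place L F Λ => P.specData (h₁ i) (h₃ i) (hΔ i)
  have s0 : ∀ P : Place L F Λ, (x : F) ∉ P.v.integer → sp P = 0 := fun P hP =>
    (D P).spec_of_not_mem (by rwa [γx])
  have s1 : ∀ P : Place L F Λ, (x : F) ∈ P.v.integer →
      sp P ≠ 0 ∧ P.Val x (xc (sp P)) ∧ P.Val y (yc (sp P)) := fun P hP => by
    obtain ⟨e0, e1, e2⟩ := (D P).spec_of_mem γ0 (by rwa [γx])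
    exact ⟨e0, γx ▸ ⟨_, e1.symm⟩, γy ▸ ⟨_, e2.symm⟩⟩
  have s2 : ∀ P : Place L F Λ, (x : F) ∈ P.v.integer → P.ord f = m.count (sp P) := fun P hP =>
    (key _ (s1 P hP).1).2 P (s1 P hP).2.1 (s1 P hP).2.2
  have s3 : ∀ P : Place L F Λ, (x : F) ∈ P.v.integer → ∀ P' : Place L F Λ,
      (x : F) ∈ P'.v.integer → sp P = sp P' → P = P' := fun P hP P' hP' h =>
    (key _ (s1 P hP).1).1.unique (s1 P hP).2 (h ▸ (s1 P' hP').2)
  have s4 : ∀ P : Place L F Λ, (x : F) ∈ P.v.integer → P.ord f ≠ 0 → sp P ∈ m := fun P hP h => by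
    rw [s2 P hP] at h
    exact Multiset.count_ne_zero.1 (by exact_mod_cast h)
  have hfin : {P : Place L F Λ | P.ord f ≠ 0}.Finite := by
    refine ((Place.finite_pole (Λ := Λ) htF hF).union
      (Set.Finite.of_injOn (s := {P | (x : F) ∈ P.v.integer ∧ P.ord f ≠ 0}) (f := sp)
        (fun P hP => ?_) (fun P hP P' hP' h => s3 P hP.1 P' hP'.1 h)
        m.toFinset.finite_toSet)).subset fun P hP => ?_
    · exact Finset.mem_coe.2 (Multiset.mem_toFinset.2 (s4 P hP.1 hP.2))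
    · by_cases h : (x : F) ∈ P.v.integer
      exacts [Or.inr ⟨h, hP⟩, Or.inl h]
  have main := R0_sym h₁ h₃ hΔ htF hF (f := f) (fun h => hf0 (Subtype.ext h))
    (s := hfin.toFinset) (fun P hP => hfin.mem_toFinset.2 hP) (Pi.single i γ) {i} hz
  simp only [Finset.prod_singleton, Pi.single_eq_same] at main
  have hx : ∀ P : Place L F Λ, P.ord f • dl W i (sp P) ≠ 0 → (x : F) ∈ P.v.integer :=
    fun P h => by_contra fun h' => h (by rw [s0 P h', dl_zero, smul_zero])
  rw [Finset.sum_multiset_map_count, ← main]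
  congr 2
  symm
  refine Finset.sum_bij_ne_zero (fun P _ _ => sp P) (fun P hP h => ?_)
    (fun P _ h P' _ h' e => s3 P (hx P h) P' (hx P' h') e) (fun Q hQ h => ?_) fun P _ h => ?_
  · exact Multiset.mem_toFinset.2 (s4 P (hx P h) (hfin.mem_toFinset.1 hP))
  · have hQ0 : Q ≠ 0 := fun h' => h (by rw [h', dl_zero, smul_zero])
    obtain ⟨P, px, py⟩ := (key Q hQ0).1.exists
    have e : sp P = Q := pt_ext (s1 P px.1).1 hQ0 ((s1 P px.1).2.1.unique px)
      ((s1 P px.1).2.2.unique py)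
    have e' : P.ord f = m.count Q := e ▸ s2 P px.1
    refine ⟨P, hfin.mem_toFinset.2 ?_, ?_, e⟩
    · rw [Set.mem_ofPred_eq, e']
      exact_mod_cast Multiset.count_ne_zero.2 (Multiset.mem_toFinset.1 hQ)
    · change P.ord f • dl W i (sp P) ≠ 0
      rwa [e, e', natCast_zsmul]
  · change P.ord f • dl W i (sp P) = _
    rw [s2 P (hx P h), natCast_zsmul]

end Pool.Agent.Lib.MP_796ce4_ag
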