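import Pool.Agent.Lib.MP_796ce4_ag.PlaceB

/-! The function field of a fibre product of double covers of the line. -/

namespace Pool.Agent.Lib.MP_796ce4_ag

open WeierstrassCurve Polynomial Module
open scoped Classical IntermediateField

set_option linter.unusedSectionVars false

/-- adjoining an element whose square is already there -/
theorem r3a_quad {k R : Type} [Field k] [CommRing R] [Algebra k R] {s : Set R} {y : R}
    (hy : y ^ 2 ∈ Algebra.adjoin k s) {z : R} (hz : z ∈ Algebra.adjoin k (insert y s)) :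
    ∃ u ∈ Algebra.adjoin k s, ∃ v ∈ Algebra.adjoin k s, z = u + v * y := by
  induction hz using Algebra.adjoin_induction with
  | mem z hz =>
    rcases hz with rfl | hz
    · exact ⟨0, zero_mem _, 1, one_mem _, by ring⟩
    · exact ⟨z, Algebra.subset_adjoin hz, 0, zero_mem _, by ring⟩
  | algebraMap c => exact ⟨_, Subalgebra.algebraMap_mem _ c, 0, zero_mem _, by ring⟩
  | add a b _ _ ha hb =>
    obtain ⟨u, hu, v, hv, rfl⟩ := ha
    obtain ⟨u', hu', v', hv', rfl⟩ := hb
    exact ⟨u + u', add_mem hu hu', v + v', add_mem hv hv', by ring⟩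
  | mul a b _ _ ha hb =>
    obtain ⟨u, hu, v, hv, rfl⟩ := ha
    obtain ⟨u', hu', v', hv', rfl⟩ := hb
    exact ⟨u * u' + v * v' * y ^ 2, add_mem (mul_mem hu hu') (mul_mem (mul_mem hv hv') hy),
      u * v' + v * u', add_mem (mul_mem hu hv') (mul_mem hv hu'), by ring⟩

theorem r3a_aeval_mem {k R : Type} [Field k] [CommRing R] [Algebra k R] {s : Set R} {x : R}
    (a : k[X]) : aeval x a ∈ Algebra.adjoin k (insert x s) :=
  Algebra.adjoin_mono (Set.singleton_subset_iff.2 (Set.mem_insert _ _))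
    (Polynomial.aeval_mem_adjoin_singleton k x)

theorem r3a_ins {R ι : Type} (x : R) (w : ι → R) (j : ι) (J : Finset ι) :
    insert x (w '' ((insert j J : Finset ι) : Set ι)) = insert (w j) (insert x (w '' (J : Set ι))) := by
  rw [Finset.coe_insert, Set.image_insert_eq, Set.insert_comm]

/-- a polynomial with a simple root is not a square in the rational function field -/
theorem r3a_not_sq {k Λ : Type} [Field k] [Field Λ] [Algebra k Λ] {g h p q : k[X]} {ρ : Λ}
    (h0 : aeval ρ g = 0) (h1 : aeval ρ g.derivative ≠ 0) (hh : aeval ρ h ≠ 0) (hq : q ≠ 0)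
    (he : g * h * q ^ 2 = p ^ 2) : False := by
  have hinj : Function.Injective (algebraMap k Λ) := (algebraMap k Λ).injective
  have hg0 : g ≠ 0 := by rintro rfl; simp at h1
  have hh0 : h ≠ 0 := by rintro rfl; simp at hh
  have hp0 : p ≠ 0 := by
    rintro rfl
    have : g * h * q ^ 2 ≠ 0 := mul_ne_zero (mul_ne_zero hg0 hh0) (pow_ne_zero _ hq)
    exact this (by rw [he]; ring)
  set φ := algebraMap k Λ
  have g' : g.map φ ≠ 0 := (Polynomial.map_ne_zero_iff hinj).2 hg0
  have h' : h.map φ ≠ 0 := (Polynomial.map_ne_zero_iff hinj).2 hh0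
  have p' : p.map φ ≠ 0 := (Polynomial.map_ne_zero_iff hinj).2 hp0
  have q' : q.map φ ≠ 0 := (Polynomial.map_ne_zero_iff hinj).2 hq
  have he' : g.map φ * h.map φ * (q.map φ * q.map φ) = p.map φ * p.map φ := by
    have := congrArg (Polynomial.map φ) he
    simpa [Polynomial.map_mul, Polynomial.map_pow, sq] using this
  have hm := congrArg (rootMultiplicity ρ) he'
  rw [rootMultiplicity_mul (mul_ne_zero (mul_ne_zero g' h') (mul_ne_zero q' q')),
    rootMultiplicity_mul (mul_ne_zero g' h'), rootMultiplicity_mul (mul_ne_zero q' q'),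
    rootMultiplicity_mul (mul_ne_zero p' p')] at hm
  have e1 : rootMultiplicity ρ (h.map φ) = 0 := by
    apply rootMultiplicity_eq_zero
    rw [IsRoot.def, eval_map_algebraMap]
    exact hh
  have e2 : 0 < rootMultiplicity ρ (g.map φ) := by
    rw [rootMultiplicity_pos g', IsRoot.def, eval_map_algebraMap]
    exact h0
  have e3 : ¬1 < rootMultiplicity ρ (g.map φ) := by
    rw [one_lt_rootMultiplicity_iff_isRoot g']
    rintro ⟨-, h2⟩
    rw [derivative_map, IsRoot.def, eval_map_algebraMap] at h2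
    exact h1 h2
  omega

section
variable {k Λ ι F : Type} [Field k] [CharZero k] [Field Λ] [Algebra k Λ] [Field F] [Algebra k F]
  {I : Finset ι} {G : ι → k[X]} {x : F} {w : ι → F}

/-- squares in the multiquadratic extension -/
def R3aK (G : ι → k[X]) (x : F) (w : ι → F) (J : Finset ι) : Prop :=
  ∀ a : k[X], ∀ u ∈ Algebra.adjoin k (insert x (w '' (J : Set ι))),
    ∀ v ∈ Algebra.adjoin k (insert x (w '' (J : Set ι))), v ≠ 0 → u ^ 2 = aeval x a * v ^ 2 →
      ∃ T ⊆ J, ∃ p q : k[X], q ≠ 0 ∧ a * (∏ i ∈ T, G i) * q ^ 2 = p ^ 2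

theorem r3a_indep
    (hG : ∀ j ∈ I, ∃ ρ : Λ, aeval ρ (G j) = 0 ∧ aeval ρ (G j).derivative ≠ 0 ∧
      ∀ i ∈ I, i ≠ j → aeval ρ (G i) ≠ 0)
    (hw : ∀ i ∈ I, w i ^ 2 = aeval x (G i)) {J : Finset ι} (hJ : J ⊆ I) {j : ι} (hj : j ∈ I)
    (hjJ : j ∉ J) (hK : R3aK G x w J) {u v : F}
    (hu : u ∈ Algebra.adjoin k (insert x (w '' (J : Set ι))))
    (hv : v ∈ Algebra.adjoin k (insert x (w '' (J : Set ι)))) (h : u + v * w j = 0) : v = 0 := by
  by_contra hv0
  have hu' : u = -(v * w j) := by linear_combination h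
  obtain ⟨T, hT, p, q, hq, he⟩ := hK (G j) u hu v hv hv0 (by rw [hu', ← hw j hj]; ring)
  obtain ⟨ρ, h0, h1, h2⟩ := hG j hj
  refine r3a_not_sq h0 h1 ?_ hq he
  rw [map_prod]
  refine Finset.prod_ne_zero_iff.2 fun i hi => h2 i (hJ (hT hi)) ?_
  rintro rfl
  exact hjJ (hT hi)

theorem r3a_kummer
    (hG : ∀ j ∈ I, ∃ ρ : Λ, aeval ρ (G j) = 0 ∧ aeval ρ (G j).derivative ≠ 0 ∧
      ∀ i ∈ I, i ≠ j → aeval ρ (G i) ≠ 0)
    (hx : Transcendental k x) (hw : ∀ i ∈ I, w i ^ 2 = aeval x (G i)) (J : Finset ι) :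
    J ⊆ I → R3aK G x w J := by
  have : CharZero F := charZero_of_injective_algebraMap (algebraMap k F).injective
  induction J using Finset.induction_on with
  | empty =>
    intro _ a u hu v hv hv0 h
    simp only [Finset.coe_empty, Set.image_empty, insert_empty_eq] at hu hv
    rw [Algebra.adjoin_singleton_eq_range_aeval] at hu hv
    obtain ⟨p, rfl⟩ := hu
    obtain ⟨q, rfl⟩ := hv
    refine ⟨∅, Finset.Subset.refl _, p, q, ?_, ?_⟩
    · rintro rfl
      exact hv0 (map_zero _)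
    · apply (transcendental_iff_injective.1 hx)
      simp only [Finset.prod_empty, mul_one, map_mul, map_pow]
      exact h.symm
  | insert j J hjJ ih =>
    intro hsub a u hu v hv hv0 h
    have hJ : J ⊆ I := (Finset.subset_insert j J).trans hsub
    have hj : j ∈ I := hsub (Finset.mem_insert_self j J)
    have hK := ih hJ
    have hind := fun u v hu hv => r3a_indep hG hw hJ hj hjJ hK (u := u) (v := v) hu hv
    have hsq : w j ^ 2 ∈ Algebra.adjoin k (insert x (w '' (J : Set ι))) := by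
      rw [hw j hj]; exact r3a_aeval_mem _
    rw [r3a_ins] at hu hv
    obtain ⟨u0, hu0, u1, hu1, rfl⟩ := r3a_quad hsq hu
    obtain ⟨v0, hv0', v1, hv1, rfl⟩ := r3a_quad hsq hv
    have hconj : v0 - v1 * w j ≠ 0 := by
      intro h0
      have h1 : -v1 = 0 := hind v0 (-v1) hv0' (neg_mem hv1) (by linear_combination h0)
      have h2 : v1 = 0 := neg_eq_zero.1 h1
      apply hv0
      rw [h2] at h0 ⊢
      linear_combination h0
    set N := v0 ^ 2 - v1 ^ 2 * w j ^ 2 with hN
    have hNm : N ∈ Algebra.adjoin k (insert x (w '' (J : Set ι))) :=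
      sub_mem (pow_mem hv0' 2) (mul_mem (pow_mem hv1 2) hsq)
    have hN0 : N ≠ 0 := by
      have : N = (v0 + v1 * w j) * (v0 - v1 * w j) := by rw [hN]; ring
      rw [this]; exact mul_ne_zero hv0 hconj
    set c0 := u0 * v0 - u1 * v1 * w j ^ 2 with hc0
    set c1 := u1 * v0 - u0 * v1 with hc1
    have hc0m : c0 ∈ Algebra.adjoin k (insert x (w '' (J : Set ι))) :=
      sub_mem (mul_mem hu0 hv0') (mul_mem (mul_mem hu1 hv1) hsq)
    have hc1m : c1 ∈ Algebra.adjoin k (insert x (w '' (J : Set ι))) :=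
      sub_mem (mul_mem hu1 hv0') (mul_mem hu0 hv1)
    have key : (c0 ^ 2 + c1 ^ 2 * w j ^ 2 - aeval x a * N ^ 2) + (2 * c0 * c1) * w j = 0 := by
      rw [hc0, hc1, hN]
      linear_combination (v0 - v1 * w j) ^ 2 * h
    have h2m : (2 : F) ∈ Algebra.adjoin k (insert x (w '' (J : Set ι))) := by
      have := add_mem (one_mem (Algebra.adjoin k (insert x (w '' (J : Set ι))))) (one_mem _)
      rwa [one_add_one_eq_two] at this
    have hz : 2 * c0 * c1 = 0 := hind _ _
      (sub_mem (add_mem (pow_mem hc0m 2) (mul_mem (pow_mem hc1m 2) hsq))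
        (mul_mem (r3a_aeval_mem a) (pow_mem hNm 2))) (mul_mem (mul_mem h2m hc0m) hc1m) key
    rw [hz, zero_mul, add_zero] at key
    rcases mul_eq_zero.1 hz with hz | hz
    · have hz' : c0 = 0 := (mul_eq_zero.1 hz).resolve_left two_ne_zero
      obtain ⟨T, hT, p, q, hq, he⟩ := hK (a * G j) (c1 * w j ^ 2) (mul_mem hc1m hsq) N hNm hN0 (by
        rw [map_mul, ← hw j hj]
        rw [hz'] at key
        linear_combination (w j) ^ 2 * key)
      refine ⟨insert j T, Finset.insert_subset_insert _ hT, p, q, hq, ?_⟩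
      rw [Finset.prod_insert fun h => hjJ (hT h), ← he]
      ring
    · obtain ⟨T, hT, p, q, hq, he⟩ := hK a c0 hc0m N hNm hN0 (by
        rw [hz] at key
        linear_combination key)
      exact ⟨T, hT.trans (Finset.subset_insert _ _), p, q, hq, he⟩

theorem r3a_fst_mem {ξ : Λ} {η : ι → Λ} (J : Finset ι) {z : F × Λ}
    (hz : z ∈ Algebra.adjoin k (insert (x, ξ) ((fun i => (w i, η i)) '' (J : Set ι)))) :
    z.1 ∈ Algebra.adjoin k (insert x (w '' (J : Set ι))) := by
  have h := Subalgebra.mem_map.2 ⟨z, hz, (rfl : AlgHom.fst k F Λ z = z.1)⟩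
  rw [AlgHom.map_adjoin, Set.image_insert_eq, Set.image_image] at h
  exact h

theorem r3a_graph
    (hG : ∀ j ∈ I, ∃ ρ : Λ, aeval ρ (G j) = 0 ∧ aeval ρ (G j).derivative ≠ 0 ∧
      ∀ i ∈ I, i ≠ j → aeval ρ (G i) ≠ 0)
    (hx : Transcendental k x) (hw : ∀ i ∈ I, w i ^ 2 = aeval x (G i)) {ξ : Λ} {η : ι → Λ}
    (hη : ∀ i ∈ I, η i ^ 2 = aeval ξ (G i)) (J : Finset ι) :
    J ⊆ I → ∀ z ∈ Algebra.adjoin k (insert (x, ξ) ((fun i => (w i, η i)) '' (J : Set ι))),
      z.1 = 0 → z.2 = 0 := by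
  have hev : ∀ a : k[X], aeval ((x, ξ) : F × Λ) a = (aeval x a, aeval ξ a) := fun a => by
    ext
    · exact (Polynomial.aeval_algHom_apply (AlgHom.fst k F Λ) (x, ξ) a).symm
    · exact (Polynomial.aeval_algHom_apply (AlgHom.snd k F Λ) (x, ξ) a).symm
  induction J using Finset.induction_on with
  | empty =>
    intro _ z hz h
    simp only [Finset.coe_empty, Set.image_empty, insert_empty_eq] at hz
    rw [Algebra.adjoin_singleton_eq_range_aeval] at hz
    obtain ⟨p, rfl⟩ := hz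
    have e : (aeval ((x, ξ) : F × Λ)).toRingHom p = (aeval x p, aeval ξ p) := hev p
    rw [e] at h ⊢
    have hp : p = 0 := (transcendental_iff_injective.1 hx) (by simpa using h)
    simp [hp]
  | insert j J hjJ ih =>
    intro hsub z hz h
    have hJ : J ⊆ I := (Finset.subset_insert j J).trans hsub
    have hj : j ∈ I := hsub (Finset.mem_insert_self j J)
    have hsq : ((w j, η j) : F × Λ) ^ 2 ∈
        Algebra.adjoin k (insert (x, ξ) ((fun i => (w i, η i)) '' (J : Set ι))) := by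
      have : ((w j, η j) : F × Λ) ^ 2 = aeval ((x, ξ) : F × Λ) (G j) := by
        rw [hev, ← hw j hj, ← hη j hj]; rfl
      rw [this]; exact r3a_aeval_mem _
    rw [r3a_ins (x, ξ) (fun i => (w i, η i))] at hz
    obtain ⟨u, hu, v, hv, rfl⟩ := r3a_quad hsq hz
    have h' : u.1 + v.1 * w j = 0 := h
    have hv0 : v.1 = 0 := r3a_indep hG hw hJ hj hjJ (r3a_kummer hG hx hw J hJ)
      (r3a_fst_mem J hu) (r3a_fst_mem J hv) h'
    have hu0 : u.1 = 0 := by rw [hv0] at h'; simpa using h'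
    show u.2 + v.2 * η j = 0
    rw [ih hJ u hu hu0, ih hJ v hv hv0]; ring

theorem r3a_hom
    (hG : ∀ j ∈ I, ∃ ρ : Λ, aeval ρ (G j) = 0 ∧ aeval ρ (G j).derivative ≠ 0 ∧
      ∀ i ∈ I, i ≠ j → aeval ρ (G i) ≠ 0)
    (hx : Transcendental k x) (hw : ∀ i ∈ I, w i ^ 2 = aeval x (G i)) {ξ : Λ} {η : ι → Λ}
    (hη : ∀ i ∈ I, η i ^ 2 = aeval ξ (G i)) :
    ∃ s : Algebra.adjoin k (insert x (w '' (I : Set ι))) →ₐ[k] Λ,
      (∀ h, s ⟨x, h⟩ = ξ) ∧ ∀ i ∈ I, ∀ h, s ⟨w i, h⟩ = η i := by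
  set Γ := Algebra.adjoin k (insert (x, ξ) ((fun i => (w i, η i)) '' (I : Set ι))) with hΓ
  let φ : Γ →ₐ[k] Algebra.adjoin k (insert x (w '' (I : Set ι))) :=
    ((AlgHom.fst k F Λ).comp Γ.val).codRestrict _ fun z => r3a_fst_mem I z.2
  have hφ : ∀ z : Γ, (φ z : F) = z.1.1 := fun z => rfl
  have hinj : Function.Injective φ := by
    rw [injective_iff_map_eq_zero]
    intro z hz
    have h1 : z.1.1 = 0 := by rw [← hφ, hz]; rfl
    have h2 := r3a_graph hG hx hw hη I (Finset.Subset.refl _) z.1 z.2 h1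
    exact Subtype.ext (Prod.ext h1 h2)
  have hsurj : Function.Surjective φ := by
    rintro ⟨y, hy⟩
    have h : Γ.map (AlgHom.fst k F Λ) = Algebra.adjoin k (insert x (w '' (I : Set ι))) := by
      rw [hΓ, AlgHom.map_adjoin, Set.image_insert_eq, Set.image_image]
      rfl
    have hy' := hy
    rw [← h] at hy'
    obtain ⟨z, hz, rfl⟩ := Subalgebra.mem_map.1 hy'
    exact ⟨⟨z, hz⟩, rfl⟩
  let e := AlgEquiv.ofBijective φ ⟨hinj, hsurj⟩
  have he : ∀ (z : Γ) y, φ z = y → e.symm y = z := fun z y h => by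
    rw [AlgEquiv.symm_apply_eq]; exact h.symm
  refine ⟨((AlgHom.snd k F Λ).comp Γ.val).comp e.symm.toAlgHom, fun h => ?_, fun i hi h => ?_⟩
  · have := he ⟨(x, ξ), Algebra.subset_adjoin (Set.mem_insert _ _)⟩ ⟨x, h⟩ rfl
    show ((e.symm ⟨x, h⟩ : Γ) : F × Λ).2 = ξ
    rw [this]
  · have := he ⟨(w i, η i), Algebra.subset_adjoin (Set.mem_insert_of_mem _ ⟨i, hi, rfl⟩)⟩
      ⟨w i, h⟩ rfl
    show ((e.symm ⟨w i, h⟩ : Γ) : F × Λ).2 = η i
    rw [this]

theorem r3a_findim (hw : ∀ i ∈ I, w i ^ 2 = aeval x (G i))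
    (htop : IntermediateField.adjoin k (insert x (w '' (I : Set ι))) = ⊤) :
    FiniteDimensional k⟮x⟯ F := by
  have h1 : IntermediateField.adjoin k⟮x⟯ (w '' (I : Set ι)) = ⊤ := by
    apply IntermediateField.restrictScalars_injective k
    rw [IntermediateField.adjoin_adjoin_left, IntermediateField.restrictScalars_top, ← htop]
    rfl
  have : Finite (w '' (I : Set ι)) := (I.finite_toSet.image w).to_subtype
  have h2 : FiniteDimensional k⟮x⟯ (IntermediateField.adjoin k⟮x⟯ (w '' (I : Set ι))) := by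
    apply IntermediateField.finiteDimensional_adjoin
    rintro _ ⟨i, hi, rfl⟩
    apply IsIntegral.of_pow two_pos
    rw [hw i hi]
    have hm : aeval x (G i) ∈ k⟮x⟯ :=
      IntermediateField.algebra_adjoin_le_adjoin k {x} (Polynomial.aeval_mem_adjoin_singleton k x)
    exact isIntegral_algebraMap (x := (⟨_, hm⟩ : k⟮x⟯))
  rw [h1] at h2
  exact IntermediateField.topEquiv.toLinearEquiv.finiteDimensional

end

theorem r3a_field {k ι : Type} [Field k] (I : Finset ι) (G : ι → k[X]) :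
    ∃ (F : Type) (_ : Field F) (_ : Algebra k F) (x : F) (w : ι → F), Transcendental k x ∧
      (∀ i ∈ I, w i ^ 2 = aeval x (G i)) ∧ (∀ i, i ∉ I → w i = 0) ∧
      IntermediateField.adjoin k (insert x (w '' (I : Set ι))) = ⊤ := by
  let Ω := AlgebraicClosure (RatFunc k)
  let x0 : Ω := algebraMap (RatFunc k) Ω RatFunc.X
  have hx0 : Transcendental k x0 :=
    (transcendental_algebraMap_iff (algebraMap (RatFunc k) Ω).injective).2 RatFunc.transcendental_X
  choose w0 hw0 using fun i => IsAlgClosed.exists_pow_nat_eq (aeval x0 (G i)) two_pos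
  let E := IntermediateField.adjoin k (insert x0 (w0 '' (I : Set ι)))
  let x : E := ⟨x0, IntermediateField.subset_adjoin _ _ (Set.mem_insert _ _)⟩
  let w : ι → E := fun i => if h : i ∈ I then
    ⟨w0 i, IntermediateField.subset_adjoin _ _ (Set.mem_insert_of_mem _ ⟨i, h, rfl⟩)⟩ else 0
  have hwv : ∀ i ∈ I, (w i : Ω) = w0 i := fun i hi => by simp only [w, dif_pos hi]
  refine ⟨E, inferInstance, inferInstance, x, w, ?_, fun i hi => ?_, fun i hi => dif_neg hi, ?_⟩
  · exact (transcendental_algebraMap_iff (algebraMap E Ω).injective).1 hx0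
  · apply Subtype.ext
    have := Polynomial.aeval_algHom_apply E.val x (G i)
    rw [SubmonoidClass.coe_pow, hwv i hi, hw0]
    exact this
  · apply IntermediateField.lift_injective
    rw [IntermediateField.lift_adjoin, IntermediateField.lift_top, Set.image_insert_eq,
      Set.image_image, Set.image_congr (g := w0) fun i hi => hwv i hi]

theorem exists_cover {k Λ ι : Type} [Field k] [CharZero k] [Field Λ] [IsAlgClosed Λ] [Algebra k Λ]
    [Algebra.IsAlgebraic k Λ] (I : Finset ι) (G : ι → k[X])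
    (hG : ∀ j ∈ I, ∃ ρ : Λ, aeval ρ (G j) = 0 ∧ aeval ρ (G j).derivative ≠ 0 ∧
      ∀ i ∈ I, i ≠ j → aeval ρ (G i) ≠ 0) :
    ∃ (F : Type) (_ : Field F) (_ : Algebra k F) (S : Subalgebra k F) (x : S) (w : ι → S),
      Transcendental k x ∧ FiniteDimensional k⟮(x : F)⟯ F ∧ (∀ i ∈ I, w i ^ 2 = aeval x (G i)) ∧
      Algebra.adjoin k (insert x ((I.image w : Finset S) : Set S)) = ⊤ ∧
      (∀ f : F, ∃ a ∈ S, ∃ b ∈ S, b ≠ 0 ∧ f = a / b) ∧
      ∀ (ξ : Λ) (η : ι → Λ), (∀ i ∈ I, η i ^ 2 = aeval ξ (G i)) →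
        ∃ s : S →ₐ[k] Λ, s x = ξ ∧ ∀ i ∈ I, s (w i) = η i := by
  obtain ⟨F, _, _, x, w, hx, hw, hw0, htop⟩ := r3a_field I G
  let S := Algebra.adjoin k (insert x (w '' (I : Set ι)))
  have hxS : x ∈ S := Algebra.subset_adjoin (Set.mem_insert _ _)
  have hwS : ∀ i, w i ∈ S := fun i => by
    by_cases hi : i ∈ I
    · exact Algebra.subset_adjoin (Set.mem_insert_of_mem _ ⟨i, hi, rfl⟩)
    · rw [hw0 i hi]; exact zero_mem _
  refine ⟨F, inferInstance, inferInstance, S, ⟨x, hxS⟩, fun i => ⟨w i, hwS i⟩, ?_,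
    r3a_findim hw htop, fun i hi => ?_, ?_, fun f => ?_, fun ξ η hη => ?_⟩
  · exact (transcendental_algebraMap_iff (R := k) (S := S) (A := F) Subtype.val_injective).1 hx
  · apply Subtype.ext
    have := Polynomial.aeval_algHom_apply S.val ⟨x, hxS⟩ (G i)
    rw [SubmonoidClass.coe_pow]
    exact (hw i hi).trans this
  · apply Subalgebra.map_injective (f := S.val) Subtype.val_injective
    rw [AlgHom.map_adjoin, Algebra.map_top, Subalgebra.range_val, Finset.coe_image,
      Set.image_insert_eq, Set.image_image]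
    rfl
  · have hf : f ∈ IntermediateField.adjoin k (insert x (w '' (I : Set ι))) := by
      rw [htop]; trivial
    obtain ⟨a, ha, b, hb, rfl⟩ := IntermediateField.mem_adjoin_iff_div.1 hf
    by_cases hb0 : b = 0
    · exact ⟨0, zero_mem _, 1, one_mem _, one_ne_zero, by simp [hb0]⟩
    · exact ⟨a, ha, b, hb, hb0, rfl⟩
  · obtain ⟨s, h1, h2⟩ := r3a_hom hG hx hw hη
    exact ⟨s, h1 _, fun i hi => h2 i hi _⟩

end Pool.Agent.Lib.MP_796ce4_ag
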