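import Pool.Agent.Lib.MP_796ce4_ag.R0
import Pool.Agent.Lib.MP_796ce4_ag.R3a
import Pool.Agent.Lib.MP_796ce4_ag.PlaceF

/-! Relations given by the fibre products of the curves over a rational curve. -/

namespace Pool.Agent.Lib.MP_796ce4_ag

open WeierstrassCurve Polynomial Module
open scoped Classical IntermediateField

set_option linter.unusedSectionVars false

variable {K Λ ι : Type} [Field K] [Field Λ] [Algebra K Λ] (W : ι → WeierstrassCurve K)

/-- the cubic of the `i`-th factor evaluated at `R i` -/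
noncomputable def Fp (R : ι → Λ[X]) (i : ι) : Λ[X] := (cub ((W i).baseChange Λ)).comp (R i)

/-- the sum of the symbols of `a` over all even sign changes -/
noncomputable def evenSum (I : Finset ι) (a : Pts W Λ) : GR Λ W :=
  ∑ J ∈ I.powerset with Even J.card, ∏ i ∈ I, dl W i (if i ∈ J then -a i else a i)

/-- each `Fp i` has a simple root that is not a root of the others -/
def Indep (I : Finset ι) (R : ι → Λ[X]) : Prop :=
  ∀ j ∈ I, ∃ ρ : Λ, (Fp W R j).eval ρ = 0 ∧ (Fp W R j).derivative.eval ρ ≠ 0 ∧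
    ∀ i ∈ I, i ≠ j → (Fp W R i).eval ρ ≠ 0

section aux
variable {k F : Type} [Field k] [Field F] [Algebra k F] [Algebra k Λ]

theorem r3_pole (P : Place k F Λ) {x : F} (hx : x ∉ P.v.integer) (n : ℕ) :
    ∀ R : k[X], R.natDegree = n + 1 → aeval x R ∉ P.v.integer := by
  have hc : ∀ c : k, algebraMap k F c ∈ P.v.integer := fun c => (P.val_alg c).elim fun h _ => h
  have hx0 : x ≠ 0 := fun h => hx (h ▸ zero_mem _)
  have hi : x⁻¹ ∈ P.v.integer := (P.v.val_le_one_or_val_inv_le_one x).resolve_left hx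
  have step : ∀ R : k[X], aeval x R ∈ P.v.integer → aeval x R.divX * x ∈ P.v.integer := by
    intro R h
    have h1 : aeval x R.divX * x = aeval x R - algebraMap k F (R.coeff 0) := by
      conv_rhs => rw [← divX_mul_X_add R]
      simp
    rw [h1]
    exact sub_mem h (hc _)
  induction n with
  | zero =>
    intro R hR h
    have h1 : R.divX.natDegree = 0 := by rw [natDegree_divX_eq_natDegree_tsub_one, hR]
    have h2 := step R h
    rw [eq_C_of_natDegree_eq_zero h1, aeval_C, coeff_divX] at h2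
    have h3 : R.coeff (0 + 1) ≠ 0 := by
      rw [← hR]
      exact leadingCoeff_ne_zero.2 (ne_zero_of_natDegree_gt (n := 0) (by omega))
    have h4 := mul_mem (hc (R.coeff (0 + 1))⁻¹) h2
    rw [← mul_assoc, ← map_mul, inv_mul_cancel₀ h3, map_one, one_mul] at h4
    exact hx h4
  | succ n ih =>
    intro R hR h
    refine ih R.divX (by rw [natDegree_divX_eq_natDegree_tsub_one, hR]; rfl) ?_
    have h4 := mul_mem (step R h) hi
    rwa [mul_inv_cancel_right₀ hx0] at h4

variable {S : Subalgebra k F} {x : S} {w : ι → S} {I : Finset ι} {G : ι → k[X]}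

theorem r3_coe (x : S) (g : k[X]) : ((aeval x g : S) : F) = aeval (x : F) g :=
  (aeval_algHom_apply S.val x g).symm

theorem r3_hom (P : Place k F Λ) (hw : ∀ i ∈ I, w i ^ 2 = aeval x (G i))
    (hgen : Algebra.adjoin k (insert x ((I.image w : Finset S) : Set S)) = ⊤)
    (hx : (x : F) ∈ P.v.integer) : ∃ φ : S →ₐ[k] Λ, ∀ a : S, P.Val a (φ a) := by
  have hmem : ∀ a : S, (a : F) ∈ P.v.integer := by
    intro a
    have ha : a ∈ Algebra.adjoin k (insert x ((I.image w : Finset S) : Set S)) := by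
      rw [hgen]
      trivial
    induction ha using Algebra.adjoin_induction with
    | mem a ha =>
      rcases ha with rfl | ha
      · exact hx
      · obtain ⟨i, hi, rfl⟩ := Finset.mem_image.1 (Finset.mem_coe.1 ha)
        obtain ⟨c, hc⟩ := Place.exists_val hx
        refine Place.mem_of_sq ?_
        have h1 : (w i : F) ^ 2 = aeval (x : F) (G i) := by
          rw [← r3_coe, ← hw i hi]
          rfl
        rw [h1]
        exact (hc.aeval (G i)).elim fun h _ => h
    | algebraMap c => exact (P.val_alg c).elim fun h _ => h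
    | add a b _ _ ha hb => exact add_mem ha hb
    | mul a b _ _ ha hb => exact mul_mem ha hb
  obtain ⟨φ, hφ⟩ := Place.exists_algHom (P := P) (s := (S : Set F)) fun f hf => hmem ⟨f, hf⟩
  exact ⟨φ.comp (Subalgebra.inclusion (Algebra.adjoin_eq S).ge),
    fun a => hφ (Subalgebra.inclusion (Algebra.adjoin_eq S).ge a)⟩

theorem r3_etale [CharZero Λ] (hx : Transcendental k x) (hw : ∀ i ∈ I, w i ^ 2 = aeval x (G i))
    (hgen : Algebra.adjoin k (insert x ((I.image w : Finset S) : Set S)) = ⊤)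
    (hfr : ∀ f : F, ∃ a ∈ S, ∃ b ∈ S, b ≠ 0 ∧ f = a / b) {s : S →ₐ[k] Λ}
    (hs : ∀ i ∈ I, s (w i) ≠ 0) : Etale S s x (I.image w) := by
  refine ⟨hgen, hfr, hx, fun y hy => ?_⟩
  obtain ⟨i, hi, rfl⟩ := Finset.mem_image.1 hy
  refine ⟨X ^ 2 - C (G i), ?_, ?_⟩
  · simp [hw i hi]
  · have h2 : (2 : Λ) * s (w i) ≠ 0 := mul_ne_zero two_ne_zero (hs i hi)
    have h3 : s (((X ^ 2 - C (G i) : k[X][X]).map
        (aeval x : k[X] →ₐ[k] S).toRingHom).derivative.eval (w i)) = 2 * s (w i) := by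
      simp [one_add_one_eq_two, map_ofNat]
    rwa [h3]

theorem r3_sign {J : Finset ι} (hJ : J ⊆ I) (y : ι → Λ) :
    ∏ i ∈ I, (if i ∈ J then -y i else y i) = (-1) ^ J.card * ∏ i ∈ I, y i := by
  have h1 : ∀ i, (if i ∈ J then -y i else y i) = (if i ∈ J then -1 else 1) * y i := fun i => by
    split_ifs <;> simp
  simp only [h1, Finset.prod_mul_distrib, Finset.prod_ite_mem, Finset.inter_eq_right.2 hJ,
    Finset.prod_const]

end aux

variable {W} [CharZero K] [IsAlgClosed Λ] [IsGalois K Λ] [Fintype ι] {L : IntermediateField K Λ}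

theorem R3 [FiniteDimensional K L] (h₁ : ∀ i, (W i).a₁ = 0) (h₃ : ∀ i, (W i).a₃ = 0)
    (hΔ : ∀ i, (W i).Δ ≠ 0) {I : Finset ι} (hI : I.Nonempty) {z : GR Λ W} (hz : z ∈ ZL W L)
    {R : ι → Λ[X]} (hR : ∀ i ∈ I, Over L (R i) ∧ 0 < (R i).natDegree) (hInd : Indep W I R)
    {A : Λ[X]} (hA : Over L A) {α : Λ} (hα : α ∈ L) (hα0 : α ≠ 0) {N : Λ[X]}
    (hN : N = A ^ 2 - C (α ^ 2) * ∏ i ∈ I, Fp W R i) (hN0 : N ≠ 0) (pt : Λ → Pts W Λ)
    (hpt : ∀ ξ ∈ N.roots, (∀ i ∈ I, pt ξ i ≠ 0 ∧ xc (pt ξ i) = (R i).eval ξ ∧ yc (pt ξ i) ≠ 0) ∧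
      α * ∏ i ∈ I, yc (pt ξ i) = A.eval ξ) :
    clL W L (z * (N.roots.map fun ξ => evenSum W I (pt ξ)).sum) = 0 := by
  have : CharZero Λ := charZero_of_injective_algebraMap (algebraMap K Λ).injective
  have : CharZero L := charZero_of_injective_algebraMap (algebraMap K L).injective
  have : Algebra.IsAlgebraic L Λ := Algebra.IsAlgebraic.tower_top (K := K) L
  have hex : ∀ i, ∃ g : L[X], i ∈ I → g.map (algebraMap L Λ) = R i := fun i => by
    by_cases hi : i ∈ I
    · obtain ⟨g, hg⟩ := (hR i hi).1.exists_map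
      exact ⟨g, fun _ => hg⟩
    · exact ⟨0, fun h => absurd h hi⟩
  choose R₀ hR₀ using hex
  obtain ⟨A₀, hA₀⟩ := hA.exists_map
  set G : ι → L[X] := fun i => (cub ((W i).baseChange L)).comp (R₀ i) with hG
  have hGm : ∀ i ∈ I, (G i).map (algebraMap L Λ) = Fp W R i := fun i hi => by
    rw [hG, Fp, map_comp, hR₀ i hi, cub_baseChange, cub_baseChange, Polynomial.map_map,
      ← IsScalarTower.algebraMap_eq]
  have hev : ∀ (g : L[X]) (ξ : Λ), aeval ξ g = (g.map (algebraMap L Λ)).eval ξ := fun g ξ => by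
    rw [eval_map, aeval_def]
  have hGe : ∀ i ∈ I, ∀ ξ : Λ, aeval ξ (G i) = (Fp W R i).eval ξ := fun i hi ξ => by
    rw [hev, hGm i hi]
  set α₀ : L := ⟨α, hα⟩ with hα₀
  set N₀ : L[X] := A₀ ^ 2 - C (α₀ ^ 2) * ∏ i ∈ I, G i with hN₀
  have hNm : N₀.map (algebraMap L Λ) = N := by
    rw [hN, hN₀, Polynomial.map_sub, Polynomial.map_pow, Polynomial.map_mul, map_C, hA₀,
      Polynomial.map_prod, Finset.prod_congr rfl hGm, map_pow]
    rfl
  have hN00 : N₀ ≠ 0 := fun h => hN0 (by rw [← hNm, h, Polynomial.map_zero])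
  obtain ⟨F, _, _, S, x, w, hx, hF, hw, hgen, hfr, hS⟩ := exists_cover (Λ := Λ) I G fun j hj => by
    obtain ⟨ρ, a1, a2, a3⟩ := hInd j hj
    refine ⟨ρ, by rw [hGe j hj, a1], ?_, fun i hi hij => by rw [hGe i hi]; exact a3 i hi hij⟩
    rwa [hev, ← derivative_map, hGm j hj]
  let : Algebra K F := ((algebraMap L F).comp (algebraMap K L)).toAlgebra
  have : IsScalarTower K L F := IsScalarTower.of_algebraMap_eq fun _ => rfl
  have hxF : Transcendental L (x : F) :=
    fun h => hx ((isAlgebraic_algHom_iff S.val Subtype.val_injective).1 h)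
  have hb₁ : ∀ (M : Type) [Field M] [Algebra K M] (i : ι), (Affine.baseChange (W i) M).a₁ = 0 :=
    fun M _ _ i => by simp [h₁ i]
  have hb₃ : ∀ (M : Type) [Field M] [Algebra K M] (i : ι), (Affine.baseChange (W i) M).a₃ = 0 :=
    fun M _ _ i => by simp [h₃ i]
  have hexg : ∀ i, ∃ Q : Pt (W i) F, i ∈ I →
      Q ≠ 0 ∧ xc Q = aeval (x : F) (R₀ i) ∧ yc Q = w i := fun i => by
    by_cases hi : i ∈ I
    · have h1 : (w i : F) ^ 2 = (cub (Affine.baseChange (W i) F)).eval (aeval (x : F) (R₀ i)) := by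
        have h2 : (w i : F) ^ 2 = aeval (x : F) (G i) := by
          rw [← r3_coe, ← hw i hi]
          rfl
        have h3 : cub (Affine.baseChange (W i) F) = (cub (W i)).map (algebraMap K F) :=
          cub_baseChange
        rw [h2, hG, aeval_comp, h3, cub_baseChange, aeval_map_algebraMap, eval_map, aeval_def]
      have hΔF : (Affine.baseChange (W i) F).Δ ≠ 0 := by
        have h4 : (Affine.baseChange (W i) F).Δ = algebraMap K F (W i).Δ := map_Δ _ _
        rw [h4]
        exact (_root_.map_ne_zero _).2 (hΔ i)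
      obtain ⟨Q, hQ⟩ := exists_pt (hb₁ F i) (hb₃ F i) hΔF h1
      exact ⟨Q, fun _ => hQ⟩
    · exact ⟨0, fun h => absurd h hi⟩
  choose g hg using hexg
  set h : S := aeval x A₀ - algebraMap L S α₀ * ∏ i ∈ I, w i with hh
  set h' : S := aeval x A₀ + algebraMap L S α₀ * ∏ i ∈ I, w i with hh'
  have hhh : h * h' = aeval x N₀ := by
    rw [hN₀, map_sub, map_pow, map_mul, aeval_C, map_prod, ← Finset.prod_congr rfl hw,
      Finset.prod_pow, map_pow, hh, hh']
    ring
  have hhF : (h : F) * h' = aeval (x : F) N₀ := by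
    rw [← r3_coe, ← hhh]
    rfl
  have hne : aeval (x : F) N₀ ≠ 0 := fun hc => hN00 ((transcendental_iff.1 hxF) _ hc)
  have hh0 : (h : F) ≠ 0 := left_ne_zero_of_mul (hhF ▸ hne)
  have hh0' : (h' : F) ≠ 0 := right_ne_zero_of_mul (hhF ▸ hne)
  have hval : ∀ s : S →ₐ[L] Λ, s h = A.eval (s x) - α * ∏ i ∈ I, s (w i) ∧
      s h' = A.eval (s x) + α * ∏ i ∈ I, s (w i) := fun s => by
    have h1 : s (aeval x A₀) = A.eval (s x) := by rw [← aeval_algHom_apply, hev, hA₀]
    have h2 : s (algebraMap L S α₀) = α := s.commutes α₀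
    rw [hh, hh', map_sub, map_add, map_mul, map_prod, h1, h2]
    exact ⟨rfl, rfl⟩
  have hA0 : ∀ ξ ∈ N.roots, A.eval ξ ≠ 0 := fun ξ hξ => by
    rw [← (hpt ξ hξ).2]
    exact mul_ne_zero hα0 (Finset.prod_ne_zero_iff.2 fun i hi => ((hpt ξ hξ).1 i hi).2.2)
  have hysq : ∀ ξ ∈ N.roots, ∀ i ∈ I, yc (pt ξ i) ^ 2 = aeval ξ (G i) := fun ξ hξ i hi => by
    obtain ⟨a1, a2, -⟩ := (hpt ξ hξ).1 i hi
    rw [yc_sq (hb₁ Λ i) (hb₃ Λ i) a1, a2, hGe i hi, Fp, eval_comp]
  set η : Λ × Finset ι → ι → Λ := fun t i =>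
    if i ∈ t.2 then -yc (pt t.1 i) else yc (pt t.1 i) with hη
  set T : Finset (Λ × Finset ι) :=
    N.roots.toFinset ×ˢ (I.powerset.filter fun J => Even J.card) with hT
  have hTm : ∀ t, t ∈ T ↔ t.1 ∈ N.roots ∧ t.2 ⊆ I ∧ Even t.2.card := fun t => by
    rw [hT, Finset.mem_product, Multiset.mem_toFinset, Finset.mem_filter, Finset.mem_powerset]
  have hexP : ∀ t : T, ∃ (s : S →ₐ[L] Λ) (P : Place L F Λ), s x = t.1.1 ∧
      (∀ i ∈ I, s (w i) = η t i) ∧ Etale S s x (I.image w) ∧ ∀ a : S, P.Val a (s a) := by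
    rintro ⟨t, ht⟩
    obtain ⟨a1, -, -⟩ := (hTm t).1 ht
    obtain ⟨s, b1, b2⟩ := hS t.1 (η t) fun i hi => by
      rw [← hysq _ a1 i hi, hη]
      dsimp only
      split_ifs <;> ring
    have b3 : Etale S s x (I.image w) := r3_etale hx hw hgen hfr fun i hi => by
      have := ((hpt _ a1).1 i hi).2.2
      rw [b2 i hi, hη]
      dsimp only
      split_ifs
      · exact neg_ne_zero.2 this
      · exact this
    obtain ⟨P, hP, -⟩ := b3.existsUnique
    exact ⟨s, P, b1, b2, b3, hP⟩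
  choose sT PT hsx hsw hse hsP using hexP
  have hinj : Function.Injective PT := by
    intro t t' htt
    have e1 : ∀ a : S, sT t a = sT t' a := fun a => (hsP t a).unique (htt ▸ hsP t' a)
    obtain ⟨a1, a2, -⟩ := (hTm _).1 t.2
    obtain ⟨-, b2, -⟩ := (hTm _).1 t'.2
    have e2 : t.1.1 = t'.1.1 := by rw [← hsx, ← hsx, e1]
    refine Subtype.ext (Prod.ext e2 (Finset.ext fun i => ?_))
    by_cases hi : i ∈ I
    · have e3 : η t i = η t' i := by rw [← hsw t i hi, ← hsw t' i hi, e1]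
      have e4 := ((hpt _ a1).1 i hi).2.2
      rw [hη] at e3
      dsimp only at e3
      rw [← e2] at e3
      by_cases c1 : i ∈ t.1.2 <;> by_cases c2 : i ∈ t'.1.2 <;>
        simp only [c1, c2, if_true, if_false] at e3 ⊢
      · exact absurd (neg_eq_self.1 e3) e4
      · exact absurd (neg_eq_self.1 e3.symm) e4
    · exact iff_of_false (fun c => hi (a2 c)) (fun c => hi (b2 c))
  have hord : ∀ t : T, (PT t).ord h = N.roots.count t.1.1 := fun t => by
    obtain ⟨a1, a2, a3⟩ := (hTm _).1 t.2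
    have e1 := (hse t).ord_aeval (hsP t) hN00
    have e2 : sT t h' ≠ 0 := by
      rw [(hval _).2, Finset.prod_congr rfl (hsw t), hsx, hη]
      dsimp only
      rw [r3_sign a2, a3.neg_one_pow, one_mul, (hpt _ a1).2, ← two_mul]
      exact mul_ne_zero two_ne_zero (hA0 _ a1)
    rw [← hhF, Place.ord_mul _ hh0 hh0', (hsP t h').ord_eq_zero e2, add_zero, hNm, hsx] at e1
    rw [e1, count_roots]
  have hspec : ∀ t : T, ∀ i ∈ I, spec (PT t).v.integer (PT t).ev _ _ (g i) =
      if i ∈ t.1.2 then -pt t.1.1 i else pt t.1.1 i := fun t i hi => by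
    obtain ⟨a1, -, -⟩ := (hTm _).1 t.2
    obtain ⟨b1, b2, b3⟩ := hg i hi
    obtain ⟨c1, c2, -⟩ := (hpt _ a1).1 i hi
    have v1 : (PT t).Val (xc (g i)) ((R i).eval t.1.1) := by
      rw [b2, ← hR₀ i hi, ← hev, ← hsx]
      exact (hsP t x).aeval _
    have v2 : (PT t).Val (yc (g i)) (η t i) := by
      rw [b3, ← hsw t i hi]
      exact hsP t _
    obtain ⟨m1, v1⟩ := v1
    obtain ⟨m2, v2⟩ := v2
    obtain ⟨d1, d2, d3⟩ := ((PT t).specData (h₁ i) (h₃ i) (hΔ i)).spec_of_mem b1 m1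
    refine pt_ext d1 ?_ (d2.trans (v1.trans ?_)) (d3.trans (v2.trans ?_))
    · split_ifs
      · exact neg_ne_zero.2 c1
      · exact c1
    · split_ifs
      · rw [xc_neg, c2]
      · rw [c2]
    · rw [hη]
      dsimp only
      split_ifs
      · rw [yc_neg (hb₁ Λ i) (hb₃ Λ i)]
      · rfl
  have hfin := Place.finite_pole (Λ := Λ) hxF hF
  have hall : ∀ P : Place L F Λ, P.ord h ≠ 0 → P ∈ Finset.univ.image PT ∪ hfin.toFinset := by
    intro P hP
    rw [Finset.mem_union, Set.Finite.mem_toFinset]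
    refine or_iff_not_imp_right.2 fun hxP => ?_
    obtain ⟨φ, hφ⟩ := r3_hom P hw hgen (not_not.1 hxP)
    have e0 : φ h = 0 := by_contra fun hc => hP ((hφ h).ord_eq_zero hc)
    have e1 : φ x ∈ N.roots := by
      rw [mem_roots hN0, IsRoot, ← hNm, ← hev, aeval_algHom_apply, ← hhh, map_mul, e0, zero_mul]
    set J : Finset ι := I.filter fun i => φ (w i) ≠ yc (pt (φ x) i) with hJ
    have e2 : ∀ i ∈ I, φ (w i) = η (φ x, J) i := fun i hi => by
      have e3 : φ (w i) ^ 2 = yc (pt (φ x) i) ^ 2 := by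
        rw [hysq _ e1 i hi, aeval_algHom_apply, ← hw i hi, map_pow]
      rw [hη]
      dsimp only
      split_ifs with c
      · exact (sq_eq_sq_iff_eq_or_eq_neg.1 e3).resolve_left (Finset.mem_filter.1 c).2
      · exact not_not.1 fun c' => c (Finset.mem_filter.2 ⟨hi, c'⟩)
    have e4 : Even J.card := by
      rw [(hval φ).1, Finset.prod_congr rfl e2, hη] at e0
      dsimp only at e0
      rw [r3_sign (Finset.filter_subset _ _), mul_left_comm, (hpt _ e1).2] at e0
      by_contra hc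
      rw [(Nat.not_even_iff_odd.1 hc).neg_one_pow, neg_one_mul, sub_neg_eq_add, ← two_mul] at e0
      exact mul_ne_zero two_ne_zero (hA0 _ e1) e0
    set t : T := ⟨(φ x, J), (hTm _).2 ⟨e1, Finset.filter_subset _ _, e4⟩⟩ with ht
    have e5 : φ = sT t := AlgHom.ext_of_adjoin_eq_top hgen fun a ha => by
      rcases ha with rfl | ha
      · exact (hsx t).symm
      · obtain ⟨i, hi, rfl⟩ := Finset.mem_image.1 (Finset.mem_coe.1 ha)
        exact (e2 i hi).trans (hsw t i hi).symm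
    exact Finset.mem_image.2 ⟨t, Finset.mem_univ _,
      (hse t).existsUnique.unique (hsP t) (e5 ▸ hφ)⟩
  have key := R0_sym h₁ h₃ hΔ hxF hF hh0 hall g I hz
  rw [← Finset.sum_subset Finset.subset_union_left, Finset.sum_image fun a _ b _ c => hinj c] at key
  · have e1 : ∀ t ∈ (Finset.univ : Finset T), (PT t).ord h •
        ∏ i ∈ I, dl W i (spec (PT t).v.integer (PT t).ev _ _ (g i)) = (N.roots.count t.1.1 : ℤ) •
          ∏ i ∈ I, dl W i (if i ∈ t.1.2 then -pt t.1.1 i else pt t.1.1 i) := fun t _ => by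
      rw [hord t, Finset.prod_congr rfl fun i hi => congrArg (dl W i) (hspec t i hi)]
    rw [← key, Finset.sum_multiset_map_count, Finset.sum_congr rfl e1,
      Finset.sum_coe_sort T fun t => (N.roots.count t.1 : ℤ) •
        ∏ i ∈ I, dl W i (if i ∈ t.2 then -pt t.1 i else pt t.1 i), hT, Finset.sum_product]
    congr 2
    refine Finset.sum_congr rfl fun ξ _ => ?_
    rw [evenSum, Finset.smul_sum]
    exact Finset.sum_congr rfl fun J _ => (natCast_zsmul _ _).symm
  · intro P hP hnP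
    have e1 : (x : F) ∉ P.v.integer := by
      have := (Finset.mem_union.1 hP).resolve_left hnP
      rwa [Set.Finite.mem_toFinset] at this
    obtain ⟨i, hi⟩ := hI
    have e2 : (R₀ i).natDegree = (R₀ i).natDegree - 1 + 1 := by
      have := (hR i hi).2
      rw [← hR₀ i hi, natDegree_map] at this
      omega
    have e3 : xc (g i) ∉ P.v.integer := by
      rw [(hg i hi).2.1]
      exact r3_pole P e1 _ _ e2
    rw [Finset.prod_eq_zero hi, smul_zero]
    rw [(P.specData (h₁ i) (h₃ i) (hΔ i)).spec_of_not_mem e3, dl_zero]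

end Pool.Agent.Lib.MP_796ce4_ag
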