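import Pool.Agent.Lib.MP_796ce4_ag.Lang

/-! Reduction modulo the maximal ideal. -/

namespace Pool.Agent.Lib.MP_796ce4_ag

open WeierstrassCurve Polynomial Module
open scoped Classical IntermediateField

set_option linter.unusedSectionVars false

theorem red_cub_map {R R' : Type} [CommRing R] [CommRing R'] (W : WeierstrassCurve R)
    (f : R →+* R') : cub (W.map f) = (cub W).map f := by
  simp [cub, Polynomial.map_add, Polynomial.map_mul, Polynomial.map_pow]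

section res
variable (Λ : Type) [NormedField Λ] [IsUltrametricDist Λ]

/-- the ring of integers -/
noncomputable abbrev red_O : Subring Λ := (NormedField.valuation (K := Λ)).integer

/-- the residue field -/
abbrev red_k : Type := IsLocalRing.ResidueField (red_O Λ)

/-- the residue map -/
noncomputable abbrev red_ev : red_O Λ →+* red_k Λ := IsLocalRing.residue (red_O Λ)

variable {Λ}

theorem red_mem {x : Λ} : x ∈ red_O Λ ↔ ‖x‖ ≤ 1 := by
  rw [Valuation.mem_integer_iff, NormedField.valuation_apply, ← NNReal.coe_le_coe]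
  simp

theorem red_ev_eq_zero {z : red_O Λ} : red_ev Λ z = 0 ↔ ‖(z : Λ)‖ < 1 := by
  rw [IsLocalRing.residue_eq_zero_iff, IsLocalRing.mem_maximalIdeal, mem_nonunits_iff,
    Valuation.Integer.not_isUnit_iff_valuation_lt_one, NormedField.valuation_apply,
    ← NNReal.coe_lt_coe]
  simp

/-- the residue of an element (zero if it is not integral) -/
noncomputable def red_rs (x : Λ) : red_k Λ :=
  if h : ‖x‖ ≤ 1 then red_ev Λ ⟨x, red_mem.2 h⟩ else 0

theorem red_rs_eq {x : Λ} (h : x ∈ red_O Λ) : red_ev Λ ⟨x, h⟩ = red_rs x := by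
  rw [red_rs, dif_pos (red_mem.1 h)]

theorem red_rs_coe (z : red_O Λ) : red_rs (z : Λ) = red_ev Λ z := (red_rs_eq z.2).symm

theorem red_rs_eq_zero {x : Λ} (hx : ‖x‖ ≤ 1) : red_rs x = 0 ↔ ‖x‖ < 1 := by
  rw [← red_rs_eq (red_mem.2 hx), red_ev_eq_zero]

theorem red_rs_eq_iff {x y : Λ} (hx : ‖x‖ ≤ 1) (hy : ‖y‖ ≤ 1) :
    red_rs x = red_rs y ↔ ‖x - y‖ < 1 := by
  rw [← red_rs_eq (red_mem.2 hx), ← red_rs_eq (red_mem.2 hy), ← sub_eq_zero, ← map_sub,
    red_ev_eq_zero]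
  rfl

theorem red_rs_pow {x : Λ} (hx : ‖x‖ ≤ 1) (n : ℕ) : red_rs (x ^ n) = red_rs x ^ n := by
  rw [← red_rs_eq (red_mem.2 hx), ← map_pow, ← red_rs_coe]
  rfl

theorem red_rs_surj (z : red_k Λ) : ∃ x : Λ, ‖x‖ ≤ 1 ∧ red_rs x = z := by
  obtain ⟨w, rfl⟩ := IsLocalRing.residue_surjective z
  exact ⟨w, red_mem.1 w.2, red_rs_coe w⟩

theorem red_pow_le {x : Λ} (hx : ‖x‖ ≤ 1) (n : ℕ) : ‖x ^ n‖ ≤ 1 :=
  red_mem.1 (pow_mem (red_mem.2 hx) n)

theorem red_le_of_near {x y : Λ} (hx : ‖x‖ ≤ 1) (h : ‖x - y‖ < 1) : ‖y‖ ≤ 1 := by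
  have h1 := sub_mem (red_mem.2 hx) (red_mem.2 h.le)
  rw [sub_sub_cancel] at h1
  exact red_mem.1 h1

instance red_algClosed [IsAlgClosed Λ] : IsAlgClosed (red_k Λ) := by
  apply IsAlgClosed.of_exists_root
  intro g hg hirr
  have hl : g ∈ Polynomial.lifts (red_ev Λ) :=
    (Polynomial.mem_lifts g).mpr (Polynomial.map_surjective _ IsLocalRing.residue_surjective g)
  obtain ⟨f, hfp, hdeg, hf⟩ := Polynomial.lifts_and_natDegree_eq_and_monic hl hg
  have hd : (f.map (red_O Λ).subtype).degree ≠ 0 := by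
    have h1 : 0 < (f.map (red_O Λ).subtype).natDegree := by
      rw [hf.natDegree_map, hdeg]; exact hirr.natDegree_pos
    exact (Polynomial.natDegree_pos_iff_degree_pos.mp h1).ne'
  obtain ⟨x, hx⟩ := IsAlgClosed.exists_root _ hd
  have hi : Intg (f.map (red_O Λ).subtype) := fun n => by
    rw [coeff_map]; exact red_mem.1 (f.coeff n).2
  have hx1 : x ∈ red_O Λ := red_mem.2 (hi.root_le (hf.map _) hx)
  refine ⟨red_ev Λ ⟨x, hx1⟩, ?_⟩
  have h0 : f.eval ⟨x, hx1⟩ = 0 := by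
    apply Subtype.ext
    have h2 := eval_map_apply (p := f) (red_O Λ).subtype ⟨x, hx1⟩
    exact h2.symm.trans hx
  rw [← hfp, eval_map_apply, h0, map_zero]

end res

variable {p : ℕ} {K Λ : Type} [Field K] [CharZero K] [NormedField Λ] [IsUltrametricDist Λ]
  [IsAlgClosed Λ] [Algebra K Λ] [IsGalois K Λ] [Loc p K Λ]

variable (Λ) in
/-- the field generated by the residues of the coefficients -/
noncomputable abbrev red_S (E : WeierstrassCurve K) : Subfield (red_k Λ) :=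
  Subfield.closure {red_rs (algebraMap K Λ E.a₂), red_rs (algebraMap K Λ E.a₄),
    red_rs (algebraMap K Λ E.a₆)}

variable (Λ) in
/-- the reduced curve -/
noncomputable def red_E (E : WeierstrassCurve K) : WeierstrassCurve (red_S Λ E) :=
  ⟨0, ⟨red_rs (algebraMap K Λ E.a₂), Subfield.subset_closure (by simp)⟩, 0,
    ⟨red_rs (algebraMap K Λ E.a₄), Subfield.subset_closure (by simp)⟩,
    ⟨red_rs (algebraMap K Λ E.a₆), Subfield.subset_closure (by simp)⟩⟩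

include p

variable (K) in
include K in
theorem red_charP : CharP (red_k Λ) p := by
  have : Fact p.Prime := ⟨Loc.prime K Λ⟩
  rw [CharP.charP_iff_prime_eq_zero Fact.out, ← map_natCast (red_ev Λ), red_ev_eq_zero]
  simpa using Loc.norm_p (K := K) (Λ := Λ)

variable {E : WeierstrassCurve K} (hE : Good Λ E) {L : IntermediateField K Λ}
include hE

/-- an integral model -/
noncomputable def Good.red_int : WeierstrassCurve (red_O Λ) :=
  ⟨0, ⟨_, red_mem.2 hE.a₂⟩, 0, ⟨_, red_mem.2 hE.a₄⟩, ⟨_, red_mem.2 hE.a₆⟩⟩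

theorem Good.red_int_map : hE.red_int.map (red_O Λ).subtype = E.baseChange Λ := by
  ext <;> simp [Good.red_int, WeierstrassCurve.baseChange, hE.a₁, hE.a₃]

theorem Good.red_int_ev : hE.red_int.map (red_ev Λ) = (red_E Λ E).baseChange (red_k Λ) := by
  ext <;> simp [Good.red_int, WeierstrassCurve.baseChange, red_E, red_rs_eq] <;> rfl

theorem Good.red_Δ : ((red_E Λ E).baseChange (red_k Λ)).Δ ≠ 0 := by
  rw [← hE.red_int_ev, map_Δ, Ne, red_ev_eq_zero]
  have h := congrArg WeierstrassCurve.Δ hE.red_int_map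
  rw [map_Δ, WeierstrassCurve.baseChange, map_Δ] at h
  have h2 : ‖(hE.red_int.Δ : Λ)‖ = 1 := by rw [← hE.Δ, ← h]; rfl
  rw [h2]; exact lt_irrefl _

theorem Good.red_Δ' : (red_E Λ E).Δ ≠ 0 := fun h => hE.red_Δ <| by
  rw [WeierstrassCurve.baseChange, map_Δ, h, map_zero]

theorem Good.red_data : SpecData (red_O Λ) (red_ev Λ) (Affine.baseChange E Λ)
    (Affine.baseChange (red_E Λ E) (red_k Λ)) where
  val x := by
    rw [red_mem, red_mem, norm_inv]
    rcases le_total ‖x‖ 1 with h | h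
    · exact Or.inl h
    · exact Or.inr (inv_le_one_of_one_le₀ h)
  loc z hz := by
    rw [Ne, red_ev_eq_zero, not_lt] at hz
    rw [red_mem, norm_inv]
    exact inv_le_one_of_one_le₀ hz
  a₁ := by simp [WeierstrassCurve.baseChange, hE.a₁]
  a₃ := by simp [WeierstrassCurve.baseChange, hE.a₃]
  b₁ := by simp [WeierstrassCurve.baseChange, red_E]
  b₃ := by simp [WeierstrassCurve.baseChange, red_E]
  a₂ := ⟨red_mem.2 hE.a₂, red_rs_eq _⟩
  a₄ := ⟨red_mem.2 hE.a₄, red_rs_eq _⟩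
  a₆ := ⟨red_mem.2 hE.a₆, red_rs_eq _⟩
  Δ := hE.red_Δ

/-- reduction of points -/
noncomputable def Good.red : Pt E Λ →+ Pt (red_E Λ E) (red_k Λ) := hE.red_data.hom

theorem Good.red_of_le {P : Pt E Λ} (hP : P ≠ 0) (hx : ‖xc P‖ ≤ 1) : ‖yc P‖ ≤ 1 ∧
    hE.red P ≠ 0 ∧ xc (hE.red P) = red_rs (xc P) ∧ yc (hE.red P) = red_rs (yc P) := by
  obtain ⟨h1, h2, h3⟩ := hE.red_data.spec_of_mem hP (red_mem.2 hx)
  rw [red_rs_eq] at h2 h3
  exact ⟨red_mem.1 (hE.red_data.yc_mem (red_mem.2 hx)), h1, h2, h3⟩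

theorem Good.red_eq_zero {P : Pt E Λ} : hE.red P = 0 ↔ Form P := by
  constructor
  · intro h
    by_contra h'
    rw [Form, not_or, not_lt] at h'
    exact (hE.red_of_le h'.1 h'.2).2.1 h
  · rintro (rfl | h)
    · exact map_zero _
    · exact hE.red_data.spec_of_not_mem (by rw [red_mem, not_le]; exact h)

theorem Good.red_of_ne {P : Pt E Λ} (h : hE.red P ≠ 0) : ‖xc P‖ ≤ 1 ∧ ‖yc P‖ ≤ 1 ∧
    xc (hE.red P) = red_rs (xc P) ∧ yc (hE.red P) = red_rs (yc P) := by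
  rw [Ne, hE.red_eq_zero, Form, not_or, not_lt] at h
  obtain ⟨h1, -, h2, h3⟩ := hE.red_of_le h.1 h.2
  exact ⟨h.2, h1, h2, h3⟩

theorem Good.red_cub {x : Λ} (hx : ‖x‖ ≤ 1) :
    red_rs ((cub (E.baseChange Λ)).eval x) =
      (cub ((red_E Λ E).baseChange (red_k Λ))).eval (red_rs x) ∧
    red_rs ((cub (E.baseChange Λ)).derivative.eval x) =
      (cub ((red_E Λ E).baseChange (red_k Λ))).derivative.eval (red_rs x) := by
  obtain ⟨z, rfl⟩ : ∃ z : red_O Λ, (red_O Λ).subtype z = x := ⟨⟨x, red_mem.2 hx⟩, rfl⟩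
  have hz : red_rs ((red_O Λ).subtype z) = red_ev Λ z := red_rs_coe z
  rw [← hE.red_int_map, ← hE.red_int_ev, red_cub_map, red_cub_map, derivative_map, derivative_map,
    hz, eval_map_apply, eval_map_apply, eval_map_apply, eval_map_apply]
  exact ⟨red_rs_coe _, red_rs_coe _⟩

theorem Good.deriv_unit {x : Λ} (hx : ‖x‖ ≤ 1) (h : ‖(cub (E.baseChange Λ)).eval x‖ < 1) :
    ‖(cub (E.baseChange Λ)).derivative.eval x‖ = 1 := by
  obtain ⟨h1, h2⟩ := hE.red_cub hx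
  have hd := hE.intg.derivative.eval_le hx
  by_contra hne
  have h3 := (red_rs_eq_zero hd).2 (lt_of_le_of_ne hd hne)
  have h4 := (red_rs_eq_zero h.le).2 h
  have hs := separable_cub (E := Affine.baseChange (red_E Λ E) (red_k Λ)) hE.red_data.b₁
    hE.red_data.b₃ hE.red_Δ
  exact hs.eval₂_derivative_ne_zero (RingHom.id _) (h1.symm.trans h4) (h2.symm.trans h3)

theorem Good.form_add {P Q : Pt E Λ} (hP : Form P) (hQ : Form Q) : Form (P + Q) := by
  rw [← hE.red_eq_zero] at hP hQ ⊢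
  rw [map_add, hP, hQ, add_zero]

theorem Good.form_neg {P : Pt E Λ} (hP : Form P) : Form (-P) := by
  rw [← hE.red_eq_zero] at hP ⊢
  rw [map_neg, hP, neg_zero]

/-- the kernel of reduction -/
noncomputable def Good.form : AddSubgroup (Pt E Λ) where
  carrier := {P | Form P}
  zero_mem' := Or.inl rfl
  add_mem' := hE.form_add
  neg_mem' := hE.form_neg

theorem Good.mem_form {P : Pt E Λ} : P ∈ hE.form ↔ Form P := Iff.rfl

theorem Good.form_gal {P : Pt E Λ} (h : Form P) (σ : Λ ≃ₐ[K] Λ) : Form (galP E σ P) := by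
  rcases h with rfl | h
  · exact Or.inl (map_zero _)
  · exact Or.inr (by rwa [xc_galP, Loc.norm_gal])

theorem Good.gd_gal {P : Pt E Λ} (h : Gd P) (σ : Λ ≃ₐ[K] Λ) : Gd (galP E σ P) :=
  ⟨by rw [Ne, galP_eq_zero]; exact h.1, by rw [xc_galP, Loc.norm_gal]; exact h.2.1,
    by rw [yc_galP, Loc.norm_gal]; exact h.2.2⟩

theorem Good.gd_neg {P : Pt E Λ} (h : Gd P) : Gd (-P) :=
  ⟨neg_ne_zero.2 h.1, by rw [xc_neg]; exact h.2.1,
    by rw [yc_neg hE.red_data.a₁ hE.red_data.a₃, norm_neg]; exact h.2.2⟩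

theorem Good.gd_add {a b : Pt E Λ} (ha : Form a) (hb : Gd b) :
    Gd (a + b) ∧ ‖xc (a + b) - xc b‖ < 1 ∧ ‖yc (a + b) - yc b‖ < 1 := by
  obtain ⟨h1, h2, h3, h4⟩ := hE.red_of_le hb.1 hb.2.1
  have he : hE.red (a + b) = hE.red b := by rw [map_add, hE.red_eq_zero.2 ha, zero_add]
  obtain ⟨k1, k2, k3, k4⟩ := hE.red_of_ne (P := a + b) (by rw [he]; exact h2)
  rw [he] at k3 k4
  have e1 := (red_rs_eq_iff k1 hb.2.1).1 (k3.symm.trans h3)
  have e2 := (red_rs_eq_iff k2 h1).1 (k4.symm.trans h4)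
  refine ⟨⟨fun h0 => h2 (by rw [← he, h0, map_zero]), k1, ?_⟩, e1, e2⟩
  rw [← hb.2.2]
  exact norm_eq_of_sub_lt (by rw [hb.2.2, norm_sub_rev]; exact e2)

theorem Good.exists_gd (T : Tower p L) : ∃ n, 0 < n ∧ ∃ b ∈ pts E (T.U n), Gd b := by
  obtain ⟨j, hj, -, t, ht, ht1, hav⟩ := T.exists_avoid (cub (E.baseChange Λ)).roots.toFinset
  have hm : (cub (E.baseChange Λ)).Monic := monic_cub (E := Affine.baseChange E Λ)
  have hc : ‖(cub (E.baseChange Λ)).eval t‖ = 1 := by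
    by_contra hne
    obtain ⟨x, hx0, hx⟩ := hE.intg.exists_root_near hm
      (lt_of_le_of_ne (hE.intg.eval_le ht1) hne)
    exact hav x (by rw [Multiset.mem_toFinset, mem_roots hm.ne_zero]; exact hx0)
      (by rwa [norm_sub_rev])
  obtain ⟨y, hy⟩ := IsAlgClosed.exists_pow_nat_eq ((cub (E.baseChange Λ)).eval t) two_pos
  have hy1 : ‖y‖ = 1 := by
    have h := congrArg norm hy
    rw [norm_pow, hc] at h
    exact (pow_eq_one_iff_of_nonneg (norm_nonneg _) two_ne_zero).1 h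
  obtain ⟨n, hn, u, hu, hyu⟩ := T.exists_near hy1.le
  have hN : 0 < j * n := Nat.mul_pos hj hn
  have ht' := T.mono hj hN (dvd_mul_right _ _) ht
  have hu' := T.mono hn hN (dvd_mul_left _ _) hu
  have hu1 : ‖u‖ = 1 := (norm_eq_of_sub_lt (by rw [hy1]; exact hyu)).trans hy1
  obtain ⟨w, hw, hw2, hwu⟩ := exists_sqrt_mem ((over_cub E).eval ht') hu' hu1
    (by rw [← hy, norm_sub_rev]; exact norm_pow_sub_pow_lt hy1.le hyu 2)
  obtain ⟨P, hP, hx, hy'⟩ := exists_pt (E := Affine.baseChange E Λ) hE.red_data.a₁ hE.red_data.a₃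
    (by rw [Affine.baseChange, WeierstrassCurve.baseChange, map_Δ]; simpa using hE.Δ_ne) hw2
  refine ⟨j * n, hN, P, mem_pts_iff.2 ⟨hx ▸ ht', hy' ▸ hw⟩, hP, hx ▸ ht1, ?_⟩
  rw [hy', ← hu1]
  exact norm_eq_of_sub_lt (by rw [hu1, norm_sub_rev]; exact hwu)

/-- lifting a point of the reduced curve -/
theorem Good.red_lift (Q : Pt (red_E Λ E) (red_k Λ)) {x y : Λ} (hx : x ∈ L) (hy : y ∈ L)
    (hx1 : ‖x‖ ≤ 1) (hy1 : ‖y‖ ≤ 1) (ex : xc Q = red_rs x) (ey : yc Q = red_rs y) :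
    ∃ b ∈ pts E L, hE.red b = Q := by
  by_cases hQ : Q = 0
  · exact ⟨0, zero_mem _, by rw [hQ, map_zero]⟩
  have hΔ : (Affine.baseChange E Λ).Δ ≠ 0 := by
    rw [Affine.baseChange, WeierstrassCurve.baseChange, map_Δ]; simpa using hE.Δ_ne
  have hsq := yc_sq hE.red_data.b₁ hE.red_data.b₃ hQ
  have hc1 := hE.intg.eval_le hx1
  rw [ex, ey, ← red_rs_pow hy1] at hsq
  have hsq' := (red_rs_eq_iff (red_pow_le hy1 2) hc1).1 (hsq.trans (hE.red_cub hx1).1.symm)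
  have key : ∀ x' y' : Λ, x' ∈ L → y' ∈ L → ‖x - x'‖ < 1 → ‖y - y'‖ < 1 →
      y' ^ 2 = (cub (E.baseChange Λ)).eval x' → ∃ b ∈ pts E L, hE.red b = Q := by
    intro x' y' h1 h2 h3 h4 h5
    obtain ⟨P, hP, px, py⟩ := exists_pt (E := Affine.baseChange E Λ) hE.red_data.a₁
      hE.red_data.a₃ hΔ h5
    have h6 := red_le_of_near hx1 h3
    obtain ⟨-, k2, k3, k4⟩ := hE.red_of_le hP (px ▸ h6)
    refine ⟨P, mem_pts_iff.2 ⟨px ▸ h1, py ▸ h2⟩, pt_ext k2 hQ ?_ ?_⟩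
    · rw [k3, px, ex]; exact ((red_rs_eq_iff hx1 h6).2 h3).symm
    · rw [k4, py, ey]; exact ((red_rs_eq_iff hy1 (red_le_of_near hy1 h4)).2 h4).symm
  rcases hy1.lt_or_eq with hlt | heq
  · have hc : ‖(cub (E.baseChange Λ)).eval x‖ < 1 := by
      rw [← red_rs_eq_zero hc1, (hE.red_cub hx1).1]
      refine hsq.symm.trans ?_
      rw [red_rs_pow hy1, (red_rs_eq_zero hy1).2 hlt, zero_pow two_ne_zero]
    obtain ⟨x', h0, hn⟩ := hE.intg.exists_root_near (monic_cub (E := Affine.baseChange E Λ)) hc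
    have hn' : ‖x - x'‖ < 1 := by rwa [norm_sub_rev]
    have h6 := red_le_of_near hx1 hn'
    refine key x' 0 (hensel_mem (over_cub E) hE.intg h6 h0
      (hE.deriv_unit h6 (by rw [h0, norm_zero]; exact one_pos)) hx hn) (zero_mem _) hn'
      (by rwa [sub_zero]) (by rw [h0, zero_pow two_ne_zero])
  · obtain ⟨w, hw, hw2, hwy⟩ := exists_sqrt_mem ((over_cub E).eval hx) hy heq hsq'
    exact key x w hx hw (by rw [sub_self, norm_zero]; exact one_pos) (by rwa [norm_sub_rev]) hw2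

theorem Good.red_div (T : Tower p L) {m : ℕ} (hm : m ≠ 0) {a : Pt E Λ} (ha : a ∈ pts E L) :
    ∃ n, 0 < n ∧ ∃ b ∈ pts E (T.U n), Form (a - m • b) := by
  obtain ⟨Q, hQ⟩ := nsmul_surj (E := red_E Λ E) rfl rfl hE.red_Δ' hm (hE.red a)
  obtain ⟨x, hx1, ex⟩ := red_rs_surj (xc Q)
  obtain ⟨y, hy1, ey⟩ := red_rs_surj (yc Q)
  obtain ⟨n, hn, t, ht, hxt⟩ := T.exists_near hx1
  obtain ⟨n', hn', u, hu, hyu⟩ := T.exists_near hy1
  have hN : 0 < n * n' := Nat.mul_pos hn hn'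
  have t1 := red_le_of_near hx1 hxt
  have u1 := red_le_of_near hy1 hyu
  obtain ⟨b, hb, eb⟩ := hE.red_lift Q (T.mono hn hN (dvd_mul_right _ _) ht)
    (T.mono hn' hN (dvd_mul_left _ _) hu) t1 u1
    (ex.symm.trans ((red_rs_eq_iff hx1 t1).2 hxt)) (ey.symm.trans ((red_rs_eq_iff hy1 u1).2 hyu))
  refine ⟨n * n', hN, b, hb, hE.red_eq_zero.1 ?_⟩
  rw [map_sub, map_nsmul, eb, hQ, sub_self]

omit hE in
theorem red_rs_φ (T : Tower p L) {x : Λ} (hx : ‖x‖ ≤ 1) :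
    red_rs (T.φ x) = red_rs x ^ p ^ T.r := by
  rw [← red_rs_pow hx]
  exact (red_rs_eq_iff (by rwa [Loc.norm_gal]) (red_pow_le hx _)).2 (T.φ_pow x hx)

theorem Good.red_S_pow (T : Tower p L) (s : red_S Λ E) : s ^ p ^ T.r = s := by
  have : Fact p.Prime := ⟨Loc.prime K Λ⟩
  have : CharP (red_k Λ) p := red_charP K
  have h : red_S Λ E ≤ (iterateFrobenius (red_k Λ) p T.r).eqLocusField (RingHom.id _) := by
    have h1 : ∀ c : K, ‖algebraMap K Λ c‖ ≤ 1 → red_rs (algebraMap K Λ c) ∈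
        (iterateFrobenius (red_k Λ) p T.r).eqLocusField (RingHom.id _) := fun c hc => by
      have h2 := red_rs_φ T hc
      rw [AlgEquiv.commutes] at h2
      exact h2.symm
    rw [Subfield.closure_le]
    rintro _ (rfl | rfl | rfl)
    exacts [h1 _ hE.a₂, h1 _ hE.a₄, h1 _ hE.a₆]
  exact Subtype.ext (h s.2)

theorem Good.red_φ (T : Tower p L) (fr : red_k Λ →ₐ[red_S Λ E] red_k Λ)
    (hfr : ∀ x, fr x = x ^ p ^ T.r) (P : Pt E Λ) :
    hE.red (galP E T.φ P) = Affine.Point.map (W' := red_E Λ E) fr (hE.red P) := by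
  by_cases h : hE.red P = 0
  · rw [h, map_zero]
    exact hE.red_eq_zero.2 (hE.form_gal (hE.red_eq_zero.1 h) _)
  obtain ⟨h1, h2, h3, h4⟩ := hE.red_of_ne h
  have hP : P ≠ 0 := fun h0 => h (by rw [h0, map_zero])
  obtain ⟨-, k2, k3, k4⟩ := hE.red_of_le (P := galP E T.φ P) (by rwa [Ne, galP_eq_zero])
    (by rwa [xc_galP, Loc.norm_gal])
  refine pt_ext k2 (by rwa [Ne, map_eq_zero']) ?_ ?_
  · rw [k3, xc_map, h3, hfr, xc_galP, red_rs_φ T h1]
  · rw [k4, yc_map, h4, hfr, yc_galP, red_rs_φ T h2]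

theorem Good.red_φ_pow (T : Tower p L) (fr : red_k Λ →ₐ[red_S Λ E] red_k Λ)
    (hfr : ∀ x, fr x = x ^ p ^ T.r) (i : ℕ) (P : Pt E Λ) :
    hE.red (galP E (T.φ ^ i) P) = (Affine.Point.map (W' := red_E Λ E) fr)^[i] (hE.red P) := by
  induction i with
  | zero => rw [pow_zero, galP_one, Function.iterate_zero_apply]
  | succ i ih => rw [pow_succ', galP_mul, hE.red_φ T fr hfr, ih, Function.iterate_succ_apply']

theorem Good.red_tr (T : Tower p L) {n : ℕ} (hn : 0 < n) {a : Pt E Λ} (ha : a ∈ pts E L) :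
    ∃ b ∈ pts E (T.U n), Form (a - ∑ i : Fin n, galP E (T.φ ^ (i : ℕ)) b) := by
  have : Fact p.Prime := ⟨Loc.prime K Λ⟩
  have : CharP (red_k Λ) p := red_charP K
  let fr : red_k Λ →ₐ[red_S Λ E] red_k Λ :=
    { iterateFrobenius (red_k Λ) p T.r with
      commutes' := fun s => congrArg Subtype.val (hE.red_S_pow T s) }
  have hfr : ∀ x, fr x = x ^ p ^ T.r := fun _ => rfl
  obtain ⟨Q, hQ⟩ := frob_norm_surj (E := red_E Λ E) rfl rfl hE.red_Δ' (Loc.prime K Λ) T.r_pos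
    (hE.red_S_pow T) fr hfr hn (hE.red a)
  set F := Affine.Point.map (W' := red_E Λ E) fr with hF
  have h1 : F (hE.red a) = hE.red a := by rw [hF, ← hE.red_φ T fr hfr, ha _ T.φ_fix]
  have h2 : F^[n] Q = Q := by
    rw [← hQ, map_sum, Fin.sum_univ_eq_sum_range (fun i => F (F^[i] Q)),
      Fin.sum_univ_eq_sum_range (fun i => F^[i] Q)] at h1
    have h3 := Finset.sum_range_succ' (fun i => F^[i] Q) n
    rw [Finset.sum_range_succ] at h3
    simp only [Function.iterate_succ_apply', Function.iterate_zero_apply] at h3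
    rw [h1] at h3
    exact add_left_cancel h3
  have h3 : ∀ i, xc (F^[i] Q) = xc Q ^ p ^ (T.r * i) ∧ yc (F^[i] Q) = yc Q ^ p ^ (T.r * i) := by
    intro i
    induction i with
    | zero => simp
    | succ i ih =>
      rw [Function.iterate_succ_apply', hF, xc_map, yc_map, ← hF, ih.1, ih.2, hfr, hfr, ← pow_mul,
        ← pow_mul, ← pow_add, mul_add, mul_one]
      exact ⟨rfl, rfl⟩
  have h4 : ∀ z : red_k Λ, z = z ^ p ^ (T.r * n) → ∃ t ∈ T.U n, ‖t‖ ≤ 1 ∧ z = red_rs t := by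
    intro z hz
    obtain ⟨x, hx, rfl⟩ := red_rs_surj z
    rw [← red_rs_pow hx] at hz
    obtain ⟨t, ht, hxt⟩ := T.lift n hn x hx ((red_rs_eq_iff (red_pow_le hx _) hx).1 hz.symm)
    have t1 := red_le_of_near hx hxt
    exact ⟨t, ht, t1, (red_rs_eq_iff hx t1).2 hxt⟩
  obtain ⟨t, ht, t1, et⟩ := h4 (xc Q) (by rw [← (h3 n).1, h2])
  obtain ⟨u, hu, u1, eu⟩ := h4 (yc Q) (by rw [← (h3 n).2, h2])
  obtain ⟨b, hb, eb⟩ := hE.red_lift Q ht hu t1 u1 et eu
  refine ⟨b, hb, hE.red_eq_zero.1 ?_⟩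
  rw [map_sub, map_sum, ← hQ, sub_eq_zero]
  exact Finset.sum_congr rfl fun i _ => by rw [hE.red_φ_pow T fr hfr, eb]

theorem Good.red_fin [FiniteDimensional K L] : ∃ s : Finset (Pt E Λ), (∀ t ∈ s, t ∈ pts E L) ∧
    ∀ a ∈ pts E L, ∃ t ∈ s, Form (a - t) := by
  obtain ⟨s, hs1, hs2⟩ := Loc.resfin (K := K) (Λ := Λ) L inferInstance
  have hfin : (hE.red '' (pts E L : Set (Pt E Λ))).Finite := by
    have hf : (hE.red '' (pts E L : Set (Pt E Λ)) \ {0}).Finite := by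
      refine Set.Finite.of_finite_image (f := fun Q => (xc Q, yc Q))
        (((s.finite_toSet.image red_rs).prod (s.finite_toSet.image red_rs)).subset ?_) ?_
      · rintro _ ⟨_, ⟨⟨a, ha, rfl⟩, h0⟩, rfl⟩
        obtain ⟨h1, h2, h3, h4⟩ := hE.red_of_ne h0
        obtain ⟨t, ht, e1⟩ := hs2 _ (mem_pts_iff.1 ha).1 h1
        obtain ⟨u, hu, e2⟩ := hs2 _ (mem_pts_iff.1 ha).2 h2
        exact ⟨⟨t, ht, ((red_rs_eq_iff h1 (hs1 t ht).2).2 e1).symm.trans h3.symm⟩,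
          ⟨u, hu, ((red_rs_eq_iff h2 (hs1 u hu).2).2 e2).symm.trans h4.symm⟩⟩
      · intro P hP Q hQ e
        exact pt_ext hP.2 hQ.2 (congrArg Prod.fst e) (congrArg Prod.snd e)
    exact Set.Finite.of_sdiff hf (Set.finite_singleton _)
  obtain ⟨s', h1, h2⟩ := Finset.subset_set_image_iff.1 hfin.coe_toFinset.subset
  refine ⟨s', fun t ht => h1 ht, fun a ha => ?_⟩
  have h3 : hE.red a ∈ s'.image hE.red := by
    rw [h2, Set.Finite.mem_toFinset]; exact ⟨a, ha, rfl⟩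
  obtain ⟨t, ht, e⟩ := Finset.mem_image.1 h3
  exact ⟨t, ht, hE.red_eq_zero.1 (by rw [map_sub, e, sub_self])⟩

end Pool.Agent.Lib.MP_796ce4_ag
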