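import Pool.Agent.Lib.MP_796ce4_ag.ZQ.QMain

/-!
Colliot-Thelene's question for all varieties with a regular projective model.
-/

namespace Pool.Agent.ZeroCyc.RegularModelOld

open Pool.Agent.ZeroCyc

/-- The quotient of `A` by its maximal divisible subgroup is isomorphic to `ℤ_p ^ n × F` with `F`
finite. -/
def ZpFin (p : ℕ) [Fact p.Prime] (A : Type) [AddCommGroup A] : Prop :=
  ∃ (n : ℕ) (F : Type) (_ : AddCommGroup F) (_ : Finite F),
    Nonempty ((A ⧸ maxDiv A) ≃+ (Fin n → ℤ_[p]) × F)

/-- The question has a positive answer for the subvariety of projective space cut out by `J`. -/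
def Holds (p : ℕ) [Fact p.Prime] {K : Type} [Field K] {N : ℕ}
    (J : Ideal (MvPolynomial (Fin (N + 1)) K)) : Prop :=
  ZpFin p (A0 J (AlgebraicClosure K))

theorem result (p : ℕ) [Fact p.Prime] (K : Type) [Field K] [Algebra ℚ_[p] K]
    [FiniteDimensional ℚ_[p] K] [Algebra ℤ_[p] K] [IsScalarTower ℤ_[p] ℚ_[p] K] (N : ℕ)
    (I : Ideal (MvPolynomial (Fin (N + 1)) (integralClosure ℤ_[p] K)))
    (hI : RegModel (integralClosure ℤ_[p] K) I) :
    Holds p (I.map (MvPolynomial.map (algebraMap (integralClosure ℤ_[p] K) K))) :=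
  final_reg p K I hI

end Pool.Agent.ZeroCyc.RegularModelOld
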