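import Pool.Agent.Lib.MP_796ce4_ag.R1

/-! Symbol calculus. -/

namespace Pool.Agent.Lib.MP_796ce4_ag

open WeierstrassCurve Polynomial Module
open scoped Classical IntermediateField

set_option linter.unusedSectionVars false

variable {K Λ ι : Type} [Field K] [CharZero K] [Field Λ] [IsAlgClosed Λ] [Algebra K Λ]
  [IsGalois K Λ] [Fintype ι] {W : ι → WeierstrassCurve K} {L L' : IntermediateField K Λ}

/-- all factors are elliptic curves `y ^ 2 = cubic` -/
structure Short (W : ι → WeierstrassCurve K) : Prop where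
  a₁ : ∀ i, (W i).a₁ = 0
  a₃ : ∀ i, (W i).a₃ = 0
  Δ : ∀ i, (W i).Δ ≠ 0

theorem Sy_congr {I : Finset ι} {a b : Pts W Λ} (h : ∀ i ∈ I, a i = b i) :
    Sy W L I a = Sy W L I b := by
  unfold Sy
  rw [Finset.prod_congr rfl fun i hi => by rw [h i hi]]
theorem Sy_gal (σ : Λ ≃ₐ[K] Λ) (I : Finset ι) (a : Pts W Λ) :
    Sy W L I (gal W σ a) = Sy W L I a := by
  rw [Sy, Sy, ← clL_gal σ (∏ i ∈ I, dl W i (a i)), map_prod (galR W σ)]
  simp only [galR_dl, gal_apply]
theorem Sy_eq_nsmul {n : ℕ} (h : n * finrank K L = finrank K L') (I : Finset ι) (a : Pts W Λ) :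
    Sy W L' I a = n • Sy W L I a := clL_eq_nsmul h _
theorem Sy_eq_zero {I : Finset ι} {a : Pts W Λ} {i : ι} (hi : i ∈ I) (h : a i = 0) :
    Sy W L I a = 0 := by
  rw [Sy, Finset.prod_eq_zero hi (by rw [h, dl_zero]), map_zero]
theorem Sy_update {I : Finset ι} {i : ι} (hi : i ∈ I) (a : Pts W Λ) (u : Pt (W i) Λ) :
    Sy W L I (Function.update a i u) = clL W L ((∏ k ∈ I.erase i, dl W k (a k)) * dl W i u) := by
  rw [Sy, ← Finset.prod_erase_mul _ _ hi, Function.update_self,
    Finset.prod_congr rfl fun k hk => by rw [Function.update_of_ne (Finset.ne_of_mem_erase hk)]]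
theorem update_mem {a : Pts W Λ} (ha : ∀ k, a k ∈ pts (W k) L) {i : ι} {u : Pt (W i) Λ}
    (hu : u ∈ pts (W i) L) : ∀ k, Function.update a i u k ∈ pts (W k) L := by
  intro k
  by_cases hk : k = i
  · subst hk
    rwa [Function.update_self]
  · rw [Function.update_of_ne hk]
    exact ha k
theorem TT_mono {I : Finset ι} {Pr Pr' : IntermediateField K Λ → Prop}
    {Q Q' : ∀ i, Pt (W i) Λ → Prop} (h : ∀ L, Pr L → Pr' L) (h' : ∀ i ∈ I, ∀ a, Q i a → Q' i a) :
    TT W I Pr Q ≤ TT W I Pr' Q' := by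
  refine AddSubgroup.closure_mono ?_
  rintro _ ⟨L, a, h1, h2, h3, h4, rfl⟩
  exact ⟨L, a, h1, h L h2, h3, fun i hi => h' i hi _ (h4 i hi), rfl⟩
theorem Sy_mem_TT [FiniteDimensional K L] {I : Finset ι} {Pr : IntermediateField K Λ → Prop}
    {Q : ∀ i, Pt (W i) Λ → Prop} (h : Pr L) {a : Pts W Λ} (ha : ∀ k, a k ∈ pts (W k) L)
    (hQ : ∀ i ∈ I, Q i (a i)) : Sy W L I a ∈ TT W I Pr Q :=
  AddSubgroup.subset_closure ⟨L, a, inferInstance, h, ha, hQ, rfl⟩
theorem TT_le {I : Finset ι} {Pr : IntermediateField K Λ → Prop}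
    {Q : ∀ i, Pt (W i) Λ → Prop} {H : AddSubgroup (VV Λ W)}
    (h : ∀ (L : IntermediateField K Λ) (a : Pts W Λ), FiniteDimensional K L → Pr L →
      (∀ k, a k ∈ pts (W k) L) → (∀ i ∈ I, Q i (a i)) → Sy W L I a ∈ H) : TT W I Pr Q ≤ H := by
  refine (AddSubgroup.closure_le _).2 ?_
  rintro _ ⟨L, a, h1, h2, h3, h4, rfl⟩
  exact h L a h1 h2 h3 h4
theorem mem_mulS {A : Type} [AddCommGroup A] {m : ℕ} {H : AddSubgroup A} {x : A} :
    x ∈ mulS m H ↔ ∃ y ∈ H, m • y = x := AddSubgroup.mem_map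

theorem sym_prod_mem {a : Pts W Λ} (ha : ∀ k, a k ∈ pts (W k) L) (J : Finset ι) :
    ∏ k ∈ J, dl W k (a k) ∈ ZL W L :=
  Subring.prod_mem _ fun k _ => dl_mem_ZL (ha k)

variable (hW : Short W) [FiniteDimensional K L]
include hW

theorem sym_rel {z : GR Λ W} (hz : z ∈ ZL W L) {i : ι} (m : Multiset (Pt (W i) Λ))
    (hm : ∀ x ∈ m, x ∈ pts (W i) L) (hsum : m.sum = 0) :
    clL W L (z * (m.map (dl W i)).sum) = 0 :=
  R1 hW.a₁ hW.a₃ hW.Δ i hz m
    (fun σ hσ => (Multiset.map_congr rfl fun x hx => hm x hx σ hσ).trans (Multiset.map_id' m)) hsum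

theorem sym_neg {z : GR Λ W} (hz : z ∈ ZL W L) {i : ι} {a : Pt (W i) Λ} (ha : a ∈ pts (W i) L) :
    clL W L (z * dl W i (-a)) = -clL W L (z * dl W i a) := by
  have h := sym_rel hW hz (a ::ₘ {-a}) (by
    intro x hx
    rcases Multiset.mem_cons.1 hx with rfl | hx
    · exact ha
    · rw [Multiset.mem_singleton.1 hx]
      exact neg_mem ha) (by rw [Multiset.sum_cons, Multiset.sum_singleton, add_neg_cancel])
  rw [Multiset.map_cons, Multiset.map_singleton, Multiset.sum_cons, Multiset.sum_singleton, mul_add,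
    map_add] at h
  exact eq_neg_of_add_eq_zero_right h

theorem clL_dl_add {z : GR Λ W} (hz : z ∈ ZL W L) {i : ι} {a b : Pt (W i) Λ}
    (ha : a ∈ pts (W i) L) (hb : b ∈ pts (W i) L) :
    clL W L (z * dl W i (a + b)) = clL W L (z * dl W i a) + clL W L (z * dl W i b) := by
  have h := sym_rel hW hz ((-(a + b)) ::ₘ a ::ₘ {b}) (by
    intro x hx
    rcases Multiset.mem_cons.1 hx with rfl | hx
    · exact neg_mem (add_mem ha hb)
    rcases Multiset.mem_cons.1 hx with rfl | hx
    · exact ha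
    · rw [Multiset.mem_singleton.1 hx]
      exact hb)
    (by rw [Multiset.sum_cons, Multiset.sum_cons, Multiset.sum_singleton, neg_add_cancel])
  rw [Multiset.map_cons, Multiset.map_cons, Multiset.map_singleton, Multiset.sum_cons,
    Multiset.sum_cons, Multiset.sum_singleton, mul_add, mul_add, map_add, map_add,
    sym_neg hW hz (add_mem ha hb)] at h
  exact neg_add_eq_zero.1 h

/-- projection formula -/
theorem clL_dl_tr {T : Type} [Fintype T] {s : T → Λ ≃ₐ[K] Λ} (hs : Fam L L' s) {z : GR Λ W}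
    (hz : z ∈ ZL W L) {i : ι} {a : Pt (W i) Λ} (ha : a ∈ pts (W i) L') :
    clL W L' (z * dl W i a) = clL W L (z * dl W i (∑ t, galP (W i) (s t) a)) := by
  have hτ := hs.tr_mem ha
  have h := R1 hW.a₁ hW.a₃ hW.Δ i hz
    ((-∑ t, galP (W i) (s t) a) ::ₘ Finset.univ.val.map fun t => galP (W i) (s t) a) (by
      intro σ hσ
      obtain ⟨ρ, hρ⟩ := hs.perm σ hσ
      rw [Multiset.map_cons, neg_mem hτ σ hσ, Multiset.map_map]
      congr 1
      conv_rhs => rw [← Multiset.map_univ_val_equiv ρ, Multiset.map_map]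
      refine Multiset.map_congr rfl fun t _ => ?_
      simp only [Function.comp]
      rw [← galP_mul]
      exact galP_congr (hρ t _ (mem_pts_iff.1 ha).1) (hρ t _ (mem_pts_iff.1 ha).2))
    (by rw [Multiset.sum_cons]; exact neg_add_cancel _)
  rw [Multiset.map_cons, Multiset.sum_cons, Multiset.map_map, mul_add, map_add,
    sym_neg hW hz hτ] at h
  rw [neg_add_eq_zero.1 h, clL_eq_nsmul hs.card]
  change _ = clL W L (z * ∑ t, dl W i (galP (W i) (s t) a))
  rw [Finset.mul_sum, map_sum, Finset.sum_congr rfl (g := fun _ => clL W L (z * dl W i a)),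
    Finset.sum_const, Finset.card_univ]
  intro t _
  rw [← clL_gal (s t) (z * dl W i a), map_mul (galR W (s t)), galR_ZL hz (hs.fix t), galR_dl]

/-- the symbol as an additive function of one entry -/
theorem exists_SyHom {I : Finset ι} {i : ι} (hi : i ∈ I) {a : Pts W Λ}
    (ha : ∀ k, a k ∈ pts (W k) L) : ∃ h : pts (W i) L →+ VV Λ W,
      ∀ u : pts (W i) L, h u = Sy W L I (Function.update a i u) :=
  ⟨AddMonoidHom.mk' (fun u => Sy W L I (Function.update a i u)) fun u v => by
    simp only [Sy_update hi]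
    exact clL_dl_add hW (sym_prod_mem ha _) u.2 v.2, fun _ => rfl⟩

theorem Sy_add {I : Finset ι} {i : ι} (hi : i ∈ I) {a : Pts W Λ} (ha : ∀ k, a k ∈ pts (W k) L)
    {u v : Pt (W i) Λ} (hu : u ∈ pts (W i) L) (hv : v ∈ pts (W i) L) :
    Sy W L I (Function.update a i (u + v)) =
      Sy W L I (Function.update a i u) + Sy W L I (Function.update a i v) := by
  simp only [Sy_update hi]
  exact clL_dl_add hW (sym_prod_mem ha _) hu hv
theorem Sy_neg {I : Finset ι} {i : ι} (hi : i ∈ I) {a : Pts W Λ} (ha : ∀ k, a k ∈ pts (W k) L)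
    {u : Pt (W i) Λ} (hu : u ∈ pts (W i) L) :
    Sy W L I (Function.update a i (-u)) = -Sy W L I (Function.update a i u) := by
  simp only [Sy_update hi]
  exact sym_neg hW (sym_prod_mem ha _) hu
theorem Sy_nsmul {I : Finset ι} {i : ι} (hi : i ∈ I) {a : Pts W Λ} (ha : ∀ k, a k ∈ pts (W k) L)
    {u : Pt (W i) Λ} (hu : u ∈ pts (W i) L) (m : ℕ) :
    Sy W L I (Function.update a i (m • u)) = m • Sy W L I (Function.update a i u) := by
  obtain ⟨h, hh⟩ := exists_SyHom hW hi ha
  have := map_nsmul h m ⟨u, hu⟩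
  rwa [hh, hh] at this
theorem Sy_tr {T : Type} [Fintype T] {s : T → Λ ≃ₐ[K] Λ} (hs : Fam L L' s) {I : Finset ι} {i : ι}
    (hi : i ∈ I) {a : Pts W Λ} (ha : ∀ k, a k ∈ pts (W k) L) {u : Pt (W i) Λ}
    (hu : u ∈ pts (W i) L') : Sy W L' I (Function.update a i u) =
      Sy W L I (Function.update a i (∑ t, galP (W i) (s t) u)) := by
  simp only [Sy_update hi]
  exact clL_dl_tr hW hs (sym_prod_mem ha _) hu
/-- sign changes -/
theorem Sy_sign {I J : Finset ι} (hJ : J ⊆ I) {a : Pts W Λ} (ha : ∀ k, a k ∈ pts (W k) L) :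
    Sy W L I (fun i => if i ∈ J then -a i else a i) = (-1 : ℤ) ^ J.card • Sy W L I a := by
  induction J using Finset.induction_on with
  | empty => simp
  | insert j J hj ih =>
    have hb : ∀ k, (if k ∈ J then -a k else a k) ∈ pts (W k) L := fun k => by
      split_ifs
      · exact neg_mem (ha k)
      · exact ha k
    have e1 : (fun i => if i ∈ insert j J then -a i else a i) =
        Function.update (fun i => if i ∈ J then -a i else a i) j (-a j) := by
      funext k
      by_cases hk : k = j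
      · subst hk
        rw [Function.update_self, if_pos (Finset.mem_insert_self _ _)]
      · rw [Function.update_of_ne hk]
        simp only [Finset.mem_insert, hk, false_or]
    have e2 : Function.update (fun i => if i ∈ J then -a i else a i) j (a j) =
        fun i => if i ∈ J then -a i else a i := by
      rw [Function.update_eq_self_iff, if_neg hj]
    rw [e1, Sy_neg hW (hJ (Finset.mem_insert_self _ _)) hb (ha j), e2,
      ih ((Finset.subset_insert _ _).trans hJ), Finset.card_insert_of_notMem hj, pow_succ,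
      mul_neg_one, neg_smul]

end Pool.Agent.Lib.MP_796ce4_ag
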