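import Pool.Agent.Lib.MP_796ce4_ag.Gal

/-! Roots of unity and the fields they generate. -/

namespace Pool.Agent.Lib.MP_796ce4_ag

open WeierstrassCurve Polynomial Module
open scoped Classical IntermediateField

set_option linter.unusedSectionVars false

section aux

variable {Λ : Type} [NormedField Λ] [IsUltrametricDist Λ]

theorem tow_tri {x y z : Λ} (h1 : ‖x - y‖ < 1) (h2 : ‖y - z‖ < 1) : ‖x - z‖ < 1 := by
  rw [← sub_add_sub_cancel x y z]
  exact (IsUltrametricDist.norm_add_le_max _ _).trans_lt (max_lt h1 h2)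

theorem tow_symm {x y : Λ} (h : ‖x - y‖ < 1) : ‖y - x‖ < 1 := by rwa [norm_sub_rev]

theorem tow_iter {x : Λ} {a : ℕ} (hx : ‖x‖ ≤ 1) (h : ‖x ^ a - x‖ < 1) (k : ℕ) :
    ‖x ^ a ^ k - x‖ < 1 := by
  induction k with
  | zero => simp
  | succ k ih =>
    rw [pow_succ, pow_mul]
    exact tow_tri (tow_symm (norm_pow_sub_pow_lt hx (tow_symm ih) a)) h

theorem tow_sum_lt {T : Type} (s : Finset T) (f : T → Λ) (h : ∀ i ∈ s, ‖f i‖ < 1) :
    ‖∑ i ∈ s, f i‖ < 1 := by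
  rcases s.eq_empty_or_nonempty with rfl | hs
  · simp
  · obtain ⟨i, hi, h1⟩ := IsUltrametricDist.exists_norm_finsetSum_le_of_nonempty hs f
    exact h1.trans_lt (h i hi)

theorem tow_mul_lt {x y : Λ} (hx : ‖x‖ < 1) (hy : ‖y‖ ≤ 1) : ‖x * y‖ < 1 := by
  rw [norm_mul]
  exact (mul_le_of_le_one_right (norm_nonneg _) hy).trans_lt hx

theorem tow_pow_le {x : Λ} (hx : ‖x‖ ≤ 1) (k : ℕ) : ‖x ^ k‖ ≤ 1 := by
  rw [norm_pow]
  exact pow_le_one₀ (norm_nonneg _) hx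

theorem tow_eval_lt {g : Λ[X]} (hg : ∀ k, ‖g.coeff k‖ < 1) {x : Λ} (hx : ‖x‖ ≤ 1) :
    ‖g.eval x‖ < 1 := by
  rw [eval_eq_sum_range]
  exact tow_sum_lt _ _ fun k _ => tow_mul_lt (hg k) (tow_pow_le hx k)

variable (Λ) in
/-- the ring of integers -/
noncomputable abbrev towO : ValuationSubring Λ := (NormedField.valuation (K := Λ)).valuationSubring

theorem tow_memO {x : Λ} : x ∈ towO Λ ↔ ‖x‖ ≤ 1 := by
  rw [Valuation.mem_valuationSubring_iff, NormedField.valuation_apply, ← NNReal.coe_le_coe]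
  rfl

theorem tow_res_eq {x y : towO Λ} :
    IsLocalRing.residue _ x = IsLocalRing.residue _ y ↔ ‖(x : Λ) - y‖ < 1 := by
  rw [← sub_eq_zero, ← map_sub, IsLocalRing.residue_eq_zero_iff, Valuation.mem_maximalIdeal_iff,
    NormedField.valuation_apply, ← NNReal.coe_lt_coe]
  rfl

theorem tow_intg_mu (a : ℕ) : Intg (X ^ a - X : Λ[X]) := (intg_X.pow a).sub intg_X

theorem tow_monic_mu {a : ℕ} (ha : 1 < a) : (X ^ a - X : Λ[X]).Monic :=
  monic_X_pow_sub (by rw [degree_X]; exact_mod_cast ha)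

theorem tow_mu_le {a : ℕ} (ha : 1 < a) {ζ : Λ} (h : ζ ^ a = ζ) : ‖ζ‖ ≤ 1 :=
  (tow_intg_mu a).root_le (tow_monic_mu ha) (by simp [h])

theorem tow_mu_near [IsAlgClosed Λ] {a : ℕ} (ha : 1 < a) {x : Λ} (h : ‖x ^ a - x‖ < 1) :
    ∃ ζ, ζ ^ a = ζ ∧ ‖ζ - x‖ < 1 := by
  obtain ⟨ζ, h1, h2⟩ := (tow_intg_mu a).exists_root_near (tow_monic_mu ha) (t := x) (by simpa)
  exact ⟨ζ, by simpa [sub_eq_zero] using h1, h2⟩

theorem tow_mu_uniq {a : ℕ} (ha : 1 < a) (hn : ‖(a : Λ)‖ < 1) {ζ ζ' : Λ} (h : ζ ^ a = ζ)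
    (h' : ζ' ^ a = ζ') (hd : ‖ζ - ζ'‖ < 1) : ζ = ζ' := by
  have hz := tow_mu_le ha h
  refine (tow_intg_mu a).root_unique hz (by simp [h]) (by simp [h']) ?_ hd
  have h1 : ‖(-1 : Λ) - (derivative (X ^ a - X : Λ[X])).eval ζ‖ < ‖(-1 : Λ)‖ := by
    have : (-1 : Λ) - (derivative (X ^ a - X : Λ[X])).eval ζ = -(a * ζ ^ (a - 1)) := by
      simp [derivative_X_pow]
      ring
    rw [this, norm_neg, norm_neg, norm_one]
    exact tow_mul_lt hn (tow_pow_le hz _)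
  rw [norm_eq_of_sub_lt h1, norm_neg, norm_one]

theorem tow_mu_pow {F : Type} [Field F] {a : ℕ} {ζ : F} (h : ζ ^ a = ζ) (k : ℕ) :
    ζ ^ a ^ k = ζ := by
  induction k with
  | zero => simp
  | succ k ih => rw [pow_succ, pow_mul, ih, h]

theorem tow_mu_pow' {F : Type} [Field F] {a : ℕ} {ζ : F} (h : ζ ^ a = ζ) (k : ℕ) :
    (ζ ^ k) ^ a = ζ ^ k := by rw [← pow_mul, mul_comm, pow_mul, h]

theorem tow_gen {F : Type} [Field F] {a : ℕ} (ha : 1 < a) {ζ ξ : F}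
    (hζ : IsPrimitiveRoot ζ (a - 1)) (h : ξ ^ a = ξ) : ξ = 0 ∨ ∃ i, ζ ^ i = ξ := by
  refine or_iff_not_imp_left.2 fun h0 => ?_
  have : NeZero (a - 1) := ⟨by omega⟩
  have h1 : ξ ^ (a - 1) = 1 := by
    refine mul_right_cancel₀ h0 ?_
    rw [← pow_succ, Nat.sub_add_cancel ha.le, h, one_mul]
  obtain ⟨i, -, hi⟩ := hζ.eq_pow_of_pow_eq_one h1
  exact ⟨i, hi⟩

theorem tow_prim {F : Type} [Field F] {a : ℕ} (ha : 1 < a) {ζ : F}
    (hζ : IsPrimitiveRoot ζ (a - 1)) : ζ ^ a = ζ := by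
  conv_lhs => rw [← Nat.sub_add_cancel ha.le, pow_succ, hζ.pow_eq_one, one_mul]

theorem tow_dvd {F : Type} [Field F] {q n j : ℕ} (hq : 1 < q) (hn : 0 < n) {ζ : F}
    (hζ : IsPrimitiveRoot ζ (q ^ n - 1)) (h : ζ ^ q ^ j = ζ) : n ∣ j := by
  have ha : 1 < q ^ n := Nat.one_lt_pow hn.ne' hq
  have h0 : ζ ≠ 0 := hζ.ne_zero (by omega)
  have h1 : ζ ^ (q ^ j - 1) = 1 := by
    refine mul_right_cancel₀ h0 ?_
    rw [← pow_succ, Nat.sub_add_cancel (Nat.one_le_pow _ _ (by omega)), h, one_mul]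
  have h2 := Nat.mod_eq_zero_of_dvd (hζ.dvd_of_pow_eq_one _ h1)
  rw [Nat.pow_sub_one_mod_pow_sub_one] at h2
  refine Nat.dvd_of_mod_eq_zero ?_
  by_contra h3
  have := Nat.one_lt_pow h3 hq
  omega

/-- coefficients are bounded by the values at pairwise incongruent points -/
theorem tow_lagrange {n : ℕ} {z : ℕ → Λ} (hz : ∀ i < n, ‖z i‖ ≤ 1)
    (hd : ∀ i < n, ∀ j < n, ‖z i - z j‖ < 1 → i = j) {g : Λ[X]} (hg : g.degree < n) {c : ℝ}
    (hc0 : 0 ≤ c) (hc : ∀ i < n, ‖g.eval (z i)‖ ≤ c) (k : ℕ) : ‖g.coeff k‖ ≤ c := by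
  have hi : Set.InjOn z (Finset.range n) := fun i hi j hj e =>
    hd i (by simpa using hi) j (by simpa using hj) (by simp [e])
  rw [Lagrange.eq_interpolate (f := g) hi (by rwa [Finset.card_range]), Lagrange.interpolate_apply,
    finsetSum_coeff]
  refine IsUltrametricDist.norm_sum_le_of_forall_le_of_nonneg hc0 fun i hi => ?_
  rw [Finset.mem_range] at hi
  have : Intg (Lagrange.basis (Finset.range n) z i) := by
    refine Intg.prod fun j hj => ?_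
    obtain ⟨h1, h2⟩ := Finset.mem_erase.1 hj
    rw [Finset.mem_range] at h2
    refine (intg_C ?_).mul (intg_X.sub (intg_C (hz j h2)))
    rw [norm_inv]
    exact inv_le_one_of_one_le₀ (not_lt.1 fun h => h1 (hd i hi j h2 h).symm)
  rw [coeff_C_mul, norm_mul]
  exact (mul_le_of_le_one_right (norm_nonneg _) (this k)).trans (hc i hi)

end aux

section fld

variable {K Λ : Type} [Field K] [Field Λ] [Algebra K Λ] {L : IntermediateField K Λ}

theorem tow_closed [IsGalois K Λ] (x y : Λ) : IsClosed {σ : Λ ≃ₐ[K] Λ | σ x = y} := by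
  rcases Set.eq_empty_or_nonempty {σ : Λ ≃ₐ[K] Λ | σ x = y} with h | ⟨τ, rfl⟩
  · rw [h]; exact isClosed_empty
  · have h1 := (Subgroup.isClosed_of_isOpen _ (stabilizer_isOpen_of_isIntegral (K := K) x)).preimage
      (continuous_const_mul τ⁻¹)
    convert h1 using 1
    ext σ
    simp only [Set.mem_ofPred_eq, Set.mem_preimage, SetLike.mem_coe, MulAction.mem_stabilizer_iff,
      mul_smul, inv_smul_eq_iff]
    rfl

/-- the field generated over `L` by the solutions of `ζ ^ a = ζ` -/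
noncomputable def towU (L : IntermediateField K Λ) (a : ℕ) : IntermediateField K Λ :=
  (IntermediateField.adjoin L {ζ : Λ | ζ ^ a = ζ}).restrictScalars K

theorem tow_le (a : ℕ) : L ≤ towU L a := fun x hx =>
  (IntermediateField.adjoin L {ζ : Λ | ζ ^ a = ζ}).algebraMap_mem ⟨x, hx⟩

theorem tow_mem {a : ℕ} {ζ : Λ} (h : ζ ^ a = ζ) : ζ ∈ towU L a :=
  IntermediateField.subset_adjoin L {ζ : Λ | ζ ^ a = ζ} h

theorem tow_agree {a : ℕ} {σ τ : Λ ≃ₐ[K] Λ} (hσ : Fix L σ) (hτ : Fix L τ)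
    (h : ∀ ζ : Λ, ζ ^ a = ζ → σ ζ = τ ζ) {x : Λ} (hx : x ∈ towU L a) : σ x = τ x := by
  refine IntermediateField.adjoin_induction L (p := fun x _ => σ x = τ x) h
    (fun c => (hσ c c.2).trans (hτ c c.2).symm) ?_ ?_ ?_ hx
  · intro x y _ _ h1 h2; rw [map_add, map_add, h1, h2]
  · intro x _ h1; rw [map_inv₀, map_inv₀, h1]
  · intro x y _ _ h1 h2; rw [map_mul, map_mul, h1, h2]

theorem tow_stab {a : ℕ} {σ : Λ ≃ₐ[K] Λ} (hσ : Fix L σ) {x : Λ} (hx : x ∈ towU L a) :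
    σ x ∈ towU L a := by
  refine IntermediateField.adjoin_induction L (p := fun x _ => σ x ∈ towU L a)
    (fun ζ h => tow_mem ?_) (fun c => ?_) ?_ ?_ ?_ hx
  · rw [← map_pow, show ζ ^ a = ζ from h]
  · rw [show σ (algebraMap L Λ c) = c from hσ c c.2]; exact tow_le a c.2
  · intro x y _ _ h1 h2; rw [map_add]; exact add_mem h1 h2
  · intro x _ h1; rw [map_inv₀]; exact inv_mem h1
  · intro x y _ _ h1 h2; rw [map_mul]; exact mul_mem h1 h2

theorem tow_mono {a : ℕ} (k : ℕ) : towU L a ≤ towU L (a ^ k) := fun _ hx =>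
  IntermediateField.adjoin.mono L _ _ (fun _ h => tow_mu_pow h k) hx

theorem tow_simple {a : ℕ} (ha : 1 < a) {ζ : Λ} (hζ : IsPrimitiveRoot ζ (a - 1)) :
    towU L a = L⟮ζ⟯.restrictScalars K := by
  unfold towU
  congr 1
  refine le_antisymm (IntermediateField.adjoin_le_iff.2 fun ξ h => ?_)
    (IntermediateField.adjoin.mono _ _ _ (Set.singleton_subset_iff.2 (tow_prim ha hζ)))
  rcases tow_gen ha hζ h with rfl | ⟨i, rfl⟩
  · exact zero_mem _
  · exact pow_mem (IntermediateField.mem_adjoin_simple_self L ζ) i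

theorem tow_φ_pow {φ : Λ ≃ₐ[K] Λ} {q : ℕ} {ζ : Λ} (h : φ ζ = ζ ^ q) (j : ℕ) :
    (φ ^ j) ζ = ζ ^ q ^ j := by
  induction j with
  | zero => simp
  | succ j ih => rw [pow_succ', AlgEquiv.mul_apply, ih, map_pow, h, ← pow_mul, ← pow_succ']

theorem tow_fixed_pow {φ : Λ ≃ₐ[K] Λ} {c : Λ} (h : φ c = c) (j : ℕ) : (φ ^ j) c = c := by
  induction j with
  | zero => simp
  | succ j ih => rw [pow_succ', AlgEquiv.mul_apply, ih, h]

theorem tow_orbit_coeff {φ : Λ ≃ₐ[K] Λ} {n : ℕ} {ζ : Λ} (h : (φ ^ n) ζ = ζ) (k : ℕ) :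
    φ ((∏ i ∈ Finset.range n, (X - C ((φ ^ i) ζ))).coeff k) =
      (∏ i ∈ Finset.range n, (X - C ((φ ^ i) ζ))).coeff k := by
  have h1 : (∏ i ∈ Finset.range n, (X - C ((φ ^ i) ζ))).map (φ : Λ →+* Λ) =
      ∏ i ∈ Finset.range n, (X - C ((φ ^ (i + 1)) ζ)) := by
    rw [Polynomial.map_prod]
    refine Finset.prod_congr rfl fun i _ => ?_
    rw [Polynomial.map_sub, map_X, map_C, pow_succ', AlgEquiv.mul_apply]
    rfl
  have h2 := (Finset.prod_range_succ' (fun i => (X - C ((φ ^ i) ζ) : Λ[X])) n).symm.trans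
    (Finset.prod_range_succ _ n)
  rw [h, pow_zero, AlgEquiv.one_apply] at h2
  have h3 := congrArg (fun f => coeff f k) (h1.trans (mul_right_cancel₀ (X_sub_C_ne_zero ζ) h2))
  simp only [coeff_map] at h3
  exact h3

end fld

end Pool.Agent.Lib.MP_796ce4_ag
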